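import Pool.Agent.Work.MP_701abf_gt.F5.Stmts
import Pool.Agent.Work.MP_701abf_gt.TwT.Glue
import Pool.Agent.Work.MP_701abf_gt.FL.Four
import Pool.Agent.Work.MP_701abf_gt.FL.HDefs

/-!
# The five-line theorem: assembly in the cobar complex
-/

open MvPolynomial
open Pool.Agent.Work.MP_701abf_gt.Stab Pool.Agent.Work.MP_701abf_gt.Cob
open Pool.Agent.Work.MP_701abf_gt.Sq2 Pool.Agent.Work.MP_701abf_gt.TwT

namespace Pool.Agent.Work.MP_701abf_gt.F5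

open Pool.Agent.Work.MP_701abf_gt.Sq2.FL.XFour (hx th_hx hx_pow th_pair pair_pow pair_Zc quad_pow th_quad)
open Pool.Agent.Work.MP_701abf_gt.SN (sqN qn)

namespace XFin

lemma sqN_Zc {n s t : ℕ} {p : Cobar s} (hp : p ∈ Zc s t) : sqN n s p ∈ Zc (s + n) (2 * t) :=
  (SN.tSqN n s t p hp).1

/-- comparison of a sum with an operation -/
lemma add_sqN {n s t : ℕ} {p : Cobar s} (hp : p ∈ Zc s t) (r : Cobar (s + n)) :
    r + sqN n s p ∈ Bc (s + n) (2 * t) ↔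
      qn n s (th s p) + th (s + n) r ∈ BR (s + n) (2 * (t : ℤ)) := by
  have h := (SN.tSqN n s t p hp).2
  rw [← th_mem_BR, map_add]
  push_cast
  constructor
  · intro h1
    refine mem_of_eq (Submodule.add_mem _ h1 h) ?_
    have b := add_self2 (th (s + n) (sqN n s p))
    calc _ = qn n s (th s p) + th (s + n) r +
          (th (s + n) (sqN n s p) + th (s + n) (sqN n s p)) := by abel
      _ = _ := by rw [b, add_zero]
  · intro h1
    refine mem_of_eq (Submodule.add_mem _ h1 h) ?_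
    have b := add_self2 (qn n s (th s p))
    calc _ = th (s + n) r + th (s + n) (sqN n s p) +
          (qn n s (th s p) + qn n s (th s p)) := by abel
      _ = _ := by rw [b, add_zero]

lemma sqN_pow (n s j : ℕ) (p : Cobar s) : sqN n s (p ^ 2 ^ j) = (sqN n s p) ^ 2 ^ j :=
  SN.tSqF.1 n s j p

/-- the operations on classes -/
lemma sqN_congr {n s t : ℕ} {x y : Cobar s} (hx : x ∈ Zc s t) (hy : y ∈ Zc s t)
    (h : x + y ∈ Bc s t) (hs : sqN n s y ∈ Bc (s + n) (2 * t)) :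
    sqN n s x ∈ Bc (s + n) (2 * t) := by
  rw [SN.sqN_BR SN.tSqN hx]
  rw [SN.sqN_BR SN.tSqN hy] at hs
  have h1 : th s x + th s y ∈ BR s (t : ℤ) := by
    rw [← map_add]
    exact th_mem_BR.2 h
  have h2 := SN.tQS.1 n s (t : ℤ) _ (th_mem_ZR hx) _ (th_mem_ZR hy) h1
  exact BR_cancel h2 hs

lemma th_hCls (a : ℕ) : th 1 (FL.hCls a) = ha a := th_hx a

end XFin

open XFin
open Pool.Agent.Work.MP_701abf_gt.FL (hCls)

/-- The final statement. -/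
def StFin : Prop := ∃ U J : ℕ, ∀ t : ℕ, (∀ a u : ℕ, u ≤ U → t ≠ 2 ^ a * u) → ∀ p ∈ Zc 5 t,
    (∀ j, J ≤ j → p ^ 2 ^ j ∈ Bc 5 (2 ^ j * t)) ∨
    (∀ j, J ≤ j → jux 6 1 (sqN 1 5 (p ^ 2 ^ j)) (hCls 0) ∉ Bc 7 (2 ^ (j + 1) * t + 1)) ∨
    (∃ q ∈ Zc 4 (2 ^ J * t), ∀ j,
      p ^ 2 ^ (J + j + 1) + sqN 1 4 (q ^ 2 ^ j) ∈ Bc 5 (2 ^ (J + j + 1) * t) ∧
      (∀ w ∈ Zc 7 (2 ^ (J + j + 1) * t + 1),
        jux 7 1 (sqN 2 5 (p ^ 2 ^ (J + j))) (hCls 1) + jux 7 1 w (hCls 0) ∉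
          Bc 8 (2 ^ (J + j + 1) * t + 2)) ∧
      ∀ z ∈ Zc 6 (2 ^ (J + j + 1) * t + 1), ∃ w ∈ Zc 5 (2 ^ (J + j + 1) * t),
        z + jux 5 1 w (hCls 0) ∈ Bc 6 (2 ^ (J + j + 1) * t + 1)) ∨
    (∃ a T : ℕ, 2 ^ a + T = 2 ^ J * t ∧ ∃ z ∈ Zc 3 T, ∀ j,
      p ^ 2 ^ (J + j + 1) + sqN 1 4 (jux 3 1 (z ^ 2 ^ j) (hCls (a + j))) ∈
        Bc 5 (2 ^ (J + j + 1) * t) ∧
      sqN 2 3 (z ^ 2 ^ j) ∈ Bc 5 (2 ^ (j + 1) * T) ∧
      sqN 2 4 (sqN 1 3 (z ^ 2 ^ j)) ∈ Bc 6 (2 ^ (j + 2) * T)) ∨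
    (∃ a b : ℕ, 2 ^ a + 2 ^ b = 2 ^ J * t ∧ ∃ z ∈ Zc 3 (2 ^ b), ∃ z' ∈ Zc 3 (2 ^ a), ∀ j,
      p ^ 2 ^ (J + j + 1) + sqN 1 4 (jux 3 1 (z ^ 2 ^ j) (hCls (a + j)) +
        jux 3 1 (z' ^ 2 ^ j) (hCls (b + j))) ∈ Bc 5 (2 ^ (J + j + 1) * t)) ∨
    ∃ a b c d : ℕ, a + 2 ≤ b ∧ c + 2 ≤ d ∧ 2 ^ a + 2 ^ b + 2 ^ c + 2 ^ d = 2 ^ J * t ∧ ∀ j,
      p ^ 2 ^ (J + j + 1) + sqN 1 4 (jux 2 2 (jux 1 1 (hCls (a + j)) (hCls (b + j)))
        (jux 1 1 (hCls (c + j)) (hCls (d + j)))) ∈ Bc 5 (2 ^ (J + j + 1) * t) ∧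
      jux 2 2 (jux 1 1 (hCls (a + j)) (hCls (a + j))) (jux 1 1 (hCls (b + j)) (hCls (b + j))) ∈
        Bc 4 (2 ^ (j + 1) * (2 ^ a + 2 ^ b)) ∧
      jux 2 2 (jux 1 1 (hCls (c + j)) (hCls (c + j))) (jux 1 1 (hCls (d + j)) (hCls (d + j))) ∈
        Bc 4 (2 ^ (j + 1) * (2 ^ c + 2 ^ d))

namespace XFin

/-- `Sq^2 (h_a h_b) = h_a^2 h_b^2`. -/
lemma qn_pair (a b : ℕ) : qn 2 2 (ha b * sh 1 (ha a)) = FL.bb b * sh 2 (FL.bb a) := by
  have h := SN.tQC 2 1 1 (2 ^ a) (2 ^ b) (ha a) (ha_ZR a) (ha b) (ha_ZR b)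
  have e2 : ∀ x, qn 2 1 (ha x) = 0 := fun x => SN.tQ01.2.2.2 2 1 (2 ^ x) (by norm_num) _ (ha_ZR x)
  have e1 : ∀ x, qn 1 1 (ha x) = FL.bb x := fun x => by
    rw [SN.tQ01.2.1 1 (2 ^ x) _ (ha_ZR x)]
    exact dl_one (ha_ZR x).1
  rw [Finset.sum_range_succ, Finset.sum_range_succ, Finset.sum_range_one] at h
  simp only [Nat.sub_zero, Nat.sub_self] at h
  rw [e2, e2, show 2 - 1 = 1 from rfl, e1, e1, map_zero, mul_zero, zero_add, zero_mul,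
    add_zero] at h
  exact h

/-- classes of the third kind, on the 2-line -/
lemma span_pair (h2 : FL.TwoSpan) {T : ℤ} (hT : 0 < T) (hn : ¬ ∃ b : ℕ, T = 2 ^ b)
    {z : RR Empty} (hz : z ∈ ZR 2 T) (hq : qn 2 2 z ∈ BR 4 (2 * T)) :
    z ∈ BR 2 T ∨ ∃ a b : ℕ, a + 2 ≤ b ∧ T = 2 ^ a + 2 ^ b ∧ z + ha b * sh 1 (ha a) ∈ BR 2 T ∧
      FL.bb b * sh 2 (FL.bb a) ∈ BR 4 (2 * T) := by
  rcases h2 T hT z hz with h | ⟨a, b, hab, e, h⟩
  · exact Or.inl h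
  rcases hab with rfl | hab
  · exact absurd ⟨a + 1, by rw [e, pow_succ]; ring⟩ hn
  refine Or.inr ⟨a, b, hab, e, h, ?_⟩
  rw [← qn_pair]
  have hp : ha b * sh 1 (ha a) ∈ ZR 2 T := by
    have := mul_ZR (i := 1) (j := 1) (ha_ZR a) (ha_ZR b)
    rwa [← e] at this
  exact BR_cancel' (SN.tQS.1 2 2 T z hz _ hp h) hq

end XFin

open XFin in
theorem pr_Fin (hD : StD5) (h1 : FL.TwoInj) (h2 : FL.TwoSpan) (h3 : FL.S_Comm) : StFin := by
  obtain ⟨U, J1, hD⟩ := hD h1 h2 h3 qn ops_qn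
  obtain ⟨J2, hJ2⟩ := SN.hi_sq SN.tSqN SN.tSqF 5 0
  obtain ⟨J3, hJ3⟩ := SN.hi_sq SN.tSqN SN.tSqF 5 1
  obtain ⟨J4, hJ4⟩ := h0_div 5
  obtain ⟨J5, hJ5⟩ := exists_Gi 5
  obtain ⟨J, hJ⟩ : ∃ J, J = J1 + J2 + J3 + J4 + J5 := ⟨_, rfl⟩
  refine ⟨U, J, fun t hF p hp => ?_⟩
  by_cases hpB : p ^ 2 ^ J ∈ Bc 5 (2 ^ J * t)
  · left
    intro j hj
    obtain ⟨i, rfl⟩ := Nat.exists_eq_add_of_le hj
    exact fr_Bc' i hpB
  right
  have ht : 0 < t := by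
    rcases Nat.eq_zero_or_pos t with h | h
    · exact absurd (by rw [h, mul_zero]) (hF 0 0 (Nat.zero_le _))
    · exact h
  have hFive := hD t hF J (by omega)
  obtain ⟨t', ht'⟩ : ∃ t', t' = 2 ^ J * t := ⟨_, rfl⟩
  have ht0 : 0 < t' := by rw [ht']; positivity
  obtain ⟨P, hP⟩ : ∃ P, P = p ^ 2 ^ J := ⟨_, rfl⟩
  have hPZ : P ∈ Zc 5 t' := by rw [hP, ht']; exact fr_Zc hp
  rw [← hP, ← ht'] at hpB
  rw [← ht'] at hFive
  have hpow : ∀ i, P ^ 2 ^ i = p ^ 2 ^ (J + i) := fun i => by rw [hP, ← pow_mul, ← pow_add]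
  have hdeg : ∀ j, 2 ^ j * (2 * t') = 2 ^ (J + j + 1) * t := fun j => by
    rw [ht', pow_succ, pow_add]; ring
  have hdvd : ∀ i, i ≤ J → 2 ^ i ∣ t' := fun i hi => by
    rw [ht']; exact Dvd.dvd.mul_right (pow_dvd_pow 2 hi) _
  by_cases hA : sqN 1 5 P ∈ Bc 6 (2 * t')
  swap
  · left
    intro j hj
    obtain ⟨i, rfl⟩ := Nat.exists_eq_add_of_le hj
    have h5 := hJ2 t' ht0 (hdvd _ (by omega)) P hPZ hA i (fun _ => 0)
      (fun l hl => absurd hl (Nat.not_lt_zero l))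
    rw [Finset.range_zero, Finset.sum_empty, add_zero, hpow, hdeg] at h5
    exact h5
  right
  have hX := th_mem_ZR hPZ
  have hXB : th 5 P ∉ BR 5 (t' : ℤ) := fun h => hpB (th_mem_BR.1 h)
  obtain ⟨⟨Y, hY, hYX⟩, hFive⟩ := hFive (th 5 P) hX ((SN.sqN_BR SN.tSqN hPZ).1 hA)
  -- from a relation in degree four to the families
  have key : ∀ q ∈ Zc 4 t', qn 1 4 (th 4 q) + th 5 P ^ 2 ∈ BR 5 (2 * (t' : ℤ)) → ∀ j,
      p ^ 2 ^ (J + j + 1) + sqN 1 4 (q ^ 2 ^ j) ∈ Bc 5 (2 ^ (J + j + 1) * t) := by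
    intro q hq h j
    have h4 : P ^ 2 ^ 1 + sqN 1 4 q ∈ Bc 5 (2 * t') := by
      refine (add_sqN hq (P ^ 2 ^ 1)).2 ?_
      rw [map_pow, pow_one]
      exact h
    have h5 := fr_Bc (j := j) h4
    rw [pow_two_add, ← sqN_pow, ← pow_mul, ← pow_add, hpow, hdeg,
      show J + (1 + j) = J + j + 1 by ring] at h5
    exact h5
  by_cases hB : sqN 2 5 P ∈ Bc 7 (2 * t')
  swap
  · left
    obtain ⟨q, hq, hqY⟩ := exists_th hY
    refine ⟨q, by rw [← ht']; exact hq, fun j => ⟨key q hq (by rw [hqY]; exact hYX) j, ?_, ?_⟩⟩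
    · intro w hw h
      have h5 := hJ3 t' ht0 (hdvd _ (by omega)) P hPZ hB j (fun _ => w) (fun l hl => by
        obtain rfl : l = 0 := by omega
        rw [hdeg]
        exact hw)
      rw [Finset.range_one, Finset.sum_singleton, hpow, hdeg] at h5
      exact h5 h
    · have h6 : 2 ^ J4 ∣ 2 ^ (J + j + 1) * t :=
        Dvd.dvd.mul_right (pow_dvd_pow 2 (by omega)) _
      rw [show hCls 0 = xi 0 1 from by unfold hCls; rw [pow_zero, pow_one]]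
      exact hJ4 (2 ^ (J + j + 1) * t) (by positivity) h6
  right
  rcases hFive ((SN.sqN_BR (n := 2) SN.tSqN hPZ).1 hB) with h5 | h5 | h5 | h5
  · exact absurd h5 hXB
  · left
    obtain ⟨a, T, z, hT, e, ⟨hz, hz2, α, hα, hα1, hα2⟩, hzX⟩ := h5
    obtain ⟨T', rfl⟩ := Int.eq_ofNat_of_zero_le hT.le
    obtain ⟨ζ, hζ, rfl⟩ := exists_th hz
    obtain ⟨A, hAZ, rfl⟩ := exists_th hα
    have e1 : 2 ^ a + T' = t' := by exact_mod_cast e.symm
    refine ⟨a, T', by rw [e1, ht'], ζ, hζ, fun j => ⟨?_, ?_, ?_⟩⟩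
    · have hq : jux 3 1 ζ (hCls a) ∈ Zc 4 t' := by
        rw [← e1, add_comm (2 ^ a)]
        exact jux_Zc hζ (ha_Zc a)
      have h6 := key _ hq (by
        have h7 := th_jux 3 1 ζ (hCls a)
        rw [th_hCls] at h7
        rw [h7]
        exact hzX) j
      rw [← jux_pow, show hCls a ^ 2 ^ j = hCls (a + j) from hx_pow a j] at h6
      exact h6
    · have h6 := fr_Bc (j := j) ((SN.sqN_BR (n := 2) SN.tSqN hζ).2 hz2)
      rw [← sqN_pow] at h6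
      have e2 : 2 ^ j * (2 * T') = 2 ^ (j + 1) * T' := by rw [pow_succ]; ring
      rw [e2] at h6
      exact h6
    · have h6 : A ^ 2 ^ 1 + sqN 1 3 ζ ∈ Bc 4 (2 * T') := by
        refine (add_sqN hζ (A ^ 2 ^ 1)).2 ?_
        rw [map_pow, pow_one]
        exact hα1
      have h7 : sqN 2 4 (A ^ 2 ^ 1) ∈ Bc 6 (2 * (2 ^ 1 * T')) := by
        have h8 := fr_Bc (j := 1) ((SN.sqN_BR (n := 2) SN.tSqN hAZ).2 hα2)
        rw [← sqN_pow] at h8
        have e2 : 2 ^ 1 * (2 * T') = 2 * (2 ^ 1 * T') := by ring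
        rw [e2] at h8
        exact h8
      have h8 : sqN 2 4 (sqN 1 3 ζ) ∈ Bc 6 (2 * (2 * T')) := by
        refine sqN_congr (n := 2) (s := 4) (t := 2 * T') (sqN_Zc (n := 1) hζ) (y := A ^ 2 ^ 1) ?_ ?_ ?_
        · have := fr_Zc (j := 1) hAZ
          rwa [pow_one 2] at this
        · rw [add_comm]
          exact h6
        · rw [pow_one 2] at h7 ⊢
          exact h7
      have h9 := fr_Bc (j := j) h8
      rw [← sqN_pow, ← sqN_pow] at h9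
      have e2 : 2 ^ j * (2 * (2 * T')) = 2 ^ (j + 2) * T' := by rw [pow_add]; ring
      rw [e2] at h9
      exact h9
  · right; left
    obtain ⟨a, b, z, z', e, ⟨hz, -, -⟩, ⟨hz', -, -⟩, hzX⟩ := h5
    have eb : ((2 ^ b : ℕ) : ℤ) = 2 ^ b := by push_cast; rfl
    have ea : ((2 ^ a : ℕ) : ℤ) = 2 ^ a := by push_cast; rfl
    rw [← eb] at hz
    rw [← ea] at hz'
    obtain ⟨ζ, hζ, rfl⟩ := exists_th hz
    obtain ⟨ζ', hζ', rfl⟩ := exists_th hz'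
    have e1 : 2 ^ a + 2 ^ b = t' := by exact_mod_cast e.symm
    refine ⟨a, b, by rw [e1, ht'], ζ, hζ, ζ', hζ', fun j => ?_⟩
    have hq1 : jux 3 1 ζ (hCls a) ∈ Zc 4 t' := by
      rw [← e1, add_comm (2 ^ a)]
      exact jux_Zc hζ (ha_Zc a)
    have hq2 : jux 3 1 ζ' (hCls b) ∈ Zc 4 t' := by
      rw [← e1]
      exact jux_Zc hζ' (ha_Zc b)
    have h6 := key (jux 3 1 ζ (hCls a) + jux 3 1 ζ' (hCls b)) (Submodule.add_mem _ hq1 hq2) (by
      have h7 := th_jux 3 1 ζ (hCls a)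
      have h8 := th_jux 3 1 ζ' (hCls b)
      rw [th_hCls] at h7 h8
      rw [map_add, h7, h8]
      exact hzX) j
    rw [pow_two_add, ← jux_pow, ← jux_pow, show hCls a ^ 2 ^ j = hCls (a + j) from hx_pow a j,
      show hCls b ^ 2 ^ j = hCls (b + j) from hx_pow b j] at h6
    exact h6
  · right; right
    obtain ⟨T, T', hT, hT', hn, hn', e, z, hz, z', hz', hz2, hz2', hzX⟩ := h5
    have hbad : qn 1 4 (z' * sh 2 z) ∉ BR 5 (2 * (t' : ℤ)) := by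
      intro h
      refine hXB (hJ5 (t' : ℤ) ?_ 5 le_rfl _ hX (BR_cancel' hzX h))
      exact_mod_cast hdvd _ (by omega)
    rcases span_pair h2 hT hn hz hz2 with h6 | ⟨a, b, hab, e1, h6, h7⟩
    · refine absurd ?_ hbad
      have h8 := mul_BR_left (i := 2) (j := 2) h6 hz'
      rw [← e] at h8
      exact SN.tQB 1 4 _ _ h8
    rcases span_pair h2 hT' hn' hz' hz2' with h8 | ⟨c, d, hcd, e2, h8, h9⟩
    · refine absurd ?_ hbad
      have h9 := mul_BR_right (i := 2) (j := 2) hz h8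
      rw [← e] at h9
      exact SN.tQB 1 4 _ _ h9
    have e3 : 2 ^ a + 2 ^ b + 2 ^ c + 2 ^ d = t' := by
      have e4 : (t' : ℤ) = 2 ^ a + 2 ^ b + 2 ^ c + 2 ^ d := by rw [e, e1, e2]; ring
      exact_mod_cast e4.symm
    refine ⟨a, b, c, d, hab, hcd, by rw [e3, ht'], fun j => ⟨?_, ?_, ?_⟩⟩
    · have hq : jux 2 2 (jux 1 1 (hCls a) (hCls b)) (jux 1 1 (hCls c) (hCls d)) ∈ Zc 4 t' := by
        rw [← e3, add_assoc (2 ^ a + 2 ^ b)]
        exact jux_Zc (pair_Zc a b) (pair_Zc c d)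
      have h10 := key _ hq (by
        have h7 := th_jux 2 2 (jux 1 1 (hCls a) (hCls b)) (jux 1 1 (hCls c) (hCls d))
        have h7a : th 2 (jux 1 1 (hCls a) (hCls b)) = ha b * sh 1 (ha a) := th_pair a b
        have h7b : th 2 (jux 1 1 (hCls c) (hCls d)) = ha d * sh 1 (ha c) := th_pair c d
        rw [h7a, h7b] at h7
        rw [h7]
        have hpa : ha b * sh 1 (ha a) ∈ ZR 2 T := by
          have := mul_ZR (i := 1) (j := 1) (ha_ZR a) (ha_ZR b)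
          rwa [← e1] at this
        have hpc : ha d * sh 1 (ha c) ∈ ZR 2 T' := by
          have := mul_ZR (i := 1) (j := 1) (ha_ZR c) (ha_ZR d)
          rwa [← e2] at this
        have g1 := mul_BR_left (i := 2) (j := 2) h6 hz'
        have g2 := mul_BR_right (i := 2) (j := 2) hpa h8
        have g3 : z' * sh 2 z + (ha d * sh 1 (ha c)) * sh 2 (ha b * sh 1 (ha a)) ∈
            BR 4 (t' : ℤ) := by
          rw [e]
          refine mem_of_eq (Submodule.add_mem _ g1 g2) ?_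
          rw [map_add, mul_add, add_mul]
          have b1 := add_self2 (z' * sh 2 (ha b * sh 1 (ha a)))
          calc _ = z' * sh 2 z + (ha d * sh 1 (ha c)) * sh 2 (ha b * sh 1 (ha a)) +
                (z' * sh 2 (ha b * sh 1 (ha a)) + z' * sh 2 (ha b * sh 1 (ha a))) := by abel
            _ = _ := by rw [b1, add_zero]
        have g4 : z' * sh 2 z ∈ ZR 4 (t' : ℤ) := by
          rw [e]; exact mul_ZR (i := 2) (j := 2) hz hz'
        have g5 : (ha d * sh 1 (ha c)) * sh 2 (ha b * sh 1 (ha a)) ∈ ZR 4 (t' : ℤ) := by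
          rw [e]; exact mul_ZR (i := 2) (j := 2) hpa hpc
        have g6 := SN.tQS.1 1 4 (t' : ℤ) _ g4 _ g5 g3
        refine mem_of_eq (Submodule.add_mem _ g6 hzX) ?_
        have b1 := add_self2 (qn 1 4 (z' * sh 2 z))
        calc _ = qn 1 4 ((ha d * sh 1 (ha c)) * sh 2 (ha b * sh 1 (ha a))) + th 5 P ^ 2 +
              (qn 1 4 (z' * sh 2 z) + qn 1 4 (z' * sh 2 z)) := by abel
          _ = _ := by rw [b1, add_zero]) j
      rw [← jux_pow, ← jux_pow, ← jux_pow, show hCls a ^ 2 ^ j = hCls (a + j) from hx_pow a j,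
        show hCls b ^ 2 ^ j = hCls (b + j) from hx_pow b j,
        show hCls c ^ 2 ^ j = hCls (c + j) from hx_pow c j,
        show hCls d ^ 2 ^ j = hCls (d + j) from hx_pow d j] at h10
      exact h10
    · have h10 : jux 2 2 (jux 1 1 (hx a) (hx a)) (jux 1 1 (hx b) (hx b)) ∈
          Bc 4 (2 * (2 ^ a + 2 ^ b)) := by
        rw [← th_mem_BR, th_quad]
        push_cast
        rw [← e1]
        exact h7
      have h11 := fr_Bc (j := j) h10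
      have e4 : 2 ^ j * (2 * (2 ^ a + 2 ^ b)) = 2 ^ (j + 1) * (2 ^ a + 2 ^ b) := by
        rw [pow_succ]; ring
      rw [quad_pow, e4] at h11
      exact h11
    · have h10 : jux 2 2 (jux 1 1 (hx c) (hx c)) (jux 1 1 (hx d) (hx d)) ∈
          Bc 4 (2 * (2 ^ c + 2 ^ d)) := by
        rw [← th_mem_BR, th_quad]
        push_cast
        rw [← e2]
        exact h9
      have h11 := fr_Bc (j := j) h10
      have e4 : 2 ^ j * (2 * (2 ^ c + 2 ^ d)) = 2 ^ (j + 1) * (2 ^ c + 2 ^ d) := by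
        rw [pow_succ]; ring
      rw [quad_pow, e4] at h11
      exact h11

end Pool.Agent.Work.MP_701abf_gt.F5
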