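import Pool.Agent.Work.MP_701abf_gt.F5.Stmts

/-!
# The five-line theorem, item A2: the mirror image of A1
-/

open MvPolynomial
open Pool.Agent.Work.MP_701abf_gt.Stab Pool.Agent.Work.MP_701abf_gt.Cob
open Pool.Agent.Work.MP_701abf_gt.Sq2 Pool.Agent.Work.MP_701abf_gt.TwT

namespace Pool.Agent.Work.MP_701abf_gt.F5

theorem pr_A2 (hSy : StSy) (hA1 : StA1) : StA2 := by
  intro V W l0 m0 hW hW2 hI hee hV x hx he
  have hs := hSy V W x
  have he' : (Sys.ten W V).e 1 (fun p => x (p.2, p.1)) = 0 := by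
    funext p
    obtain ⟨v, m⟩ := p
    exact (hs.1 1 m v).symm.trans (congrFun he (m, v))
  obtain ⟨h1, h2, h3⟩ := hA1 W V l0 m0 hW hW2 hI hee hV (fun p => x (p.2, p.1)) (hs.2 5 hx) he'
  refine ⟨h1, ?_, fun h4 => h3 ?_⟩
  · funext p
    obtain ⟨m, v⟩ := p
    have h5 := congrFun h2 (v, m)
    have h6 := (hSy V W (rgt l0 fun l => x (l, m0))).1 1 m v
    rw [h6]
    exact h5
  · funext p
    obtain ⟨v, m⟩ := p
    exact (hs.1 2 m v).symm.trans (congrFun h4 (m, v))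

end Pool.Agent.Work.MP_701abf_gt.F5
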