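import Pool.Agent.Work.MP_701abf_gt.F5.Stmts

/-!
# The five-line theorem, item A3: two powers of two
-/

open MvPolynomial
open Pool.Agent.Work.MP_701abf_gt.Stab Pool.Agent.Work.MP_701abf_gt.Cob
open Pool.Agent.Work.MP_701abf_gt.Sq2 Pool.Agent.Work.MP_701abf_gt.TwT

namespace Pool.Agent.Work.MP_701abf_gt.F5

namespace XA3

/-- one side -/
lemma side (hTn : TwT.StTn) (hLt : TwT.StLt) (hLf : StLf) (V W : Sys) (l0 m0 : W.I)
    (hV : V.Ok) (hW : W.Let l0 m0) (hee : ∀ y, V.e 1 (V.e 1 y) = 0)
    (x : W.I × V.I → ZMod 2) (hx : (Sys.ten V W).Dg 5 x) (he : (Sys.ten V W).e 1 x = 0) :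
    V.Dg 3 (fun v => x (m0, v)) ∧ V.Dg 4 (V.e 1 fun v => x (m0, v)) ∧
    (∀ v, x (l0, v) = V.e 1 (fun v => x (m0, v)) v) ∧
    (∀ v, (Sys.ten V W).e 1 (lft l0 fun v => x (m0, v)) (l0, v) =
      V.e 1 (fun v => x (m0, v)) v) ∧
    (∀ v, (Sys.ten V W).e 1 (lft l0 fun v => x (m0, v)) (m0, v) = x (m0, v)) ∧
    (∀ m v, m ≠ l0 → m ≠ m0 → (Sys.ten V W).e 1 (lft l0 fun v => x (m0, v)) (m, v) = 0) ∧
    ((Sys.ten V W).e 2 x = 0 →
      V.e 2 (fun v => x (m0, v)) = 0 ∧ V.e 2 (V.e 1 fun v => x (m0, v)) = 0) := by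
  obtain ⟨h1, h2, -, -⟩ := hLt V W l0 m0 hV hW x
  have hDg := hTn.2.2.2.1 V W 5 x hx
  have hy3 : V.Dg 3 (fun v => x (m0, v)) := by
    have := (hDg m0).1 (by rw [hW.dm0]; norm_num)
    rw [hW.dm0] at this
    exact this
  have e0 : ∀ a : V.I → ZMod 2, V.e 0 a = a := fun a => (hTn.2.2.2.2.1 V hV a).1
  have hl0 : (fun v => x (l0, v)) = V.e 1 (fun v => x (m0, v)) := by
    funext v
    have h5 := h2 0 v
    rw [zero_add, he, e0] at h5
    exact (add_eq_zero2.1 h5.symm).symm
  obtain ⟨f1, -, f3⟩ := hLf V W l0 m0 hV hW (fun v => x (m0, v)) 1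
  obtain ⟨-, f2, -⟩ := hLf V W l0 m0 hV hW (fun v => x (m0, v)) 0
  refine ⟨hy3, (hTn.2.2.2.2.1 V hV _).2 1 3 hy3, congrFun hl0, f1, fun v => ?_, f3, fun h5 => ?_⟩
  · have := f2 v
    rw [zero_add, e0] at this
    exact this
  · have h6 : V.e 2 (V.e 1 fun v => x (m0, v)) = 0 := by
      rw [← hl0]
      funext v
      have := h1 2 v
      rw [h5] at this
      exact this.symm
    refine ⟨?_, h6⟩
    funext v
    have h7 := h2 1 v
    rw [show (1 : ℕ) + 1 = 2 from rfl, h5, hl0, hee, Pi.zero_apply, add_zero] at h7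
    exact h7.symm

lemma three {W : Sys} {l0 m0 : W.I} (hW : W.Let l0 m0) {m : W.I} (h1 : m ≠ l0) (h2 : m ≠ m0) :
    3 ≤ W.d m := by
  by_contra h
  have h5 := hW.pos m
  have h6 : W.d m = 1 ∨ W.d m = 2 := by omega
  rcases h6 with h6 | h6
  · exact h1 (hW.ul0 m h6)
  · exact h2 (hW.um0 m h6)

lemma two {W : Sys} {l0 m0 : W.I} (hW : W.Let l0 m0) {m : W.I} (h : m = l0 ∨ m = m0) :
    W.d m ≤ 2 := by
  rcases h with rfl | rfl
  · rw [hW.dl0]; norm_num
  · rw [hW.dm0]

end XA3

open XA3

theorem pr_A3 (hTn : TwT.StTn) (hLt : TwT.StLt) (hSy : StSy) (hLf : StLf) : StA3 := by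
  intro V W l0 m0 l1 m1 hV hW heV heW x hx he
  have hs := hSy V W x
  have he' : (Sys.ten W V).e 1 (fun p => x (p.2, p.1)) = 0 := by
    funext p
    obtain ⟨v, m⟩ := p
    exact (hs.1 1 m v).symm.trans (congrFun he (m, v))
  obtain ⟨a1, a2, a3, a4, a5, a6, a7⟩ := side hTn hLt hLf V W l0 m0 hV.ok hW heV x hx he
  obtain ⟨b1, b2, b3, b4, b5, b6, b7⟩ := side hTn hLt hLf W V l1 m1 hW.ok hV heW
    (fun p => x (p.2, p.1)) (hs.2 5 hx) he'
  refine ⟨a1, b1, ?_, fun h4 => ⟨a7 h4, b7 ?_⟩⟩
  · funext p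
    obtain ⟨m, v⟩ := p
    have hsy : (Sys.ten V W).e 1 (rgt l1 fun l => x (l, m1)) (m, v) =
        (Sys.ten W V).e 1 (lft l1 fun l => x (l, m1)) (v, m) :=
      (hSy V W (rgt l1 fun l => x (l, m1))).1 1 m v
    have hgoal : x (m, v) = (Sys.ten V W).e 1 (lft l0 fun v => x (m0, v)) (m, v) +
        (Sys.ten W V).e 1 (lft l1 fun l => x (l, m1)) (v, m) := by
      by_cases hm : m = l0 ∨ m = m0
      · by_cases hv : v = l1 ∨ v = m1
        · -- both small
          have hdm := two hW hm
          have hdv := two hV hv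
          have hz : x (m, v) = 0 := by
            by_contra hne
            have : W.d m + V.d v = 5 := hx (m, v) hne
            omega
          have hz1 : (Sys.ten V W).e 1 (lft l0 fun v => x (m0, v)) (m, v) = 0 := by
            rcases hm with rfl | rfl
            · rw [a4]
              by_contra hne
              have := a2 v hne
              omega
            · rw [a5]
              exact hz
          have hz2 : (Sys.ten W V).e 1 (lft l1 fun l => x (l, m1)) (v, m) = 0 := by
            rcases hv with rfl | rfl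
            · have h8 := b4 m
              rw [h8]
              by_contra hne
              have := b2 m hne
              omega
            · have h8 := b5 m
              rw [h8]
              exact hz
          rw [hz, hz1, hz2, add_zero]
        · have h8 := b6 v m (fun h => hv (Or.inl h)) (fun h => hv (Or.inr h))
          rw [h8, add_zero]
          rcases hm with rfl | rfl
          · rw [a4, a3]
          · rw [a5]
      · have h8 := a6 m v (fun h => hm (Or.inl h)) (fun h => hm (Or.inr h))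
        rw [h8, zero_add]
        by_cases hv : v = l1 ∨ v = m1
        · rcases hv with rfl | rfl
          · have h9 := b4 m
            rw [h9]
            exact b3 m
          · exact (b5 m).symm
        · have h9 := b6 v m (fun h => hv (Or.inl h)) (fun h => hv (Or.inr h))
          rw [h9]
          by_contra hne
          have h10 : W.d m + V.d v = 5 := hx (m, v) hne
          have h11 := three hW (fun h => hm (Or.inl h)) (fun h => hm (Or.inr h))
          have h12 := three hV (fun h => hv (Or.inl h)) (fun h => hv (Or.inr h))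
          omega
    rw [← hsy] at hgoal
    exact hgoal
  · funext p
    obtain ⟨v, m⟩ := p
    exact (hs.1 2 m v).symm.trans (congrFun h4 (m, v))

end Pool.Agent.Work.MP_701abf_gt.F5
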