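import Pool.Agent.Work.MP_701abf_gt.F5.Stmts

/-!
# Five-line theorem: item A4
-/

open MvPolynomial
open Pool.Agent.Work.MP_701abf_gt.Stab Pool.Agent.Work.MP_701abf_gt.Cob
open Pool.Agent.Work.MP_701abf_gt.Sq2 Pool.Agent.Work.MP_701abf_gt.TwT

namespace Pool.Agent.Work.MP_701abf_gt.F5

namespace XA4

lemma zz {a : ZMod 2} (h : a ≠ 0) : a = 1 := by
  revert h
  revert a
  decide

lemma eqz {a b : ZMod 2} (h : a + b = 0) : a = b := by
  revert h
  revert a b
  decide

lemma c0 {W : Sys} (hW : W.Ok) (m : W.I) (F : W.I → ZMod 2) :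
    ∑ l, W.c 0 l m * F l = F m := by
  rw [Finset.sum_eq_single m]
  · rw [hW.one, one_mul]
  · intro b _ hb
    rw [hW.ne b m hb, zero_mul]
  · intro h
    exact absurd (Finset.mem_univ m) h

lemma e0 (hT : StTn) {V : Sys} (hV : V.Ok) (a : V.I → ZMod 2) : V.e 0 a = a :=
  (hT.2.2.2.2.1 V hV a).1

lemma f1 (hT : StTn) {V W : Sys} (hV : V.Ok) (hW : W.Ok) (x : W.I × V.I → ZMod 2) (m : W.I)
    (v : V.I) : (Sys.ten V W).e 1 x (m, v) =
      V.e 1 (fun v' => x (m, v')) v + ∑ l, W.c 1 l m * x (l, v) := by
  rw [hT.2.1 V W 1 x m v, Finset.sum_range_succ, Finset.sum_range_one]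
  simp only [Nat.sub_self, Nat.sub_zero]
  rw [c0 hW m (fun l => V.e 1 (fun v' => x (l, v')) v)]
  simp only [e0 hT hV]

lemma f2 (hT : StTn) {V W : Sys} (hV : V.Ok) (hW : W.Ok) (x : W.I × V.I → ZMod 2) (m : W.I)
    (v : V.I) : (Sys.ten V W).e 2 x (m, v) =
      V.e 2 (fun v' => x (m, v')) v + ∑ l, W.c 1 l m * V.e 1 (fun v' => x (l, v')) v +
        ∑ l, W.c 2 l m * x (l, v) := by
  rw [hT.2.1 V W 2 x m v, Finset.sum_range_succ, Finset.sum_range_succ, Finset.sum_range_one]
  simp only [Nat.sub_self, Nat.sub_zero]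
  rw [c0 hW m (fun l => V.e 2 (fun v' => x (l, v')) v)]
  simp only [e0 hT hV]

lemma eone {V : Sys} (k : ℕ) (v v' : V.I) : V.e k (one1 v) v' = V.c k v v' := by
  classical
  rw [Sys.e_apply, Finset.sum_eq_single v]
  · simp [one1]
  · intro b _ hb
    simp [one1, hb]
  · intro h
    exact absurd (Finset.mem_univ v) h

lemma dg1 {V : Sys} (v : V.I) : V.Dg (V.d v) (one1 v) := by
  intro l hl
  by_contra h
  apply hl
  unfold one1
  rw [if_neg]
  rintro rfl
  exact h rfl

lemma one_ne {V : Type} (v : V) : (one1 v : V → ZMod 2) ≠ 0 := by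
  intro h
  have := congrFun h v
  simp [one1] at this

end XA4

open XA4 in
/-- [A4] -/
theorem pr_A4 (hT : StTn) : StA4 := by
  classical
  intro V W hV hW hV2 hW2 iV iW oV oW zV zW x hx hx1
  -- degrees
  have hd4 : ∀ m, 4 ≤ W.d m → ∀ v, x (m, v) = 0 := by
    intro m hm v
    by_contra h
    have h1 : W.d m + V.d v = 5 := hx (m, v) h
    have h2 := hV2 v
    omega
  have hd3 : ∀ m, W.d m = 3 → V.Dg 2 (fun v => x (m, v)) := by
    intro m hm v h
    have h1 : W.d m + V.d v = 5 := hx (m, v) h
    omega
  have hE : ∀ m v, V.e 1 (fun v' => x (m, v')) v + ∑ l, W.c 1 l m * x (l, v) = 0 := by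
    intro m v
    rw [← f1 hT hV hW, hx1]
    rfl
  by_cases hex : ∃ l, W.d l = 2
  swap
  · left
    have h3 : ∀ m, W.d m = 3 → (fun v => x (m, v)) = 0 := by
      intro m hm
      apply iV _ (hd3 m hm)
      funext v
      have h1 := hE m v
      rw [Finset.sum_eq_zero, add_zero] at h1
      · exact h1
      · intro l _
        by_cases hc : W.c 1 l m = 0
        · rw [hc, zero_mul]
        · exfalso
          have := hW.deg 1 l m hc
          exact hex ⟨l, by omega⟩
    funext p
    obtain ⟨m, v⟩ := p
    have h2 := hW2 m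
    by_cases h4 : 4 ≤ W.d m
    · exact hd4 m h4 v
    · by_cases h5 : W.d m = 3
      · exact congrFun (h3 m h5) v
      · exfalso
        exact hex ⟨m, by omega⟩
  obtain ⟨l, hl⟩ := hex
  have hlu : ∀ m, W.d m = 2 → m = l := fun m hm => oW m l hm hl
  have hS1 : ∀ (m : W.I), W.d m = 3 → ∀ F : W.I → ZMod 2,
      ∑ l', W.c 1 l' m * F l' = W.c 1 l m * F l := by
    intro m hm F
    rw [Finset.sum_eq_single l]
    · intro b _ hb
      by_cases hc : W.c 1 b m = 0
      · rw [hc, zero_mul]
      · exfalso
        have := hW.deg 1 b m hc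
        exact hb (hlu b (by omega))
    · intro h
      exact absurd (Finset.mem_univ l) h
  obtain ⟨m1, hm1⟩ : ∃ m1, W.c 1 l m1 ≠ 0 := by
    by_contra hno
    push Not at hno
    have h1 : W.e 1 (one1 l) = 0 := by
      funext m
      rw [eone, hno m]
      rfl
    have h2 : W.Dg 2 (one1 l) := by
      rw [← hl]
      exact dg1 l
    exact one_ne l (iW _ h2 h1)
  have hm1d : W.d m1 = 3 := by
    have := hW.deg 1 l m1 hm1
    omega
  have hm1c : W.c 1 l m1 = 1 := zz hm1
  set u : V.I → ZMod 2 := fun v => x (m1, v) with hu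
  have hud : V.Dg 2 u := hd3 m1 hm1d
  have hE3 : ∀ m, W.d m = 3 → ∀ v, V.e 1 (fun v' => x (m, v')) v = W.c 1 l m * x (l, v) := by
    intro m hm v
    have h1 := hE m v
    rw [hS1 m hm (fun l' => x (l', v))] at h1
    exact eqz h1
  have ha : ∀ v, x (l, v) = V.e 1 u v := by
    intro v
    have h1 := hE3 m1 hm1d v
    rw [hm1c, one_mul] at h1
    exact h1.symm
  have hx3 : ∀ m, W.d m = 3 → ∀ v, x (m, v) = W.c 1 l m * u v := by
    intro m hm v
    have h1 : V.e 1 ((fun v' => x (m, v')) + W.c 1 l m • u) = 0 := by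
      funext v'
      rw [map_add, map_smul, Pi.add_apply, Pi.smul_apply, hE3 m hm v', ha v', smul_eq_mul]
      exact CharTwo.add_self_eq_zero _
    have h2 : V.Dg 2 ((fun v' => x (m, v')) + W.c 1 l m • u) := by
      intro v' hv'
      by_cases h3 : x (m, v') = 0
      · have h4 : u v' ≠ 0 := by
          intro h5
          apply hv'
          rw [Pi.add_apply, Pi.smul_apply, h3, h5, smul_zero, add_zero]
        exact hud v' h4
      · exact hd3 m hm v' h3
    have h3 := congrFun (iV _ h2 h1) v
    rw [Pi.add_apply, Pi.smul_apply, smul_eq_mul] at h3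
    exact eqz h3
  by_cases hu0 : u = 0
  · left
    funext p
    obtain ⟨m, v⟩ := p
    have h2 := hW2 m
    by_cases h4 : 4 ≤ W.d m
    · exact hd4 m h4 v
    · by_cases h5 : W.d m = 3
      · rw [hx3 m h5 v, hu0]
        simp
      · rw [hlu m (by omega), ha v, hu0, map_zero]
        rfl
  right
  obtain ⟨v0, hv0⟩ : ∃ v0, u v0 ≠ 0 := by
    by_contra hno
    push Not at hno
    exact hu0 (funext hno)
  have hv0d : V.d v0 = 2 := hud v0 hv0
  have hu1 : u = one1 v0 := by
    funext v
    unfold one1
    split_ifs with h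
    · rw [h]
      exact zz hv0
    · by_contra h1
      exact h (oV v v0 (hud v h1) hv0d)
  refine ⟨l, v0, hl, hv0d, ?_, ?_⟩
  · funext p
    obtain ⟨m, v⟩ := p
    rw [f1 hT hV hW, ← hu1]
    have h1 : ∑ l', W.c 1 l' m * lft l u (l', v) = W.c 1 l m * u v := by
      rw [Finset.sum_eq_single l]
      · simp [lft]
      · intro b _ hb
        simp [lft, hb]
      · intro h
        exact absurd (Finset.mem_univ l) h
    rw [h1]
    by_cases hml : m = l
    · subst hml
      have h2 : (fun v' => lft m u (m, v')) = u := by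
        funext v'
        simp [lft]
      rw [h2, ha v]
      have h3 : W.c 1 m m = 0 := by
        by_contra h3
        have := hW.deg 1 m m h3
        omega
      rw [h3, zero_mul, add_zero]
    · have h2 : (fun v' => lft l u (m, v')) = 0 := by
        funext v'
        simp [lft, hml]
      rw [h2, map_zero, Pi.zero_apply, zero_add]
      have h4 := hW2 m
      by_cases h5 : W.d m = 3
      · exact hx3 m h5 v
      · have h6 : W.c 1 l m = 0 := by
          by_contra h6
          have := hW.deg 1 l m h6
          omega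
        rw [h6, zero_mul]
        by_cases h7 : 4 ≤ W.d m
        · exact hd4 m h7 v
        · exfalso
          exact hml (hlu m (by omega))
  · intro h2x
    have hF : ∀ m v, V.e 2 (fun v' => x (m, v')) v +
        ∑ l, W.c 1 l m * V.e 1 (fun v' => x (l, v')) v + ∑ l, W.c 2 l m * x (l, v) = 0 := by
      intro m v
      rw [← f2 hT hV hW, h2x]
      rfl
    have hal : (fun v' => x (l, v')) = V.e 1 u := funext ha
    constructor
    · intro m
      by_contra hc
      have hm4 : W.d m = 4 := by
        have := hW.deg 2 l m hc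
        omega
      have h1 : ∀ v, V.e 1 u v = 0 := by
        intro v
        have h2 := hF m v
        have h3 : (fun v' => x (m, v')) = 0 := by
          funext v'
          exact hd4 m (by omega) v'
        have h4 : ∑ l', W.c 1 l' m * V.e 1 (fun v' => x (l', v')) v = 0 := by
          have h5 : ∀ l' ∈ (Finset.univ : Finset W.I), W.c 1 l' m * V.e 1 (fun v' => x (l', v')) v =
              (W.c 1 l l' * W.c 1 l' m) * V.e 1 u v := by
            intro l' _
            by_cases hc' : W.c 1 l' m = 0
            · rw [hc', zero_mul, mul_zero, zero_mul]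
            · have hd := hW.deg 1 l' m hc'
              have h6 : (fun v' => x (l', v')) = W.c 1 l l' • u := by
                funext v'
                rw [hx3 l' (by omega) v']
                rfl
              rw [h6, map_smul, Pi.smul_apply, smul_eq_mul]
              ring
          rw [Finset.sum_congr rfl h5, ← Finset.sum_mul]
          have h7 : ∑ l', W.c 1 l l' * W.c 1 l' m = 0 := by
            have h8 := congrFun (zW (one1 l)) m
            rw [Sys.e_apply] at h8
            simp only [eone] at h8
            exact h8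
          rw [h7, zero_mul]
        have h5 : ∑ l', W.c 2 l' m * x (l', v) = W.c 2 l m * V.e 1 u v := by
          rw [Finset.sum_eq_single l]
          · rw [ha v]
          · intro b _ hb
            by_cases hc' : W.c 2 b m = 0
            · rw [hc', zero_mul]
            · exfalso
              have := hW.deg 2 b m hc'
              exact hb (hlu b (by omega))
          · intro h
            exact absurd (Finset.mem_univ l) h
        rw [h3, map_zero, Pi.zero_apply, zero_add, h4, zero_add, h5, zz hc, one_mul] at h2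
        exact h2
      exact hu0 (iV u hud (funext h1))
    · intro v'
      have h2 := hF m1 v'
      have h4 : ∑ l', W.c 1 l' m1 * V.e 1 (fun v' => x (l', v')) v' = 0 := by
        rw [hS1 m1 hm1d (fun l' => V.e 1 (fun v' => x (l', v')) v'), hal, zV u]
        simp
      have h5 : ∑ l', W.c 2 l' m1 * x (l', v') = 0 := by
        refine Finset.sum_eq_zero ?_
        intro b _
        by_cases hc' : W.c 2 b m1 = 0
        · rw [hc', zero_mul]
        · exfalso
          have h6 := hW.deg 2 b m1 hc'
          have h7 := hW2 b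
          omega
      rw [h4, h5, add_zero, add_zero] at h2
      have h6 : V.e 2 u v' = 0 := h2
      rw [hu1, eone] at h6
      exact h6

end Pool.Agent.Work.MP_701abf_gt.F5
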