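import Pool.Agent.Work.MP_701abf_gt.F5.Stmts

/-!
# The five-line theorem, item A5
-/

open MvPolynomial
open Pool.Agent.Work.MP_701abf_gt.Stab Pool.Agent.Work.MP_701abf_gt.Cob
open Pool.Agent.Work.MP_701abf_gt.Sq2 Pool.Agent.Work.MP_701abf_gt.TwT

namespace Pool.Agent.Work.MP_701abf_gt.F5

namespace XA5

lemma diag {V W : Sys} (hW : W.Ok) (k : ℕ) (x : W.I × V.I → ZMod 2) (m : W.I) (v : V.I) :
    ∑ l, W.c 0 l m * V.e k (fun v' => x (l, v')) v = V.e k (fun v' => x (m, v')) v := by
  rw [Finset.sum_eq_single_of_mem m (Finset.mem_univ m), hW.one, one_mul]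
  intro l _ hl
  rw [hW.ne l m hl, zero_mul]

lemma e1 (hTn : TwT.StTn) {V W : Sys} (hV : V.Ok) (hW : W.Ok) (x : W.I × V.I → ZMod 2)
    (m : W.I) (v : V.I) : (Sys.ten V W).e 1 x (m, v) =
      V.e 1 (fun v' => x (m, v')) v + ∑ l, W.c 1 l m * x (l, v) := by
  rw [hTn.2.1, Finset.sum_range_succ, Finset.sum_range_one, Nat.sub_zero, Nat.sub_self, diag hW]
  congr 1
  refine Finset.sum_congr rfl fun l _ => ?_
  rw [(hTn.2.2.2.2.1 V hV _).1]

lemma e2 (hTn : TwT.StTn) {V W : Sys} (hV : V.Ok) (hW : W.Ok) (x : W.I × V.I → ZMod 2)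
    (m : W.I) (v : V.I) : (Sys.ten V W).e 2 x (m, v) =
      V.e 2 (fun v' => x (m, v')) v + ∑ l, W.c 1 l m * V.e 1 (fun v' => x (l, v')) v +
        ∑ l, W.c 2 l m * x (l, v) := by
  rw [hTn.2.1, Finset.sum_range_succ, Finset.sum_range_succ, Finset.sum_range_one, Nat.sub_zero,
    Nat.sub_self, diag hW]
  congr 1
  refine Finset.sum_congr rfl fun l _ => ?_
  rw [(hTn.2.2.2.2.1 V hV _).1]

end XA5

open XA5

theorem pr_A5 (hTn : TwT.StTn) : StA5 := by
  intro V W hV hW hV2 hW2 hiV hiW x hx he1 he2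
  have hDg := hTn.2.2.2.1 V W 5 x hx
  -- elements of degree two
  have h2 : ∀ l, W.d l = 2 → V.e 1 (fun v => x (l, v)) = 0 := by
    intro l hl
    funext v
    have h := hTn.2.2.1 V W hW x l (fun l' hl' => by have := hW2 l'; omega) 1 v
    exact h.symm.trans (congrFun he1 (l, v))
  -- elements of degree three
  have h3 : ∀ m, W.d m = 3 → (fun v => x (m, v)) = 0 := by
    intro m hm
    refine hiV _ ?_ ?_
    · have := (hDg m).1 (by omega)
      rw [hm] at this
      exact this
    · funext v
      have h4 := (e2 hTn hV hW x m v).symm.trans (congrFun he2 (m, v))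
      have h5 : ∑ l, W.c 1 l m * V.e 1 (fun v' => x (l, v')) v = 0 := by
        refine Finset.sum_eq_zero fun l _ => ?_
        by_cases hc : W.c 1 l m = 0
        · rw [hc, zero_mul]
        · have := hW.deg 1 l m hc
          rw [h2 l (by omega), Pi.zero_apply, mul_zero]
      have h6 : ∑ l, W.c 2 l m * x (l, v) = 0 := by
        refine Finset.sum_eq_zero fun l _ => ?_
        by_cases hc : W.c 2 l m = 0
        · rw [hc, zero_mul]
        · have h7 := hW.deg 2 l m hc
          have h8 := hW2 l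
          omega
      rw [h5, h6, add_zero, add_zero] at h4
      exact h4
  have h4 : ∀ m, 3 ≤ W.d m → (fun v => x (m, v)) = 0 := by
    intro m hm
    by_cases hm3 : W.d m = 3
    · exact h3 m hm3
    · funext v
      by_contra hne
      have h5 : W.d m + V.d v = 5 := hx (m, v) hne
      have h6 := hV2 v
      omega
  have h5 : ∀ v, (fun l => x (l, v)) = 0 := by
    intro v
    refine hiW _ (fun l hl => ?_) ?_
    · by_contra hne
      have := hW2 l
      exact hl (congrFun (h4 l (by omega)) v)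
    · funext m
      have h6 := (e1 hTn hV hW x m v).symm.trans (congrFun he1 (m, v))
      have h7 : V.e 1 (fun v' => x (m, v')) = 0 := by
        by_cases hm : W.d m = 2
        · exact h2 m hm
        · have := hW2 m
          rw [h4 m (by omega), map_zero]
      rw [h7, Pi.zero_apply, zero_add] at h6
      rw [Sys.e_apply]
      have h8 : ∑ l, x (l, v) * W.c 1 l m = ∑ l, W.c 1 l m * x (l, v) :=
        Finset.sum_congr rfl fun l _ => mul_comm _ _
      exact h8.trans h6
  funext p
  exact congrFun (h5 p.2) p.1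

end Pool.Agent.Work.MP_701abf_gt.F5
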