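import Pool.Agent.Work.MP_701abf_gt.F5.Stmts

/-!
# The five-line theorem, item A6: products of two clusters
-/

open MvPolynomial
open Pool.Agent.Work.MP_701abf_gt.Stab Pool.Agent.Work.MP_701abf_gt.Cob
open Pool.Agent.Work.MP_701abf_gt.Sq2 Pool.Agent.Work.MP_701abf_gt.TwT

namespace Pool.Agent.Work.MP_701abf_gt.F5

theorem pr_A6 (hOk : TwT.StOk) (hLr : TwT.StLr) : StA6 := by
  intro P c m V hTP hcm
  have h1 := (hOk.1 P c m V hTP).2
  have h2 : ∀ v, 2 ≤ V.d v := fun v => by
    have := h1 v
    omega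
  by_cases hm : 1 ≤ m
  · have h3 : ∀ y : V.I → ZMod 2, V.Dg 2 y → y = 0 := by
      intro y hy
      funext v
      by_contra hv
      have h4 := hy v hv
      have h5 := h1 v
      omega
    exact ⟨h2, fun y hy _ => h3 y hy, fun y hy _ => h3 y hy⟩
  · have hm0 : m = 0 := by omega
    have hc : c = 2 := by omega
    subst hm0 hc
    refine ⟨h2, fun y hy he => ?_, fun y hy he => ?_⟩
    · refine hLr P 2 0 V hTP 0 1 2 le_rfl (by norm_num) (by norm_num) y hy fun n hn1 hn2 => ?_
      have : n = 1 := by omega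
      rw [this]
      exact he
    · refine hLr P 2 0 V hTP 0 2 3 (by norm_num) (by norm_num) (by norm_num) y hy
        fun n hn1 hn2 => ?_
      have : n = 2 := by omega
      rw [this]
      exact he

end Pool.Agent.Work.MP_701abf_gt.F5
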