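import Pool.Agent.Work.MP_701abf_gt.F5.Stmts

/-!
# The five-line theorem, item C5: chains
-/

open MvPolynomial
open Pool.Agent.Work.MP_701abf_gt.Stab Pool.Agent.Work.MP_701abf_gt.Cob
open Pool.Agent.Work.MP_701abf_gt.Sq2 Pool.Agent.Work.MP_701abf_gt.TwT

namespace Pool.Agent.Work.MP_701abf_gt.F5

namespace XC5

lemma Ch_mono {L L' c m t : ℕ} (hL : L' ≤ L) (h : Ch L c m t) : Ch L' c m t := by
  induction h with
  | sg a => exact Ch.sg a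
  | cl t h0 h => exact Ch.cl t h0 h
  | addsg a _ hd ih => exact Ch.addsg a ih ((pow_dvd_pow 2 (by omega)).trans hd)
  | addcl a M _ h0 hM h2 hd ih =>
    exact Ch.addcl a M ih h0 hM h2 ((pow_dvd_pow 2 (by omega)).trans hd)

lemma Ch_one {L c m t : ℕ} (h : Ch L c m t) : 1 ≤ c + m := by
  induction h with
  | sg a => omega
  | cl t h0 h => omega
  | addsg a _ hd ih => omega
  | addcl a M _ h0 hM h2 hd ih => omega


lemma decomp {L L' c m t : ℕ} (hL : L ≤ L') (h : Ch L' c m t) (hcm : 2 ≤ c + m) :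
    ∃ t' M a c' m' : ℕ, t = t' + M ∧ 0 < t' ∧ 0 < M ∧ M < 2 ^ a ∧ 2 ^ (a + L) ∣ t' ∧
      Ch L' c' m' t' ∧ ((∃ e, M = 2 ^ e) ∧ c = c' + 1 ∧ m = m' ∨
        (¬ ∃ e, M = 2 ^ e) ∧ c = c' ∧ m = m' + 1) := by
  cases h with
  | sg a => omega
  | cl t h0 h => omega
  | @addsg c' _ t' a h' hd =>
    exact ⟨t', 2 ^ a, a + 1, c', m, rfl, h'.pos, by positivity,
      Nat.pow_lt_pow_right (by norm_num) (by omega), (pow_dvd_pow 2 (by omega)).trans hd, h',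
      Or.inl ⟨⟨a, rfl⟩, rfl, rfl⟩⟩
  | @addcl _ m' t' a M h' h0 hM h2 hd =>
    exact ⟨t', M, a, c, m', rfl, h'.pos, h0, hM, (pow_dvd_pow 2 (by omega)).trans hd, h',
      Or.inr ⟨h2, rfl, rfl⟩⟩

end XC5

open XC5

theorem pr_C5 (hFa : TwT.StFa) (hLe : TwT.StLe) (hCl : TwT.StCl) (hCh : TwT.StCh)
    (hOk : TwT.StOk) (hZz : TwT.StZz) (hPP : StPP) (hZ2 : StZ2) (hTp : StTp) (hA6 : StA6)
    (hT1 : StT1) (hT2 : StT2) (hT3 : StT3) (hT4 : StT4) (hT5 : StT5) (hT6 : StT6) :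
    F5.StC5 := by
  intro hTI hTS hC q hq
  obtain ⟨J1, L1, hF⟩ := hFa q hq 7 (by norm_num)
  obtain ⟨J2, hP⟩ := hPP hTI hTS q hq 7 (by norm_num)
  obtain ⟨J3, L3, hch⟩ := hCh q hq 7 (by norm_num) Pr ⟨J2, hP⟩
  refine ⟨J1 + J2 + J3 + 2, L1 + L3, fun b hb L' hL c m t h hcm h5 => ?_⟩
  have get : ∀ x : ℕ, 0 < x → ∃ (W : Sys) (w : W.I → RR Empty), W.Ok ∧ Pr W ∧
      BQ q 7 ((2 ^ b * x : ℕ) : ℤ) W w ∧
      (∀ (a : ℕ) (N : ℤ), ((2 ^ b * x : ℕ) : ℤ) < 2 ^ a → 0 < N → (2 : ℤ) ^ (a + L1) ∣ N →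
        KU 7 N ((2 ^ b * x : ℕ) : ℤ) W w) ∧
      (∀ a : ℕ, x = 2 ^ a → ∃ l0 m0, W.Let l0 m0 ∧ w l0 = ha (b + a)) ∧
      ((¬ ∃ a : ℕ, x = 2 ^ a) → W.Cl ∧ Inj2 W ∧ One2 W) := by
    intro x hx
    have h0 : (0 : ℤ) < ((2 ^ b * x : ℕ) : ℤ) := by positivity
    have h1 : (2 : ℤ) ^ J1 ∣ ((2 ^ b * x : ℕ) : ℤ) := by
      have : 2 ^ J1 ∣ 2 ^ b * x := Dvd.dvd.mul_right (pow_dvd_pow 2 (by omega)) x
      exact_mod_cast this
    have h2 : (2 : ℤ) ^ J2 ∣ ((2 ^ b * x : ℕ) : ℤ) := by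
      have : 2 ^ J2 ∣ 2 ^ b * x := Dvd.dvd.mul_right (pow_dvd_pow 2 (by omega)) x
      exact_mod_cast this
    obtain ⟨W, w, ok, pos, tr, bq, ku⟩ := hF _ h0 h1
    have hPW : Pr W := hP _ h0 h2 W w ok tr bq
    refine ⟨W, w, ok, hPW, bq, ku, ?_, ?_⟩
    · rintro a rfl
      have e : ((2 ^ b * 2 ^ a : ℕ) : ℤ) = 2 ^ (b + a) := by
        push_cast
        rw [pow_add]
      rw [e] at bq
      obtain ⟨l0, m0, hl, hw, -⟩ := hLe q hq 7 (by norm_num) (b + a) (by omega) W w ok pos tr bq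
      exact ⟨l0, m0, hl, hw⟩
    · intro h3
      have hcl := hCl q 7 (by norm_num) _ h0 (not_pow_mul h3) W w ok pos bq
      have h4 := hPW.2 (fun l hl => by
        have := hcl.two l
        omega)
      exact ⟨hcl, h4.1, h4.2⟩
  by_cases h6 : 3 ≤ c + m ∧ 2 * (5 - c - 2 * m) + 1 ≤ c
  · obtain ⟨V, v, hTP, bqv⟩ := hch b (by omega) c m t (Ch_mono (by omega) h)
    exact hT6 q hq 7 _ V v c m (5 - c - 2 * m) le_rfl (hTp _ _ (fun W hW => hW.1) _ _ _ hTP) bqv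
      (by omega) (by omega) (by omega)
  obtain ⟨t', M, a, c', m', rfl, ht', hM0, hMa, hd, h', hor⟩ := decomp (L := L1) (by omega) h hcm
  obtain ⟨W, w, ok, hPW, bq, ku, hsg, hcl⟩ := get M hM0
  have K := ku (a + b) ((2 ^ b * t' : ℕ) : ℤ) (by
      have : 2 ^ b * M < 2 ^ (a + b) := by
        rw [pow_add, mul_comm (2 ^ a)]
        exact Nat.mul_lt_mul_of_pos_left hMa (by positivity)
      exact_mod_cast this) (by positivity) (by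
      have : 2 ^ (a + b + L1) ∣ 2 ^ b * t' := by
        rw [show a + b + L1 = b + (a + L1) by ring, pow_add]
        exact Nat.mul_dvd_mul_left _ hd
      exact_mod_cast this)
  have e : ((2 ^ b * (t' + M) : ℕ) : ℤ) = ((2 ^ b * t' : ℕ) : ℤ) + ((2 ^ b * M : ℕ) : ℤ) := by
    push_cast
    ring
  have hN0 : (0 : ℤ) < ((2 ^ b * t' : ℕ) : ℤ) := by positivity
  have hM0' : (0 : ℤ) < ((2 ^ b * M : ℕ) : ℤ) := by positivity
  have hpow : ∀ a' : ℕ, ((2 ^ b * 2 ^ a' : ℕ) : ℤ) = 2 ^ (b + a') := by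
    intro a'
    push_cast
    rw [pow_add]
  rw [e]
  have h7 := Ch_one h'
  by_cases h8 : c' + m' = 1
  · -- two clusters
    obtain ⟨V, v, okv, hPV, bqv, -, hsgv, hclv⟩ := get t' ht'
    by_cases hp1 : ∃ a', t' = 2 ^ a'
    · obtain ⟨a1, rfl⟩ := hp1
      obtain ⟨l1, m1, hl1, hv1⟩ := hsgv a1 rfl
      rw [hpow] at K bqv ⊢
      by_cases hp2 : ∃ a', M = 2 ^ a'
      · obtain ⟨a2, rfl⟩ := hp2
        obtain ⟨l0, m0, hl0, hw0⟩ := hsg a2 rfl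
        rw [hpow] at K bq ⊢
        exact hT3 hC q hq 7 _ _ V W v w l0 m0 l1 m1 le_rfl bqv bq K hl1 hl0 (hZ2 V hPV.1)
          (hZ2 W hPW.1) hv1 hw0
      · obtain ⟨hc, hi, -⟩ := hcl hp2
        exact hT2 hC q hq 7 _ _ V W v w l1 m1 le_rfl hM0' ok bqv bq K hc.two hi
          (hZ2 W hPW.1) hl1 hv1
    · obtain ⟨hcv, hiv, hov⟩ := hclv hp1
      by_cases hp2 : ∃ a', M = 2 ^ a'
      · obtain ⟨a2, rfl⟩ := hp2
        obtain ⟨l0, m0, hl0, hw0⟩ := hsg a2 rfl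
        rw [hpow] at K bq ⊢
        exact hT1 q hq 7 _ _ V W v w l0 m0 le_rfl hN0 okv bqv bq K hcv.two hiv
          (hZ2 V hPV.1) hl0 hw0
      · obtain ⟨hc, hi, ho⟩ := hcl hp2
        exact hT4 q hq 7 _ _ V W v w le_rfl hN0 hM0' (not_pow_mul hp1) (not_pow_mul hp2) okv ok
          bqv bq K hcv.two hc.two hiv hi hov ho (hZ2 V hPV.1) (hZ2 W hPW.1)
  · -- three clusters
    obtain ⟨V, v, hTP, bqv⟩ := hch b (by omega) c' m' t' (Ch_mono (by omega) h')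
    have hTP' : TP Sys.Z1 c' m' V := hTp _ _ (fun W hW => hW.1) _ _ _ hTP
    have h9 : c' + m' = 2 := by
      rcases hor with ⟨-, h10, h11⟩ | ⟨-, h10, h11⟩ <;> omega
    obtain ⟨hd2, hi2, -⟩ := hA6 _ _ _ _ hTP h9
    rcases hor with ⟨⟨a2, rfl⟩, h10, h11⟩ | ⟨hp2, h10, h11⟩
    · obtain ⟨l0, m0, hl0, hw0⟩ := hsg a2 rfl
      rw [hpow] at K bq ⊢
      exact hT1 q hq 7 _ _ V W v w l0 m0 le_rfl hN0 (hOk.1 _ _ _ V hTP).1 bqv bq K hd2 hi2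
        (hZz _ _ V hTP') hl0 hw0
    · obtain ⟨hc, hi, -⟩ := hcl hp2
      have h12 : c' = 2 := by omega
      have h13 : m' = 0 := by omega
      subst h12 h13
      exact hT5 q hq 7 _ _ V W v w le_rfl hTP' hPW.1 hc hi bqv bq K

end Pool.Agent.Work.MP_701abf_gt.F5
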