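import Pool.Agent.Work.MP_701abf_gt.F5.Stmts

/-!
# The five-line theorem, item D5: all degrees
-/

open MvPolynomial
open Pool.Agent.Work.MP_701abf_gt.Stab Pool.Agent.Work.MP_701abf_gt.Cob
open Pool.Agent.Work.MP_701abf_gt.Sq2 Pool.Agent.Work.MP_701abf_gt.TwT

namespace Pool.Agent.Work.MP_701abf_gt.F5

theorem pr_D5 (hHf : TwT.StHf) (hC5 : StC5) : F5.StD5 := by
  intro hTI hTS hC q hq
  obtain ⟨J1, L, h5⟩ := hC5 hTI hTS hC q hq
  obtain ⟨U', hU⟩ := degrees 5 (by omega) L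
  refine ⟨5 * U' + U', J1, fun t hF J hJ => ?_⟩
  by_cases hne : dm 5 (2 ^ J * t) = 0
  · intro X hX _
    have hXB : X ∈ BR 5 ((2 ^ J * t : ℕ) : ℤ) := by
      obtain ⟨p, hp, hpX⟩ := exists_th hX
      rw [← hpX]
      exact th_mem_BR.2 (dm_zero_iff.1 hne hp)
    refine ⟨⟨0, Submodule.zero_mem _, ?_⟩, fun _ => Or.inl hXB⟩
    exact Submodule.add_mem _ (hq.br 1 4 _ 0 (Submodule.zero_mem _)) (sq_BR hXB)
  · obtain ⟨c, m, e', h1, h2, h3, h4⟩ := hU _ hne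
    have hcm : 2 ≤ c + m := by
      by_contra hcon
      have h6 := hHf.2 U' (c + m) J t (clus_iff_few.1 h3)
      have h7 : (c + m) * U' + U' ≤ 5 * U' + U' :=
        Nat.add_le_add_right (Nat.mul_le_mul_right _ (by omega)) _
      obtain ⟨a, u, hu, ht⟩ := clus_iff_few.1 ((clus_iff_few.2 h6).mono h7
        (show c + m ≤ 1 by omega))
      rw [Fin.sum_univ_one] at ht
      exact hF (a 0) (u 0) (hu 0) ht
    have hJe : 2 ^ J * t = 2 ^ J1 * (2 ^ (J - J1) * t) := by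
      rw [← mul_assoc, ← pow_add, Nat.add_sub_cancel' hJ]
    rw [hJe] at h4 ⊢
    exact h5 J1 le_rfl L le_rfl c m _ (hHf.1 L c m J1 _ h4) hcm (by omega)

end Pool.Agent.Work.MP_701abf_gt.F5
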