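import Pool.Agent.Work.MP_701abf_gt.F5.Stmts

/-!
# The five-line theorem, item Lf
-/

open MvPolynomial
open Pool.Agent.Work.MP_701abf_gt.Stab Pool.Agent.Work.MP_701abf_gt.Cob
open Pool.Agent.Work.MP_701abf_gt.Sq2 Pool.Agent.Work.MP_701abf_gt.TwT

namespace Pool.Agent.Work.MP_701abf_gt.F5

theorem pr_Lf (hLt : TwT.StLt) : StLf := by
  intro V W l0 m0 hV hW y k
  have hml : m0 ≠ l0 := by
    intro h
    have h1 := hW.dl0
    have h2 := hW.dm0
    rw [h] at h2
    omega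
  have e0 : (fun v' => lft l0 y (l0, v')) = y := by
    funext v'
    exact if_pos rfl
  have e1 : ∀ l, l ≠ l0 → (fun v' => lft l0 y (l, v')) = (0 : V.I → ZMod 2) := by
    intro l hl
    funext v'
    exact if_neg hl
  obtain ⟨h1, h2, h3, -⟩ := hLt V W l0 m0 hV hW (lft l0 y)
  refine ⟨fun v => ?_, fun v => ?_, fun m v hm1 hm2 => ?_⟩
  · rw [h1, e0]
  · rw [h2, e1 m0 hml, e0, map_zero, Pi.zero_apply, zero_add]
  · have h4 := h3 0 (fun l v hl _ => ((congrFun (e1 l hl) v).symm : (0 : ZMod 2) = _)) k m v hm1 hm2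
    have h5 : (Sys.ten V W).e k (0 : (Sys.ten V W).I → ZMod 2) = 0 := map_zero _
    exact h4.symm.trans (congrFun h5 (m, v))

end Pool.Agent.Work.MP_701abf_gt.F5
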