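import Pool.Agent.Work.MP_701abf_gt.F5.Stmts

/-!
# The five-line theorem, item Pd, helper54
-/

open MvPolynomial
open Pool.Agent.Work.MP_701abf_gt.Stab Pool.Agent.Work.MP_701abf_gt.Cob
open Pool.Agent.Work.MP_701abf_gt.Sq2 Pool.Agent.Work.MP_701abf_gt.TwT

namespace Pool.Agent.Work.MP_701abf_gt.F5

theorem pr_Pd : StPd := by
  classical
  intro V W v w
  refine ⟨fun l y => ?_, fun j k b hb => ?_⟩
  · rw [Fintype.sum_prod_type]
    rw [Finset.sum_eq_single l]
    · rw [map_sum, Finset.mul_sum]
      refine Finset.sum_congr rfl fun k _ => ?_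
      have h1 : lft l y (l, k) = y k := by
        unfold lft
        rw [if_pos rfl]
      rw [h1, map_smul, mul_smul_comm]
    · intro l' _ hl'
      refine Finset.sum_eq_zero fun k _ => ?_
      have h1 : lft l y (l', k) = 0 := by
        unfold lft
        rw [if_neg hl']
      rw [h1, zero_smul]
    · intro h
      exact absurd (Finset.mem_univ l) h
  · rw [Fintype.sum_prod_type, Finset.sum_mul]
    refine Finset.sum_congr rfl fun l _ => ?_
    rw [Finset.sum_eq_single k]
    · have h1 : rgt k b (l, k) = b l := by
        unfold rgt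
        rw [if_pos rfl]
      rw [h1]
      by_cases h0 : b l = 0
      · rw [h0, zero_smul, zero_smul, zero_mul]
      · rw [hb l h0, smul_mul_assoc]
    · intro k' _ hk'
      have h1 : rgt k b (l, k') = 0 := by
        unfold rgt
        rw [if_neg hk']
      rw [h1, zero_smul]
    · intro h
      exact absurd (Finset.mem_univ k) h

end Pool.Agent.Work.MP_701abf_gt.F5
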