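import Pool.Agent.Work.MP_701abf_gt.F5.Stmts

/-!
# The five-line theorem, item Sy: symmetry of the product
-/

open MvPolynomial
open Pool.Agent.Work.MP_701abf_gt.Stab Pool.Agent.Work.MP_701abf_gt.Cob
open Pool.Agent.Work.MP_701abf_gt.Sq2 Pool.Agent.Work.MP_701abf_gt.TwT

namespace Pool.Agent.Work.MP_701abf_gt.F5

theorem pr_Sy : StSy := by
  intro V W x
  refine ⟨fun k m v => ?_, fun s hx p hp => ?_⟩
  · have h1 : (Sys.ten V W).e k x (m, v) = ∑ p : W.I × V.I, x p *
        ∑ i ∈ Finset.range (k + 1), W.c i p.1 m * V.c (k - i) p.2 v := rfl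
    have h2 : (Sys.ten W V).e k (fun p => x (p.2, p.1)) (v, m) = ∑ p : V.I × W.I, x (p.2, p.1) *
        ∑ i ∈ Finset.range (k + 1), V.c i p.1 v * W.c (k - i) p.2 m := rfl
    rw [h1, h2]
    refine Fintype.sum_equiv (Equiv.prodComm _ _) _ _ fun p => ?_
    obtain ⟨l, v'⟩ := p
    change x (l, v') * _ = x (l, v') * _
    congr 1
    rw [← Finset.sum_range_reflect]
    refine Finset.sum_congr rfl fun i hi => ?_
    have h3 : i ≤ k := Nat.lt_succ_iff.1 (Finset.mem_range.1 hi)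
    change W.c (k + 1 - 1 - i) l m * V.c (k - (k + 1 - 1 - i)) v' v = V.c i v' v * W.c (k - i) l m
    rw [Nat.add_sub_cancel, Nat.sub_sub_self h3, mul_comm]
  · have h1 : W.d p.2 + V.d p.1 = s := hx (p.2, p.1) hp
    change V.d p.1 + W.d p.2 = s
    omega

end Pool.Agent.Work.MP_701abf_gt.F5
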