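import Pool.Agent.Work.MP_701abf_gt.F5.Stmts

/-!
# MP_701abf_gt: the five-line theorem, item T1 (lowest cluster a power of two)
-/

open MvPolynomial
open Pool.Agent.Work.MP_701abf_gt.Stab Pool.Agent.Work.MP_701abf_gt.Cob
open Pool.Agent.Work.MP_701abf_gt.Sq2 Pool.Agent.Work.MP_701abf_gt.TwT

namespace Pool.Agent.Work.MP_701abf_gt.F5

noncomputable section

theorem pr_T1 (hTn : TwT.StTn) (hTb : TwT.StTb) (hTf : StTf) (hZv : StZv) (hPd : StPd)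
    (hA1 : StA1) : StT1 := by
  intro q hq n μ N V W v w l0 m0 hn hN hVok hBv hBw hKU hV2 hInj hee hLet hw X hX hq1
  have hU := hTn.1 V W hVok hLet.ok
  have hBU := hTb q hq n N (2 ^ μ) V W v w hVok hLet.ok hBv hBw hKU
  obtain ⟨x, hx5, hex, _, hq2, hfin⟩ := hTf q hq n (N + 2 ^ μ) (Sys.ten V W) _ hn hU hBU X hX hq1
  obtain ⟨hy3, hxe, he2⟩ := hA1 V W l0 m0 hVok hV2 hInj hee hLet x hx5 hex
  have hdeg : (Sys.ten V W).Dg 4 (lft l0 fun k => x (m0, k)) := by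
    rintro ⟨l, k⟩ hlk
    by_cases hl : l = l0
    · subst hl
      have h1 : x (m0, k) ≠ 0 := by simpa [lft] using hlk
      have h2 : V.d k = 3 := hy3 k h1
      have h3 : W.d l = 1 := hLet.dl0
      change W.d l + V.d k = 4
      omega
    · exact absurd (by simp [lft, hl]) hlk
  obtain ⟨hYZ, hYq⟩ := hfin _ hdeg hxe.symm
  have hP := (hPd V W v w).1 l0 (fun k => x (m0, k))
  rw [hLet.dl0, hw] at hP
  have hYZ' : ha μ * sh 1 (∑ k, x (m0, k) • v k) ∈ ZR 4 (N + 2 ^ μ) := by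
    rw [← hP]
    exact hYZ
  have hYq' : q 1 4 (ha μ * sh 1 (∑ k, x (m0, k) • v k)) + X ^ 2 ∈ BR 5 (2 * (N + 2 ^ μ)) := by
    rw [← hP]
    exact hYq
  refine ⟨⟨_, hYZ', hYq'⟩, fun h2 => ?_⟩
  obtain ⟨h3, h4⟩ := he2 (hq2 h2)
  right
  left
  exact ⟨μ, N, ∑ k, x (m0, k) • v k, hN, by ring,
    (hZv q hq n N V v hn hVok hBv _ hy3).2 h3 h4, hYq'⟩

end

end Pool.Agent.Work.MP_701abf_gt.F5
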