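import Pool.Agent.Work.MP_701abf_gt.F5.Stmts

/-!
# The five-line theorem, item T2: the upper cluster a power of two
-/

open MvPolynomial
open Pool.Agent.Work.MP_701abf_gt.Stab Pool.Agent.Work.MP_701abf_gt.Cob
open Pool.Agent.Work.MP_701abf_gt.Sq2 Pool.Agent.Work.MP_701abf_gt.TwT

namespace Pool.Agent.Work.MP_701abf_gt.F5

namespace XT2

lemma rgt_dg {V W : Sys} {j i : ℕ} {k : V.I} {b : W.I → ZMod 2} (hk : V.d k = i)
    (hb : W.Dg j b) : (Sys.ten V W).Dg (j + i) (rgt k b) := by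
  intro p hp
  have h1 : p.2 = k := by
    by_contra h
    exact hp (if_neg h)
  have h2 : rgt k b p = b p.1 := if_pos h1
  rw [h2] at hp
  change W.d p.1 + V.d p.2 = j + i
  rw [h1, hk, hb p.1 hp]

end XT2

open XT2

theorem pr_T2 (hTn : TwT.StTn) (hTb : TwT.StTb) (hTf : StTf) (hZv : StZv) (hZo : StZo)
    (hPd : StPd) (hA2 : StA2) : StT2 := by
  intro hC q hq n ν M V W v w l0 m0 hn hM hW hBv hBw hK hW2 hI hee hV hv X hX hdX
  have hU : (Sys.ten V W).Ok := hTn.1 V W hV.ok hW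
  have hB := hTb q hq n _ M V W v w hV.ok hW hBv hBw hK
  obtain ⟨x, hx5, hx1, hx0, hx2, hy⟩ := hTf q hq n _ _ _ hn hU hB X hX hdX
  obtain ⟨g1, g2, g3⟩ := hA2 V W l0 m0 hW hW2 hI hee hV x hx5 hx1
  obtain ⟨hz, hz1⟩ := hy (rgt l0 fun l => x (l, m0)) (rgt_dg hV.dl0 g1) g2.symm
  have e1 := (hPd V W v w).2 3 l0 (fun l => x (l, m0)) g1
  rw [hv] at e1
  obtain ⟨z, hzz⟩ : ∃ z, z = ∑ l, x (l, m0) • w l := ⟨_, rfl⟩
  have e2 : (∑ p : W.I × V.I, (rgt l0 fun l => x (l, m0)) p • (w p.1 * sh (W.d p.1) (v p.2))) =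
      z * sh 3 (ha ν) := by rw [hzz]; exact e1
  have hz' : z * sh 3 (ha ν) ∈ ZR 4 (2 ^ ν + M) := by rw [← e2]; exact hz
  have hz1' : q 1 4 (z * sh 3 (ha ν)) + X ^ 2 ∈ BR (4 + 1) (2 * (2 ^ ν + M)) := by
    rw [← e2]; exact hz1
  refine ⟨⟨_, hz', hz1'⟩, fun h => ?_⟩
  obtain ⟨g4, g5⟩ := g3 (hx2 h)
  obtain ⟨hz3, hz4⟩ := hZv q hq n M W w hn hW hBw (fun l => x (l, m0)) g1
  have hz3' : z ∈ ZR 3 M := by rw [hzz]; exact hz3
  have hc := hC 3 ν M z hz3'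
  have hz5 : ha ν * sh 1 z ∈ ZR 4 (2 ^ ν + M) := by
    have h6 := Submodule.add_mem _ (BR_le _ _ hc) hz'
    rw [add_assoc, add_self2, add_zero] at h6
    exact h6
  have h7 := hZo q hq 1 4 (2 ^ ν + M) _ hz5 _ hz' hc (X ^ 2) hz1'
  refine Or.inr (Or.inl ⟨ν, M, z, hM, rfl, ?_, h7⟩)
  rw [hzz]
  exact hz4 g4 g5

end Pool.Agent.Work.MP_701abf_gt.F5
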