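import Pool.Agent.Work.MP_701abf_gt.F5.Stmts

/-!
# The five-line theorem, item T3: two powers of two
-/

open MvPolynomial
open Pool.Agent.Work.MP_701abf_gt.Stab Pool.Agent.Work.MP_701abf_gt.Cob
open Pool.Agent.Work.MP_701abf_gt.Sq2 Pool.Agent.Work.MP_701abf_gt.TwT

namespace Pool.Agent.Work.MP_701abf_gt.F5

namespace XT3

lemma rgt_dg {V W : Sys} {j i : ℕ} {k : V.I} {b : W.I → ZMod 2} (hk : V.d k = i)
    (hb : W.Dg j b) : (Sys.ten V W).Dg (j + i) (rgt k b) := by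
  intro p hp
  have h1 : p.2 = k := by
    by_contra h
    exact hp (if_neg h)
  have h2 : rgt k b p = b p.1 := if_pos h1
  rw [h2] at hp
  change W.d p.1 + V.d p.2 = j + i
  rw [h1, hk, hb p.1 hp]

lemma lft_dg {V W : Sys} {j i : ℕ} {k : W.I} {y : V.I → ZMod 2} (hk : W.d k = i)
    (hy : V.Dg j y) : (Sys.ten V W).Dg (i + j) (lft k y) := by
  intro p hp
  have h1 : p.1 = k := by
    by_contra h
    exact hp (if_neg h)
  have h2 : lft k y p = y p.2 := if_pos h1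
  rw [h2] at hp
  change W.d p.1 + V.d p.2 = i + j
  rw [h1, hk, hy p.2 hp]

end XT3

open XT3

theorem pr_T3 (hTn : TwT.StTn) (hTb : TwT.StTb) (hTf : StTf) (hZv : StZv) (hZo : StZo)
    (hPd : StPd) (hA3 : StA3) : StT3 := by
  intro hC q hq n ν μ V W v w l0 m0 l1 m1 hn hBv hBw hK hV hW heV heW hv hw X hX hdX
  have hU : (Sys.ten V W).Ok := hTn.1 V W hV.ok hW.ok
  have hB := hTb q hq n _ _ V W v w hV.ok hW.ok hBv hBw hK
  obtain ⟨x, hx5, hx1, hx0, hx2, hy⟩ := hTf q hq n _ _ _ hn hU hB X hX hdX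
  obtain ⟨g1, g1', g2, g3⟩ := hA3 V W l0 m0 l1 m1 hV hW heV heW x hx5 hx1
  have hYd : (Sys.ten V W).Dg 4 (lft l0 (fun v => x (m0, v)) + rgt l1 fun l => x (l, m1)) := by
    intro p hp
    by_cases h1 : (lft l0 fun v => x (m0, v)) p = 0
    · have h2 : (rgt l1 fun l => x (l, m1)) p ≠ 0 := by
        intro h3
        exact hp (by rw [Pi.add_apply, h1, h3, add_zero])
      exact rgt_dg hV.dl0 g1' p h2
    · exact lft_dg hW.dl0 g1 p h1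
  have hYe : (Sys.ten V W).e 1 (lft l0 (fun v => x (m0, v)) + rgt l1 fun l => x (l, m1)) = x := by
    have h1 := map_add ((Sys.ten V W).e 1) (lft l0 fun v => x (m0, v)) (rgt l1 fun l => x (l, m1))
    exact h1.trans g2.symm
  obtain ⟨hz, hz1⟩ := hy _ hYd hYe
  have e1 := (hPd V W v w).1 l0 (fun v => x (m0, v))
  have e1' := (hPd V W v w).2 3 l1 (fun l => x (l, m1)) g1'
  rw [hW.dl0, hw] at e1
  rw [hv] at e1'
  obtain ⟨z, hzz⟩ : ∃ z, z = ∑ k, x (m0, k) • v k := ⟨_, rfl⟩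
  obtain ⟨z', hzz'⟩ : ∃ z, z = ∑ l, x (l, m1) • w l := ⟨_, rfl⟩
  have e2 : (∑ p : W.I × V.I, (lft l0 (fun v => x (m0, v)) + rgt l1 fun l => x (l, m1) :
      W.I × V.I → ZMod 2) p • (w p.1 * sh (W.d p.1) (v p.2))) =
      ha μ * sh 1 z + z' * sh 3 (ha ν) := by
    rw [hzz, hzz', ← e1, ← e1', ← Finset.sum_add_distrib]
    refine Finset.sum_congr rfl fun p _ => ?_
    rw [Pi.add_apply, add_smul]
  have hz' : ha μ * sh 1 z + z' * sh 3 (ha ν) ∈ ZR 4 (2 ^ ν + 2 ^ μ) := by rw [← e2]; exact hz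
  have hz1' : q 1 4 (ha μ * sh 1 z + z' * sh 3 (ha ν)) + X ^ 2 ∈
      BR (4 + 1) (2 * (2 ^ ν + 2 ^ μ)) := by
    rw [← e2]; exact hz1
  refine ⟨⟨_, hz', hz1'⟩, fun h => ?_⟩
  obtain ⟨⟨g4, g5⟩, g6, g7⟩ := g3 (hx2 h)
  obtain ⟨hz3, hz4⟩ := hZv q hq n _ V v hn hV.ok hBv (fun v => x (m0, v)) g1
  obtain ⟨hz3', hz4'⟩ := hZv q hq n _ W w hn hW.ok hBw (fun l => x (l, m1)) g1'
  have hzr' : z' ∈ ZR 3 (2 ^ μ) := by rw [hzz']; exact hz3'
  have hc := hC 3 ν (2 ^ μ) z' hzr'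
  have hcc : ha μ * sh 1 z + ha ν * sh 1 z' + (ha μ * sh 1 z + z' * sh 3 (ha ν)) ∈
      BR 4 (2 ^ ν + 2 ^ μ) := by
    have e3 : ha μ * sh 1 z + ha ν * sh 1 z' + (ha μ * sh 1 z + z' * sh 3 (ha ν)) =
        ha ν * sh 1 z' + z' * sh 3 (ha ν) := by
      calc _ = ha ν * sh 1 z' + z' * sh 3 (ha ν) + (ha μ * sh 1 z + ha μ * sh 1 z) := by abel
        _ = _ := by rw [add_self2, add_zero]
    rw [e3]
    exact hc
  have hz5 : ha μ * sh 1 z + ha ν * sh 1 z' ∈ ZR 4 (2 ^ ν + 2 ^ μ) := by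
    have h6 := Submodule.add_mem _ (BR_le _ _ hcc) hz'
    rw [add_assoc, add_self2, add_zero] at h6
    exact h6
  have h7 := hZo q hq 1 4 (2 ^ ν + 2 ^ μ) _ hz5 _ hz' hcc (X ^ 2) hz1'
  refine Or.inr (Or.inr (Or.inl ⟨μ, ν, z, z', add_comm _ _, ?_, ?_, h7⟩))
  · rw [hzz]
    exact hz4 g4 g5
  · rw [hzz']
    exact hz4' g6 g7

end Pool.Agent.Work.MP_701abf_gt.F5
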