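import Pool.Agent.Work.MP_701abf_gt.F5.Stmts

/-!
# The five-line theorem, item T4: two clusters which are not powers of two
-/

open MvPolynomial
open Pool.Agent.Work.MP_701abf_gt.Stab Pool.Agent.Work.MP_701abf_gt.Cob
open Pool.Agent.Work.MP_701abf_gt.Sq2 Pool.Agent.Work.MP_701abf_gt.TwT

namespace Pool.Agent.Work.MP_701abf_gt.F5

namespace XT4

lemma one1_dg {V : Sys} {j : ℕ} {k : V.I} (hk : V.d k = j) : V.Dg j (one1 k) := by
  intro l hl
  have h1 : l = k := by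
    by_contra h
    exact hl (if_neg h)
  rw [h1, hk]

lemma sum_one1 {V : Sys} (k : V.I) (v : V.I → RR Empty) : ∑ l, one1 k l • v l = v k := by
  rw [Finset.sum_eq_single_of_mem k (Finset.mem_univ k)]
  · rw [show one1 k k = 1 from if_pos rfl, one_smul]
  · intro l _ hl
    rw [show one1 k l = 0 from if_neg hl, zero_smul]

lemma lft_dg {V W : Sys} {j i : ℕ} {k : W.I} {y : V.I → ZMod 2} (hk : W.d k = i)
    (hy : V.Dg j y) : (Sys.ten V W).Dg (i + j) (lft k y) := by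
  intro p hp
  have h1 : p.1 = k := by
    by_contra h
    exact hp (if_neg h)
  have h2 : lft k y p = y p.2 := if_pos h1
  rw [h2] at hp
  change W.d p.1 + V.d p.2 = i + j
  rw [h1, hk, hy p.2 hp]

/-- the second operation vanishes on a basis element of degree two -/
lemma q2_of {q : ℕ → ℕ → RR Empty → RR Empty} {n : ℕ} {T : ℤ} {V : Sys} {v : V.I → RR Empty}
    (hB : BQ q n T V v) (hn : 7 ≤ n) {k : V.I} (hk : V.d k = 2) (hc : ∀ m, V.c 2 k m = 0) :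
    v k ∈ ZR 2 T ∧ q 2 2 (v k) ∈ BR 4 (2 * T) := by
  have h1 := hB.w_mem k
  rw [hk] at h1
  refine ⟨h1, ?_⟩
  have h2 := hB.c_w 2 k (by rw [hk]; omega)
  rw [hk] at h2
  have h3 : ∑ m, V.c 2 k m • v m ^ 2 = 0 :=
    Finset.sum_eq_zero fun m _ => by rw [hc m, zero_smul]
  rw [h3, add_zero] at h2
  exact h2

end XT4

open XT4

theorem pr_T4 (hTn : TwT.StTn) (hTb : TwT.StTb) (hTf : StTf) (hPd : StPd) (hA4 : StA4) :
    StT4 := by
  intro q hq n N M V W v w hn hN hM hN2 hM2 hV hW hBv hBw hK hV2 hW2 hiV hiW hoV hoW heV heW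
    X hX hdX
  have hU : (Sys.ten V W).Ok := hTn.1 V W hV hW
  have hB := hTb q hq n _ _ V W v w hV hW hBv hBw hK
  obtain ⟨x, hx5, hx1, hx0, hx2, hy⟩ := hTf q hq n _ _ _ hn hU hB X hX hdX
  rcases hA4 V W hV hW hV2 hW2 hiV hiW hoV hoW heV heW x hx5 hx1 with h | ⟨l, k, hl, hk, g2, g3⟩
  · have hXB := hx0 h
    refine ⟨⟨0, Submodule.zero_mem _, ?_⟩, fun _ => Or.inl hXB⟩
    exact Submodule.add_mem _ (hq.br 1 4 _ 0 (Submodule.zero_mem _)) (sq_BR hXB)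
  · obtain ⟨hz, hz1⟩ := hy (lft l (one1 k)) (lft_dg hl (one1_dg hk)) g2.symm
    have e1 := (hPd V W v w).1 l (one1 k)
    rw [hl, sum_one1] at e1
    have hz' : w l * sh 2 (v k) ∈ ZR 4 (N + M) := by rw [← e1]; exact hz
    have hz1' : q 1 4 (w l * sh 2 (v k)) + X ^ 2 ∈ BR (4 + 1) (2 * (N + M)) := by
      rw [← e1]; exact hz1
    refine ⟨⟨_, hz', hz1'⟩, fun h => ?_⟩
    obtain ⟨g4, g5⟩ := g3 (hx2 h)
    obtain ⟨p1, p2⟩ := q2_of hBv hn hk g5
    obtain ⟨p3, p4⟩ := q2_of hBw hn hl g4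
    exact Or.inr (Or.inr (Or.inr ⟨N, M, hN, hM, hN2, hM2, rfl, v k, p1, w l, p3, p2, p4, hz1'⟩))

end Pool.Agent.Work.MP_701abf_gt.F5
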