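import Pool.Agent.Work.MP_701abf_gt.F5.Stmts

/-!
# The five-line theorem, item T5
-/

open MvPolynomial
open Pool.Agent.Work.MP_701abf_gt.Stab Pool.Agent.Work.MP_701abf_gt.Cob
open Pool.Agent.Work.MP_701abf_gt.Sq2 Pool.Agent.Work.MP_701abf_gt.TwT

namespace Pool.Agent.Work.MP_701abf_gt.F5

theorem pr_T5 (hTn : TwT.StTn) (hOk : TwT.StOk) (hTb : TwT.StTb) (hEx : TwT.StEx)
    (hTf : StTf) (hA5 : StA5) (hA6 : StA6) : StT5 := by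
  intro q hq n N M V W v w hn hTP hZ hCl hI hBv hBw hK X hX hdX
  have hV := (hOk.1 _ _ _ V hTP).1
  have hU : (Sys.ten V W).Ok := hTn.1 V W hV hCl.ok
  have hB := hTb q hq n N M V W v w hV hCl.ok hBv hBw hK
  obtain ⟨x, hx5, hx1, hx0, hx2, hy⟩ := hTf q hq n _ _ _ hn hU hB X hX hdX
  obtain ⟨y, hy4, hyx⟩ := hEx 2 1 _ (TP.cl W hZ hCl hTP) 5 (by norm_num) x hx5 hx1
  obtain ⟨hz, hz1⟩ := hy y (fun l hl => by have := hy4 l hl; omega) hyx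
  refine ⟨⟨_, hz, hz1⟩, fun h => Or.inl (hx0 ?_)⟩
  obtain ⟨hd2, -, he2⟩ := hA6 _ _ _ _ hTP rfl
  exact hA5 V W hV hCl.ok hd2 hCl.two he2 hI x hx5 hx1 (hx2 h)

end Pool.Agent.Work.MP_701abf_gt.F5
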