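import Pool.Agent.Work.MP_701abf_gt.F5.Stmts

/-!
# The five-line theorem, item T6: many clusters
-/

open MvPolynomial
open Pool.Agent.Work.MP_701abf_gt.Stab Pool.Agent.Work.MP_701abf_gt.Cob
open Pool.Agent.Work.MP_701abf_gt.Sq2 Pool.Agent.Work.MP_701abf_gt.TwT

namespace Pool.Agent.Work.MP_701abf_gt.F5

theorem pr_T6 (hOk : TwT.StOk) (hEx : TwT.StEx) (hLw : TwT.StLw) (hTf : StTf) : StT6 := by
  intro q hq n T U u c m e hn hTP hBQ h1 h2 h3 X hX hdX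
  obtain ⟨x, hx5, hx1, hx0, hx2, hy⟩ := hTf q hq n T U u hn (hOk.1 _ _ _ U hTP).1 hBQ X hX hdX
  obtain ⟨y, hy4, hyx⟩ := hEx c m U hTP 5 (by omega) x hx5 hx1
  obtain ⟨hz, hz1⟩ := hy y (fun l hl => by have := hy4 l hl; omega) hyx
  refine ⟨⟨_, hz, hz1⟩, fun h => Or.inl (hx0 ?_)⟩
  refine hLw _ c m U hTP e 2 h2 (by omega) x (by rw [h1]; exact hx5) fun i hi => ?_
  interval_cases i
  · exact hx1
  · exact hx2 h

end Pool.Agent.Work.MP_701abf_gt.F5
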