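import Pool.Agent.Work.MP_701abf_gt.F5.Stmts

/-!
# The five-line theorem, item Tf: transfer in degree five
-/

open MvPolynomial
open Pool.Agent.Work.MP_701abf_gt.Stab Pool.Agent.Work.MP_701abf_gt.Cob
open Pool.Agent.Work.MP_701abf_gt.Sq2 Pool.Agent.Work.MP_701abf_gt.TwT

namespace Pool.Agent.Work.MP_701abf_gt.F5

namespace XTf

/-- A combination of cocycles of degree `s`. -/
lemma comb_mem {T : ℤ} {V : Sys} {w : V.I → RR Empty} (hw : ∀ l, w l ∈ ZR (V.d l) T) {s : ℕ}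
    {y : V.I → ZMod 2} (hy : V.Dg s y) : ∑ l, y l • w l ∈ ZR s T := by
  refine Submodule.sum_mem _ fun l _ => ?_
  by_cases h : y l = 0
  · rw [h, zero_smul]
    exact Submodule.zero_mem _
  · refine Submodule.smul_mem _ _ ?_
    have := hw l
    rw [hy l h] at this
    exact this

/-- The square of a combination. -/
lemma comb_sq (V : Sys) (w : V.I → RR Empty) (a : V.I → ZMod 2) :
    (∑ l, a l • w l) ^ 2 = ∑ l, a l • w l ^ 2 := by
  rw [sum_sq]
  exact Finset.sum_congr rfl fun l _ => smul_sq _ _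

end XTf

open XTf

theorem pr_Tf (hTr : TwT.StTr) : StTf := by
  intro q hq n T U u hn hU hB X hX hX1
  obtain ⟨x, hx5, hXx⟩ := hB.span 5 (by omega) X hX
  obtain ⟨h1, h2⟩ := hTr q hq n T U u hU hB 5 (by omega) X hX x hx5 hXx
  refine ⟨x, hx5, ((h2 1 (by omega)).2).1 hX1, h1.2, fun h => ((h2 2 (by omega)).2).1 h,
    fun y hy hyx => ?_⟩
  have hY : ∑ l, y l • u l ∈ ZR 4 T := comb_mem hB.w_mem hy
  refine ⟨hY, ?_⟩
  have k1 := ((hTr q hq n T U u hU hB 4 (by omega) _ hY y hy (by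
    rw [add_self2]
    exact Submodule.zero_mem _)).2 1 (by omega)).1
  rw [hyx] at k1
  have k3 := sq_BR hXx
  rw [sq_add, comb_sq] at k3
  have k4 := Submodule.add_mem _ k1 k3
  have e : q 1 4 (∑ l, y l • u l) + ∑ m, x m • u m ^ 2 + (X ^ 2 + ∑ m, x m • u m ^ 2) =
      q 1 4 (∑ l, y l • u l) + X ^ 2 := by
    calc _ = q 1 4 (∑ l, y l • u l) + X ^ 2 +
          ((∑ m, x m • u m ^ 2) + ∑ m, x m • u m ^ 2) := by abel
      _ = _ := by rw [add_self2, add_zero]
  rw [e] at k4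
  exact k4

end Pool.Agent.Work.MP_701abf_gt.F5
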