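import Pool.Agent.Work.MP_701abf_gt.F5.Stmts

/-!
# The five-line theorem, item Z2
-/

open MvPolynomial
open Pool.Agent.Work.MP_701abf_gt.Stab Pool.Agent.Work.MP_701abf_gt.Cob
open Pool.Agent.Work.MP_701abf_gt.Sq2 Pool.Agent.Work.MP_701abf_gt.TwT

namespace Pool.Agent.Work.MP_701abf_gt.F5

theorem pr_Z2 : StZ2 := by
  intro W hW y
  funext m
  rw [Sys.e_apply]
  have h1 : ∀ i, W.e 1 y i * W.c 1 i m = ∑ l, y l * (W.c 1 l i * W.c 1 i m) := by
    intro i
    rw [Sys.e_apply, Finset.sum_mul]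
    exact Finset.sum_congr rfl fun l _ => mul_assoc _ _ _
  rw [Finset.sum_congr rfl fun i _ => h1 i, Finset.sum_comm]
  refine Finset.sum_eq_zero fun l _ => ?_
  rw [← Finset.mul_sum, hW l m, mul_zero]

end Pool.Agent.Work.MP_701abf_gt.F5
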