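import Pool.Agent.Work.MP_701abf_gt.F5.Stmts

/-!
# The five-line theorem, item Zo
-/

open MvPolynomial
open Pool.Agent.Work.MP_701abf_gt.Stab Pool.Agent.Work.MP_701abf_gt.Cob
open Pool.Agent.Work.MP_701abf_gt.Sq2 Pool.Agent.Work.MP_701abf_gt.TwT

namespace Pool.Agent.Work.MP_701abf_gt.F5

theorem pr_Zo (hSu : TwT.StSu) : StZo := by
  intro q hq n s t x hx y hy hxy r hr
  have h1 := (hSu q hq n s t).2.1 x hx y hy hxy
  have h2 := Submodule.add_mem _ h1 hr
  have e : q n s x + q n s y + (q n s y + r) = q n s x + r := by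
    calc _ = q n s x + r + (q n s y + q n s y) := by abel
      _ = _ := by rw [add_self2, add_zero]
  rwa [e] at h2

end Pool.Agent.Work.MP_701abf_gt.F5
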