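import Pool.Agent.Work.MP_701abf_gt.F5.Stmts

/-!
# The five-line theorem, item Zv: classes on the 3-line from vectors
-/

open MvPolynomial
open Pool.Agent.Work.MP_701abf_gt.Stab Pool.Agent.Work.MP_701abf_gt.Cob
open Pool.Agent.Work.MP_701abf_gt.Sq2 Pool.Agent.Work.MP_701abf_gt.TwT

namespace Pool.Agent.Work.MP_701abf_gt.F5

namespace XZv

/-- A combination of cocycles of degree `s`. -/
lemma comb_mem {T : ℤ} {V : Sys} {w : V.I → RR Empty} (hw : ∀ l, w l ∈ ZR (V.d l) T) {s : ℕ}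
    {y : V.I → ZMod 2} (hy : V.Dg s y) : ∑ l, y l • w l ∈ ZR s T := by
  refine Submodule.sum_mem _ fun l _ => ?_
  by_cases h : y l = 0
  · rw [h, zero_smul]
    exact Submodule.zero_mem _
  · refine Submodule.smul_mem _ _ ?_
    have := hw l
    rw [hy l h] at this
    exact this

/-- The square of a combination. -/
lemma comb_sq (V : Sys) (w : V.I → RR Empty) (a : V.I → ZMod 2) :
    (∑ l, a l • w l) ^ 2 = ∑ l, a l • w l ^ 2 := by
  rw [sum_sq]
  exact Finset.sum_congr rfl fun l _ => smul_sq _ _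

end XZv

open XZv in
/-- Zv. -/
theorem pr_Zv (hTn : TwT.StTn) (hTr : TwT.StTr) : StZv := by
  intro q hq n T U u hn hU hB y hy
  have hz : ∑ l, y l • u l ∈ ZR 3 T := comb_mem hB.w_mem hy
  refine ⟨hz, fun h2 h21 => ⟨hz, ?_, ?_⟩⟩
  · have h := hTr q hq n T U u hU hB 3 (by omega) _ hz y hy (by
      rw [add_self2]
      exact Submodule.zero_mem _)
    exact ((h.2 2 (by omega)).2).2 h2
  · have hy1 : U.Dg 4 (U.e 1 y) := (hTn.2.2.2.2.1 U hU y).2 1 3 hy
    have hα : ∑ l, U.e 1 y l • u l ∈ ZR 4 T := comb_mem hB.w_mem hy1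
    refine ⟨∑ l, U.e 1 y l • u l, hα, ?_, ?_⟩
    · have h := hTr q hq n T U u hU hB 3 (by omega) _ hz y hy (by
        rw [add_self2]
        exact Submodule.zero_mem _)
      rw [comb_sq]
      exact (h.2 1 (by omega)).1
    · have h := hTr q hq n T U u hU hB 4 (by omega) _ hα (U.e 1 y) hy1 (by
        rw [add_self2]
        exact Submodule.zero_mem _)
      exact ((h.2 2 (by omega)).2).2 h21

end Pool.Agent.Work.MP_701abf_gt.F5
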