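import Pool.Agent.Work.MP_701abf_gt.F5.I_A1
import Pool.Agent.Work.MP_701abf_gt.F5.I_A2
import Pool.Agent.Work.MP_701abf_gt.F5.I_A3
import Pool.Agent.Work.MP_701abf_gt.F5.I_A4
import Pool.Agent.Work.MP_701abf_gt.F5.I_A5
import Pool.Agent.Work.MP_701abf_gt.F5.I_A6
import Pool.Agent.Work.MP_701abf_gt.F5.I_C5
import Pool.Agent.Work.MP_701abf_gt.F5.I_D5
import Pool.Agent.Work.MP_701abf_gt.F5.I_Lf
import Pool.Agent.Work.MP_701abf_gt.F5.I_PP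
import Pool.Agent.Work.MP_701abf_gt.F5.I_Pd
import Pool.Agent.Work.MP_701abf_gt.F5.I_Sy
import Pool.Agent.Work.MP_701abf_gt.F5.I_T1
import Pool.Agent.Work.MP_701abf_gt.F5.I_T2
import Pool.Agent.Work.MP_701abf_gt.F5.I_T3
import Pool.Agent.Work.MP_701abf_gt.F5.I_T4
import Pool.Agent.Work.MP_701abf_gt.F5.I_T5
import Pool.Agent.Work.MP_701abf_gt.F5.I_T6
import Pool.Agent.Work.MP_701abf_gt.F5.I_Tf
import Pool.Agent.Work.MP_701abf_gt.F5.I_Tp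
import Pool.Agent.Work.MP_701abf_gt.F5.I_Z2
import Pool.Agent.Work.MP_701abf_gt.F5.I_Zo
import Pool.Agent.Work.MP_701abf_gt.F5.I_Zv
import Pool.Agent.Work.MP_701abf_gt.F5.Fin
import Pool.Agent.Work.MP_701abf_gt.TwT.AllA
import Pool.Agent.Work.MP_701abf_gt.FL.Comm
import Pool.Agent.Work.MP_701abf_gt.FL.TwoAll

/-!
# The five-line theorem: all items
-/

open Pool.Agent.Work.MP_701abf_gt.Sq2 Pool.Agent.Work.MP_701abf_gt.TwT

namespace Pool.Agent.Work.MP_701abf_gt.F5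

theorem tSy : StSy := pr_Sy
theorem tLf : StLf := pr_Lf tLt
theorem tA1 : StA1 := pr_A1 tTn tLt tLf
theorem tA2 : StA2 := pr_A2 tSy tA1
theorem tA3 : StA3 := pr_A3 tTn tLt tSy tLf
theorem tA4 : StA4 := pr_A4 tTn
theorem tA5 : StA5 := pr_A5 tTn
theorem tA6 : StA6 := pr_A6 tOk tLr
theorem tTf : StTf := pr_Tf tTr
theorem tZv : StZv := pr_Zv tTn tTr
theorem tZo : StZo := pr_Zo tSu
theorem tPd : StPd := pr_Pd
theorem tPP : StPP := pr_PP tEe tTr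
theorem tZ2 : StZ2 := pr_Z2
theorem tTp : StTp := pr_Tp
theorem tT1 : StT1 := pr_T1 tTn tTb tTf tZv tPd tA1
theorem tT2 : StT2 := pr_T2 tTn tTb tTf tZv tZo tPd tA2
theorem tT3 : StT3 := pr_T3 tTn tTb tTf tZv tZo tPd tA3
theorem tT4 : StT4 := pr_T4 tTn tTb tTf tPd tA4
theorem tT5 : StT5 := pr_T5 tTn tOk tTb tEx tTf tA5 tA6
theorem tT6 : StT6 := pr_T6 tOk tEx tLw tTf
theorem tC5 : StC5 := pr_C5 tFa tLe tCl tCh tOk tZz tPP tZ2 tTp tA6 tT1 tT2 tT3 tT4 tT5 tT6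
theorem tD5 : StD5 := pr_D5 tHf tC5
theorem tFin : StFin := pr_Fin tD5 FL.two_inj FL.two_span FL.pr_Comm

end Pool.Agent.Work.MP_701abf_gt.F5
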