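import Pool.Agent.Work.MP_701abf_gt.F5.Fin
import Pool.Agent.Work.MP_701abf_gt.TwT.AllA

/-!
# The five-line theorem: the exceptional classes are in the kernel of both operations
-/

open MvPolynomial
open Pool.Agent.Work.MP_701abf_gt.Stab Pool.Agent.Work.MP_701abf_gt.Cob
open Pool.Agent.Work.MP_701abf_gt.Sq2 Pool.Agent.Work.MP_701abf_gt.TwT

namespace Pool.Agent.Work.MP_701abf_gt.F5

open Pool.Agent.Work.MP_701abf_gt.SN (sqN qn)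
open Pool.Agent.Work.MP_701abf_gt.FL (hCls)

namespace XConv

lemma qZ {n s : ℕ} {t : ℤ} {F : RR Empty} (h : F ∈ ZR s t) : qn n s F ∈ ZR (s + n) (2 * t) :=
  SN.tQZ n s t F h

lemma qB {n s : ℕ} {t : ℤ} {F : RR Empty} (h : F ∈ BR s t) : qn n s F ∈ BR (s + n) (2 * t) :=
  SN.tQB n s t F h

/-- `Sq^1 Sq^1 = 0`. -/
lemma q11 {s : ℕ} {t : ℤ} {F : RR Empty} (h : F ∈ ZR s t) :
    qn 1 (s + 1) (qn 1 s F) ∈ BR (s + 1 + 1) (2 * (2 * t)) := by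
  rw [SN.tQ01.2.1 (s + 1) (2 * t) _ (qZ h), SN.tQ01.2.1 s t F h]
  exact tDD s t F h

lemma q2 {n s : ℕ} (F : RR Empty) : qn n s (F ^ 2) = (qn n s F) ^ 2 := SN.tQ01.2.2.1 n s F

lemma q0 {s : ℕ} (F : RR Empty) : qn 0 s F = F ^ 2 := SN.tQ01.1 s F

lemma qtop {n s : ℕ} {t : ℤ} (hn : s < n) {F : RR Empty} (h : F ∈ ZR s t) : qn n s F = 0 :=
  SN.tQ01.2.2.2 n s t hn F h

/-- the Cartan formula for the operations of degree one -/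
lemma car1 {i j : ℕ} {a b : ℤ} {F G : RR Empty} (hF : F ∈ ZR i a) (hG : G ∈ ZR j b) :
    qn 1 (i + j) (G * sh j F) = G ^ 2 * sh j (qn 1 i F) + qn 1 j G * sh (j + 1) (F ^ 2) := by
  rw [SN.tQC 1 i j a b F hF G hG, Finset.sum_range_succ, Finset.sum_range_one, q0]
  simp only [Nat.sub_zero, Nat.sub_self, add_zero]
  rw [q0]

/-- the Cartan formula for the operations of degree two -/
lemma car2 {i j : ℕ} {a b : ℤ} {F G : RR Empty} (hF : F ∈ ZR i a) (hG : G ∈ ZR j b) :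
    qn 2 (i + j) (G * sh j F) = G ^ 2 * sh j (qn 2 i F) + qn 1 j G * sh (j + 1) (qn 1 i F) +
      qn 2 j G * sh (j + 2) (F ^ 2) := by
  rw [SN.tQC 2 i j a b F hF G hG, Finset.sum_range_succ, Finset.sum_range_succ,
    Finset.sum_range_one, q0]
  simp only [Nat.sub_zero, Nat.sub_self, add_zero]
  rw [q0]

/-- a criterion for the vanishing of the operation of degree two on a product -/
lemma van2 {i j : ℕ} {a b : ℤ} {F G : RR Empty} (hF : F ∈ ZR i a) (hG : G ∈ ZR j b)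
    (h0 : qn 2 i F ∈ BR (i + 2) (2 * a)) (h1 : qn 1 j G ∈ BR (j + 1) (2 * b) ∨
      qn 1 i F ∈ BR (i + 1) (2 * a)) (h2 : qn 2 j G ∈ BR (j + 2) (2 * b)) :
    qn 2 (i + j) (G * sh j F) ∈ BR (i + j + 2) (2 * (a + b)) := by
  have e : (2 : ℤ) * (a + b) = 2 * a + 2 * b := by ring
  rw [car2 hF hG, e]
  refine Submodule.add_mem _ (Submodule.add_mem _ ?_ ?_) ?_
  · have := mul_BR_left h0 (sq_ZR hG)
    rwa [show i + 2 + j = i + j + 2 by ring] at this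
  · rcases h1 with h1 | h1
    · have := mul_BR_right (qZ (n := 1) hF) h1
      rwa [show i + 1 + (j + 1) = i + j + 2 by ring] at this
    · have := mul_BR_left h1 (qZ (n := 1) hG)
      rwa [show i + 1 + (j + 1) = i + j + 2 by ring] at this
  · have := mul_BR_right (sq_ZR hF) h2
    rwa [show i + (j + 2) = i + j + 2 by ring] at this

/-- `Sq^2 (h_a^2) = 0` for `a ≥ 1`. -/
lemma h4 {a : ℕ} (ha1 : 1 ≤ a) : qn 2 2 (qn 1 1 (ha a)) ∈ BR 4 (2 * (2 * 2 ^ a)) := by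
  have h1 : qn 1 1 (ha a) = TwT.kap (a + 1) := by
    rw [SN.tQ01.2.1 1 (2 ^ a) _ (ha_ZR a), dl_one (ha_ZR a).1]
    rfl
  rw [h1]
  have h2 := (tKp qn ops_qn (a + 1) (by omega)).2.2.2 (by omega) 2 (by norm_num)
  rw [pow_succ, mul_comm ((2 : ℤ) ^ a) 2] at h2
  exact h2

/-- products with a letter -/
lemma conv_a {a : ℕ} (ha1 : 1 ≤ a) {T : ℤ} {z : RR Empty} (hz : z ∈ ZR 3 T)
    (h2 : qn 2 3 z ∈ BR 5 (2 * T)) (h21 : qn 2 4 (qn 1 3 z) ∈ BR 6 (2 * (2 * T))) :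
    qn 2 5 (qn 1 4 (ha a * sh 1 z)) ∈ BR 7 (2 * (2 * (T + 2 ^ a))) := by
  have hc := car1 (i := 3) (j := 1) hz (ha_ZR a)
  have e : (2 : ℤ) * (2 * (T + 2 ^ a)) = 2 * (2 * T + 2 * 2 ^ a) := by ring
  rw [show qn 1 4 (ha a * sh 1 z) = _ from hc, e]
  have hz1 := qZ (n := 1) hz
  have g1 := sq_ZR (ha_ZR a)
  have f1 : ha a ^ 2 * sh 1 (qn 1 3 z) ∈ ZR 5 (2 * T + 2 * 2 ^ a) := mul_ZR (i := 4) (j := 1) hz1 g1
  have f2 : qn 1 1 (ha a) * sh 2 (z ^ 2) ∈ ZR 5 (2 * T + 2 * 2 ^ a) :=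
    mul_ZR (i := 3) (j := 2) (sq_ZR hz) (qZ (n := 1) (ha_ZR a))
  have hadd := SN.tQA 2 5 _ _ f1 _ f2
  refine BR_cancel hadd (Submodule.add_mem _ ?_ ?_)
  · refine van2 (i := 4) (j := 1) hz1 g1 h21 (Or.inr (q11 hz)) ?_
    rw [qtop (by norm_num) g1]
    exact Submodule.zero_mem _
  · refine van2 (i := 3) (j := 2) (sq_ZR hz) (qZ (n := 1) (ha_ZR a)) ?_ (Or.inl (q11 (ha_ZR a)))
      (h4 ha1)
    rw [q2]
    exact sq_BR h2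

/-- `Sq^2 Sq^1 (h_a h_b) = 0` for `a, b ≥ 1`. -/
lemma pair21 {a b : ℕ} (ha1 : 1 ≤ a) (hb1 : 1 ≤ b) :
    qn 2 3 (qn 1 2 (ha b * sh 1 (ha a))) ∈ BR 5 (2 * (2 * (2 ^ a + 2 ^ b))) := by
  have hc := car1 (i := 1) (j := 1) (ha_ZR a) (ha_ZR b)
  have e : (2 : ℤ) * (2 * (2 ^ a + 2 ^ b)) = 2 * (2 * 2 ^ a + 2 * 2 ^ b) := by ring
  rw [show qn 1 2 (ha b * sh 1 (ha a)) = _ from hc, e]
  have f1 : ha b ^ 2 * sh 1 (qn 1 1 (ha a)) ∈ ZR 3 (2 * 2 ^ a + 2 * 2 ^ b) :=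
    mul_ZR (i := 2) (j := 1) (qZ (n := 1) (ha_ZR a)) (sq_ZR (ha_ZR b))
  have f2 : qn 1 1 (ha b) * sh 2 (ha a ^ 2) ∈ ZR 3 (2 * 2 ^ a + 2 * 2 ^ b) :=
    mul_ZR (i := 1) (j := 2) (sq_ZR (ha_ZR a)) (qZ (n := 1) (ha_ZR b))
  have hadd := SN.tQA 2 3 _ _ f1 _ f2
  refine BR_cancel hadd (Submodule.add_mem _ ?_ ?_)
  · refine van2 (i := 2) (j := 1) (qZ (n := 1) (ha_ZR a)) (sq_ZR (ha_ZR b)) (h4 ha1)
      (Or.inr (q11 (ha_ZR a))) ?_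
    rw [qtop (by norm_num) (sq_ZR (ha_ZR b))]
    exact Submodule.zero_mem _
  · refine van2 (i := 1) (j := 2) (sq_ZR (ha_ZR a)) (qZ (n := 1) (ha_ZR b)) ?_
      (Or.inl (q11 (ha_ZR b))) (h4 hb1)
    rw [qtop (by norm_num) (sq_ZR (ha_ZR a))]
    exact Submodule.zero_mem _

/-- products of classes on the 2-line -/
lemma conv_b {T T' : ℤ} {z z' : RR Empty} (hz : z ∈ ZR 2 T) (hz' : z' ∈ ZR 2 T')
    (h2 : qn 2 2 z ∈ BR 4 (2 * T)) (h2' : qn 2 2 z' ∈ BR 4 (2 * T'))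
    (h21 : qn 2 3 (qn 1 2 z) ∈ BR 5 (2 * (2 * T)))
    (h21' : qn 2 3 (qn 1 2 z') ∈ BR 5 (2 * (2 * T'))) :
    qn 2 5 (qn 1 4 (z' * sh 2 z)) ∈ BR 7 (2 * (2 * (T + T'))) := by
  have hc := car1 (i := 2) (j := 2) hz hz'
  have e : (2 : ℤ) * (2 * (T + T')) = 2 * (2 * T + 2 * T') := by ring
  rw [show qn 1 4 (z' * sh 2 z) = _ from hc, e]
  have f1 : z' ^ 2 * sh 2 (qn 1 2 z) ∈ ZR 5 (2 * T + 2 * T') :=
    mul_ZR (i := 3) (j := 2) (qZ (n := 1) hz) (sq_ZR hz')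
  have f2 : qn 1 2 z' * sh 3 (z ^ 2) ∈ ZR 5 (2 * T + 2 * T') :=
    mul_ZR (i := 2) (j := 3) (sq_ZR hz) (qZ (n := 1) hz')
  have hadd := SN.tQA 2 5 _ _ f1 _ f2
  refine BR_cancel hadd (Submodule.add_mem _ ?_ ?_)
  · refine van2 (i := 3) (j := 2) (qZ (n := 1) hz) (sq_ZR hz') h21 (Or.inr (q11 hz)) ?_
    rw [q2]
    exact sq_BR h2'
  · refine van2 (i := 2) (j := 3) (sq_ZR hz) (qZ (n := 1) hz') ?_ (Or.inl (q11 hz')) h21'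
    rw [q2]
    exact sq_BR h2

end XConv

end Pool.Agent.Work.MP_701abf_gt.F5
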