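import Pool.Agent.Work.MP_701abf_gt.TwT.Stmts
import Pool.Agent.Work.MP_701abf_gt.FL.Stmts

/-!
# The five-line theorem: definitions (captain helper72)

Algebra: `Sys`, `Sys.ten`, `e`, `Dg`, `Let`, `Cl`, `TP`, `BQ`, `KU`, `Ops` are those of
`TwT/Defs.lean`. In `Sys.ten V W` the elements are pairs `(l, v)` with `l` in `W.I`, `v` in `V.I`.
-/

open MvPolynomial
open Pool.Agent.Work.MP_701abf_gt.Stab Pool.Agent.Work.MP_701abf_gt.Cob
open Pool.Agent.Work.MP_701abf_gt.Sq2 Pool.Agent.Work.MP_701abf_gt.TwT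

namespace Pool.Agent.Work.MP_701abf_gt.F5

noncomputable section

open Classical in
/-- The vector `l ⊗ y`. -/
def lft {α β : Type} (l : α) (y : β → ZMod 2) : α × β → ZMod 2 :=
  fun p => if p.1 = l then y p.2 else 0

open Classical in
/-- The vector `b ⊗ v`. -/
def rgt {α β : Type} (v : β) (b : α → ZMod 2) : α × β → ZMod 2 :=
  fun p => if p.2 = v then b p.1 else 0

open Classical in
/-- The basis vector `v`. -/
def one1 {β : Type} (v : β) : β → ZMod 2 := fun v' => if v' = v then 1 else 0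

/-- The first operation is injective in degree two. -/
def Inj2 (V : Sys) : Prop := ∀ y : V.I → ZMod 2, V.Dg 2 y → V.e 1 y = 0 → y = 0

/-- There is at most one element of degree two. -/
def One2 (V : Sys) : Prop := ∀ l m : V.I, V.d l = 2 → V.d m = 2 → l = m

/-- The property of the clusters: `e 1 e 1 = 0`, and for a cluster without elements of degree one
the first operation is injective in degree two, where there is at most one element. -/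
def Pr (W : Sys) : Prop := W.Z1 ∧ ((∀ l, W.d l ≠ 1) → Inj2 W ∧ One2 W)

/-- `z` is on the 3-line in degree `T`, with `Sq^2 z = 0`, and `Sq^1 z = Sq^0 α` with
`Sq^2 α = 0`. -/
def Zz (q : ℕ → ℕ → RR Empty → RR Empty) (T : ℤ) (z : RR Empty) : Prop :=
  z ∈ ZR 3 T ∧ q 2 3 z ∈ BR 5 (2 * T) ∧
    ∃ α ∈ ZR 4 T, q 1 3 z + α ^ 2 ∈ BR 4 (2 * T) ∧ q 2 4 α ∈ BR 6 (2 * T)

/-- The exceptional classes of the first kind: `Sq^0 X = Sq^1 (h_a z)`. -/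
def Ka (q : ℕ → ℕ → RR Empty → RR Empty) (t : ℤ) (X : RR Empty) : Prop :=
  ∃ (a : ℕ) (T : ℤ) (z : RR Empty), 0 < T ∧ t = 2 ^ a + T ∧ Zz q T z ∧
    q 1 4 (ha a * sh 1 z) + X ^ 2 ∈ BR 5 (2 * t)

/-- The exceptional classes of the second kind: `Sq^0 X = Sq^1 (h_a z + h_b z')`, with `z`, `z'` on
the 3-line in the degrees `2 ^ b`, `2 ^ a`. -/
def Kd (q : ℕ → ℕ → RR Empty → RR Empty) (t : ℤ) (X : RR Empty) : Prop :=
  ∃ (a b : ℕ) (z z' : RR Empty), t = 2 ^ a + 2 ^ b ∧ Zz q (2 ^ b) z ∧ Zz q (2 ^ a) z' ∧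
    q 1 4 (ha a * sh 1 z + ha b * sh 1 z') + X ^ 2 ∈ BR 5 (2 * t)

/-- The exceptional classes of the third kind: `Sq^0 X = Sq^1 (z z')`, with `z`, `z'` on the
2-line, `Sq^2 z = 0`, `Sq^2 z' = 0`. -/
def Kb (q : ℕ → ℕ → RR Empty → RR Empty) (t : ℤ) (X : RR Empty) : Prop :=
  ∃ T T' : ℤ, 0 < T ∧ 0 < T' ∧ (¬ ∃ b : ℕ, T = 2 ^ b) ∧ (¬ ∃ b : ℕ, T' = 2 ^ b) ∧ t = T + T' ∧
    ∃ z ∈ ZR 2 T, ∃ z' ∈ ZR 2 T', q 2 2 z ∈ BR 4 (2 * T) ∧ q 2 2 z' ∈ BR 4 (2 * T') ∧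
      q 1 4 (z' * sh 2 z) + X ^ 2 ∈ BR 5 (2 * t)

/-- The conclusion for the classes on the 5-line in degree `t`. -/
def Five (q : ℕ → ℕ → RR Empty → RR Empty) (t : ℤ) : Prop :=
  ∀ X ∈ ZR 5 t, q 1 5 X ∈ BR 6 (2 * t) →
    (∃ Y ∈ ZR 4 t, q 1 4 Y + X ^ 2 ∈ BR 5 (2 * t)) ∧
    (q 2 5 X ∈ BR 7 (2 * t) → X ∈ BR 5 t ∨ Ka q t X ∨ Kd q t X ∨ Kb q t X)

end

end Pool.Agent.Work.MP_701abf_gt.F5
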