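import Pool.Agent.Work.MP_701abf_gt.SN.Cup
import Pool.Agent.Work.MP_701abf_gt.FL.HDefs

/-!
Definitions for the statement of the five-line theorem.
-/

open MvPolynomial

namespace Pool.Agent.Work.MP_701abf_gt.F5

open Pool.Agent.Work.MP_701abf_gt.Cob Pool.Agent.Work.MP_701abf_gt.SN
open Pool.Agent.Work.MP_701abf_gt.FL

noncomputable section

/-- The cocycle `z` of degree `(3, T)` satisfies `Sq^2 z_j = 0` and `Sq^2 Sq^1 z_j = 0` for all `j`,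
where `z_j = (Sq^0)^j z`. -/
def Flat (T : ℕ) (z : Cobar 3) : Prop :=
  z ∈ Zc 3 T ∧ ∀ j : ℕ, sqN 2 3 (z ^ 2 ^ j) ∈ Bc 5 (2 ^ (j + 1) * T) ∧
    sqN 2 4 (sqN 1 3 (z ^ 2 ^ j)) ∈ Bc 6 (2 ^ (j + 2) * T)

/-- The family `x_j` of the class of `p`, of degree `(5, n)`, satisfies
`x_{j+1} = Sq^1 (z_j h_{a+j})` for all `j`, where `z` satisfies `Flat`. -/
def ExcA (n : ℕ) (p : Cobar 5) : Prop :=
  ∃ (a T : ℕ) (z : Cobar 3), 2 ^ a + T = n ∧ Flat T z ∧ ∀ j : ℕ,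
    p ^ 2 ^ (j + 1) + sqN 1 4 (jux 3 1 (z ^ 2 ^ j) (hCls (a + j))) ∈ Bc 5 (2 ^ (j + 1) * n)

/-- The family `x_j` of the class of `p`, of degree `(5, n)`, satisfies
`x_{j+1} = Sq^1 (h_{a+j} h_{b+j} h_{c+j} h_{d+j})` for all `j`, where `a + 2 ≤ b`, `c + 2 ≤ d`,
`h_{a+j}² h_{b+j}² = 0`, `h_{c+j}² h_{d+j}² = 0`. -/
def ExcB (n : ℕ) (p : Cobar 5) : Prop :=
  ∃ a b c d : ℕ, a + 2 ≤ b ∧ c + 2 ≤ d ∧ 2 ^ a + 2 ^ b + 2 ^ c + 2 ^ d = n ∧ ∀ j : ℕ,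
    p ^ 2 ^ (j + 1) + sqN 1 4 (jux 2 2 (jux 1 1 (hCls (a + j)) (hCls (b + j)))
      (jux 1 1 (hCls (c + j)) (hCls (d + j)))) ∈ Bc 5 (2 ^ (j + 1) * n) ∧
    jux 2 2 (jux 1 1 (hCls (a + j)) (hCls (a + j))) (jux 1 1 (hCls (b + j)) (hCls (b + j))) ∈
      Bc 4 (2 ^ (j + 1) * (2 ^ a + 2 ^ b)) ∧
    jux 2 2 (jux 1 1 (hCls (c + j)) (hCls (c + j))) (jux 1 1 (hCls (d + j)) (hCls (d + j))) ∈
      Bc 4 (2 ^ (j + 1) * (2 ^ c + 2 ^ d))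

end

end Pool.Agent.Work.MP_701abf_gt.F5
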