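import Pool.Agent.Work.MP_701abf_gt.F5.ThreeB

/-!
# The 3-line in the degrees `2 ^ b`, part C: the squares
-/

open MvPolynomial
open Finset.HasAntidiagonal (antidiagonal mem_antidiagonal)
open Pool.Agent.Work.MP_701abf_gt.Stab Pool.Agent.Work.MP_701abf_gt.Cob
open Pool.Agent.Work.MP_701abf_gt.Sq2 Pool.Agent.Work.MP_701abf_gt.Sq2.FL

namespace Pool.Agent.Work.MP_701abf_gt.F5.XThr

open Pool.Agent.Work.MP_701abf_gt.Sq2.FL.XCoef

noncomputable section

/-- The coefficient of `w_k ^ 2`. -/
def rho (k : ℕ) : RR (Option Empty) →ₐ[ZMod 2] RR Empty := ev gG (fun _ i => if i = k then 1 else 0)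

lemma rho_inl (k : ℕ) (v : ℕ × ℕ) : rho k (X (Sum.inl v)) = X (Sum.inl v) := by
  unfold rho
  rw [ev_inl]
  rfl

lemma rho_w (k i : ℕ) : rho k (X (Sum.inr (none, i))) = if i = k then 1 else 0 := by
  unfold rho
  rw [ev_inr]

lemma rho_jO (k : ℕ) (F : RR Empty) : rho k (jO F) = F := by
  have : (rho k).comp jO = AlgHom.id (ZMod 2) (RR Empty) := by
    refine algHom_ext fun v => ?_
    rcases v with v | ⟨e, _⟩
    · rw [AlgHom.comp_apply, jO_inl, rho_inl]
      rfl
    · exact e.elim
  exact congrArg (fun φ => φ F) this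

lemma rho_lev (k : ℕ) {n : ℕ} {F : RR (Option Empty)} (hF : F ∈ lev (Option Empty) n) :
    rho k F ∈ lev Empty n := by
  refine subst_lev (fun n b i => ?_) hF
  split_ifs
  · exact map_one _
  · exact map_zero _

lemma rho_gG (k a n : ℕ) : rho k ((gG (ι := Option Empty) a).co n) = (gG a).co n := by
  rw [← jO_gG, rho_jO]

lemma rho_act (j k : ℕ) : rho j (act 0 (gG 0) (gW (none : Option Empty)) k) =
    if j ≤ k then (gG 0).co (k - j) ^ 2 ^ j else 0 := by
  rw [act_apply, map_sum]
  have h : ∀ p ∈ antidiagonal k, rho j ((gG 0).co p.1 ^ 2 ^ (p.2 + 0) * gW none p.2) =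
      if p.2 = j then (gG 0).co p.1 ^ 2 ^ p.2 else 0 := by
    intro p _
    have h1 : rho j (gW none p.2) = if p.2 = j then 1 else 0 := rho_w j p.2
    rw [map_mul, map_pow, rho_gG, h1, add_zero]
    split_ifs
    · rw [mul_one]
    · rw [mul_zero]
  rw [Finset.sum_congr rfl h]
  by_cases hjk : j ≤ k
  · rw [if_pos hjk, Finset.sum_eq_single (k - j, j)]
    · rw [if_pos rfl]
    · rintro ⟨p, q⟩ hp hne
      refine if_neg ?_
      rintro rfl
      apply hne
      have := mem_antidiagonal.1 hp
      simp only at this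
      rw [← this, Nat.add_sub_cancel]
    · intro h'
      exact absurd (mem_antidiagonal.2 (by simp only; omega)) h'
  · rw [if_neg hjk]
    refine Finset.sum_eq_zero ?_
    rintro ⟨p, q⟩ hp
    have := mem_antidiagonal.1 hp
    simp only at this
    exact if_neg (by simp only; omega)

/-- The variable `w_k`. -/
abbrev sv (k : ℕ) : (ℕ × ℕ) ⊕ (Option Empty × ℕ) := Sum.inr (none, k)

/-- The number of variables `w_i` in a monomial. -/
lemma key_sum {y : RR (Option Empty)} {M : ℤ} (hy : WH (wt cO (fun _ => 0)) y ((0, 2), M)) (r : ℕ)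
    (hr : ∀ i, sv i ∈ y.vars → i < r) (d : ((ℕ × ℕ) ⊕ (Option Empty × ℕ)) →₀ ℕ)
    (hd : d ∈ y.support) : ∑ i ∈ Finset.range r, d (sv i) = 2 := by
  classical
  have h1 := hy (mem_support_iff.1 hd)
  have h3 : ∑ v ∈ d.support, d v • qq (wt (cO (ι := Empty)) (fun _ => 0) v) = 2 := by
    have h4 : qq (Finsupp.weight (wt (cO (ι := Empty)) (fun _ => 0)) d) = 2 := by
      rw [h1]
      rfl
    rw [← h4, Finsupp.weight_apply, Finsupp.sum, map_sum]
    exact Finset.sum_congr rfl fun v _ => (map_nsmul _ _ _).symm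
  set S : Finset ((ℕ × ℕ) ⊕ (Option Empty × ℕ)) :=
    (Finset.range r).image (fun i => sv i) with hS
  have h5 : ∑ v ∈ S, d v • qq (wt (cO (ι := Empty)) (fun _ => 0) v) =
      ∑ v ∈ d.support ∪ S, d v • qq (wt (cO (ι := Empty)) (fun _ => 0) v) := by
    refine Finset.sum_subset Finset.subset_union_right ?_
    intro v hv hvS
    have hvd : v ∈ d.support := by
      rcases Finset.mem_union.1 hv with h | h
      · exact h
      · exact absurd h hvS
    rcases v with v | ⟨o, i⟩
    · exact smul_zero _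
    · cases o with
      | some e => exact e.elim
      | none =>
        exfalso
        apply hvS
        have hvy : sv i ∈ y.vars := (mem_vars_iff_mem_support _).2 ⟨d, hd, hvd⟩
        exact Finset.mem_image.2 ⟨i, Finset.mem_range.2 (hr i hvy), rfl⟩
  have h6 : ∑ v ∈ d.support, d v • qq (wt (cO (ι := Empty)) (fun _ => 0) v) =
      ∑ v ∈ d.support ∪ S, d v • qq (wt (cO (ι := Empty)) (fun _ => 0) v) := by
    refine Finset.sum_subset Finset.subset_union_left ?_
    intro v _ hv
    rw [Finsupp.notMem_support_iff.1 hv, zero_smul]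
  rw [h6, ← h5, hS, Finset.sum_image (fun a _ b _ h => by
    exact (Prod.mk.inj (Sum.inr_injective h)).2)] at h3
  have h7 : ∀ i ∈ Finset.range r, d (sv i) •
      qq (wt (cO (ι := Empty)) (fun _ => 0) (sv i)) = ((d (sv i) : ℕ) : ℤ) := by
    intro i _
    have : qq (wt (cO (ι := Empty)) (fun _ => 0) (sv i)) = 1 := rfl
    rw [this, nsmul_eq_mul, mul_one]
  rw [Finset.sum_congr rfl h7] at h3
  exact_mod_cast h3

/-- The exponents of the `w_i` are even if the derivatives vanish. -/
lemma key_even {y : RR (Option Empty)} (h : ∀ k, pw k y = 0)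
    (d : ((ℕ × ℕ) ⊕ (Option Empty × ℕ)) →₀ ℕ) (hd : d ∈ y.support) (i : ℕ) :
    Even (d (sv i)) := by
  classical
  have h1 : X (sv i) * pw i y = ∑ e ∈ y.support, e (sv i) • monomial e (coeff e y) := by
    conv_lhs => rw [y.as_sum]
    rw [map_sum, Finset.mul_sum]
    exact Finset.sum_congr rfl fun e _ => X_mul_pderiv_monomial
  rw [h i, mul_zero] at h1
  have h2 := congrArg (coeff d) h1
  rw [coeff_zero, coeff_sum, Finset.sum_eq_single d] at h2
  · rw [coeff_smul, coeff_monomial, if_pos rfl] at h2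
    have h3 : coeff d y ≠ 0 := mem_support_iff.1 hd
    have h4 : ((d (sv i) : ℕ) : ZMod 2) * coeff d y = 0 := by
      rw [← nsmul_eq_mul]
      exact h2.symm
    rcases mul_eq_zero.1 h4 with h5 | h5
    · exact (ZMod.natCast_eq_zero_iff_even).1 h5
    · exact absurd h5 h3
  · intro e _ he
    rw [coeff_smul, coeff_monomial, if_neg he, smul_zero]
  · intro hd'
    exact absurd hd hd'

/-- Every monomial contains exactly one `w_k ^ 2`. -/
lemma key_one {y : RR (Option Empty)} {M : ℤ} (hy : WH (wt cO (fun _ => 0)) y ((0, 2), M)) (r : ℕ)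
    (hr : ∀ i, sv i ∈ y.vars → i < r) (h : ∀ k, pw k y = 0)
    (d : ((ℕ × ℕ) ⊕ (Option Empty × ℕ)) →₀ ℕ) (hd : d ∈ y.support) :
    ∃ k < r, d (sv k) = 2 ∧ ∀ i, i ≠ k → d (sv i) = 0 := by
  have h1 := key_sum hy r hr d hd
  have h2 := key_even h d hd
  obtain ⟨k, hk, hk0⟩ : ∃ k ∈ Finset.range r, d (sv k) ≠ 0 := by
    by_contra hcon
    push Not at hcon
    rw [Finset.sum_eq_zero hcon] at h1
    omega
  have h3 : 2 ≤ d (sv k) := by
    obtain ⟨m, hm⟩ := h2 k
    omega
  rw [← Finset.add_sum_erase _ _ hk] at h1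
  have h4 : d (sv k) = 2 := by omega
  have h5 : ∑ x ∈ (Finset.range r).erase k, d (sv x) = 0 := by omega
  refine ⟨k, Finset.mem_range.1 hk, h4, fun i hi => ?_⟩
  by_cases hir : i < r
  · exact (Finset.sum_eq_zero_iff.1 h5) i (Finset.mem_erase.2 ⟨hi, Finset.mem_range.2 hir⟩)
  · by_contra hne
    exact hir (hr i ((mem_vars_iff_mem_support _).2 ⟨d, hd, Finsupp.mem_support_iff.2 hne⟩))

/-- The expansion. -/
lemma sq_exp {M : ℤ} {y : RR (Option Empty)} (hy : y ∈ CW 2 2 M) (h : ∀ k, pw k y = 0) :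
    (∀ k, rho k y ∈ lev Empty 2) ∧ (∀ k, WH wE (rho k y) (0, M - 2 ^ (k + 1))) ∧
    ∃ r, (∀ k, r ≤ k → rho k y = 0) ∧
      y = ∑ k ∈ Finset.range r, jO (rho k y) * gW none k ^ 2 := by
  classical
  have hyw : WH (wt cO (fun _ => 0)) y ((0, 2), M) := hy.2
  obtain ⟨r, hr, -⟩ := bound y
  have key := key_one hyw r hr h
  -- the parts
  set f : ℕ → RR Empty := fun k => ∑ d ∈ y.support.filter (fun d => d (sv k) = 2),
    rO (monomial (d - Finsupp.single (sv k) 2) (coeff d y)) with hf
  have hsub : ∀ k, ∀ d ∈ y.support.filter (fun d => d (sv k) = 2),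
      d - Finsupp.single (sv k) 2 + Finsupp.single (sv k) 2 = d := by
    intro k d hd
    refine tsub_add_cancel_of_le ?_
    rw [Finsupp.single_le_iff, (Finset.mem_filter.1 hd).2]
  have hwt : ∀ k, ∀ d ∈ y.support.filter (fun d => d (sv k) = 2),
      WH (wt cO (fun _ => 0)) (monomial (d - Finsupp.single (sv k) 2) (coeff d y))
        ((0, 0), M - 2 ^ (k + 1)) := by
    intro k d hd
    refine isWeightedHomogeneous_monomial _ _ _ ?_
    have h1 := hyw (mem_support_iff.1 (Finset.mem_filter.1 hd).1)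
    rw [← hsub k d hd, map_add, Finsupp.weight_single] at h1
    have h2 : (2 : ℕ) • wt (cO (ι := Empty)) (fun _ => 0) (sv k) = ((0, 2), 2 ^ (k + 1)) := by
      have : wt (cO (ι := Empty)) (fun _ => 0) (sv k) = ((0, 1), 2 ^ (k + 0)) := rfl
      rw [this, two_nsmul, add_zero, pow_succ, mul_two]
      rfl
    rw [h2] at h1
    have h3 := eq_sub_of_add_eq h1
    rw [h3]
    change (((0 : ℤ), (2 : ℤ)) - (0, 2), M - 2 ^ (k + 1)) = _
    rw [sub_self]
    rfl
  have hjf : ∀ k, ∀ d ∈ y.support.filter (fun d => d (sv k) = 2),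
      jO (rO (monomial (d - Finsupp.single (sv k) 2) (coeff d y))) =
        monomial (d - Finsupp.single (sv k) 2) (coeff d y) := fun k d hd =>
    jO_rO (hwt k d hd)
  have hfw : ∀ k, WH wE (f k) (0, M - 2 ^ (k + 1)) := by
    intro k
    refine IsWeightedHomogeneous.sum _ _ _ fun d hd => ?_
    exact rO_gr.map (hwt k d hd)
  have hf0 : ∀ k, r ≤ k → f k = 0 := by
    intro k hk
    refine Finset.sum_eq_zero fun d hd => ?_
    exfalso
    obtain ⟨hd1, hd2⟩ := Finset.mem_filter.1 hd
    obtain ⟨l, hl, hl2, hl3⟩ := key d hd1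
    rw [hl3 k (by omega)] at hd2
    omega
  have hexp : y = ∑ k ∈ Finset.range r, jO (f k) * gW none k ^ 2 := by
    have h1 : ∀ k ∈ Finset.range r, jO (f k) * gW none k ^ 2 =
        ∑ d ∈ y.support, if d (sv k) = 2 then monomial d (coeff d y) else 0 := by
      intro k _
      rw [hf]
      simp only
      rw [map_sum, Finset.sum_mul, ← Finset.sum_filter]
      refine Finset.sum_congr rfl fun d hd => ?_
      rw [hjf k d hd]
      have h2 : (gW none k : RR (Option Empty)) ^ 2 = monomial (Finsupp.single (sv k) 2) 1 := by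
        unfold gW
        rw [X_pow_eq_monomial]
      rw [h2, monomial_mul, mul_one, hsub k d hd]
    rw [Finset.sum_congr rfl h1, Finset.sum_comm]
    conv_lhs => rw [y.as_sum]
    refine Finset.sum_congr rfl fun d hd => ?_
    obtain ⟨l, hl, hl2, hl3⟩ := key d hd
    rw [Finset.sum_eq_single l]
    · rw [if_pos hl2]
    · intro k _ hk
      rw [if_neg (by rw [hl3 k hk]; omega)]
    · intro hl'
      exact absurd (Finset.mem_range.2 hl) hl'
  have hrho : ∀ k, rho k y = f k := by
    intro k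
    conv_lhs => rw [hexp]
    rw [map_sum]
    have h1 : ∀ l ∈ Finset.range r, rho k (jO (f l) * gW none l ^ 2) =
        if l = k then f k else 0 := by
      intro l _
      have h2 : rho k (gW none l) = if l = k then 1 else 0 := rho_w k l
      rw [map_mul, map_pow, rho_jO, h2]
      by_cases hlk : l = k
      · rw [if_pos hlk, if_pos hlk, one_pow, mul_one, hlk]
      · rw [if_neg hlk, if_neg hlk, zero_pow two_ne_zero, mul_zero]
    rw [Finset.sum_congr rfl h1, Finset.sum_ite_eq']
    split_ifs with h3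
    · rfl
    · rw [Finset.mem_range, not_lt] at h3
      exact (hf0 k h3).symm
  refine ⟨fun k => rho_lev k hy.1, fun k => ?_, r, fun k hk => ?_, ?_⟩
  · rw [hrho]
    exact hfw k
  · rw [hrho]
    exact hf0 k hk
  · conv_lhs => rw [hexp]
    exact Finset.sum_congr rfl fun k _ => by rw [hrho]

/-- The cocycle condition for the coefficients of the squares. -/
lemma sq_cocycle {M : ℤ} {y : RR (Option Empty)} (hy : y ∈ CW 2 2 M) (h : ∀ k, pw k y = 0)
    (hd : dc 2 y = 0) (j : ℕ) : ∃ r, (∀ k, r ≤ k → rho k y = 0) ∧ dE 2 (rho j y) =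
      ∑ k ∈ Finset.range r, if j < k then
        ((gG (ι := Empty) 0).co (k - j) ^ 2 ^ j) ^ 2 * sh 1 (rho k y) else 0 := by
  obtain ⟨-, -, r, hr, hexp⟩ := sq_exp hy h
  refine ⟨r, hr, ?_⟩
  have h1 := congrArg (rho j) (faces3 hd)
  rw [map_add, map_add, map_zero] at h1
  have hA : rho j (face (fun _ => 0) 0 y) = ∑ k ∈ Finset.range r,
      sh 1 (rho k y) * (if j ≤ k then (gG 0).co (k - j) ^ 2 ^ j else 0) ^ 2 := by
    conv_lhs => rw [hexp]
    rw [map_sum, map_sum]
    refine Finset.sum_congr rfl fun k _ => ?_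
    have h2 : face (fun _ : Option Empty => 0) 0 (gW none k) = act 0 (gG 0) (gW none) k :=
      face_zero_w k
    rw [map_mul, map_mul, map_pow, map_pow, face_jO, rho_jO, h2, rho_act, face_zero]
  have hB : ∀ i, rho j (face (fun _ => 0) (i + 1) y) = face (fun _ => 0) (i + 1) (rho j y) := by
    intro i
    have h3 : ∀ k, face (fun _ : Option Empty => 0) (i + 1) (gW none k) = gW none k :=
      fun k => face_succ_w i k
    have h4 : rho j (face (fun _ => 0) (i + 1) y) = ∑ k ∈ Finset.range r,
        if k = j then face (fun _ => 0) (i + 1) (rho j y) else 0 := by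
      conv_lhs => rw [hexp]
      rw [map_sum, map_sum]
      refine Finset.sum_congr rfl fun k _ => ?_
      have h5 : rho j (gW none k) = if k = j then 1 else 0 := rho_w j k
      rw [map_mul, map_mul, map_pow, map_pow, face_jO, rho_jO, h3, h5]
      by_cases hkj : k = j
      · rw [if_pos hkj, if_pos hkj, one_pow, mul_one, hkj]
      · rw [if_neg hkj, if_neg hkj, zero_pow two_ne_zero, mul_zero]
    rw [h4, Finset.sum_ite_eq']
    split_ifs with h6
    · rfl
    · rw [Finset.mem_range, not_lt] at h6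
      rw [hr j h6, map_zero]
  have hB1 := hB 0
  have hB2 := hB 1
  simp only [zero_add] at hB1
  rw [show (1 + 1 : ℕ) = 2 from rfl] at hB2
  rw [hA, hB1, hB2] at h1
  have hC : ∑ k ∈ Finset.range r,
      sh 1 (rho k y) * (if j ≤ k then (gG 0).co (k - j) ^ 2 ^ j else 0) ^ 2 =
      sh 1 (rho j y) + ∑ k ∈ Finset.range r, if j < k then
        ((gG (ι := Empty) 0).co (k - j) ^ 2 ^ j) ^ 2 * sh 1 (rho k y) else 0 := by
    have h4 : ∀ k ∈ Finset.range r,
        sh 1 (rho k y) * (if j ≤ k then (gG 0).co (k - j) ^ 2 ^ j else 0) ^ 2 =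
        (if k = j then sh 1 (rho j y) else 0) + if j < k then
        ((gG (ι := Empty) 0).co (k - j) ^ 2 ^ j) ^ 2 * sh 1 (rho k y) else 0 := by
      intro k _
      rcases lt_trichotomy k j with h | h | h
      · rw [if_neg (by omega), if_neg (by omega), if_neg (by omega), zero_pow two_ne_zero,
          mul_zero, add_zero]
      · subst h
        rw [if_pos le_rfl, if_pos rfl, if_neg (by omega), Nat.sub_self, add_zero,
          Pt.co_zero, one_pow, one_pow, mul_one]
      · rw [if_pos h.le, if_neg (by omega), if_pos h, zero_add, mul_comm]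
    rw [Finset.sum_congr rfl h4, Finset.sum_add_distrib, Finset.sum_ite_eq']
    congr 1
    split_ifs with h6
    · rfl
    · rw [Finset.mem_range, not_lt] at h6
      rw [hr j h6, map_zero]
  rw [hC] at h1
  rw [dR_apply]
  simp only [Finset.sum_range_succ, Finset.sum_range_zero, zero_add]
  rw [face_zero]
  refine add_eq_zero2.1 (Eq.trans ?_ h1)
  abel

/-- A family with one term. -/
def sg1 (F : RR Empty) (i : ℕ) : RR Empty := if i = 0 then F else 0

/-- 1-cocycles. -/
lemma cls1 {N : ℤ} {F : RR Empty} (hF : F ∈ lev Empty 2) (hw : WH wE F (0, N))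
    (hd : dE 2 F = 0) : F = 0 ∨ ∃ b : ℕ, N = 2 ^ b ∧ F = ha b := by
  have hCf : Cf (N + 1) 1 (sg1 F) := by
    refine ⟨fun i => ?_, fun i => ?_, fun i hi => ?_, fun j => ?_⟩
    · unfold sg1
      split_ifs
      · exact hF
      · exact Submodule.zero_mem _
    · unfold sg1
      split_ifs with hi
      · subst hi
        rw [pow_zero, add_sub_cancel_right]
        exact hw
      · exact isWeightedHomogeneous_zero _ _ _
    · unfold sg1
      rw [if_neg (by omega)]
    · rw [Finset.sum_range_one, if_neg (Nat.not_lt_zero j)]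
      unfold sg1
      split_ifs
      · exact hd
      · exact map_zero _
  rcases pr_Top (N + 1) 1 _ hCf with h | ⟨r0, b, hr0, -, h2, h3⟩
  · left
    have := h 0
    rwa [sg1, if_pos rfl] at this
  · right
    obtain rfl : r0 = 0 := by omega
    rw [sg1, if_pos rfl] at h3
    refine ⟨b, ?_, h3⟩
    rw [pow_zero] at h2
    linarith

/-- The top coefficient. -/
lemma top_sq {c : ℕ} {y : RR (Option Empty)} (hy : y ∈ CW 2 2 (2 ^ c + 1)) (h : ∀ k, pw k y = 0)
    (hd : dc 2 y = 0) : y = 0 ∨ ∃ k, k + 1 = c ∧ rho k y = ha 0 ∧ (∀ l, k < l → rho l y = 0) := by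
  obtain ⟨hl, hwt, r, hr, hexp⟩ := sq_exp hy h
  by_cases hz : ∀ k, rho k y = 0
  · left
    rw [hexp]
    exact Finset.sum_eq_zero fun k _ => by rw [hz k, map_zero, zero_mul]
  · right
    push Not at hz
    obtain ⟨k0, hk0⟩ := hz
    -- the largest index
    obtain ⟨k, hk, hkm⟩ : ∃ k, rho k y ≠ 0 ∧ ∀ l, k < l → rho l y = 0 := by
      have h9 : ∀ s : ℕ, (∀ l, s ≤ l → rho l y = 0) → (∀ l, rho l y = 0) ∨
          ∃ k, rho k y ≠ 0 ∧ ∀ l, k < l → rho l y = 0 := by
        intro s
        induction s with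
        | zero => exact fun h => Or.inl fun l => h l (Nat.zero_le _)
        | succ s ih =>
          intro h
          by_cases hs : rho s y = 0
          · refine ih fun l hl => ?_
            rcases Nat.eq_or_lt_of_le hl with rfl | hl
            · exact hs
            · exact h l hl
          · exact Or.inr ⟨s, hs, fun l hl => h l hl⟩
      rcases h9 r hr with h9 | h9
      · exact absurd (h9 k0) hk0
      · exact h9
    have hdk : dE 2 (rho k y) = 0 := by
      obtain ⟨r', -, h10⟩ := sq_cocycle hy h hd k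
      rw [h10]
      refine Finset.sum_eq_zero fun l _ => ?_
      split_ifs with hlk
      · rw [hkm l hlk, map_zero, mul_zero]
      · rfl
    rcases cls1 (hl k) (hwt k) hdk with h11 | ⟨b, hb, hkb⟩
    · exact absurd h11 hk
    · have h12 : 2 ^ c + 1 = 2 ^ (k + 1) + 2 ^ b := by
        have : (2 : ℤ) ^ c + 1 = 2 ^ b + 2 ^ (k + 1) := sub_eq_iff_eq_add.1 hb
        have h13 : 2 ^ c + 1 = 2 ^ b + 2 ^ (k + 1) := by exact_mod_cast this
        omega
      have hb0 : b = 0 := by
        by_contra hb0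
        obtain ⟨b', rfl⟩ := Nat.exists_eq_succ_of_ne_zero hb0
        rcases Nat.eq_zero_or_pos c with rfl | hc
        · have h14 : 0 < 2 ^ k := by positivity
          have h15 : 0 < 2 ^ b' := by positivity
          rw [pow_succ, Nat.succ_eq_add_one, pow_succ] at h12
          omega
        · obtain ⟨c', rfl⟩ : ∃ c', c = c' + 1 := ⟨c - 1, by omega⟩
          rw [pow_succ, pow_succ, Nat.succ_eq_add_one, pow_succ] at h12
          omega
      subst hb0
      rw [pow_zero] at h12
      have h16 : 2 ^ c = 2 ^ (k + 1) := by omega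
      exact ⟨k, (Nat.pow_right_injective le_rfl h16).symm, hkb, hkm⟩

end

end Pool.Agent.Work.MP_701abf_gt.F5.XThr
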