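import Pool.Agent.Work.MP_701abf_gt.FL.Four

/-!
# The 3-line in the degrees `2 ^ b`, part E: `h_0 ^ 4` is not a coboundary
-/

open MvPolynomial
open Finset.HasAntidiagonal (antidiagonal mem_antidiagonal)
open Pool.Agent.Work.MP_701abf_gt.Stab Pool.Agent.Work.MP_701abf_gt.Cob
open Pool.Agent.Work.MP_701abf_gt.Sq2 Pool.Agent.Work.MP_701abf_gt.Sq2.FL

namespace Pool.Agent.Work.MP_701abf_gt.F5.XThr

open Pool.Agent.Work.MP_701abf_gt.Sq2.FL.XFour (hx)

noncomputable section

/-- The ideal of the squares of the variables. -/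
def sqI : Ideal (MvPolynomial (Fin 4) (ZMod 2)) :=
  Ideal.span ((fun s => monomial s (1 : ZMod 2)) '' {s | ∃ i : Fin 4, s = Finsupp.single i 2})

/-- The ring in which the squares of the variables vanish. -/
abbrev Q4 : Type := MvPolynomial (Fin 4) (ZMod 2) ⧸ sqI

/-- The variables. -/
def ep (i : Fin 4) : Q4 := Ideal.Quotient.mk sqI (X i)

lemma ep_sq (i : Fin 4) : ep i ^ 2 = 0 := by
  unfold ep
  rw [← map_pow, Ideal.Quotient.eq_zero_iff_mem, X_pow_eq_monomial]
  exact Ideal.subset_span ⟨Finsupp.single i 2, ⟨i, rfl⟩, rfl⟩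

lemma two_Q4 : (2 : Q4) = 0 := by
  have h : (2 : MvPolynomial (Fin 4) (ZMod 2)) = 0 := by
    have : (2 : MvPolynomial (Fin 4) (ZMod 2)) = C 2 := by
      rw [map_ofNat]
    rw [this, show (2 : ZMod 2) = 0 from rfl, C_0]
  have h2 := congrArg (Ideal.Quotient.mk sqI) h
  rw [map_ofNat, map_zero] at h2
  exact h2

lemma ep_ne : ep 0 * ep 1 * ep 2 * ep 3 ≠ 0 := by
  intro h
  unfold ep at h
  rw [← map_mul, ← map_mul, ← map_mul, Ideal.Quotient.eq_zero_iff_mem] at h
  have e : (X 0 * X 1 * X 2 * X 3 : MvPolynomial (Fin 4) (ZMod 2)) =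
      monomial (Finsupp.single 0 1 + Finsupp.single 1 1 + Finsupp.single 2 1 +
        Finsupp.single 3 1) 1 := by
    simp only [X, monomial_mul, one_mul]
  rw [e] at h
  unfold sqI at h
  rw [mem_ideal_span_monomial_image] at h
  obtain ⟨s, ⟨i, rfl⟩, hs⟩ := h (Finsupp.single 0 1 + Finsupp.single 1 1 + Finsupp.single 2 1 +
        Finsupp.single 3 1) (by
    rw [mem_support_iff, coeff_monomial, if_pos rfl]
    exact one_ne_zero)
  rw [Finsupp.single_le_iff] at hs
  fin_cases i <;> simp [Finsupp.single_apply] at hs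

/-- A map which kills `ξ_2, ξ_3, ...` and the squares of the `ξ_1`. -/
def Good3 (χ : Cobar 3 →ₐ[ZMod 2] Q4) : Prop :=
  (∀ i, χ (X (i, 0)) ^ 2 = 0) ∧ ∀ i n, χ (X (i, n + 1)) = 0

lemma good_zero {χ : Cobar 3 →ₐ[ZMod 2] Q4} (h : Good3 χ) {G : Cobar 3} (hG : G ∈ Hom 3 4) :
    χ G = 0 := by
  classical
  rw [G.as_sum, map_sum]
  refine Finset.sum_eq_zero fun d hd => ?_
  have hw : Finsupp.weight (fun v : Fin 3 × ℕ => 2 ^ (v.2 + 1) - 1) d = 4 :=
    hG (mem_support_iff.1 hd)
  rw [monomial_eq, map_mul, Finsupp.prod, map_prod]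
  refine mul_eq_zero_of_right _ ?_
  by_cases hv : ∃ v ∈ d.support, v.2 ≠ 0
  · obtain ⟨⟨i, n⟩, hv1, hv2⟩ := hv
    obtain ⟨n, rfl⟩ := Nat.exists_eq_succ_of_ne_zero hv2
    refine Finset.prod_eq_zero hv1 ?_
    rw [map_pow, h.2, zero_pow (Finsupp.mem_support_iff.1 hv1)]
  · push Not at hv
    have h1 : ∑ i : Fin 3, d (i, 0) = 4 := by
      rw [← hw, Finsupp.weight_apply, Finsupp.sum]
      have h2 : ∑ v ∈ (Finset.univ : Finset (Fin 3)).image (fun i => (i, 0)),
          d v • (2 ^ (v.2 + 1) - 1) = ∑ v ∈ d.support, d v • (2 ^ (v.2 + 1) - 1) := by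
        symm
        refine Finset.sum_subset ?_ ?_
        · rintro ⟨i, n⟩ hv'
          obtain rfl : n = 0 := hv _ hv'
          exact Finset.mem_image.2 ⟨i, Finset.mem_univ _, rfl⟩
        · intro v _ hv'
          rw [Finsupp.notMem_support_iff.1 hv', zero_smul]
      rw [← h2, Finset.sum_image (fun a _ b _ hab => (Prod.mk.inj hab).1)]
      exact Finset.sum_congr rfl fun i _ => by simp
    obtain ⟨i, hi⟩ : ∃ i : Fin 3, 2 ≤ d (i, 0) := by
      by_contra hcon
      push Not at hcon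
      have h3 : ∑ i : Fin 3, d (i, 0) ≤ ∑ _i : Fin 3, 1 :=
        Finset.sum_le_sum fun i _ => by have := hcon i; omega
      rw [h1] at h3
      simp at h3
    have hsup : (i, 0) ∈ d.support := Finsupp.mem_support_iff.2 (by omega)
    refine Finset.prod_eq_zero hsup ?_
    obtain ⟨m, hm⟩ := Nat.exists_eq_add_of_le hi
    rw [map_pow, hm, pow_add, h.1, zero_mul]

/-- The evaluation of the 4-cochains. -/
def psi : Cobar 4 →ₐ[ZMod 2] Q4 := aeval fun v => if v.2 = 0 then ep v.1 else 0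

lemma psi_zero (i : Fin 4) : psi (X (i, 0)) = ep i := by
  unfold psi
  rw [aeval_X, if_pos rfl]

lemma psi_succ (i : Fin 4) (n : ℕ) : psi (X (i, n + 1)) = 0 := by
  unfold psi
  rw [aeval_X, if_neg (by simp)]

lemma psi_xi (i : Fin 4) (n : ℕ) (hn : 2 ≤ n) : psi (xi i n) = 0 := by
  obtain ⟨m, rfl⟩ := Nat.exists_eq_add_of_le hn
  rw [show 2 + m = (m + 1) + 1 by ring]
  exact psi_succ i m

lemma psi_xi_sq (i : Fin 4) (n b : ℕ) (hn : 1 ≤ n) (hb : 1 ≤ b) :
    psi (xi i n) ^ 2 ^ b = 0 := by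
  obtain ⟨m, rfl⟩ := Nat.exists_eq_add_of_le hn
  obtain ⟨c, rfl⟩ := Nat.exists_eq_add_of_le hb
  rw [pow_add, pow_one, pow_mul]
  have h : psi (xi i (1 + m)) ^ 2 = 0 := by
    rcases Nat.eq_zero_or_pos m with rfl | hm
    · have : psi (xi i (1 + 0)) = ep i := psi_zero i
      rw [this, ep_sq]
    · rw [psi_xi i _ (by omega), zero_pow two_ne_zero]
  rw [h, zero_pow (by positivity)]

lemma psi_good (j : ℕ) : Good3 (psi.comp (coface 3 j)) := by
  constructor
  · intro i
    rw [AlgHom.comp_apply]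
    unfold coface
    rw [aeval_X]
    simp only
    split_ifs with h1 h2
    · rw [psi_zero, ep_sq]
    · have h3 : psi (∑ p ∈ antidiagonal (0 + 1), xi i.castSucc p.1 ^ 2 ^ p.2 * xi i.succ p.2) =
          ep i.castSucc + ep i.succ := by
        rw [zero_add, Finset.Nat.antidiagonal_succ]
        simp only [Finset.Nat.antidiagonal_zero, Finset.map_singleton, Finset.sum_cons,
          Finset.sum_singleton]
        rw [map_add, add_comm]
        congr 1
        · change psi (xi i.castSucc 1 ^ 2 ^ 0 * xi i.succ 0) = _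
          rw [pow_zero, pow_one]
          change psi (X (i.castSucc, 0) * 1) = _
          rw [mul_one, psi_zero]
        · change psi (xi i.castSucc 0 ^ 2 ^ 1 * xi i.succ 1) = _
          change psi ((1 : Cobar 4) ^ 2 ^ 1 * X (i.succ, 0)) = _
          rw [one_pow, one_mul, psi_zero]
      rw [h3]
      have h4 : (ep i.castSucc + ep i.succ) ^ 2 = ep i.castSucc ^ 2 + ep i.succ ^ 2 +
          2 * (ep i.castSucc * ep i.succ) := by ring
      rw [h4, ep_sq, ep_sq, two_Q4]
      ring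
    · rw [psi_zero, ep_sq]
  · intro i n
    rw [AlgHom.comp_apply]
    unfold coface
    rw [aeval_X]
    simp only
    split_ifs with h1 h2
    · rw [psi_succ]
    · rw [map_sum]
      refine Finset.sum_eq_zero ?_
      rintro ⟨a, b⟩ hab
      have hab' := mem_antidiagonal.1 hab
      simp only at hab'
      rw [map_mul, map_pow]
      simp only
      rcases Nat.eq_zero_or_pos b with rfl | hb
      · rw [pow_zero, pow_one, psi_xi _ a (by omega), zero_mul]
      · rcases Nat.eq_zero_or_pos a with rfl | ha'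
        · rw [psi_xi _ b (by omega), mul_zero]
        · rw [psi_xi_sq _ a b ha' hb, zero_mul]
    · rw [psi_succ]

/-- `h_0 ^ 4` is not a coboundary. -/
lemma h04 : jux 2 2 (jux 1 1 (hx 0) (hx 0)) (jux 1 1 (hx 0) (hx 0)) ∉ Bc 4 4 := by
  intro h
  obtain ⟨G, hG, e⟩ := h
  have h1 : psi (cobarD 3 G) = 0 := by
    unfold cobarD
    rw [LinearMap.sum_apply, map_sum]
    refine Finset.sum_eq_zero fun j _ => ?_
    exact good_zero (psi_good j) hG
  rw [e] at h1
  apply ep_ne
  rw [← h1]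
  have h2 : hx 0 = X (0, 0) := by
    unfold hx
    rw [pow_zero, pow_one]
    rfl
  rw [h2]
  unfold jux
  simp only [rename_X, map_mul]
  have e0 : ∀ i : Fin 4, psi (X (i, 0)) = ep i := psi_zero
  rw [e0, e0, e0, e0]
  simp only [mul_assoc]
  rfl

end

end Pool.Agent.Work.MP_701abf_gt.F5.XThr
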