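import Pool.Agent.Work.MP_701abf_gt.F5.ThreeA
import Pool.Agent.Work.MP_701abf_gt.F5.ThreeC
import Pool.Agent.Work.MP_701abf_gt.F5.ThreeE
import Pool.Agent.Work.MP_701abf_gt.TwT.I_Kp
import Pool.Agent.Work.MP_701abf_gt.TwT.I_Re

/-!
# The 3-line is zero in the degrees `2 ^ b`
-/

open MvPolynomial
open Pool.Agent.Work.MP_701abf_gt.Stab Pool.Agent.Work.MP_701abf_gt.Cob
open Pool.Agent.Work.MP_701abf_gt.Sq2 Pool.Agent.Work.MP_701abf_gt.Sq2.FL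

namespace Pool.Agent.Work.MP_701abf_gt.F5

namespace XThr

open Pool.Agent.Work.MP_701abf_gt.Sq2.FL.XCoef
open Pool.Agent.Work.MP_701abf_gt.Sq2.FL.XFour (hx th_quad)

noncomputable section

lemma sub_mem2 {q : ℤ} {n : ℕ} {M : ℤ} {y e : RR (Option Empty)} (hy : y ∈ CW q (n + 1) M)
    (he : e ∈ CW q n M) (hd : dc (n + 1) y = 0) :
    y + dc n e ∈ CW q (n + 1) M ∧ dc (n + 1) (y + dc n e) = 0 := by
  refine ⟨Submodule.add_mem _ hy (CW_dc he), ?_⟩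
  rw [map_add, hd, zero_add]
  exact dR_dR' _ he.1

/-- The row `q = 2` is exact in the weights `2 ^ c + 1`, `c ≠ 2`. -/
lemma row2 {c : ℕ} (hc : c ≠ 2) {y : RR (Option Empty)} (hy : y ∈ CW 2 2 (2 ^ c + 1))
    (hd : dc 2 y = 0) : ∃ e ∈ CW 2 1 (2 ^ c + 1), dc 1 e = y := by
  obtain ⟨e0, he0, hp⟩ := red hy hd
  obtain ⟨hy', hd'⟩ := sub_mem2 hy he0 hd
  rcases top_sq hy' hp hd' with h | ⟨k, hk, hr, hkm⟩
  · exact ⟨e0, he0, (add_eq_zero2.1 h).symm⟩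
  · obtain ⟨hl, hwt, r, hr0, hexp⟩ := sq_exp hy' hp
    have hkr : k < r := by
      by_contra hcon
      have := hr0 k (not_lt.1 hcon)
      rw [hr] at this
      exact ha_ne 0 this
    rcases Nat.eq_zero_or_pos k with rfl | hk0
    · -- `c = 1`
      have h1 : y + dc 1 e0 = jO (ha 0) * gW none 0 ^ 2 := by
        rw [hexp, Finset.sum_eq_single 0]
        · rw [hr]
        · intro l _ hl0
          rw [hkm l (Nat.pos_of_ne_zero hl0), map_zero, zero_mul]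
        · intro h0
          exact absurd (Finset.mem_range.2 hkr) h0
      have h2 : dc 1 (gW none 0 * gW none c) = jO (ha 0) * gW none 0 ^ 2 := by
        have hc1 : c = 1 := by omega
        subst hc1
        rw [dc1_w0w, (pr_Cwb 1).2, Finset.sum_range_one, cw, if_pos one_pos]
        have h3 : ((gG (ι := Empty) 0).co (1 - 0) ^ 2 ^ 0 : RR Empty) = ha 0 := by
          rw [pow_zero, pow_one]
          change X (Sum.inl (0, 0)) = h0c ^ 2 ^ 0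
          rw [pow_zero, pow_one]
          rfl
        rw [h3]
        ring
      refine ⟨e0 + gW none 0 * gW none c, Submodule.add_mem _ he0 (w0w_mem c), ?_⟩
      rw [map_add, h2, ← h1, add_comm y, ← add_assoc, add_self2, zero_add]
    · -- `c ≥ 3`
      exfalso
      obtain ⟨j, rfl⟩ : ∃ j, k = j + 1 := ⟨k - 1, by omega⟩
      obtain ⟨r', hr', hco⟩ := sq_cocycle hy' hp hd' j
      have hkr' : j + 1 < r' := by
        by_contra hcon
        have := hr' (j + 1) (not_lt.1 hcon)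
        rw [hr] at this
        exact ha_ne 0 this
      rw [Finset.sum_eq_single (j + 1)] at hco
      · rw [if_pos (Nat.lt_succ_self j), Nat.add_sub_cancel_left, hr] at hco
        have h3 : (((gG (ι := Empty) 0).co 1 ^ 2 ^ j) ^ 2 : RR Empty) = ha (j + 1) := by
          rw [← pow_mul, ← pow_succ]
          rfl
        rw [h3] at hco
        have h4 : ha (j + 1) * sh 1 (ha 0) ∈ BR 2 (2 ^ (j + 1) + 2 ^ 0) := by
          refine mem_BR.2 ⟨rho j (y + dc 1 e0), hl j, ?_, hco⟩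
          have h5 := hwt j
          have h6 : (2 : ℤ) ^ c + 1 - 2 ^ (j + 1) = 2 ^ (j + 1) + 2 ^ 0 := by
            rw [← hk, pow_succ (2 : ℤ) (j + 1), pow_zero]
            ring
          rw [h6] at h5
          exact h5
        rcases two_nv (j + 1) 0 h4 with h7 | h7
        · omega
        · omega
      · intro l _ hl
        split_ifs with hlj
        · rw [hkm l (by omega), map_zero, mul_zero]
        · rfl
      · intro h
        exact absurd (Finset.mem_range.2 hkr') h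

/-- In the weight `5` there is at most one class in the row `q = 2`. -/
lemma row2' {y y' : RR (Option Empty)} (hy : y ∈ CW 2 2 (2 ^ 2 + 1)) (hd : dc 2 y = 0)
    (hy' : y' ∈ CW 2 2 (2 ^ 2 + 1)) (hd' : dc 2 y' = 0) :
    (∃ e ∈ CW 2 1 (2 ^ 2 + 1), dc 1 e = y) ∨ (∃ e ∈ CW 2 1 (2 ^ 2 + 1), dc 1 e = y') ∨
      ∃ e ∈ CW 2 1 (2 ^ 2 + 1), dc 1 e = y + y' := by
  obtain ⟨e, he, hp⟩ := red hy hd
  obtain ⟨h1, h2⟩ := sub_mem2 hy he hd
  obtain ⟨e', he', hp'⟩ := red hy' hd'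
  obtain ⟨h1', h2'⟩ := sub_mem2 hy' he' hd'
  rcases top_sq h1 hp h2 with h | ⟨k, hk, hr, hkm⟩
  · exact Or.inl ⟨e, he, (add_eq_zero2.1 h).symm⟩
  rcases top_sq h1' hp' h2' with h | ⟨k', hk', hr', hkm'⟩
  · exact Or.inr (Or.inl ⟨e', he', (add_eq_zero2.1 h).symm⟩)
  obtain rfl : k = k' := by omega
  refine Or.inr (Or.inr ⟨e + e', Submodule.add_mem _ he he', ?_⟩)
  rcases top_sq (Submodule.add_mem _ h1 h1') (fun l => by rw [map_add, hp, hp', add_zero])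
    (by rw [map_add, h2, h2', add_zero]) with h | ⟨l, hl, hrl, -⟩
  · rw [map_add]
    refine add_eq_zero2.1 ?_
    rw [← h]
    abel
  · exfalso
    obtain rfl : l = k := by omega
    rw [map_add, hr, hr', add_self2] at hrl
    exact ha_ne 0 hrl.symm

lemma mem_grC2 {M : ℤ} {n : ℕ} {e : RR (Option Empty)} :
    e ∈ (hs Empty 0 (2 * M - 2)).grC 2 n ↔ e ∈ CW 2 n M := by
  have ew : fT ((0, 2), M) = ((0, 2), 2 * M - 2) := by
    rw [fT_apply]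
  constructor
  · rintro ⟨h1, h2⟩
    exact ⟨h1, (wtT_iff ew).1 h2⟩
  · rintro ⟨h1, h2⟩
    exact ⟨h1, (wtT_iff ew).2 h2⟩

/-- Odd rows vanish. -/
lemma exC_odd {c : ℕ} {q : ℤ} (hq : q = 1 ∨ q = 3) (n : ℕ) :
    (hs Empty 0 (2 * (2 ^ c + 1) - 2)).ExC q n := by
  refine exC_of fun m' hm' => ?_
  exfalso
  rcases hq with rfl | rfl <;> omega

/-- From the comparison data to the cobar complex. -/
lemma back {N : ℤ} {x : RR Empty} (y : RR (Option Empty)) (hy : y ∈ (hs Empty 0 (2 * N)).grC 0 4)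
    (hyd : (hs Empty 0 (2 * N)).dC 4 y = 0) (E : RQ Empty) (hE : E ∈ (hs Empty 0 (2 * N)).gr 0 3)
    (e : EQ x = (hs Empty 0 (2 * N)).T y + (hs Empty 0 (2 * N)).δ 3 E) :
    ∃ z ∈ ZR 3 N, x + z ^ 2 ∈ BR 3 (2 * N) := by
  have e' : EQ x = TQ y + dQ 3 E := e
  have hyd' : dR (fun _ => 0) 4 y = 0 := hyd
  have ew : fT ((0, 0), N) = ((0, 0), 2 * N) := by
    rw [fT_apply]
    simp
  have hyw := (wtT_iff ew).1 hy.2
  have hz : rO y ∈ ZR 3 N := by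
    refine mem_ZR.2 ⟨rO_lev hy.1, ?_, ?_⟩
    · have := rO_gr.map hyw
      rw [wE_eq] at this
      exact this
    · have h1 := rO_d 4 y
      rw [hyd', map_zero] at h1
      rw [← dE_eq (fun _ => 0)]
      exact h1
  refine ⟨rO y, hz, mem_BR.2 ⟨EQ' E, EQ'_lev hE.1, ?_, ?_⟩⟩
  · have := EQ'_gr.map hE.2
    rw [wE_eq] at this
    exact this
  · have h1 := congrArg EQ' e'
    rw [EQ'_EQ, map_add, ← EQ'_d] at h1
    have h2 : EQ' (TQ y) = (rO y) ^ 2 := by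
      rw [← infl_empty, ← EQ'_EQ (infl (rO y)), EQ_infl, jO_rO hyw]
    rw [h2, dE_eq] at h1
    rw [h1]
    have h3 := add_self2 (rO y ^ 2)
    calc dE 3 (EQ' E) = dE 3 (EQ' E) + (rO y ^ 2 + rO y ^ 2) := by rw [h3, add_zero]
      _ = _ := by abel

lemma two_eq (c : ℕ) : (2 : ℤ) * (2 ^ c + 1) - 2 = 2 * 2 ^ c := by ring

/-- `Sq^0` is onto on the 3-line in the degrees `2 ^ (c + 1)`, `c ≠ 2`. -/
lemma step1 {c : ℕ} (hc : c ≠ 2) {x : RR Empty} (hx : x ∈ ZR 3 (2 * 2 ^ c)) :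
    ∃ z ∈ ZR 3 (2 ^ c), x + z ^ 2 ∈ BR 3 (2 * 2 ^ c) := by
  obtain ⟨h1, h2, h3⟩ := mem_ZR.1 hx
  have hX : EQ x ∈ (hs Empty 0 (2 * (2 ^ c + 1) - 2)).gr 0 4 := by
    rw [two_eq]
    exact XSymCob.mem_gr h1 h2
  have key := (hs Empty 0 (2 * (2 ^ c + 1) - 2)).surj 3 (fun i hi1 hi2 => by
    have hi : i = 1 ∨ i = 2 ∨ i = 3 := by omega
    rcases hi with rfl | rfl | rfl
    · exact exC_odd (Or.inl rfl) 2
    · intro y hy hyd
      obtain ⟨e, he, hde⟩ := row2 hc (mem_grC2.1 hy) hyd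
      exact ⟨e, mem_grC2.2 he, hde⟩
    · exact exC_odd (Or.inr rfl) 0) (EQ x) hX (by
      change dQ 4 (EQ x) = 0
      rw [EQ_d, dE_eq, h3, map_zero])
  rw [two_eq] at key
  obtain ⟨y, hy, hyd, E, hE, e⟩ := key
  exact back y hy hyd E hE e

/-- `Sq^0` is onto on the 3-line in the degree `8`. -/
lemma step2 {x : RR Empty} (hx' : x ∈ ZR 3 (2 * 2 ^ 2)) :
    ∃ z ∈ ZR 3 (2 ^ 2), x + z ^ 2 ∈ BR 3 (2 * 2 ^ 2) := by
  obtain ⟨h1, h2, h3⟩ := mem_ZR.1 hx'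
  have hX : EQ x ∈ (hs Empty 0 (2 * (2 ^ 2 + 1) - 2)).gr 0 4 := by
    rw [two_eq]
    exact XSymCob.mem_gr h1 h2
  -- `h_1 ^ 4` is a coboundary
  have h14 := TwT.IKp.four TwT.pr_Re 0
  rw [zero_add, show (4 : ℤ) * 2 ^ 1 = 2 * 2 ^ 2 by norm_num] at h14
  obtain ⟨E0, hE1, hE2, hE3⟩ := mem_BR.1 h14
  have hE : EQ E0 ∈ (hs Empty 0 (2 * (2 ^ 2 + 1) - 2)).gr 0 4 := by
    rw [two_eq]
    exact XSymCob.mem_gr hE1 hE2
  -- `h_0 ^ 4`
  set F : RR Empty := bb 0 * sh 2 (bb 0) with hF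
  have hquad := th_quad 0 0
  have hFB : F ∉ BR 4 4 := by
    intro h
    rw [hF, ← hquad] at h
    have h' : th 4 (jux 2 2 (jux 1 1 (hx 0) (hx 0)) (jux 1 1 (hx 0) (hx 0))) ∈
        BR 4 ((4 : ℕ) : ℤ) := by exact_mod_cast h
    exact h04 (th_mem_BR.1 h')
  have hFZ : F ∈ ZR 4 4 := by
    have a1 := mul_ZR (i := 1) (j := 1) (ha_ZR 0) (ha_ZR 0)
    have a2 := mul_ZR (i := 2) (j := 2) a1 a1
    have a3 : ((2 : ℤ) ^ 0 + 2 ^ 0 + (2 ^ 0 + 2 ^ 0)) = 4 := by norm_num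
    rw [a3] at a2
    exact a2
  have hFsq : F ^ 2 = (ha 1 * sh 1 (ha 1)) * sh 2 (ha 1 * sh 1 (ha 1)) := by
    have a1 : (ha 0) ^ 2 = ha 1 := by
      unfold ha
      rw [← pow_mul]
      rfl
    rw [hF, bb, mul_pow, ← map_pow, mul_pow, ← map_pow, a1]
  obtain ⟨g1, g2, g3⟩ := mem_ZR.1 hFZ
  have ew : fT ((0, 0), 4) = ((0, 0), 2 * (2 ^ 2 + 1) - 2) := by
    rw [fT_apply]
    norm_num
  have hjw : WH (wt cO (fun _ => 0)) (jO F) ((0, 0), 4) := by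
    refine jO_gr.map ?_
    rw [wE_eq]
    exact g2
  have hz : jO F ∈ (hs Empty 0 (2 * (2 ^ 2 + 1) - 2)).grC 0 5 :=
    ⟨jO_lev g1, (wtT_iff ew).2 hjw⟩
  have hδ : (hs Empty 0 (2 * (2 ^ 2 + 1) - 2)).δ 4 (EQ E0) =
      (hs Empty 0 (2 * (2 ^ 2 + 1) - 2)).T (jO F) := by
    change dQ 4 (EQ E0) = TQ (jO F)
    rw [EQ_d, dE_eq, hE3, ← hFsq, ← infl_empty, EQ_infl]
  have hn : ¬ ∃ y ∈ (hs Empty 0 (2 * (2 ^ 2 + 1) - 2)).grC 0 4,
      (hs Empty 0 (2 * (2 ^ 2 + 1) - 2)).dC 4 y = jO F := by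
    rintro ⟨y, hy, hyd⟩
    have hyd' : dR (fun _ => 0) 4 y = jO F := hyd
    apply hFB
    have ew4 : fT ((0, 0), 4) = ((0, 0), 2 * (2 ^ 2 + 1) - 2) := ew
    have hyw := (wtT_iff ew4).1 hy.2
    refine mem_BR.2 ⟨rO y, rO_lev hy.1, ?_, ?_⟩
    · have := rO_gr.map hyw
      rw [wE_eq] at this
      exact this
    · have h7 := rO_d 4 y
      rw [hyd', rO_jO] at h7
      rw [← dE_eq (fun _ => 0)]
      exact h7
  have key := (hs Empty 0 (2 * (2 ^ 2 + 1) - 2)).surj2 (exC_odd (Or.inl rfl) 2)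
    (exC_odd (Or.inr rfl) 0) (fun y hy hyd y' hy' hyd' => by
      rcases row2' (mem_grC2.1 hy) hyd (mem_grC2.1 hy') hyd' with ⟨e, he, hde⟩ | ⟨e, he, hde⟩ |
        ⟨e, he, hde⟩
      · exact Or.inl ⟨e, mem_grC2.2 he, hde⟩
      · exact Or.inr (Or.inl ⟨e, mem_grC2.2 he, hde⟩)
      · exact Or.inr (Or.inr ⟨e, mem_grC2.2 he, hde⟩)) hE hz hδ hn hX (by
      change dQ 4 (EQ x) = 0
      rw [EQ_d, dE_eq, h3, map_zero])
  rw [two_eq] at key
  obtain ⟨y, hy, hyd, E, hE', e⟩ := key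
  exact back y hy hyd E hE' e

end

end XThr

open XThr in
/-- `Ext^{3, 2^b} = 0`. -/
theorem three_pow_all (b : ℕ) : ∀ x ∈ ZR 3 (2 ^ b), x ∈ BR 3 (2 ^ b) := by
  induction b with
  | zero =>
    intro x hx
    rw [pow_zero] at hx ⊢
    exact ZR_w1 (by norm_num) hx
  | succ c ih =>
    intro x hx
    rw [pow_succ'] at hx ⊢
    obtain ⟨z, hz, hxz⟩ : ∃ z ∈ ZR 3 (2 ^ c), x + z ^ 2 ∈ BR 3 (2 * 2 ^ c) := by
      by_cases hc : c = 2
      · subst hc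
        exact step2 hx
      · exact step1 hc hx
    have h1 := sq_BR (ih z hz)
    have h2 := Submodule.add_mem _ hxz h1
    rwa [add_assoc, add_self2, add_zero] at h2

/-- `Ext^{3, 2^b} = 0`, `b ≥ 3`. -/
theorem three_pow : ∀ b : ℕ, 3 ≤ b → ∀ x ∈ ZR 3 (2 ^ b), x ∈ BR 3 (2 ^ b) :=
  fun b _ => three_pow_all b

end Pool.Agent.Work.MP_701abf_gt.F5
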