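import Pool.Agent.Work.MP_701abf_gt.F5.All
import Pool.Agent.Work.MP_701abf_gt.F5.Conv
import Pool.Agent.Work.MP_701abf_gt.F5.HDefs
import Pool.Agent.Work.MP_701abf_gt.F5.Three

/-!
# The five-line theorem: final form
-/

open MvPolynomial
open Pool.Agent.Work.MP_701abf_gt.Stab Pool.Agent.Work.MP_701abf_gt.Cob
open Pool.Agent.Work.MP_701abf_gt.Sq2 Pool.Agent.Work.MP_701abf_gt.TwT

namespace Pool.Agent.Work.MP_701abf_gt.F5

open Pool.Agent.Work.MP_701abf_gt.Sq2.FL.XFour (hx th_hx hx_pow th_pair pair_pow pair_Zc quad_pow th_quad)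
open Pool.Agent.Work.MP_701abf_gt.SN (sqN qn)
open Pool.Agent.Work.MP_701abf_gt.FL (hCls)

open XFin XConv

/-- The final statement. -/
def StFin2 : Prop := ∃ U J : ℕ, ∀ t : ℕ, (∀ a u : ℕ, u ≤ U → t ≠ 2 ^ a * u) → ∀ p ∈ Zc 5 t,
    ((∀ j, J ≤ j → p ^ 2 ^ j ∈ Bc 5 (2 ^ j * t)) ∨
    (∀ j, J ≤ j → jux 6 1 (sqN 1 5 (p ^ 2 ^ j)) (hCls 0) ∉ Bc 7 (2 ^ (j + 1) * t + 1)) ∨
    (∃ q ∈ Zc 4 (2 ^ J * t), ∀ j,
      p ^ 2 ^ (J + j + 1) + sqN 1 4 (q ^ 2 ^ j) ∈ Bc 5 (2 ^ (J + j + 1) * t) ∧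
      (∀ w ∈ Zc 7 (2 ^ (J + j + 1) * t + 1),
        jux 7 1 (sqN 2 5 (p ^ 2 ^ (J + j))) (hCls 1) + jux 7 1 w (hCls 0) ∉
          Bc 8 (2 ^ (J + j + 1) * t + 2)) ∧
      ∀ z ∈ Zc 6 (2 ^ (J + j + 1) * t + 1), ∃ w ∈ Zc 5 (2 ^ (J + j + 1) * t),
        z + jux 5 1 w (hCls 0) ∈ Bc 6 (2 ^ (J + j + 1) * t + 1)) ∨
    ExcA (2 ^ J * t) (p ^ 2 ^ J) ∨ ExcB (2 ^ J * t) (p ^ 2 ^ J)) ∧
    (ExcA (2 ^ J * t) (p ^ 2 ^ J) ∨ ExcB (2 ^ J * t) (p ^ 2 ^ J) → ∀ j, J ≤ j →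
      sqN 1 5 (p ^ 2 ^ j) ∈ Bc 6 (2 ^ (j + 1) * t) ∧
        sqN 2 5 (p ^ 2 ^ j) ∈ Bc 7 (2 ^ (j + 1) * t))

namespace XFin2

lemma hx_pow' (a j : ℕ) : hCls a ^ 2 ^ j = hCls (a + j) := hx_pow a j

/-- from `Zz` to `Flat` -/
lemma flat {T : ℕ} {ζ : Cobar 3} (hζ : ζ ∈ Zc 3 T) (h : Zz qn (T : ℤ) (th 3 ζ)) : Flat T ζ := by
  obtain ⟨-, hz2, α, hα, hα1, hα2⟩ := h
  obtain ⟨A, hAZ, rfl⟩ := exists_th hα
  refine ⟨hζ, fun j => ⟨?_, ?_⟩⟩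
  · have h6 := fr_Bc (j := j) ((SN.sqN_BR (n := 2) SN.tSqN hζ).2 hz2)
    rw [← sqN_pow] at h6
    have e2 : 2 ^ j * (2 * T) = 2 ^ (j + 1) * T := by rw [pow_succ]; ring
    rw [e2] at h6
    exact h6
  · have h6 : A ^ 2 ^ 1 + sqN 1 3 ζ ∈ Bc 4 (2 * T) := by
      refine (add_sqN hζ (A ^ 2 ^ 1)).2 ?_
      rw [map_pow, pow_one]
      exact hα1
    have h7 : sqN 2 4 (A ^ 2 ^ 1) ∈ Bc 6 (2 * (2 ^ 1 * T)) := by
      have h8 := fr_Bc (j := 1) ((SN.sqN_BR (n := 2) SN.tSqN hAZ).2 hα2)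
      rw [← sqN_pow] at h8
      have e2 : 2 ^ 1 * (2 * T) = 2 * (2 ^ 1 * T) := by ring
      rw [e2] at h8
      exact h8
    have h8 : sqN 2 4 (sqN 1 3 ζ) ∈ Bc 6 (2 * (2 * T)) := by
      refine sqN_congr (n := 2) (s := 4) (t := 2 * T) (sqN_Zc (n := 1) hζ) (y := A ^ 2 ^ 1) ?_ ?_ ?_
      · have := fr_Zc (j := 1) hAZ
        rwa [pow_one 2] at this
      · rw [add_comm]
        exact h6
      · rw [pow_one 2] at h7 ⊢
        exact h7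
    have h9 := fr_Bc (j := j) h8
    rw [← sqN_pow, ← sqN_pow] at h9
    have e2 : 2 ^ j * (2 * (2 * T)) = 2 ^ (j + 2) * T := by rw [pow_add]; ring
    rw [e2] at h9
    exact h9

/-- the converse for one class -/
lemma fam {n : ℕ} (hG : Gi 7 ((2 * n : ℕ) : ℤ)) {P : Cobar 5} (hP : P ∈ Zc 5 n) {q : Cobar 4}
    (hq : q ∈ Zc 4 n) (h : P ^ 2 ^ 1 + sqN 1 4 q ∈ Bc 5 (2 * n))
    (h2 : qn 2 5 (qn 1 4 (th 4 q)) ∈ BR 7 (2 * (2 * (n : ℤ)))) :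
    sqN 1 5 P ∈ Bc 6 (2 * n) ∧ sqN 2 5 P ∈ Bc 7 (2 * n) := by
  have hX := th_mem_ZR hP
  have hY := th_mem_ZR hq
  have h1 := (add_sqN hq (P ^ 2 ^ 1)).1 h
  rw [map_pow, pow_one] at h1
  have hG' : Gi 7 (2 * (n : ℤ)) := by
    have e : ((2 * n : ℕ) : ℤ) = 2 * (n : ℤ) := by push_cast; ring
    rwa [e] at hG
  have key : ∀ m, 5 + m ≤ 7 → qn m 5 (qn 1 4 (th 4 q)) ∈ BR (5 + m) (2 * (2 * (n : ℤ))) →
      qn m 5 (th 5 P) ∈ BR (5 + m) (2 * (n : ℤ)) := by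
    intro m hm h3
    refine hG' (5 + m) hm _ (qZ hX) ?_
    have h4 := SN.tQS.1 m 5 (2 * (n : ℤ)) _ (qZ (n := 1) hY) _ (sq_ZR hX) h1
    rw [q2] at h4
    exact BR_cancel' h4 h3
  exact ⟨(SN.sqN_BR (n := 1) SN.tSqN hP).2 (key 1 (by norm_num) (q11 hY)),
    (SN.sqN_BR (n := 2) SN.tSqN hP).2 (key 2 (by norm_num) h2)⟩

/-- from `Flat` to the vanishing of the operations -/
lemma flat_q {T : ℕ} {z : Cobar 3} (h : Flat T z) : z ^ 2 ^ 1 ∈ Zc 3 (2 * T) ∧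
    qn 2 3 (th 3 (z ^ 2 ^ 1)) ∈ BR 5 (2 * ((2 * T : ℕ) : ℤ)) ∧
    qn 2 4 (qn 1 3 (th 3 (z ^ 2 ^ 1))) ∈ BR 6 (2 * (2 * ((2 * T : ℕ) : ℤ))) := by
  obtain ⟨hz, h⟩ := h
  obtain ⟨h1, h2⟩ := h 1
  have hz1 : z ^ 2 ^ 1 ∈ Zc 3 (2 * T) := by
    have := fr_Zc (j := 1) hz
    rwa [pow_one 2] at this
  have e1 : 2 ^ (1 + 1) * T = 2 * (2 * T) := by ring
  have e2 : 2 ^ (1 + 2) * T = 2 * (2 * (2 * T)) := by ring
  rw [e1] at h1
  rw [e2] at h2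
  refine ⟨hz1, (SN.sqN_BR (n := 2) SN.tSqN hz1).1 h1, ?_⟩
  have hs := sqN_Zc (n := 1) hz1
  have h3 := (SN.sqN_BR (n := 2) (s := 4) (t := 2 * (2 * T)) SN.tSqN hs).1 h2
  have h4 := (SN.tSqN 1 3 (2 * T) _ hz1).2
  have h5 := SN.tQS.1 2 4 (2 * ((2 * T : ℕ) : ℤ)) _ (by
    have := th_mem_ZR hs
    push_cast at this ⊢
    exact this) _ (qZ (n := 1) (th_mem_ZR hz1)) h4
  refine BR_cancel' h5 ?_
  push_cast at h3 ⊢
  exact h3

/-- the converse for a pair of letters: vanishing of the square -/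
lemma pair_sq {a b j : ℕ} (h : jux 2 2 (jux 1 1 (hx (a + j)) (hx (a + j)))
    (jux 1 1 (hx (b + j)) (hx (b + j))) ∈ Bc 4 (2 ^ (j + 1) * (2 ^ a + 2 ^ b))) :
    qn 2 2 (ha (b + j) * sh 1 (ha (a + j))) ∈ BR 4 (2 * (2 ^ (a + j) + 2 ^ (b + j))) := by
  rw [qn_pair]
  rw [← th_mem_BR, th_quad] at h
  have e : ((2 ^ (j + 1) * (2 ^ a + 2 ^ b) : ℕ) : ℤ) = 2 * (2 ^ (a + j) + 2 ^ (b + j)) := by
    push_cast
    ring
  rw [e] at h
  exact h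

/-- The classes of the first kind are in the kernel of both operations. -/
lemma convA {n : ℕ} (hG : Gi 7 ((2 * (2 * n) : ℕ) : ℤ)) {P : Cobar 5} (hP : P ∈ Zc 5 n)
    (h : ExcA n P) : sqN 1 5 (P ^ 2 ^ 1) ∈ Bc 6 (2 * (2 * n)) ∧
      sqN 2 5 (P ^ 2 ^ 1) ∈ Bc 7 (2 * (2 * n)) := by
  obtain ⟨a, T, z, e1, hz, h⟩ := h
  have hj := h 1
  obtain ⟨hz1, hz2, hz3⟩ := flat_q hz
  have hP1 : P ^ 2 ^ 1 ∈ Zc 5 (2 * n) := by
    have := fr_Zc (j := 1) hP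
    rwa [pow_one 2] at this
  have n1 : 2 * T + 2 ^ (a + 1) = 2 * n := by rw [← e1, pow_succ]; ring
  have hq1 : jux 3 1 (z ^ 2 ^ 1) (hCls (a + 1)) ∈ Zc 4 (2 * n) := by
    rw [← n1]
    exact jux_Zc hz1 (ha_Zc (a + 1))
  have t1 : th 4 (jux 3 1 (z ^ 2 ^ 1) (hCls (a + 1))) = ha (a + 1) * sh 1 (th 3 (z ^ 2 ^ 1)) := by
    have h7 := th_jux 3 1 (z ^ 2 ^ 1) (hCls (a + 1))
    rw [th_hCls] at h7
    exact h7
  refine fam (n := 2 * n) hG hP1 hq1 ?_ ?_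
  · rw [← pow_mul, ← pow_add]
    rw [show 2 ^ (1 + 1) * n = 2 * (2 * n) by ring] at hj
    exact hj
  · rw [t1]
    have h5 := conv_a (a := a + 1) (by omega) (th_mem_ZR hz1) hz2 hz3
    have e : (((2 * n : ℕ) : ℤ)) = ((2 * T : ℕ) : ℤ) + 2 ^ (a + 1) := by
      rw [← n1]; push_cast; ring
    rw [e]
    exact h5

/-- two powers of two with a sum divisible by `16` -/
lemma three_le {a b : ℕ} (h : 2 ^ 4 ∣ 2 ^ a + 2 ^ b) : 3 ≤ a ∧ 3 ≤ b := by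
  have key : ∀ a b : ℕ, 2 ^ 4 ∣ 2 ^ a + 2 ^ b → 3 ≤ a := by
    intro a b h
    by_contra ha
    rcases Nat.lt_or_ge b 4 with hb | hb
    · interval_cases a <;> interval_cases b <;> omega
    · obtain ⟨c, rfl⟩ := Nat.exists_eq_add_of_le hb
      have h1 : 2 ^ 4 ∣ 2 ^ (4 + c) := pow_dvd_pow 2 (by omega)
      have h2 : 2 ^ 4 ∣ 2 ^ a := (Nat.dvd_add_left h1).1 h
      interval_cases a <;> omega
  exact ⟨key a b h, key b a (by rwa [add_comm])⟩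

/-- The classes of the second kind are in the kernel of both operations. -/
lemma convB {n : ℕ} (hG : Gi 7 ((2 * (2 * n) : ℕ) : ℤ)) {P : Cobar 5} (hP : P ∈ Zc 5 n)
    (h : ExcB n P) : sqN 1 5 (P ^ 2 ^ 1) ∈ Bc 6 (2 * (2 * n)) ∧
      sqN 2 5 (P ^ 2 ^ 1) ∈ Bc 7 (2 * (2 * n)) := by
  obtain ⟨a, b, c, d, -, -, e1, h⟩ := h
  obtain ⟨hj, h1, h2⟩ := h 1
  have hP1 : P ^ 2 ^ 1 ∈ Zc 5 (2 * n) := by
    have := fr_Zc (j := 1) hP
    rwa [pow_one 2] at this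
  have n1 : (2 ^ (a + 1) + 2 ^ (b + 1)) + (2 ^ (c + 1) + 2 ^ (d + 1)) = 2 * n := by
    rw [← e1]; ring
  have hq : jux 2 2 (jux 1 1 (hCls (a + 1)) (hCls (b + 1))) (jux 1 1 (hCls (c + 1))
      (hCls (d + 1))) ∈ Zc 4 (2 * n) := by
    rw [← n1]
    exact jux_Zc (pair_Zc (a + 1) (b + 1)) (pair_Zc (c + 1) (d + 1))
  have t1 : th 4 (jux 2 2 (jux 1 1 (hCls (a + 1)) (hCls (b + 1))) (jux 1 1 (hCls (c + 1))
      (hCls (d + 1)))) = (ha (d + 1) * sh 1 (ha (c + 1))) * sh 2 (ha (b + 1) * sh 1 (ha (a + 1))) := by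
    have h7 := th_jux 2 2 (jux 1 1 (hCls (a + 1)) (hCls (b + 1)))
      (jux 1 1 (hCls (c + 1)) (hCls (d + 1)))
    have h7a : th 2 (jux 1 1 (hCls (a + 1)) (hCls (b + 1))) = ha (b + 1) * sh 1 (ha (a + 1)) :=
      th_pair _ _
    have h7b : th 2 (jux 1 1 (hCls (c + 1)) (hCls (d + 1))) = ha (d + 1) * sh 1 (ha (c + 1)) :=
      th_pair _ _
    rw [h7a, h7b] at h7
    exact h7
  refine fam (n := 2 * n) hG hP1 hq ?_ ?_
  · rw [← pow_mul, ← pow_add]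
    rw [show 2 ^ (1 + 1) * n = 2 * (2 * n) by ring] at hj
    exact hj
  · rw [t1]
    have h5 := conv_b (mul_ZR (i := 1) (j := 1) (ha_ZR (a + 1)) (ha_ZR (b + 1)))
      (mul_ZR (i := 1) (j := 1) (ha_ZR (c + 1)) (ha_ZR (d + 1))) (pair_sq h1) (pair_sq h2)
      (pair21 (by omega) (by omega)) (pair21 (by omega) (by omega))
    have e : (((2 * n : ℕ) : ℤ)) = (2 ^ (a + 1) + 2 ^ (b + 1)) + (2 ^ (c + 1) + 2 ^ (d + 1)) := by
      rw [← n1]; push_cast; ring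
    rw [e]
    exact h5

end XFin2

open XFin2

/-- The five-line theorem. -/
theorem pr_Fin2 (hD : StD5) (h1 : FL.TwoInj) (h2 : FL.TwoSpan) (h3 : FL.S_Comm)
    (h3p : ∀ b : ℕ, 3 ≤ b → ∀ x ∈ ZR 3 (2 ^ b), x ∈ BR 3 (2 ^ b)) : StFin2 := by
  obtain ⟨U, J1, hD⟩ := hD h1 h2 h3 qn ops_qn
  obtain ⟨J2, hJ2⟩ := SN.hi_sq SN.tSqN SN.tSqF 5 0
  obtain ⟨J3, hJ3⟩ := SN.hi_sq SN.tSqN SN.tSqF 5 1
  obtain ⟨J4, hJ4⟩ := h0_div 5
  obtain ⟨J5, hJ5⟩ := exists_Gi 7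
  obtain ⟨J, hJ⟩ : ∃ J, J = J1 + J2 + J3 + J4 + J5 + 4 := ⟨_, rfl⟩
  refine ⟨U, J, fun t hF p hp => ?_⟩
  have ht : 0 < t := by
    rcases Nat.eq_zero_or_pos t with h | h
    · exact absurd (by rw [h, mul_zero]) (hF 0 0 (Nat.zero_le _))
    · exact h
  obtain ⟨t', ht'⟩ : ∃ t', t' = 2 ^ J * t := ⟨_, rfl⟩
  have ht0 : 0 < t' := by rw [ht']; positivity
  obtain ⟨P, hP⟩ : ∃ P, P = p ^ 2 ^ J := ⟨_, rfl⟩
  have hPZ : P ∈ Zc 5 t' := by rw [hP, ht']; exact fr_Zc hp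
  have hpow : ∀ i, P ^ 2 ^ i = p ^ 2 ^ (J + i) := fun i => by rw [hP, ← pow_mul, ← pow_add]
  have hdeg : ∀ j, 2 ^ j * (2 * t') = 2 ^ (J + j + 1) * t := fun j => by
    rw [ht', pow_succ, pow_add]; ring
  have hdvd : ∀ i, i ≤ J → 2 ^ i ∣ t' := fun i hi => by
    rw [ht']; exact Dvd.dvd.mul_right (pow_dvd_pow 2 hi) _
  have hGi : ∀ m : ℕ, Gi 7 ((m * t' : ℕ) : ℤ) := fun m => by
    refine hJ5 _ ?_
    have : 2 ^ J5 ∣ m * t' := Dvd.dvd.mul_left (hdvd _ (by omega)) m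
    exact_mod_cast this
  rw [← hP, ← ht']
  refine ⟨?_, fun hE => ?_⟩
  swap
  · -- the converse
    have h5 : sqN 1 5 (P ^ 2 ^ 1) ∈ Bc 6 (2 * (2 * t')) ∧
        sqN 2 5 (P ^ 2 ^ 1) ∈ Bc 7 (2 * (2 * t')) := by
      have hG : Gi 7 ((2 * (2 * t') : ℕ) : ℤ) := by
        have := hGi 4
        rwa [show 4 * t' = 2 * (2 * t') by ring] at this
      rcases hE with hE | hE
      · exact convA hG hPZ hE
      · exact convB hG hPZ hE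
    have key : ∀ m, 5 + m ≤ 7 → sqN m 5 (P ^ 2 ^ 1) ∈ Bc (5 + m) (2 * (2 * t')) →
        ∀ j, J ≤ j → sqN m 5 (p ^ 2 ^ j) ∈ Bc (5 + m) (2 ^ (j + 1) * t) := by
      intro m hm h6 j hj
      obtain ⟨i, rfl⟩ := Nat.exists_eq_add_of_le hj
      have hs := (SN.tSqN m 5 t' P hPZ).1
      have h7 : sqN m 5 P ∈ Bc (5 + m) (2 * t') := by
        rw [sqN_pow, ← th_mem_BR, map_pow, pow_one] at h6
        rw [← th_mem_BR]
        refine hGi 2 (5 + m) hm _ (th_mem_ZR hs) ?_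
        push_cast at h6 ⊢
        exact h6
      have h8 := fr_Bc (j := i) h7
      rw [← sqN_pow, hpow, hdeg] at h8
      exact h8
    exact fun j hj => ⟨key 1 (by norm_num) h5.1 j hj, key 2 (by norm_num) h5.2 j hj⟩
  by_cases hpB : P ∈ Bc 5 t'
  · left
    intro j hj
    obtain ⟨i, rfl⟩ := Nat.exists_eq_add_of_le hj
    rw [hP, ht'] at hpB
    exact fr_Bc' i hpB
  right
  have hFive := hD t hF J (by omega)
  rw [← ht'] at hFive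
  by_cases hA : sqN 1 5 P ∈ Bc 6 (2 * t')
  swap
  · left
    intro j hj
    obtain ⟨i, rfl⟩ := Nat.exists_eq_add_of_le hj
    have h5 := hJ2 t' ht0 (hdvd _ (by omega)) P hPZ hA i (fun _ => 0)
      (fun l hl => absurd hl (Nat.not_lt_zero l))
    rw [Finset.range_zero, Finset.sum_empty, add_zero, hpow, hdeg] at h5
    exact h5
  right
  have hX := th_mem_ZR hPZ
  have hXB : th 5 P ∉ BR 5 (t' : ℤ) := fun h => hpB (th_mem_BR.1 h)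
  obtain ⟨⟨Y, hY, hYX⟩, hFive⟩ := hFive (th 5 P) hX ((SN.sqN_BR SN.tSqN hPZ).1 hA)
  -- from a relation in degree four to the families
  have key : ∀ q ∈ Zc 4 t', qn 1 4 (th 4 q) + th 5 P ^ 2 ∈ BR 5 (2 * (t' : ℤ)) → ∀ j,
      P ^ 2 ^ (j + 1) + sqN 1 4 (q ^ 2 ^ j) ∈ Bc 5 (2 ^ (j + 1) * t') := by
    intro q hq h j
    have h4 : P ^ 2 ^ 1 + sqN 1 4 q ∈ Bc 5 (2 * t') := by
      refine (add_sqN hq (P ^ 2 ^ 1)).2 ?_
      rw [map_pow, pow_one]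
      exact h
    have h5 := fr_Bc (j := j) h4
    rw [pow_two_add, ← sqN_pow, ← pow_mul, ← pow_add, add_comm 1 j,
      show 2 ^ j * (2 * t') = 2 ^ (j + 1) * t' by ring] at h5
    exact h5
  by_cases hB : sqN 2 5 P ∈ Bc 7 (2 * t')
  swap
  · left
    obtain ⟨q, hq, hqY⟩ := exists_th hY
    refine ⟨q, hq, fun j => ⟨?_, ?_, ?_⟩⟩
    · have h5 := key q hq (by rw [hqY]; exact hYX) j
      rw [hpow, show 2 ^ (j + 1) * t' = 2 ^ (J + j + 1) * t by rw [← hdeg]; ring,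
        ← add_assoc] at h5
      exact h5
    · intro w hw h
      have h5 := hJ3 t' ht0 (hdvd _ (by omega)) P hPZ hB j (fun _ => w) (fun l hl => by
        obtain rfl : l = 0 := by omega
        rw [hdeg]
        exact hw)
      rw [Finset.range_one, Finset.sum_singleton, hpow, hdeg] at h5
      exact h5 h
    · have h6 : 2 ^ J4 ∣ 2 ^ (J + j + 1) * t :=
        Dvd.dvd.mul_right (pow_dvd_pow 2 (by omega)) _
      rw [show hCls 0 = xi 0 1 from by unfold hCls; rw [pow_zero, pow_one]]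
      exact hJ4 (2 ^ (J + j + 1) * t) (by positivity) h6
  right
  rcases hFive ((SN.sqN_BR (n := 2) SN.tSqN hPZ).1 hB) with h5 | h5 | h5 | h5
  · exact absurd h5 hXB
  · left
    obtain ⟨a, T, z, hT, e, hzz, hzX⟩ := h5
    obtain ⟨T', rfl⟩ := Int.eq_ofNat_of_zero_le hT.le
    obtain ⟨ζ, hζ, rfl⟩ := exists_th hzz.1
    have e1 : 2 ^ a + T' = t' := by exact_mod_cast e.symm
    refine ⟨a, T', ζ, e1, flat hζ hzz, fun j => ?_⟩
    have hq : jux 3 1 ζ (hCls a) ∈ Zc 4 t' := by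
      rw [← e1, add_comm (2 ^ a)]
      exact jux_Zc hζ (ha_Zc a)
    have h6 := key _ hq (by
      have h7 := th_jux 3 1 ζ (hCls a)
      rw [th_hCls] at h7
      rw [h7]
      exact hzX) j
    rw [← jux_pow, hx_pow' a j] at h6
    exact h6
  · exfalso
    obtain ⟨a, b, z, z', e, hzz, hzz', hzX⟩ := h5
    have h16 : 2 ^ 4 ∣ 2 ^ a + 2 ^ b := by
      have e1 : 2 ^ a + 2 ^ b = t' := by exact_mod_cast e.symm
      rw [e1]
      exact hdvd 4 (by omega)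
    obtain ⟨ha3, hb3⟩ := three_le h16
    have g1 := h3p b hb3 z hzz.1
    have g2 := h3p a ha3 z' hzz'.1
    have g3 := mul_BR_left (i := 3) (j := 1) g1 (ha_ZR a)
    have g4 := mul_BR_left (i := 3) (j := 1) g2 (ha_ZR b)
    rw [add_comm ((2 : ℤ) ^ b) (2 ^ a), ← e] at g3
    rw [← e] at g4
    have g5 := SN.tQB 1 4 _ _ (Submodule.add_mem _ g3 g4)
    exact hXB (hJ5 (t' : ℤ) (by exact_mod_cast hdvd _ (by omega)) 5 (by norm_num) _ hX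
      (BR_cancel' hzX g5))
  · right
    obtain ⟨T, T', hT, hT', hn, hn', e, z, hz, z', hz', hz2, hz2', hzX⟩ := h5
    have hbad : qn 1 4 (z' * sh 2 z) ∉ BR 5 (2 * (t' : ℤ)) := by
      intro h
      refine hXB (hJ5 (t' : ℤ) ?_ 5 (by norm_num) _ hX (BR_cancel' hzX h))
      exact_mod_cast hdvd _ (by omega)
    rcases span_pair h2 hT hn hz hz2 with h6 | ⟨a, b, hab, e1, h6, h7⟩
    · refine absurd ?_ hbad
      have h8 := mul_BR_left (i := 2) (j := 2) h6 hz'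
      rw [← e] at h8
      exact SN.tQB 1 4 _ _ h8
    rcases span_pair h2 hT' hn' hz' hz2' with h8 | ⟨c, d, hcd, e2, h8, h9⟩
    · refine absurd ?_ hbad
      have h9 := mul_BR_right (i := 2) (j := 2) hz h8
      rw [← e] at h9
      exact SN.tQB 1 4 _ _ h9
    have e3 : 2 ^ a + 2 ^ b + 2 ^ c + 2 ^ d = t' := by
      have e4 : (t' : ℤ) = 2 ^ a + 2 ^ b + 2 ^ c + 2 ^ d := by rw [e, e1, e2]; ring
      exact_mod_cast e4.symm
    refine ⟨a, b, c, d, hab, hcd, e3, fun j => ⟨?_, ?_, ?_⟩⟩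
    · have hq : jux 2 2 (jux 1 1 (hCls a) (hCls b)) (jux 1 1 (hCls c) (hCls d)) ∈ Zc 4 t' := by
        rw [← e3, add_assoc (2 ^ a + 2 ^ b)]
        exact jux_Zc (pair_Zc a b) (pair_Zc c d)
      have h10 := key _ hq (by
        have h7 := th_jux 2 2 (jux 1 1 (hCls a) (hCls b)) (jux 1 1 (hCls c) (hCls d))
        have h7a : th 2 (jux 1 1 (hCls a) (hCls b)) = ha b * sh 1 (ha a) := th_pair a b
        have h7b : th 2 (jux 1 1 (hCls c) (hCls d)) = ha d * sh 1 (ha c) := th_pair c d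
        rw [h7a, h7b] at h7
        rw [h7]
        have hpa : ha b * sh 1 (ha a) ∈ ZR 2 T := by
          have := mul_ZR (i := 1) (j := 1) (ha_ZR a) (ha_ZR b)
          rwa [← e1] at this
        have hpc : ha d * sh 1 (ha c) ∈ ZR 2 T' := by
          have := mul_ZR (i := 1) (j := 1) (ha_ZR c) (ha_ZR d)
          rwa [← e2] at this
        have g1 := mul_BR_left (i := 2) (j := 2) h6 hz'
        have g2 := mul_BR_right (i := 2) (j := 2) hpa h8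
        have g3 : z' * sh 2 z + (ha d * sh 1 (ha c)) * sh 2 (ha b * sh 1 (ha a)) ∈
            BR 4 (t' : ℤ) := by
          rw [e]
          refine mem_of_eq (Submodule.add_mem _ g1 g2) ?_
          rw [map_add, mul_add, add_mul]
          have b1 := add_self2 (z' * sh 2 (ha b * sh 1 (ha a)))
          calc _ = z' * sh 2 z + (ha d * sh 1 (ha c)) * sh 2 (ha b * sh 1 (ha a)) +
                (z' * sh 2 (ha b * sh 1 (ha a)) + z' * sh 2 (ha b * sh 1 (ha a))) := by abel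
            _ = _ := by rw [b1, add_zero]
        have g4 : z' * sh 2 z ∈ ZR 4 (t' : ℤ) := by
          rw [e]; exact mul_ZR (i := 2) (j := 2) hz hz'
        have g5 : (ha d * sh 1 (ha c)) * sh 2 (ha b * sh 1 (ha a)) ∈ ZR 4 (t' : ℤ) := by
          rw [e]; exact mul_ZR (i := 2) (j := 2) hpa hpc
        have g6 := SN.tQS.1 1 4 (t' : ℤ) _ g4 _ g5 g3
        refine mem_of_eq (Submodule.add_mem _ g6 hzX) ?_
        have b1 := add_self2 (qn 1 4 (z' * sh 2 z))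
        calc _ = qn 1 4 ((ha d * sh 1 (ha c)) * sh 2 (ha b * sh 1 (ha a))) + th 5 P ^ 2 +
              (qn 1 4 (z' * sh 2 z) + qn 1 4 (z' * sh 2 z)) := by abel
          _ = _ := by rw [b1, add_zero]) j
      rw [← jux_pow, ← jux_pow, ← jux_pow, hx_pow' a j, hx_pow' b j, hx_pow' c j,
        hx_pow' d j] at h10
      exact h10
    · have h10 : jux 2 2 (jux 1 1 (hx a) (hx a)) (jux 1 1 (hx b) (hx b)) ∈
          Bc 4 (2 * (2 ^ a + 2 ^ b)) := by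
        rw [← th_mem_BR, th_quad]
        push_cast
        rw [← e1]
        exact h7
      have h11 := fr_Bc (j := j) h10
      have e4 : 2 ^ j * (2 * (2 ^ a + 2 ^ b)) = 2 ^ (j + 1) * (2 ^ a + 2 ^ b) := by
        rw [pow_succ]; ring
      rw [quad_pow, e4] at h11
      exact h11
    · have h10 : jux 2 2 (jux 1 1 (hx c) (hx c)) (jux 1 1 (hx d) (hx d)) ∈
          Bc 4 (2 * (2 ^ c + 2 ^ d)) := by
        rw [← th_mem_BR, th_quad]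
        push_cast
        rw [← e2]
        exact h9
      have h11 := fr_Bc (j := j) h10
      have e4 : 2 ^ j * (2 * (2 ^ c + 2 ^ d)) = 2 ^ (j + 1) * (2 ^ c + 2 ^ d) := by
        rw [pow_succ]; ring
      rw [quad_pow, e4] at h11
      exact h11

theorem tFin2 : StFin2 := pr_Fin2 tD5 FL.two_inj FL.two_span FL.pr_Comm three_pow

end Pool.Agent.Work.MP_701abf_gt.F5
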