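import Pool.Agent.Work.MP_701abf_gt.F5.Stmts

/-!
# The five-line theorem, item A1
-/

open MvPolynomial
open Pool.Agent.Work.MP_701abf_gt.Stab Pool.Agent.Work.MP_701abf_gt.Cob
open Pool.Agent.Work.MP_701abf_gt.Sq2 Pool.Agent.Work.MP_701abf_gt.TwT

namespace Pool.Agent.Work.MP_701abf_gt.F5

theorem pr_A1 (hTn : TwT.StTn) (hLt : TwT.StLt) (hLf : StLf) : StA1 := by
  intro V W l0 m0 hV hV2 hI hee hW x hx he
  obtain ⟨h1, h2, h3, h4⟩ := hLt V W l0 m0 hV hW x
  have hDg := hTn.2.2.2.1 V W 5 x hx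
  have hy3 : V.Dg 3 (fun v => x (m0, v)) := by
    have := (hDg m0).1 (by rw [hW.dm0]; norm_num)
    rw [hW.dm0] at this
    exact this
  have e0 : ∀ a : V.I → ZMod 2, V.e 0 a = a := fun a => (hTn.2.2.2.2.1 V hV a).1
  -- the component l0
  have hl0 : (fun v => x (l0, v)) = V.e 1 (fun v => x (m0, v)) := by
    funext v
    have h5 := h2 0 v
    rw [zero_add, he, e0] at h5
    exact (add_eq_zero2.1 h5.symm).symm
  -- the other components
  have hoth : ∀ m, m ≠ l0 → m ≠ m0 → ∀ v, x (m, v) = 0 := by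
    intro m hm1 hm2 v
    have hm3 : 3 ≤ W.d m := by
      by_contra h
      have h5 := hW.pos m
      have h6 : W.d m = 1 ∨ W.d m = 2 := by omega
      rcases h6 with h6 | h6
      · exact hm1 (hW.ul0 m h6)
      · exact hm2 (hW.um0 m h6)
    by_contra hne
    have h5 : W.d m + V.d v = 5 := hx (m, v) hne
    have h6 := hV2 v
    have h7 : W.d m = 3 := by omega
    have h8 : V.Dg 2 (fun v => x (m, v)) := by
      have := (hDg m).1 (by omega)
      rw [h7] at this
      exact this
    have h9 : V.e 1 (fun v => x (m, v)) = 0 := by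
      funext v'
      have h10 := h4 m hm3 (fun l hl1 hl2 => by omega) 1 v'
      rw [he] at h10
      exact h10.symm
    have h10 := hI _ h8 h9
    exact hne (congrFun h10 v)
  refine ⟨hy3, ?_, fun h5 => ?_⟩
  · obtain ⟨f1, -, f3⟩ := hLf V W l0 m0 hV hW (fun v => x (m0, v)) 1
    obtain ⟨-, f2, -⟩ := hLf V W l0 m0 hV hW (fun v => x (m0, v)) 0
    funext p
    obtain ⟨m, v⟩ := p
    by_cases hm1 : m = l0
    · rw [hm1, f1]
      exact congrFun hl0 v
    · by_cases hm2 : m = m0
      · rw [hm2]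
        have := f2 v
        rw [zero_add, e0] at this
        exact this.symm
      · rw [f3 m v hm1 hm2]
        exact hoth m hm1 hm2 v
  · have h6 : V.e 2 (V.e 1 fun v => x (m0, v)) = 0 := by
      rw [← hl0]
      funext v
      have := h1 2 v
      rw [h5] at this
      exact this.symm
    refine ⟨?_, h6⟩
    funext v
    have h7 := h2 1 v
    rw [show (1 : ℕ) + 1 = 2 from rfl, h5, hl0, hee, Pi.zero_apply, add_zero] at h7
    exact h7.symm

end Pool.Agent.Work.MP_701abf_gt.F5
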