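import Pool.Agent.Work.MP_701abf_gt.F5.T3Stmts

/-!
# MP_701abf_gt, the 3-line in the degrees `2 ^ c`, item Dc3 (helper9)

Splitting off the square of the top variable.
-/

set_option autoImplicit false

open MvPolynomial
open Pool.Agent.Work.MP_701abf_gt.Stab Pool.Agent.Work.MP_701abf_gt.Cob
open Pool.Agent.Work.MP_701abf_gt.Sq2 Pool.Agent.Work.MP_701abf_gt.Sq2.FL

namespace Pool.Agent.Work.MP_701abf_gt.F5

noncomputable section

namespace XDc3

/-- The variables of the ring of cochains. -/
abbrev Vr : Type := (ℕ × ℕ) ⊕ (Option Empty × ℕ)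

/-- The projection of the weight which counts the variables `w_i`. -/
def qq : (ℤ × ℤ) × ℤ →+ ℤ := (AddMonoidHom.snd ℤ ℤ).comp (AddMonoidHom.fst (ℤ × ℤ) ℤ)

/-- The variables of level `n + 1`. -/
def Sl (n : ℕ) : Set Vr := {v | ∀ p : ℕ × ℕ, v = Sum.inl p → p.1 < n}

lemma prj_mem (n : ℕ) (F : RR (Option Empty)) : prj n F ∈ supported (ZMod 2) (Sl n) := by
  induction F using MvPolynomial.induction_on with
  | C a =>
    have h1 : prj (ι := Option Empty) n (C a) = algebraMap (ZMod 2) _ a :=
      (prj (ι := Option Empty) n).commutes a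
    rw [h1]
    exact Subalgebra.algebraMap_mem _ _
  | add p q hp hq =>
    rw [map_add]
    exact Subalgebra.add_mem _ hp hq
  | mul_X p v hp =>
    rw [map_mul]
    refine Subalgebra.mul_mem _ hp ?_
    rcases v with v | v
    · by_cases h : v.1 < n
      · rw [prj_inl_lt h]
        refine X_mem_supported.2 ?_
        intro p hp
        rw [← Sum.inl_injective hp]
        exact h
      · rw [prj_inl_ge h]
        exact Subalgebra.zero_mem _
    · rw [prj_inr]
      refine X_mem_supported.2 ?_
      intro p hp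
      cases hp

lemma lev_vars {n : ℕ} {F : RR (Option Empty)} :
    F ∈ lev (Option Empty) (n + 1) ↔ ∀ v ∈ F.vars, v ∈ Sl n := by
  constructor
  · intro h
    have h1 := prj_mem n F
    rw [mem_lev_succ.1 h] at h1
    intro v hv
    exact mem_supported.1 h1 hv
  · intro h
    rw [mem_lev_succ]
    have h1 : ((prj (ι := Option Empty) n : RR (Option Empty) →ₐ[ZMod 2] RR (Option Empty)) :
        RR (Option Empty) →+* RR (Option Empty)) F = (RingHom.id _) F := by
      refine hom_congr_vars ?_ ?_ rfl
      · refine RingHom.ext fun a => ?_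
        exact (prj (ι := Option Empty) n).commutes a
      · intro v hv _
        have h2 := h v hv
        rcases v with v | v
        · exact prj_inl_lt (h2 v rfl)
        · exact prj_inr
    exact h1

/-- The coefficient of a monomial in which the variable occurs once. -/
lemma coeff_one {i : Vr} {y : RR (Option Empty)} (h : pderiv i y = 0) {d : Vr →₀ ℕ}
    (hd : d i = 1) : coeff d y = 0 := by
  classical
  have h1 : X i * pderiv i y = ∑ e ∈ y.support, e i • monomial e (coeff e y) := by
    conv_lhs => rw [y.as_sum]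
    rw [map_sum, Finset.mul_sum]
    refine Finset.sum_congr rfl fun e _ => ?_
    exact X_mul_pderiv_monomial
  rw [h, mul_zero] at h1
  by_contra hne
  have h2 := congrArg (coeff d) h1
  rw [coeff_zero, coeff_sum, Finset.sum_eq_single d] at h2
  · rw [hd, one_smul, coeff_monomial, if_pos rfl] at h2
    exact hne h2.symm
  · intro e _ hed
    rw [coeff_smul, coeff_monomial, if_neg hed, smul_zero]
  · intro h3
    exact absurd (mem_support_iff.2 hne) h3

lemma mem_vars_of {F : RR (Option Empty)} {d : Vr →₀ ℕ} (hd : coeff d F ≠ 0) {v : Vr}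
    (hv : d v ≠ 0) : v ∈ F.vars :=
  (mem_vars_iff_mem_support v).2 ⟨d, mem_support_iff.2 hd, Finsupp.mem_support_iff.2 hv⟩

lemma exists_of_mem {F : RR (Option Empty)} {v : Vr} (hv : v ∈ F.vars) :
    ∃ d : Vr →₀ ℕ, coeff d F ≠ 0 ∧ d v ≠ 0 := by
  obtain ⟨d, hd, hdv⟩ := (mem_vars_iff_mem_support v).1 hv
  exact ⟨d, mem_support_iff.1 hd, Finsupp.mem_support_iff.1 hdv⟩

lemma sp_iff {r : ℕ} {F : RR (Option Empty)} :
    F ∈ SpW r ↔ ∀ i : ℕ, (Sum.inr (none, i) : Vr) ∈ F.vars → i < r := by
  unfold SpW
  rw [mem_supported]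
  constructor
  · intro h i hi
    exact h hi (none, i) rfl
  · intro h v hv p hp
    rcases p with ⟨o, i⟩
    cases o with
    | some e => exact e.elim
    | none =>
      subst hp
      exact h i hv

end XDc3

open XDc3 in
/-- Dc3. -/
theorem pr_Dc3 : StDc3 := by
  classical
  refine ⟨?_, ?_⟩
  · intro M r y hy hs hd
    obtain ⟨hyl, hyw⟩ := hy
    have hyw' : WH (wt cO (fun _ => 0)) y ((0, 2), M) := hyw
    have hyl' := lev_vars.1 hyl
    have hs' := sp_iff.1 hs
    set s : Vr →₀ ℕ := Finsupp.single (Sum.inr (none, r)) 2 with hsd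
    set A : RR (Option Empty) := divMonomial y s with hA
    set z : RR (Option Empty) := modMonomial y s with hz
    have hsum : monomial s 1 * A + z = y := divMonomial_add_modMonomial y s
    have hcA : ∀ d, coeff d A = coeff (s + d) y := fun d => coeff_divMonomial s y d
    have hcz : ∀ d, coeff d z ≠ 0 → coeff d y ≠ 0 ∧ ¬ s ≤ d := by
      intro d h
      by_cases hle : s ≤ d
      · exact absurd (coeff_modMonomial_of_le y hle) h
      · refine ⟨?_, hle⟩
        rw [hz, coeff_modMonomial_of_not_le y hle] at h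
        exact h
    have hvA : ∀ v ∈ A.vars, v ∈ y.vars := by
      intro v hv
      obtain ⟨d, h1, h2⟩ := exists_of_mem hv
      rw [hcA] at h1
      refine mem_vars_of h1 ?_
      rw [Finsupp.add_apply]
      omega
    have hvz : ∀ v ∈ z.vars, v ∈ y.vars := by
      intro v hv
      obtain ⟨d, h1, h2⟩ := exists_of_mem hv
      exact mem_vars_of (hcz d h1).1 h2
    have hAw : WH (wt cO (fun _ => 0)) A ((0, 0), M - 2 ^ (r + 1)) := by
      intro d h1
      rw [hcA] at h1
      have h2 := hyw' h1
      rw [map_add, hsd, Finsupp.weight_single] at h2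
      have h3 : 2 • wt (cO (ι := Empty)) (fun _ => 0) (Sum.inr (none, r)) =
          (((0 : ℤ), (2 : ℤ)), (2 : ℤ) ^ (r + 1)) := by
        change 2 • ((((0 : ℤ), (1 : ℤ)), (2 : ℤ) ^ (r + 0)) : (ℤ × ℤ) × ℤ) = _
        rw [add_zero, pow_succ, two_nsmul]
        ext
        · rfl
        · rfl
        · simp only [Prod.snd_add]
          ring
      rw [h3] at h2
      have h4 := eq_sub_of_add_eq' h2
      rw [h4]
      ext
      · rfl
      · rfl
      · rfl
    have hAl : A ∈ lev (Option Empty) 2 := lev_vars.2 fun v hv => hyl' v (hvA v hv)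
    have hzl : z ∈ lev (Option Empty) 2 := lev_vars.2 fun v hv => hyl' v (hvz v hv)
    have hzw : WH (wt cO (fun _ => 0)) z ((0, 2), M) := fun d h1 => hyw' (hcz d h1).1
    have hu := rO_gr.map hAw
    refine ⟨rO A, rO_lev hAl, hu, z, ⟨hzl, hzw⟩, ?_, ?_⟩
    · refine sp_iff.2 fun i hi => ?_
      have h1 : i < r + 1 := hs' i (hvz _ hi)
      rcases Nat.lt_or_ge i r with h2 | h2
      · exact h2
      · exfalso
        have h3 : i = r := by omega
        subst h3
        obtain ⟨d, h4, h5⟩ := exists_of_mem hi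
        obtain ⟨h6, h7⟩ := hcz d h4
        have h8 : ¬ 2 ≤ d (Sum.inr (none, i)) := by
          intro h9
          exact h7 (Finsupp.single_le_iff.2 h9)
        have h9 : d (Sum.inr (none, i)) = 1 := by omega
        exact h6 (coeff_one (i := Sum.inr (none, i)) hd h9)
    · rw [jO_rO hAw, ← hsum, mul_comm]
      have h1 : (gW none r : RR (Option Empty)) ^ 2 = monomial s 1 := by
        rw [hsd]
        exact X_pow_eq_monomial
      rw [h1]
  · intro M y hy hs
    obtain ⟨_, hyw⟩ := hy
    have hyw' : WH (wt cO (fun _ => 0)) y ((0, 2), M) := hyw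
    have hs' := sp_iff.1 hs
    by_contra h0
    obtain ⟨d, hd⟩ := ne_zero_iff.1 h0
    have h1 := congrArg qq (hyw' hd)
    rw [Finsupp.weight_apply, Finsupp.sum, map_sum] at h1
    have h2 : ∑ v ∈ d.support, qq (d v • wt (cO (ι := Empty)) (fun _ => 0) v) = 0 := by
      refine Finset.sum_eq_zero fun v hv => ?_
      rw [map_nsmul]
      rcases v with v | ⟨o, i⟩
      · exact smul_zero _
      · cases o with
        | some e => exact e.elim
        | none =>
          exact absurd (hs' i (mem_vars_of hd (Finsupp.mem_support_iff.1 hv))) (Nat.not_lt_zero _)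
    rw [h2] at h1
    have h3 : (0 : ℤ) = 2 := h1
    omega

end

end Pool.Agent.Work.MP_701abf_gt.F5
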