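import Pool.Agent.Work.MP_701abf_gt.F5.T3Stmts

/-!
# Item E83: the 3-line in degree 8
-/

open MvPolynomial
open Pool.Agent.Work.MP_701abf_gt.Stab Pool.Agent.Work.MP_701abf_gt.Cob
open Pool.Agent.Work.MP_701abf_gt.Sq2 Pool.Agent.Work.MP_701abf_gt.Sq2.FL

namespace Pool.Agent.Work.MP_701abf_gt.F5

noncomputable section

namespace XE83

theorem lift {N : ℤ} (hS : Surj0 3 N) (hB : ∀ x ∈ ZR 3 N, x ∈ BR 3 N) :
    ∀ x ∈ ZR 3 (2 * N), x ∈ BR 3 (2 * N) := by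
  intro x hx
  obtain ⟨h1, h2, h3⟩ := hx
  obtain ⟨y, hy, hyw, hyd, G, hG, hGw, e⟩ := hS x h1 h2 h3
  rw [e]
  exact Submodule.add_mem _ (sq_BR (hB y ⟨hy, hyw, hyd⟩)) ⟨G, hG, hGw, rfl⟩

theorem dE_sq (n : ℕ) (y : RR Empty) : dE n (y ^ 2) = (dE n y) ^ 2 := by
  have := dR_pow (fun _ : Empty => 0) n y 1
  rw [pow_one] at this
  exact this

theorem h04_ZR : h04 ∈ ZR 4 4 := by
  have h1 : bb 0 ∈ ZR 2 2 := by
    have h := mul_ZR (ha_ZR 0) (ha_ZR 0)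
    have e : ((2 : ℤ) ^ 0 + 2 ^ 0) = 2 := by norm_num
    rw [e] at h
    exact h
  have h := mul_ZR h1 h1
  have e : ((2 : ℤ) + 2) = 4 := by norm_num
  rw [e] at h
  exact h

theorem sq_inj {a b : RR Empty} (h : a ^ 2 = b ^ 2) : a = b := by
  have h2 : (a + b) ^ 2 = 0 := by
    rw [sq_add, h, add_self2]
  have h3 : a + b = 0 := pow_eq_zero_iff two_ne_zero |>.1 h2
  have h4 : a + b + b = b := by rw [h3, zero_add]
  rw [add_assoc, add_self2, add_zero] at h4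
  exact h4

/-- A cochain `F` with `dE 4 F = P ^ 2` whose symbol is a coboundary. -/
theorem red (hSz : StSz3) {F P : RR Empty} (hF : F ∈ lev Empty 4) (hw : WH wE F (0, 2 * 4))
    (hP : dE 4 F = P ^ 2) {e : RR (Option Empty)} (he : e ∈ CW 2 1 (4 + 1))
    (hS : Sb3 4 F (dc 1 e)) :
    ∃ y0 ∈ lev Empty 4, WH wE y0 (0, 4) ∧ ∃ G ∈ lev Empty 3, WH wE G (0, 2 * 4) ∧
      F = y0 ^ 2 + dE 3 G ∧ dE 4 y0 = P := by
  obtain ⟨y0, h1, h2, G, h3, h4, h5⟩ := hSz 4 F hF hw e he hS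
  refine ⟨y0, h1, h2, G, h3, h4, h5, ?_⟩
  have hdd : dE 4 (dE 3 G) = 0 := dR_dR' _ h3
  apply sq_inj
  rw [← dE_sq, ← hP, h5, map_add, hdd, add_zero]

end XE83

open XE83 in
theorem pr_E83 : StE83 := by
  intro hSj hSe hSz hP1 hP0 hZ1 ⟨H2, H3, H5⟩ z hz
  have S1 : Surj0 3 1 := hSj 1 H2
  have S2 : Surj0 3 2 := hSj 2 H3
  have Z2 : ∀ x ∈ ZR 3 2, x ∈ BR 3 2 := lift S1 hZ1
  have Z4 : ∀ x ∈ ZR 3 4, x ∈ BR 3 4 := lift S2 Z2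
  obtain ⟨hz1, hz2, hz3⟩ := hz
  obtain ⟨E, hE1, hE2, hE3⟩ := hP1
  have hz0 : dE 4 z = 0 := hz3
  have hh := h04_ZR
  obtain ⟨y, hy1, hy2, hy3⟩ := hSe.1 4 z hz1 hz2
    ⟨0, Submodule.zero_mem _, isWeightedHomogeneous_zero _ _ _, by
      rw [hz0, zero_pow two_ne_zero]⟩
  obtain ⟨y', hy1', hy2', hy3'⟩ := hSe.1 4 E hE1 hE2 ⟨h04, hh.1, hh.2.1, hE3⟩
  obtain ⟨e, he, h⟩ := H5 y hy1 hy2 y' hy1' hy2'
  rcases h with h | h | h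
  · rw [← h] at hy3
    obtain ⟨y0, k1, k2, G, k3, k4, k5, k6⟩ := red hSz hz1 hz2 (P := 0)
      (by rw [hz0, zero_pow two_ne_zero]) he hy3
    have hy0 : y0 ∈ BR 3 4 := Z4 y0 ⟨k1, k2, k6⟩
    rw [k5]
    exact Submodule.add_mem _ (sq_BR hy0) ⟨G, k3, k4, rfl⟩
  · exfalso
    rw [← h] at hy3'
    obtain ⟨y0, k1, k2, G, k3, k4, k5, k6⟩ := red hSz hE1 hE2 hE3 he hy3'
    exact hP0 ⟨y0, k1, k2, k6⟩
  · exfalso
    have hs := hSe.2 4 z E y y' hy3 hy3'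
    rw [← h] at hs
    obtain ⟨y0, k1, k2, G, k3, k4, k5, k6⟩ := red hSz
      (Submodule.add_mem _ hz1 hE1) (hz2.add hE2) (P := h04)
      (by rw [map_add, hz0, zero_add, hE3]) he hs
    exact hP0 ⟨y0, k1, k2, k6⟩

end

end Pool.Agent.Work.MP_701abf_gt.F5
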