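import Pool.Agent.Work.MP_701abf_gt.F5.T3Stmts

/-!
# Faces and the top derivative
-/

open MvPolynomial
open Finset.HasAntidiagonal (antidiagonal mem_antidiagonal)
open Pool.Agent.Work.MP_701abf_gt.Stab Pool.Agent.Work.MP_701abf_gt.Cob
open Pool.Agent.Work.MP_701abf_gt.Sq2 Pool.Agent.Work.MP_701abf_gt.Sq2.FL

namespace Pool.Agent.Work.MP_701abf_gt.F5

noncomputable section

namespace XFc3

lemma mono {r r' : ℕ} (h : r ≤ r') {F : RR (Option Empty)} (hF : F ∈ SpW r) : F ∈ SpW r' := by
  refine MvPolynomial.supported_mono ?_ hF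
  intro v hv p hp
  exact lt_of_lt_of_le (hv p hp) h

lemma X_inl_mem (r : ℕ) (v : ℕ × ℕ) : (X (Sum.inl v) : RR (Option Empty)) ∈ SpW r := by
  refine (MvPolynomial.X_mem_supported (R := ZMod 2)).2 ?_
  intro p hp
  cases hp

lemma X_inr_mem {r : ℕ} {v : Option Empty × ℕ} (h : v.2 < r) :
    (X (Sum.inr v) : RR (Option Empty)) ∈ SpW r := by
  refine (MvPolynomial.X_mem_supported (R := ZMod 2)).2 ?_
  intro p hp
  rw [← Sum.inr.inj hp]
  exact h

lemma gG_mem (r a n : ℕ) : (gG (ι := Option Empty) a).co n ∈ SpW r := by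
  cases n with
  | zero =>
    rw [Pt.co_zero]
    exact Subalgebra.one_mem _
  | succ n =>
    rw [gG_succ]
    exact X_inl_mem r _

lemma mul_mem' (r : ℕ) (g h : Pt (RR (Option Empty))) (hg : ∀ n, g.co n ∈ SpW r)
    (hh : ∀ n, h.co n ∈ SpW r) (n : ℕ) : (g * h).co n ∈ SpW r := by
  rw [Pt.co_mul]
  exact Subalgebra.sum_mem _ fun p _ =>
    Subalgebra.mul_mem _ (Subalgebra.pow_mem _ (hg _) _) (hh _)

lemma fg_mem (r j a n : ℕ) : (fg j (gG (ι := Option Empty)) a).co n ∈ SpW r := by
  cases j with
  | zero => exact gG_mem r _ _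
  | succ j =>
    simp only [fg]
    split_ifs
    · exact gG_mem r _ _
    · exact mul_mem' r _ _ (gG_mem r _) (gG_mem r _) _
    · exact gG_mem r _ _

lemma dW_zero_of_mem {r : ℕ} {G : RR (Option Empty)} (hG : G ∈ SpW r) : dW r G = 0 := by
  unfold dW
  refine MvPolynomial.pderiv_eq_zero_of_notMem_vars ?_
  intro h
  have h1 := (MvPolynomial.mem_supported (R := ZMod 2)).1 hG (Finset.mem_coe.2 h)
  exact absurd (h1 (none, r) rfl) (lt_irrefl r)

lemma dW_add (r : ℕ) (F G : RR (Option Empty)) : dW r (F + G) = dW r F + dW r G :=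
  map_add _ _ _

lemma dW_mul (r : ℕ) (F G : RR (Option Empty)) :
    dW r (F * G) = F * dW r G + G * dW r F := by
  unfold dW
  rw [Derivation.leibniz, smul_eq_mul, smul_eq_mul]

lemma dW_sum (r : ℕ) {α : Type*} (s : Finset α) (f : α → RR (Option Empty)) :
    dW r (∑ p ∈ s, f p) = ∑ p ∈ s, dW r (f p) :=
  map_sum _ _ _

lemma dW_gW (r i : ℕ) : dW r (gW (none : Option Empty) i) = if i = r then 1 else 0 := by
  unfold dW gW
  by_cases h : i = r
  · subst h
    rw [if_pos rfl, MvPolynomial.pderiv_X_self]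
  · rw [if_neg h, MvPolynomial.pderiv_X_of_ne]
    intro e
    exact h (Prod.mk.inj (Sum.inr.inj e)).2

/-- The face of a coefficient variable. -/
lemma face_w (r j i : ℕ) (hi : i < r + 1) :
    face (fun _ : Option Empty => 0) j (gW none i) ∈ SpW (r + 1) ∧
    dW r (face (fun _ : Option Empty => 0) j (gW none i)) =
      face (fun _ : Option Empty => 0) j (dW r (gW none i)) := by
  rw [face_gW, dW_gW]
  have hc : face (fun _ : Option Empty => 0) j (if i = r then 1 else 0) =
      (if i = r then 1 else 0 : RR (Option Empty)) := by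
    split_ifs
    · exact map_one _
    · exact map_zero _
  rw [hc]
  cases j with
  | succ j =>
    change gW none i ∈ SpW (r + 1) ∧ dW r (gW none i) = _
    exact ⟨X_inr_mem hi, dW_gW r i⟩
  | zero =>
    change act 0 (gG 0) (gW none) i ∈ SpW (r + 1) ∧ dW r (act 0 (gG 0) (gW none) i) = _
    rw [act_apply]
    constructor
    · refine Subalgebra.sum_mem _ fun p hp => ?_
      have h2 := mem_antidiagonal.1 hp
      refine Subalgebra.mul_mem _ (Subalgebra.pow_mem _ (gG_mem _ _ _) _) (X_inr_mem ?_)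
      change p.2 < r + 1
      omega
    · rw [dW_sum]
      have e : ∀ p ∈ antidiagonal i,
          dW r ((gG (ι := Option Empty) 0).co p.1 ^ 2 ^ (p.2 + 0) * gW none p.2) =
            if p = (0, r) then 1 else 0 := by
        intro p hp
        have h2 := mem_antidiagonal.1 hp
        rw [dW_mul, dW_zero_of_mem (Subalgebra.pow_mem _ (gG_mem r 0 p.1) _), mul_zero, add_zero,
          dW_gW]
        by_cases h : p.2 = r
        · have h1 : p.1 = 0 := by omega
          have hp' : p = (0, r) := Prod.ext h1 h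
          rw [if_pos h, if_pos hp', h1, Pt.co_zero, one_pow, mul_one]
        · rw [if_neg h, mul_zero, if_neg]
          intro e
          exact h (by rw [e])
      rw [Finset.sum_congr rfl e, Finset.sum_ite_eq']
      by_cases h : i = r
      · rw [if_pos h, if_pos]
        rw [mem_antidiagonal]
        omega
      · rw [if_neg h, if_neg]
        rw [mem_antidiagonal]
        omega

lemma main (r j : ℕ) (F : RR (Option Empty)) (hF : F ∈ SpW (r + 1)) :
    face (fun _ : Option Empty => 0) j F ∈ SpW (r + 1) ∧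
    dW r (face (fun _ : Option Empty => 0) j F) =
      face (fun _ : Option Empty => 0) j (dW r F) := by
  unfold SpW at hF
  rw [MvPolynomial.supported_eq_adjoin_X] at hF
  induction hF using Algebra.adjoin_induction with
  | mem x hx =>
    obtain ⟨v, hv, rfl⟩ := hx
    rcases v with v | v
    · have e : face (fun _ : Option Empty => 0) j (X (Sum.inl v)) =
          (fg j gG v.1).co (v.2 + 1) := by
        unfold face
        rw [ev_inl]
      rw [e]
      refine ⟨fg_mem _ _ _ _, ?_⟩
      rw [dW_zero_of_mem (fg_mem r _ _ _), dW_zero_of_mem (X_inl_mem r v), map_zero]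
    · rcases v with ⟨o, i⟩
      cases o with
      | none => exact face_w r j i (hv (none, i) rfl)
      | some b => exact b.elim
  | algebraMap c =>
    have e : face (fun _ : Option Empty => 0) j (algebraMap (ZMod 2) (RR (Option Empty)) c) =
        algebraMap (ZMod 2) (RR (Option Empty)) c := AlgHom.commutes _ _
    have e0 : dW r (algebraMap (ZMod 2) (RR (Option Empty)) c) = 0 :=
      Derivation.map_algebraMap _ _
    rw [e, e0, map_zero]
    exact ⟨Subalgebra.algebraMap_mem _ _, rfl⟩
  | add x y _ _ ihx ihy =>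
    rw [map_add, dW_add, dW_add, map_add, ihx.2, ihy.2]
    exact ⟨Subalgebra.add_mem _ ihx.1 ihy.1, rfl⟩
  | mul x y _ _ ihx ihy =>
    rw [map_mul, dW_mul, dW_mul, map_add, map_mul, map_mul, ihx.2, ihy.2]
    exact ⟨Subalgebra.mul_mem _ ihx.1 ihy.1, rfl⟩

lemma exists_r (F : RR (Option Empty)) : ∃ r, F ∈ SpW r := by
  classical
  refine ⟨F.vars.sup (fun v => match v with
    | Sum.inl _ => 0
    | Sum.inr p => p.2 + 1), ?_⟩
  refine (MvPolynomial.mem_supported (R := ZMod 2)).2 ?_
  intro v hv p hp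
  have h := Finset.le_sup (f := fun v : (ℕ × ℕ) ⊕ (Option Empty × ℕ) => match v with
    | Sum.inl _ => 0
    | Sum.inr p => p.2 + 1) (Finset.mem_coe.1 hv)
  rw [hp] at h
  exact h

lemma jO_mem (f : RR Empty) : jO f ∈ SpW 0 := by
  induction f using MvPolynomial.induction_on with
  | C c =>
    have e : jO (C c : RR Empty) = algebraMap (ZMod 2) (RR (Option Empty)) c :=
      AlgHom.commutes (jO (ι := Empty)) c
    rw [e]
    exact Subalgebra.algebraMap_mem _ _
  | add p q hp hq =>
    rw [map_add]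
    exact Subalgebra.add_mem _ hp hq
  | mul_X p v hp =>
    rw [map_mul]
    refine Subalgebra.mul_mem _ hp ?_
    rcases v with v | v
    · have e : jO (X (Sum.inl v) : RR Empty) = (gG v.1).co (v.2 + 1) := by
        unfold jO
        rw [ev_inl]
      rw [e]
      exact gG_mem _ _ _
    · exact v.1.elim

end XFc3

theorem pr_Fc3 : StFc3 :=
  ⟨fun r j F hF => XFc3.main r j F hF, XFc3.exists_r, fun _ _ _ h hF => XFc3.mono h hF,
    fun r f => ⟨XFc3.jO_mem f,
      XFc3.dW_zero_of_mem (XFc3.mono (Nat.zero_le r) (XFc3.jO_mem f))⟩⟩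

end

end Pool.Agent.Work.MP_701abf_gt.F5
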