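import Pool.Agent.Work.MP_701abf_gt.F5.T3Stmts

/-!
# Block T3, item Hc3: `H ^ 1` of the symmetric square in weight `2 ^ c + 1`, `c ≥ 3`
-/

open MvPolynomial
open Pool.Agent.Work.MP_701abf_gt.Stab Pool.Agent.Work.MP_701abf_gt.Cob
open Pool.Agent.Work.MP_701abf_gt.Sq2 Pool.Agent.Work.MP_701abf_gt.Sq2.FL

namespace Pool.Agent.Work.MP_701abf_gt.F5

noncomputable section

namespace XHc3

theorem dcdc {q m : ℤ} {e : RR (Option Empty)} (he : e ∈ CW q 1 m) : dc 2 (dc 1 e) = 0 :=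
  dR_dR' _ he.1

theorem add2 (v : RR (Option Empty)) : v + v = 0 := add_self2 v

/-- The derivative of a square is zero. -/
theorem dW_sq (r : ℕ) (s : RR (Option Empty)) : dW r (s ^ 2) = 0 := by
  unfold dW
  rw [pow_two, Derivation.leibniz]
  exact add2 _

/-- A face of `jO f` times a square has no derivative. -/
theorem dW_face (hFc : StFc3) (r j : ℕ) (f : RR Empty) (s : RR (Option Empty)) :
    dW r (face (fun _ : Option Empty => 0) j (jO f * s ^ 2)) = 0 := by
  have h1 := hFc.2.2.2 r f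
  have h2 := (hFc.1 r j (jO f) (hFc.2.2.1 0 (r + 1) _ (Nat.zero_le _) h1.1)).2
  rw [h1.2, map_zero] at h2
  rw [map_mul, map_pow]
  have h3 := dW_sq r (face (fun _ : Option Empty => 0) j s)
  unfold dW at h2 h3 ⊢
  rw [Derivation.leibniz, h2, h3, smul_zero, smul_zero, add_zero]

theorem dW_dc (hFc : StFc3) (r : ℕ) (f : RR Empty) (s : RR (Option Empty)) :
    dW r (dc 2 (jO f * s ^ 2)) = 0 := by
  show dW r (dR (fun _ : Option Empty => 0) 2 (jO f * s ^ 2)) = 0
  rw [dR_apply]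
  have h : ∀ j, dW r (face (fun _ : Option Empty => 0) j (jO f * s ^ 2)) = 0 :=
    fun j => dW_face hFc r j f s
  unfold dW at h ⊢
  rw [map_sum]
  exact Finset.sum_eq_zero fun j _ => h j

end XHc3

open XHc3 in
theorem pr_Hc3 : StHc3 := by
  intro hFc hTr hDc hXt hKl hKz c hc y hy hd
  obtain ⟨e, he, u, hu, z, hz, hzS, hyz⟩ := hKl c (by omega) y hy hd
  rcases hu with rfl | rfl
  · rw [map_zero, zero_mul, zero_add] at hyz
    have hz0 : z = 0 := by
      refine hKz c (by omega) z hz hzS ?_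
      rw [← hyz, map_add, hd, dcdc he, add_zero]
    rw [hz0] at hyz
    exact ⟨e, he, by linear_combination (add2 (dc 1 e)) - hyz⟩
  · exfalso
    obtain ⟨r, rfl⟩ : ∃ r, c = r + 2 := ⟨c - 2, by omega⟩
    have e1 : r + 2 - 1 = r + 1 := by omega
    rw [e1] at hzS hyz
    have hz2 : dc 2 (jO (ha 0) * gW none (r + 1) ^ 2 + z) = 0 := by
      rw [← hyz, map_add, hd, dcdc he, add_zero]
    have hdz : dc 2 z = dc 2 (jO (ha 0) * gW none (r + 1) ^ 2) := by
      have h1 := hz2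
      rw [map_add] at h1
      linear_combination h1 - add2 (dc 2 (jO (ha 0) * gW none (r + 1) ^ 2))
    have hw : dW r (dc 2 z) = 0 := by
      rw [hdz]
      exact dW_dc hFc r (ha 0) _
    have hr1 : 1 ≤ r := by omega
    have h0 : dW r z = 0 := by
      rcases hTr hFc (2 ^ (r + 2) + 1) r z hz hzS hw with h2 | ⟨b, hb1, hb2, hb3⟩ |
        ⟨b, hb1, hb2, hb3, _⟩
      · exact h2
      · exfalso
        obtain ⟨b', rfl⟩ : ∃ b', b = b' + 1 := ⟨b - 1, by omega⟩
        obtain ⟨r', rfl⟩ : ∃ r', r = r' + 1 := ⟨r - 1, by omega⟩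
        rw [pow_succ, pow_succ, pow_succ, pow_succ] at hb3
        omega
      · exfalso
        have e2 : (2 : ℤ) ^ (r + 2) = 4 * 2 ^ r := by ring
        have hrpos : (0 : ℤ) < 2 ^ r := by positivity
        rw [e2] at hb3
        rcases Nat.lt_or_ge b (r + 2) with hb | hb
        · have h5 : (2 : ℤ) ^ b ≤ 2 ^ (r + 1) := pow_le_pow_right₀ (by norm_num) (by omega)
          rw [pow_succ] at h5
          omega
        · have h5 : (2 : ℤ) ^ (r + 2) ≤ 2 ^ b := pow_le_pow_right₀ (by norm_num) hb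
          rw [e2] at h5
          omega
    obtain ⟨v, hv1, hv2, z', hz'1, hz'2, hz'3⟩ := hDc.1 (2 ^ (r + 2) + 1) r z hz hzS h0
    have hdv : dE 2 v = ha (r + 1) * sh 1 (ha 0) := by
      refine hXt.2 (2 ^ (r + 2) + 1) r (ha 0) v z' hz'1 hz'2 ?_
      rw [← hz'3]
      exact hz2
    have e3 : (2 : ℤ) ^ (r + 2) + 1 - 2 ^ (r + 1) = 2 ^ (r + 1) + 2 ^ 0 := by ring
    rw [e3] at hv2
    rcases two_nv (r + 1) 0 ⟨v, hv1, hv2, hdv⟩ with h | h
    · omega
    · omega

end

end Pool.Agent.Work.MP_701abf_gt.F5
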