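import Pool.Agent.Work.MP_701abf_gt.F5.T3Stmts

/-!
# MP_701abf_gt: `H ^ 1` of the symmetric square in the weights 2, 3, and 5
-/

open MvPolynomial
open Finset.HasAntidiagonal (antidiagonal mem_antidiagonal)
open Pool.Agent.Work.MP_701abf_gt.Stab Pool.Agent.Work.MP_701abf_gt.Cob
open Pool.Agent.Work.MP_701abf_gt.Sq2 Pool.Agent.Work.MP_701abf_gt.Sq2.FL

namespace Pool.Agent.Work.MP_701abf_gt.F5

noncomputable section

namespace XHs3

theorem jO_ha0 : jO (ha 0) = (X (Sum.inl (0, 0)) : RR (Option Empty)) := by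
  unfold ha h0c jO
  rw [pow_zero, pow_one, ev_inl]
  rfl

theorem act_zero : (act 0 (gG 0) (gW none) 0 : RR (Option Empty)) = gW none 0 := by
  rw [act_apply, Finset.Nat.antidiagonal_zero, Finset.sum_singleton, Pt.co_zero, one_pow, one_mul]

theorem act_one : (act 0 (gG 0) (gW none) 1 : RR (Option Empty)) =
    gW none 1 + X (Sum.inl (0, 0)) * gW none 0 := by
  rw [act_apply, XCwb.sum_anti, Finset.sum_range_succ, Finset.sum_range_one, Nat.sub_self,
    Pt.co_zero, one_pow, one_mul, Nat.sub_zero, add_comm]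
  show gW none 1 + (gG (ι := Option Empty) 0).co (0 + 1) ^ 2 ^ (0 + 0) * gW none 0 = _
  rw [gG_succ, add_zero, pow_zero, pow_one]

theorem dc_w01 : dc 1 (gW none 0 * gW none 1) =
    (jO (ha 0) * gW none 0 ^ 2 : RR (Option Empty)) := by
  rw [XSqCob.dc_mul, act_zero, act_one, jO_ha0]
  have h := add_self2 (gW none 0 * gW none 1 : RR (Option Empty))
  linear_combination h

theorem w01_mem : (gW none 0 * gW none 1 : RR (Option Empty)) ∈ CW 2 1 3 := by
  refine ⟨mem_lev_succ.2 ?_, ?_⟩
  · rw [map_mul, prj_gW, prj_gW]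
  · exact (wh_gW cO (fun _ : Option Empty => 0) none 0).mul
      (wh_gW cO (fun _ : Option Empty => 0) none 1)

theorem dcdc {q m : ℤ} {e : RR (Option Empty)} (he : e ∈ CW q 1 m) : dc 2 (dc 1 e) = 0 :=
  dR_dR' _ he.1

end XHs3

open XHs3 in
theorem pr_Hs3 : StHs3 := by
  intro hFc hTr hDc hXt hUc hKl hKz
  have add2 : ∀ v : RR (Option Empty), v + v = 0 := fun v => add_self2 v
  refine ⟨?_, ?_, ?_⟩
  · intro y hy hd
    have step : ∀ r : ℕ, y ∈ SpW (r + 1) → y ∈ SpW r := by
      intro r hr
      have h2r : (1 : ℤ) ≤ 2 ^ r := one_le_pow₀ (by norm_num)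
      have hw : dW r (dc 2 y) = 0 := by
        rw [hd]
        exact map_zero _
      rcases hTr hFc 2 r y hy hr hw with h | ⟨b, hb1, hbr, hM⟩ | ⟨b, hb1, hr1, hM, -⟩
      · obtain ⟨u, hu, huw, z, hz, hzS, hyz⟩ := hDc.1 2 r y hy hr h
        have hdu : dE 2 u = 0 := by
          refine hXt.1 2 r u z hz hzS ?_
          rw [← hyz]
          exact hd
        have huZ : u ∈ ZR 1 (2 - 2 ^ (r + 1)) := ⟨hu, huw, hdu⟩
        rcases hUc _ u huZ with h0 | ⟨b, hb, -⟩
        · rw [hyz, h0, map_zero, zero_mul, zero_add]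
          exact hzS
        · exfalso
          have h2b : (1 : ℤ) ≤ 2 ^ b := one_le_pow₀ (by norm_num)
          rw [pow_succ] at hb
          linarith
      · exfalso
        have h2b : (2 : ℤ) ^ 1 ≤ 2 ^ b := pow_le_pow_right₀ (by norm_num) hb1
        linarith
      · exfalso
        have h2b : (2 : ℤ) ^ 1 ≤ 2 ^ b := pow_le_pow_right₀ (by norm_num) hb1
        linarith
    have all : ∀ R : ℕ, y ∈ SpW R → y ∈ SpW 0 := by
      intro R
      induction R with
      | zero => exact fun h => h
      | succ R ih => exact fun h => ih (step R h)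
    obtain ⟨R, hR⟩ := hFc.2.1 y
    have hy0 : y = 0 := hDc.2 2 y hy (all R hR)
    exact ⟨0, Submodule.zero_mem _, by rw [map_zero, hy0]⟩
  · intro y hy hd
    have e3 : (2 : ℤ) ^ 1 + 1 = 3 := by norm_num
    have h := hKl 1 le_rfl
    rw [e3] at h
    obtain ⟨e, he, u, hu, z, hz, hzS, hyz⟩ := h y hy hd
    have hz0 : z = 0 := hDc.2 3 z hz hzS
    rw [hz0, add_zero] at hyz
    rcases hu with rfl | rfl
    · rw [map_zero, zero_mul] at hyz
      exact ⟨e, he, by linear_combination (add2 (dc 1 e)) - hyz⟩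
    · refine ⟨e + gW none 0 * gW none 1, Submodule.add_mem _ he w01_mem, ?_⟩
      rw [map_add, dc_w01]
      have hyz' : y + dc 1 e = jO (ha 0) * gW none 0 ^ 2 := hyz
      linear_combination (add2 (dc 1 e)) - hyz'
  · intro y hy hd y' hy' hd'
    have e5 : (2 : ℤ) ^ 2 + 1 = 5 := by norm_num
    have h := hKl 2 (by norm_num)
    have hK := hKz 2 (by norm_num)
    rw [e5] at h hK
    obtain ⟨e, he, u, hu, z, hz, hzS, hyz⟩ := h y hy hd
    obtain ⟨e', he', u', hu', z', hz', hzS', hyz'⟩ := h y' hy' hd'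
    rcases hu with rfl | rfl
    · rw [map_zero, zero_mul, zero_add] at hyz
      have hz0 : z = 0 := by
        refine hK z hz hzS ?_
        rw [← hyz, map_add, hd, dcdc he, add_zero]
      rw [hz0] at hyz
      exact ⟨e, he, Or.inl (by linear_combination (add2 (dc 1 e)) - hyz)⟩
    · rcases hu' with rfl | rfl
      · rw [map_zero, zero_mul, zero_add] at hyz'
        have hz0 : z' = 0 := by
          refine hK z' hz' hzS' ?_
          rw [← hyz', map_add, hd', dcdc he', add_zero]
        rw [hz0] at hyz'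
        exact ⟨e', he', Or.inr (Or.inl (by linear_combination (add2 (dc 1 e')) - hyz'))⟩
      · have hs : y + y' + dc 1 (e + e') = z + z' := by
          rw [map_add]
          have h1 := add2 (jO (ha 0) * gW none (2 - 1) ^ 2)
          linear_combination hyz + hyz' + h1
        have hz0 : z + z' = 0 := by
          refine hK _ (Submodule.add_mem _ hz hz') (Subalgebra.add_mem _ hzS hzS') ?_
          rw [← hs, map_add, map_add, hd, hd', dcdc (Submodule.add_mem _ he he'), add_zero, add_zero]
        rw [hz0] at hs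
        refine ⟨e + e', Submodule.add_mem _ he he', Or.inr (Or.inr ?_)⟩
        linear_combination (add2 (dc 1 (e + e'))) - hs

end

end Pool.Agent.Work.MP_701abf_gt.F5
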