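import Pool.Agent.Work.MP_701abf_gt.F5.T3Stmts

/-!
# Part Kl3: the cocycles in weight `2 ^ c + 1`
-/

set_option autoImplicit false

open MvPolynomial
open Pool.Agent.Work.MP_701abf_gt.Stab Pool.Agent.Work.MP_701abf_gt.Cob
open Pool.Agent.Work.MP_701abf_gt.Sq2 Pool.Agent.Work.MP_701abf_gt.Sq2.FL

namespace Pool.Agent.Work.MP_701abf_gt.F5

noncomputable section

namespace XKl3

/-- One step: split off the square and read off that its coefficient is a cocycle. -/
lemma red (hDc : StDc3) (hXt : StXt3) {M : ℤ} {r : ℕ} {y : RR (Option Empty)}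
    (hy : y ∈ CW 2 2 M) (hr : y ∈ SpW (r + 1)) (hW : dW r y = 0) (hd : dc 2 y = 0) :
    ∃ u ∈ ZR 1 (M - 2 ^ (r + 1)), ∃ z ∈ CW 2 2 M, z ∈ SpW r ∧
      y = jO u * gW none r ^ 2 + z := by
  obtain ⟨u, hu, huw, z, hz, hzr, e⟩ := hDc.1 M r y hy hr hW
  refine ⟨u, ⟨hu, huw, ?_⟩, z, hz, hzr, e⟩
  refine hXt.1 M r u z hz hzr ?_
  rw [← e]
  exact hd

lemma dW_add (r : ℕ) (a b : RR (Option Empty)) : dW r (a + b) = dW r a + dW r b :=
  map_add _ a b

lemma dW_sum (r : ℕ) {α : Type*} (s : Finset α) (f : α → RR (Option Empty)) :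
    dW r (∑ i ∈ s, f i) = ∑ i ∈ s, dW r (f i) :=
  map_sum (pderiv (Sum.inr (none, r)) :
    Derivation (ZMod 2) (RR (Option Empty)) (RR (Option Empty))) f s

lemma dW_mul (r : ℕ) (a b : RR (Option Empty)) : dW r (a * b) = a * dW r b + b * dW r a := by
  unfold dW
  rw [Derivation.leibniz, smul_eq_mul, smul_eq_mul]

lemma dW_gW_ne {r i : ℕ} (h : i ≠ r) : dW r (gW none i) = 0 := by
  unfold dW gW
  rw [pderiv_X_of_ne]
  intro he
  have := congrArg Prod.snd (Sum.inr.inj he)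
  exact h this

lemma dW_gW (r : ℕ) : dW r (gW none r) = 1 := by
  unfold dW gW
  rw [pderiv_X_self]

lemma gW_SpW {r i : ℕ} (h : i < r) : (gW none i : RR (Option Empty)) ∈ SpW r := by
  unfold SpW gW
  rw [X_mem_supported]
  intro p hp
  have := Sum.inr.inj hp
  rw [← this]
  exact h

/-- The coboundary of the product of the first and another coefficient variable. -/
lemma dc_mul (b : ℕ) : dc 1 (gW none 0 * gW none b) =
    gW none 0 * dc 1 (gW none b : RR (Option Empty)) := by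
  have h0 : face (fun _ : Option Empty => 0) 0 (gW none 0) = gW none 0 := by
    have h2 : face (fun _ : Option Empty => 0) 0 (gW none 0) =
        act 0 (gG (ι := Option Empty) 0) (gW none) 0 := face_inr _ _ _
    rw [h2, act_apply, XCwb.sum_anti, Finset.sum_range_one, Nat.sub_zero, Pt.co_zero, one_pow,
      one_mul]
  have h1 : face (fun _ : Option Empty => 0) 1 (gW none 0) = gW none 0 := face_inr _ _ _
  rw [dR_apply, dR_apply]
  simp only [Finset.sum_range_succ, Finset.sum_range_zero, zero_add]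
  rw [map_mul, map_mul, h0, h1, mul_add]

lemma e_mem (s : ℕ) : (gW none 0 * gW none (s + 1) : RR (Option Empty)) ∈
    CW 2 1 (2 ^ (s + 1) + 1) := by
  have h0 := XHW.gW_mem 0
  have h1 := XHW.gW_mem (s + 1)
  refine ⟨mul_lev h0.1 h1.1, ?_⟩
  have h2 : WH (wt cO (fun _ : Option Empty => 0)) (gW none 0) ((0, 1), 2 ^ 0) := h0.2
  have h3 : WH (wt cO (fun _ : Option Empty => 0)) (gW none (s + 1)) ((0, 1), 2 ^ (s + 1)) := h1.2
  have h4 := h2.mul h3
  have e : ((((0, 1) : ℤ × ℤ), (2 : ℤ) ^ 0) + ((0, 1), 2 ^ (s + 1))) =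
      ((0, 2), 2 ^ (s + 1) + 1) := by
    rw [Prod.mk_add_mk, Prod.mk_add_mk, pow_zero, add_comm (1 : ℤ) (2 ^ (s + 1))]
    rfl
  rw [e] at h4
  exact h4

lemma term_SpW (hFc : StFc3) (b i : ℕ) (h : i < b) :
    jO (cw b i) * gW none i ∈ SpW b :=
  Subalgebra.mul_mem _ (hFc.2.2.1 0 b _ (Nat.zero_le b) (hFc.2.2.2 0 (cw b i)).1) (gW_SpW h)

lemma dce_SpW (hFc : StFc3) (s : ℕ) :
    dc 1 (gW none 0 * gW none (s + 1)) ∈ SpW (s + 1) := by
  rw [dc_mul, (pr_Cwb (s + 1)).2]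
  refine Subalgebra.mul_mem _ (gW_SpW (Nat.succ_pos s)) ?_
  exact Subalgebra.sum_mem _ fun i hi => term_SpW hFc _ _ (Finset.mem_range.1 hi)

lemma dce_dW (hFc : StFc3) {s : ℕ} (hs : 1 ≤ s) :
    dW s (dc 1 (gW none 0 * gW none (s + 1))) = X (Sum.inl (0, 0)) ^ 2 ^ s * gW none 0 := by
  have h1 : ∀ i, dW s (jO (cw (s + 1) i) * gW none i) =
      jO (cw (s + 1) i) * dW s (gW none i) := by
    intro i
    rw [dW_mul, (hFc.2.2.2 s (cw (s + 1) i)).2, mul_zero, add_zero]
  have h2 : dW s (∑ i ∈ Finset.range (s + 1), jO (cw (s + 1) i) * gW none i) =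
      X (Sum.inl (0, 0)) ^ 2 ^ s := by
    rw [dW_sum, Finset.sum_eq_single_of_mem s (Finset.mem_range.2 (Nat.lt_succ_self s))]
    · rw [h1, dW_gW, mul_one]
      have h3 : cw (s + 1) s = (gG (ι := Empty) 0).co 1 ^ 2 ^ s := by
        unfold cw
        rw [if_pos (Nat.lt_succ_self s), Nat.add_sub_cancel_left]
      rw [h3, map_pow, XCwb.jO_co]
      rfl
    · intro i _ hi
      rw [h1, dW_gW_ne hi, mul_zero]
  rw [dc_mul, (pr_Cwb (s + 1)).2, dW_mul, h2, dW_gW_ne (by omega), mul_zero, add_zero, mul_comm]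

lemma par {s b r : ℕ} (hb : 1 ≤ b) (hr : 1 ≤ r)
    (h : (2 : ℤ) ^ (s + 1) + 1 = 2 ^ b + 2 ^ r) : False := by
  obtain ⟨b, rfl⟩ := Nat.exists_eq_add_of_le' hb
  obtain ⟨r, rfl⟩ := Nat.exists_eq_add_of_le' hr
  rw [pow_succ, pow_succ, pow_succ] at h
  omega

end XKl3

open XKl3 in
theorem pr_Kl3 : StKl3 := by
  intro hFc hTr0 hDc hXt hUc c hc y hy hd
  have hTr := hTr0 hFc
  obtain ⟨s, rfl⟩ := Nat.exists_eq_add_of_le' hc
  rw [Nat.add_sub_cancel]
  -- the descent to the first `s + 1` variables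
  have key : ∀ k : ℕ, y ∈ SpW (s + 1 + k) → y ∈ SpW (s + 1) := by
    intro k
    induction k with
    | zero => exact id
    | succ k ih =>
      intro hk
      apply ih
      have hk' : y ∈ SpW ((s + 1 + k) + 1) := hk
      have hpow : (2 : ℤ) ^ (s + 1) ≤ 2 ^ (s + 1 + k) :=
        pow_le_pow_right₀ one_le_two (Nat.le_add_right _ _)
      have hW : dW (s + 1 + k) y = 0 := by
        rcases hTr _ (s + 1 + k) y hy hk' (by rw [hd]; exact map_zero _) with
          h | ⟨b, hb1, hbr, hM⟩ | ⟨b, hb1, hr1, hM, _⟩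
        · exact h
        · exact (par hb1 (by omega) hM).elim
        · exfalso
          have h2 : (0 : ℤ) < 2 ^ b := by positivity
          linarith
      obtain ⟨u, hu, z, hz, hzr, e⟩ := red hDc hXt hy hk' hW hd
      have hu0 : u = 0 := by
        rcases hUc _ u hu with h | ⟨b, hb, _⟩
        · exact h
        · exfalso
          have h2 : (0 : ℤ) < 2 ^ b := by positivity
          have h3 : (1 : ℤ) ≤ 2 ^ s := one_le_pow₀ one_le_two
          have h4 : (2 : ℤ) ^ (s + 1 + k + 1) = 2 ^ (s + 1 + k) * 2 := pow_succ _ _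
          have h5 : (2 : ℤ) ^ (s + 1) = 2 ^ s * 2 := pow_succ _ _
          linarith
      rw [e, hu0, map_zero, zero_mul, zero_add]
      exact hzr
  have hys : y ∈ SpW (s + 1) := by
    obtain ⟨R, hR⟩ := hFc.2.1 y
    exact key R (hFc.2.2.1 R _ y (Nat.le_add_left _ _) hR)
  -- it suffices to kill the derivative
  suffices hsuf : ∃ e ∈ CW 2 1 (2 ^ (s + 1) + 1), dc 1 e ∈ SpW (s + 1) ∧
      dW s (y + dc 1 e) = 0 by
    obtain ⟨e, he, heS, heW⟩ := hsuf
    have hde : dc 1 e ∈ CW 2 2 (2 ^ (s + 1) + 1) := ⟨dR_lev _ he.1, dR_wh _ he.2⟩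
    have hdd : dc 2 (y + dc 1 e) = 0 := by
      rw [map_add, hd, zero_add]
      exact dR_dR' _ he.1
    obtain ⟨u, hu, z, hz, hzr, e1⟩ := red hDc hXt (Submodule.add_mem _ hy hde)
      (Subalgebra.add_mem _ hys heS) heW hdd
    refine ⟨e, he, u, ?_, z, hz, hzr, e1⟩
    rcases hUc _ u hu with h | ⟨b, hb, hub⟩
    · exact Or.inl h
    · right
      have h1 : (1 : ℤ) = 2 ^ b := by
        rw [← hb]
        ring
      have h2 : b = 0 := by
        by_contra hb0
        obtain ⟨b, rfl⟩ := Nat.exists_eq_succ_of_ne_zero hb0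
        rw [Nat.succ_eq_add_one, pow_succ] at h1
        omega
      rw [hub, h2]
  rcases hTr _ s y hy hys (by rw [hd]; exact map_zero _) with
    h | ⟨b, hb1, hbr, hM⟩ | ⟨b, hb1, hr1, hM, hyW⟩
  · refine ⟨0, Submodule.zero_mem _, ?_, ?_⟩
    · rw [map_zero]
      exact Subalgebra.zero_mem _
    · rw [map_zero, add_zero]
      exact h
  · exact (par hb1 (by omega) hM).elim
  · have hbs : b = s := by
      have h2 : (2 : ℤ) ^ (s + 1) = 2 ^ b + 2 ^ s := by linarith
      have h3 : (2 : ℤ) ^ b = 2 ^ s := by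
        rw [pow_succ] at h2
        linarith
      have h4 : (2 : ℕ) ^ b = 2 ^ s := by exact_mod_cast h3
      exact Nat.pow_right_injective le_rfl h4
    subst hbs
    refine ⟨_, e_mem b, dce_SpW hFc b, ?_⟩
    rw [dW_add, dce_dW hFc hb1, hyW]
    exact add_self2 _

end

end Pool.Agent.Work.MP_701abf_gt.F5
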