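import Pool.Agent.Work.MP_701abf_gt.F5.T3Stmts

/-!
# Block T3, item Kz3: small cocycles vanish
-/

open MvPolynomial
open Pool.Agent.Work.MP_701abf_gt.Stab Pool.Agent.Work.MP_701abf_gt.Cob
open Pool.Agent.Work.MP_701abf_gt.Sq2 Pool.Agent.Work.MP_701abf_gt.Sq2.FL

namespace Pool.Agent.Work.MP_701abf_gt.F5

noncomputable section

theorem XKz3.step (hF : StFc3) (hT : StTr3) (hD : StDc3) (hX : StXt3) (hU : StUc3) (c r : ℕ)
    (hr : r + 2 ≤ c) (y : RR (Option Empty)) (hy : y ∈ CW 2 2 (2 ^ c + 1)) (hs : y ∈ SpW (r + 1))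
    (hd : dc 2 y = 0) : y ∈ SpW r := by
  have hc1 : ∃ q : ℤ, (2 : ℤ) ^ c = 2 * q := ⟨2 ^ (c - 1), by
    rw [← pow_succ']
    congr 1
    omega⟩
  obtain ⟨q, hq⟩ := hc1
  have h4 : (4 : ℤ) * 2 ^ r ≤ 2 ^ c := by
    have : (4 : ℤ) * 2 ^ r = 2 ^ (r + 2) := by ring
    rw [this]
    exact pow_le_pow_right₀ (by norm_num) hr
  have hrpos : (0 : ℤ) < 2 ^ r := by positivity
  have h0 : dW r y = 0 := by
    have h1 : dW r (dc 2 y) = 0 := by
      rw [hd]
      exact map_zero _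
    rcases hT hF (2 ^ c + 1) r y hy hs h1 with h2 | ⟨b, hb1, hb2, hb3⟩ | ⟨b, hb1, hb2, hb3, _⟩
    · exact h2
    · exfalso
      obtain ⟨b', rfl⟩ : ∃ b', b = b' + 1 := ⟨b - 1, by omega⟩
      obtain ⟨r', rfl⟩ : ∃ r', r = r' + 1 := ⟨r - 1, by omega⟩
      rw [pow_succ, pow_succ] at hb3
      omega
    · exfalso
      have hbc : b < c := by
        by_contra hcon
        have : (2 : ℤ) ^ c ≤ 2 ^ b := pow_le_pow_right₀ (by norm_num) (not_lt.1 hcon)
        omega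
      have h5 : (2 : ℤ) * 2 ^ b ≤ 2 ^ c := by
        rw [← pow_succ']
        exact pow_le_pow_right₀ (by norm_num) hbc
      omega
  obtain ⟨u, hu1, hu2, z, hz1, hz2, hz3⟩ := hD.1 (2 ^ c + 1) r y hy hs h0
  have hdu : dE 2 u = 0 := by
    refine hX.1 (2 ^ c + 1) r u z hz1 hz2 ?_
    rw [← hz3]
    exact hd
  have hu : u = 0 := by
    rcases hU (2 ^ c + 1 - 2 ^ (r + 1)) u ⟨hu1, hu2, hdu⟩ with h1 | ⟨b, hb, _⟩
    · exact h1
    · exfalso
      rcases Nat.eq_zero_or_pos b with rfl | hb0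
      · rw [pow_succ, pow_zero] at hb
        omega
      · obtain ⟨b', rfl⟩ : ∃ b', b = b' + 1 := ⟨b - 1, by omega⟩
        rw [pow_succ, pow_succ] at hb
        omega
  rw [hz3, hu, map_zero, zero_mul, zero_add]
  exact hz2

theorem pr_Kz3 : StKz3 := by
  intro hF hT hD hX hU c hc y hy hs hd
  have h : ∀ m r : ℕ, r + 1 ≤ c → m + r = c - 1 → y ∈ SpW r := by
    intro m
    induction m with
    | zero =>
      intro r _ hr
      rw [zero_add] at hr
      rw [hr]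
      exact hs
    | succ m ih =>
      intro r hr1 hr
      have h1 := ih (r + 1) (by omega) (by omega)
      exact XKz3.step hF hT hD hX hU c r (by omega) y hy h1 hd
  exact hD.2 (2 ^ c + 1) y hy (h (c - 1) 0 (by omega) (by omega))

end

end Pool.Agent.Work.MP_701abf_gt.F5
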