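import Pool.Agent.Work.MP_701abf_gt.F5.T3Stmts
import Mathlib.Algebra.DualNumber

/-!
# The 3-line in the degrees `2 ^ c`, item P03: `h_0 ^ 4` is not `0`
-/

open MvPolynomial
open Pool.Agent.Work.MP_701abf_gt.Stab Pool.Agent.Work.MP_701abf_gt.Cob
open Pool.Agent.Work.MP_701abf_gt.Sq2 Pool.Agent.Work.MP_701abf_gt.Sq2.FL

namespace Pool.Agent.Work.MP_701abf_gt.F5

noncomputable section

namespace XP03

/-- Adjoining an element of square zero to a subalgebra. -/
def adj {S : Type} [CommRing S] [Algebra (ZMod 2) S] (A : Subalgebra (ZMod 2) S) (e : S)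
    (he : e * e = 0) : Subalgebra (ZMod 2) S where
  carrier := {x | ∃ u ∈ A, ∃ v ∈ A, x = u + v * e}
  mul_mem' := by
    rintro x y ⟨u, hu, v, hv, rfl⟩ ⟨u', hu', v', hv', rfl⟩
    refine ⟨u * u', A.mul_mem hu hu', u * v' + v * u',
      A.add_mem (A.mul_mem hu hv') (A.mul_mem hv hu'), ?_⟩
    linear_combination (v * v') * he
  add_mem' := by
    rintro x y ⟨u, hu, v, hv, rfl⟩ ⟨u', hu', v', hv', rfl⟩
    exact ⟨u + u', A.add_mem hu hu', v + v', A.add_mem hv hv', by ring⟩
  algebraMap_mem' r := ⟨algebraMap _ _ r, A.algebraMap_mem r, 0, A.zero_mem, by ring⟩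

section

variable {S : Type} [CommRing S] [Algebra (ZMod 2) S]

lemma le_adj (A : Subalgebra (ZMod 2) S) (e : S) (he : e * e = 0) {x : S} (hx : x ∈ A) :
    x ∈ adj A e he := ⟨x, hx, 0, A.zero_mem, by ring⟩

lemma self_adj (A : Subalgebra (ZMod 2) S) (e : S) (he : e * e = 0) : e ∈ adj A e he :=
  ⟨0, A.zero_mem, 1, A.one_mem, by ring⟩

/-- The subalgebra generated by three elements of square zero. -/
def T3 (a b c : S) (ha : a * a = 0) (hb : b * b = 0) (hc : c * c = 0) : Subalgebra (ZMod 2) S :=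
  adj (adj (adj ⊥ c hc) b hb) a ha

lemma T3_form {a b c : S} {ha : a * a = 0} {hb : b * b = 0} {hc : c * c = 0} {x : S}
    (hx : x ∈ T3 a b c ha hb hc) : ∃ t0 t1 t2 t3 t4 t5 t6 t7 : ZMod 2,
    x = t0 • 1 + t1 • a + t2 • b + t3 • c + t4 • (a * b) + t5 • (a * c) + t6 • (b * c) +
      t7 • (a * b * c) := by
  obtain ⟨u, ⟨u1, ⟨u2, hu2, u3, hu3, rfl⟩, u4, ⟨u5, hu5, u6, hu6, rfl⟩, rfl⟩,
    v, ⟨v1, ⟨v2, hv2, v3, hv3, rfl⟩, v4, ⟨v5, hv5, v6, hv6, rfl⟩, rfl⟩, rfl⟩ := hx
  rw [Algebra.mem_bot] at hu2 hu3 hu5 hu6 hv2 hv3 hv5 hv6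
  obtain ⟨r0, rfl⟩ := hu2
  obtain ⟨r1, rfl⟩ := hu3
  obtain ⟨r2, rfl⟩ := hu5
  obtain ⟨r3, rfl⟩ := hu6
  obtain ⟨r4, rfl⟩ := hv2
  obtain ⟨r5, rfl⟩ := hv3
  obtain ⟨r6, rfl⟩ := hv5
  obtain ⟨r7, rfl⟩ := hv6
  refine ⟨r0, r4, r2, r1, r6, r5, r3, r7, ?_⟩
  simp only [Algebra.smul_def]
  ring

/-- A cochain with three slots, at three points with coordinates in a subalgebra. -/
lemma ev_mem (T : Subalgebra (ZMod 2) S) (h : ℕ → Pt S) (w : Empty → ℕ → S)
    (hT : ∀ k < 3, ∀ i, (h k).co (i + 1) ∈ T) (G : RR Empty) : ev h w (prj 3 G) ∈ T := by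
  induction G using MvPolynomial.induction_on with
  | C t =>
    have h1 : prj 3 (C t : RR Empty) = C t := (prj (ι := Empty) 3).commutes t
    have h2 : ev h w (C t : RR Empty) = algebraMap _ _ t := (ev h w).commutes t
    rw [h1, h2]
    exact T.algebraMap_mem t
  | add p q hp hq =>
    rw [map_add, map_add]
    exact T.add_mem hp hq
  | mul_X p v hp =>
    rw [map_mul, map_mul]
    refine T.mul_mem hp ?_
    rcases v with v | v
    · by_cases hv : v.1 < 3
      · rw [prj_inl_lt hv, ev_inl]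
        exact hT v.1 hv v.2
      · rw [prj_inl_ge hv, map_zero]
        exact T.zero_mem
    · exact v.1.elim

end

/-- The dual numbers. -/
def D1 : Type := DualNumber (ZMod 2)
instance i1 : CommRing D1 := inferInstanceAs (CommRing (DualNumber (ZMod 2)))
instance a1 : Algebra (ZMod 2) D1 := inferInstanceAs (Algebra (ZMod 2) (DualNumber (ZMod 2)))

/-- Twice the dual numbers. -/
def D2 : Type := DualNumber D1
instance i2 : CommRing D2 := inferInstanceAs (CommRing (DualNumber D1))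
instance a2 : Algebra (ZMod 2) D2 := inferInstanceAs (Algebra (ZMod 2) (DualNumber D1))

/-- Three times the dual numbers. -/
def D3 : Type := DualNumber D2
instance i3 : CommRing D3 := inferInstanceAs (CommRing (DualNumber D2))
instance a3 : Algebra (ZMod 2) D3 := inferInstanceAs (Algebra (ZMod 2) (DualNumber D2))

/-- Four times the dual numbers. -/
def D4 : Type := DualNumber D3
instance i4 : CommRing D4 := inferInstanceAs (CommRing (DualNumber D3))
instance a4 : Algebra (ZMod 2) D4 := inferInstanceAs (Algebra (ZMod 2) (DualNumber D3))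

/-- The elements of square zero. -/
def eps1 : D1 := (DualNumber.eps : DualNumber (ZMod 2))
/-- The elements of square zero. -/
def eps2 : D2 := (DualNumber.eps : DualNumber D1)
/-- The elements of square zero. -/
def eps3 : D3 := (DualNumber.eps : DualNumber D2)
/-- The elements of square zero. -/
def eps4 : D4 := (DualNumber.eps : DualNumber D3)

/-- The inclusions. -/
def in2 (x : D1) : D2 := (TrivSqZeroExt.inl x : DualNumber D1)
/-- The inclusions. -/
def in3 (x : D2) : D3 := (TrivSqZeroExt.inl x : DualNumber D2)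
/-- The inclusions. -/
def in4 (x : D3) : D4 := (TrivSqZeroExt.inl x : DualNumber D3)

/-- The four elements of square zero. -/
def e0 : D4 := in4 (in3 (in2 eps1))
/-- The four elements of square zero. -/
def e1 : D4 := in4 (in3 eps2)
/-- The four elements of square zero. -/
def e2 : D4 := in4 eps3
/-- The four elements of square zero. -/
def e3 : D4 := eps4

/-- The parts. -/
def p1 (x : D1) : ZMod 2 := TrivSqZeroExt.snd (R := ZMod 2) (M := ZMod 2) x
/-- The parts. -/
def p2 (x : D2) : D1 := TrivSqZeroExt.snd (R := D1) (M := D1) x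
/-- The parts. -/
def p3 (x : D3) : D2 := TrivSqZeroExt.snd (R := D2) (M := D2) x
/-- The parts. -/
def p4 (x : D4) : D3 := TrivSqZeroExt.snd (R := D3) (M := D3) x

/-- The top coefficient. -/
def tc : D4 →ₗ[ZMod 2] ZMod 2 where
  toFun x := p1 (p2 (p3 (p4 x)))
  map_add' _ _ := rfl
  map_smul' _ _ := rfl

instance d1 : DecidableEq D1 := inferInstanceAs (DecidableEq (ZMod 2 × ZMod 2))
instance d2 : DecidableEq D2 := inferInstanceAs (DecidableEq (D1 × D1))
instance d3 : DecidableEq D3 := inferInstanceAs (DecidableEq (D2 × D2))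
instance d4 : DecidableEq D4 := inferInstanceAs (DecidableEq (D3 × D3))

lemma tc_top : tc (e3 * e2 * (e1 * e0)) = 1 := by decide

lemma e00 : e0 * e0 = 0 := by decide
lemma e11 : e1 * e1 = 0 := by decide
lemma e22 : e2 * e2 = 0 := by decide
lemma e33 : e3 * e3 = 0 := by decide
lemma e01 : (e1 + e0) * (e1 + e0) = 0 := by decide
lemma e12 : (e2 + e1) * (e2 + e1) = 0 := by decide
lemma e23 : (e3 + e2) * (e3 + e2) = 0 := by decide

/-- The integral vanishes on a subalgebra generated by three elements, if it does on the seven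
products. -/
lemma tc_T3 {a b c : D4} (ha : a * a = 0) (hb : b * b = 0) (hc : c * c = 0)
    (h : tc 1 = 0 ∧ tc a = 0 ∧ tc b = 0 ∧ tc c = 0 ∧ tc (a * b) = 0 ∧ tc (a * c) = 0 ∧
      tc (b * c) = 0 ∧ tc (a * b * c) = 0) {x : D4} (hx : x ∈ T3 a b c ha hb hc) : tc x = 0 := by
  obtain ⟨t0, t1, t2, t3, t4, t5, t6, t7, rfl⟩ := T3_form hx
  obtain ⟨h0, h1, h2, h3, h4, h5, h6, h7⟩ := h
  simp only [map_add, map_smul, h0, h1, h2, h3, h4, h5, h6, h7, smul_zero, add_zero]

/-- The value of a cochain with three slots at three points with one coordinate of square zero. -/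
lemma tc_ev {a b c : D4} (ha : a * a = 0) (hb : b * b = 0) (hc : c * c = 0)
    (h : tc 1 = 0 ∧ tc a = 0 ∧ tc b = 0 ∧ tc c = 0 ∧ tc (a * b) = 0 ∧ tc (a * c) = 0 ∧
      tc (b * c) = 0 ∧ tc (a * b * c) = 0) (g : ℕ → Pt D4) (w : Empty → ℕ → D4)
    (h0 : ∀ i, (g 0).co (i + 1) = if i = 0 then a else 0)
    (h1 : ∀ i, (g 1).co (i + 1) = if i = 0 then b else 0)
    (h2 : ∀ i, (g 2).co (i + 1) = if i = 0 then c else 0) {G : RR Empty}
    (hG : prj 3 G = G) : tc (ev g w G) = 0 := by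
  rw [← hG]
  refine tc_T3 ha hb hc h (ev_mem _ g w (fun k hk i => ?_) G)
  have hz : ∀ y ∈ T3 a b c ha hb hc, (if i = 0 then y else 0) ∈ T3 a b c ha hb hc := by
    intro y hy
    split_ifs
    · exact hy
    · exact Subalgebra.zero_mem _
  have hk3 : k = 0 ∨ k = 1 ∨ k = 2 := by omega
  rcases hk3 with rfl | rfl | rfl
  · rw [h0]
    exact hz _ (self_adj _ _ _)
  · rw [h1]
    exact hz _ (le_adj _ _ _ (self_adj _ _ _))
  · rw [h2]
    exact hz _ (le_adj _ _ _ (le_adj _ _ _ (self_adj _ _ _)))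

lemma dl_c (a : D4) (i : ℕ) : (Cob.dl 1 a).co (i + 1) = if i = 0 then a else 0 := by
  rw [Cob.dl_co a (by omega)]
  by_cases h : i = 0
  · subst h
    rfl
  · rw [if_neg h, if_neg (by omega)]

lemma dl_dl (a b : D4) (hb : b * b = 0) (i : ℕ) :
    (Cob.dl 1 b * Cob.dl 1 a).co (i + 1) = if i = 0 then b + a else 0 := by
  rw [Cob.mul_dl one_pos, dl_c, if_pos (by omega : 1 ≤ i + 1), Nat.add_sub_cancel, pow_one]
  by_cases h : i = 0
  · subst h
    rw [if_pos rfl, if_pos rfl, Pt.co_zero, one_pow, one_mul]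
  · rw [if_neg h, if_neg h, zero_add]
    obtain ⟨j, rfl⟩ : ∃ j, i = j + 1 := ⟨i - 1, by omega⟩
    rw [dl_c]
    by_cases hj : j = 0
    · rw [if_pos hj, pow_two, hb, zero_mul]
    · rw [if_neg hj, zero_pow two_ne_zero, zero_mul]

/-- The points. -/
def gp (k : ℕ) : Pt D4 :=
  Cob.dl 1 (if k = 0 then e0 else if k = 1 then e1 else if k = 2 then e2 else e3)

end XP03

open XP03 in
theorem pr_P03 : StP03 := by
  rintro ⟨G, hG, -, hd⟩
  have hG3 : prj 3 G = G := mem_lev_succ.1 hG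
  have h := congrArg (ev gp (fun e : Empty => e.elim)) hd
  change ev gp _ (dR _ _ G) = _ at h
  rw [dR_apply, map_sum] at h
  simp only [Finset.sum_range_succ, Finset.sum_range_zero, zero_add, ev_face_apply] at h
  have h2 := congrArg tc h
  rw [map_add, map_add, map_add, map_add] at h2
  rw [tc_ev (a := e1) (b := e2) (c := e3) e11 e22 e33 (by decide) _ _ (fun i => dl_c _ i)
      (fun i => dl_c _ i) (fun i => dl_c _ i) hG3,
    tc_ev (a := e1 + e0) (b := e2) (c := e3) e01 e22 e33 (by decide) _ _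
      (fun i => dl_dl _ _ e11 i) (fun i => dl_c _ i) (fun i => dl_c _ i) hG3,
    tc_ev (a := e0) (b := e2 + e1) (c := e3) e00 e12 e33 (by decide) _ _
      (fun i => dl_c _ i) (fun i => dl_dl _ _ e22 i) (fun i => dl_c _ i) hG3,
    tc_ev (a := e0) (b := e1) (c := e3 + e2) e00 e11 e23 (by decide) _ _
      (fun i => dl_c _ i) (fun i => dl_c _ i) (fun i => dl_dl _ _ e33 i) hG3,
    tc_ev (a := e0) (b := e1) (c := e2) e00 e11 e22 (by decide) _ _
      (fun i => dl_c _ i) (fun i => dl_c _ i) (fun i => dl_c _ i) hG3] at h2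
  have hv : ev gp (fun e : Empty => e.elim) h04 = e3 * e2 * (e1 * e0) := by
    have hh : h04 = (X (Sum.inl (0, 0)) * X (Sum.inl (1, 0))) *
        (X (Sum.inl (2, 0)) * X (Sum.inl (3, 0))) := by
      unfold h04 bb ha h0c
      rw [pow_zero, pow_one, sh_inl, map_mul, sh_inl, sh_inl]
    rw [hh]
    simp only [map_mul, ev_inl]
    have c0 : (gp 0).co 1 = e0 := dl_c e0 0
    have c1 : (gp 1).co 1 = e1 := dl_c e1 0
    have c2 : (gp 2).co 1 = e2 := dl_c e2 0
    have c3 : (gp 3).co 1 = e3 := dl_c e3 0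
    rw [c0, c1, c2, c3]
    ring
  rw [hv, tc_top] at h2
  exact absurd h2 (by decide)

end

end Pool.Agent.Work.MP_701abf_gt.F5
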