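import Pool.Agent.Work.MP_701abf_gt.F5.T3Stmts

/-!
The fourth power of the class of degree 2 is a coboundary.
-/

open MvPolynomial
open Pool.Agent.Work.MP_701abf_gt.Stab Pool.Agent.Work.MP_701abf_gt.Cob
open Pool.Agent.Work.MP_701abf_gt.Sq2 Pool.Agent.Work.MP_701abf_gt.Sq2.FL

namespace Pool.Agent.Work.MP_701abf_gt.F5

noncomputable section

namespace XP13

lemma ha_sq' (a : ℕ) : ha a ^ 2 = ha (a + 1) := by
  unfold ha
  rw [← pow_mul, ← pow_succ]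

end XP13

open XP13 in
theorem pr_P13 : StP13 := by
  unfold StP13
  have z0 : ha 0 ∈ ZR 1 1 := by
    have h := ha_ZR 0
    rw [pow_zero] at h
    exact h
  have z1 : ha 1 ∈ ZR 1 2 := by
    have h := ha_ZR 1
    rw [pow_one] at h
    exact h
  have c1 : ha 0 * sh 1 (ha 1) ∈ BR 2 3 := by
    have h := cons1 0
    rw [pow_zero, one_mul, ha_sq'] at h
    exact h
  have c2 : ha 2 * sh 1 (ha 1) ∈ BR 2 6 := by
    have h := cons2 1
    rw [ha_sq'] at h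
    have e : (2 : ℤ) ^ 1 * 3 = 6 := by norm_num
    rw [e] at h
    exact h
  have d1 : Sq2.dl 2 (ha 0 * sh 1 (ha 1)) ∈ BR 3 6 := by
    have h := dl_BR c1
    have e : (2 : ℤ) * 3 = 6 := by norm_num
    rw [e] at h
    exact h
  have d2 : Sq2.dl (1 + 1) (ha 0 * sh 1 (ha 1)) = _ := dl_mul z1 z0
  rw [dl_one z0.1, dl_one z1.1, ha_sq', ha_sq'] at d2
  change Sq2.dl 2 _ = _ at d2
  rw [d2] at d1
  have m1 := mul_BR_right z1 d1
  have bz : ha 0 * sh 1 (ha 0) ∈ ZR (1 + 1) (1 + 1) := mul_ZR z0 z0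
  have m2 := mul_BR_left c2 bz
  have e4 : (2 : ℤ) + 6 = 8 := by norm_num
  have e5 : (6 : ℤ) + (1 + 1) = 8 := by norm_num
  rw [e4] at m1
  rw [e5] at m2
  have m3 := Submodule.add_mem _ m1 m2
  have two := (two_zero : (2 : RR Empty) = 0)
  have key : h04 ^ 2 = (ha 0 * sh 1 (ha 0) * sh (1 + 1) (ha (1 + 1)) +
      ha (0 + 1) * sh 1 (ha 1 * sh 1 (ha 1))) * sh 3 (ha 1) +
      ha 0 * sh 1 (ha 0) * sh (1 + 1) (ha 2 * sh 1 (ha 1)) := by
    unfold h04 bb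
    have e1 : (ha 0 * sh 1 (ha 0) * sh 2 (ha 0 * sh 1 (ha 0))) ^ 2 =
        ha 1 * sh 1 (ha 1) * sh 2 (ha 1 * sh 1 (ha 1)) := by
      rw [mul_pow, mul_pow, ← map_pow, ← map_pow, mul_pow, ← map_pow, ha_sq']
    rw [e1]
    simp only [map_mul, sh_sh]
    norm_num
    linear_combination (-(ha 0 * sh 1 (ha 0) * sh 2 (ha 2) * sh 3 (ha 1))) * two
  rw [key]
  exact m3

end

end Pool.Agent.Work.MP_701abf_gt.F5
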