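import Pool.Agent.Work.MP_701abf_gt.F5.Stmts

/-!
# The five-line theorem, item PP: the property `Pr`
-/

open MvPolynomial
open Pool.Agent.Work.MP_701abf_gt.Stab Pool.Agent.Work.MP_701abf_gt.Cob
open Pool.Agent.Work.MP_701abf_gt.Sq2 Pool.Agent.Work.MP_701abf_gt.TwT

namespace Pool.Agent.Work.MP_701abf_gt.F5

namespace XPP

lemma one1_dg {V : Sys} {j : ℕ} {k : V.I} (hk : V.d k = j) : V.Dg j (one1 k) := by
  intro l hl
  have h1 : l = k := by
    by_contra h
    exact hl (if_neg h)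
  rw [h1, hk]

lemma sum_one1 {V : Sys} (k : V.I) (v : V.I → RR Empty) : ∑ l, one1 k l • v l = v k := by
  rw [Finset.sum_eq_single_of_mem k (Finset.mem_univ k)]
  · rw [show one1 k k = 1 from if_pos rfl, one_smul]
  · intro l _ hl
    rw [show one1 k l = 0 from if_neg hl, zero_smul]

/-- A combination of cocycles of degree `s`. -/
lemma comb_mem {T : ℤ} {V : Sys} {w : V.I → RR Empty} (hw : ∀ l, w l ∈ ZR (V.d l) T) {s : ℕ}
    {y : V.I → ZMod 2} (hy : V.Dg s y) : ∑ l, y l • w l ∈ ZR s T := by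
  refine Submodule.sum_mem _ fun l _ => ?_
  by_cases h : y l = 0
  · rw [h, zero_smul]
    exact Submodule.zero_mem _
  · refine Submodule.smul_mem _ _ ?_
    have := hw l
    rw [hy l h] at this
    exact this

lemma digits_le {a b a' b' : ℕ} (h1 : a < b) (h2 : a' < b')
    (h : (2 : ℤ) ^ a + 2 ^ b = 2 ^ a' + 2 ^ b') : a' ≤ a := by
  by_contra hlt
  have h3 : (2 : ℤ) ^ (a + 1) ∣ 2 ^ b := pow_dvd_pow 2 h1
  have h4 : (2 : ℤ) ^ (a + 1) ∣ 2 ^ a' := pow_dvd_pow 2 (by omega)
  have h5 : (2 : ℤ) ^ (a + 1) ∣ 2 ^ b' := pow_dvd_pow 2 (by omega)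
  have h6 : (2 : ℤ) ^ (a + 1) ∣ 2 ^ a := by
    have h7 : (2 : ℤ) ^ a = 2 ^ a' + 2 ^ b' - 2 ^ b := by linarith
    rw [h7]
    exact dvd_sub (dvd_add h4 h5) h3
  have h7 := Int.le_of_dvd (by positivity) h6
  have h8 : (0 : ℤ) < 2 ^ a := by positivity
  rw [pow_succ] at h7
  linarith

lemma digits {a b a' b' : ℕ} (h1 : a < b) (h2 : a' < b')
    (h : (2 : ℤ) ^ a + 2 ^ b = 2 ^ a' + 2 ^ b') : a = a' ∧ b = b' := by
  have h3 : a = a' := le_antisymm (digits_le h2 h1 h.symm) (digits_le h1 h2 h)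
  refine ⟨h3, ?_⟩
  rw [h3] at h
  have h4 : (2 : ℤ) ^ b = 2 ^ b' := by linarith
  have h5 : (2 : ℕ) ^ b = 2 ^ b' := by exact_mod_cast h4
  exact Nat.pow_right_injective le_rfl h5

end XPP

open XPP

theorem pr_PP (hEe : TwT.StEe) (hTr : TwT.StTr) : StPP := by
  intro hTI hTS q hq n hn
  obtain ⟨J, hJ⟩ := hEe q hq n
  refine ⟨J + 2, fun T hT hd W w ok tr bq => ⟨hJ T hT ((pow_dvd_pow 2 (by omega)).trans hd)
    W w ok tr bq, fun h1 => ?_⟩⟩
  -- `T` is not a power of two
  have hT2 : ¬ ∃ b : ℕ, T = 2 ^ b := by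
    rintro ⟨b, rfl⟩
    obtain ⟨a, ha1, ha2⟩ := bq.span 1 (by omega) _ (ha_ZR b)
    have h2 : ∀ l, a l = 0 := by
      intro l
      by_contra h
      exact h1 l (ha1 l h)
    have h3 : ∑ l, a l • w l = 0 := Finset.sum_eq_zero fun l _ => by rw [h2 l, zero_smul]
    rw [h3, add_zero] at ha2
    exact ha_ne b (BR_one (by positivity) ha2)
  have zz : ∀ x : RR Empty, x + x ∈ BR 2 T := fun x => by
    rw [add_self2]
    exact Submodule.zero_mem _
  refine ⟨?_, ?_⟩
  · intro y hy he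
    have hY : ∑ l, y l • w l ∈ ZR 2 T := comb_mem bq.w_mem hy
    obtain ⟨h2, h3⟩ := hTr q hq n T W w ok bq 2 (by omega) _ hY y hy (zz _)
    have h4 : q 1 2 (∑ l, y l • w l) ∈ BR 3 (2 * T) := ((h3 1 (by omega)).2).2 he
    have h5 : Sq2.dl 2 (∑ l, y l • w l) ∈ BR 3 (2 * T) := by
      have h6 := Submodule.add_mem _ (hq.one 2 T _ hY) h4
      have e : q 1 2 (∑ l, y l • w l) + Sq2.dl 2 (∑ l, y l • w l) + q 1 2 (∑ l, y l • w l) =
          Sq2.dl 2 (∑ l, y l • w l) := by
        calc _ = Sq2.dl 2 (∑ l, y l • w l) + (q 1 2 (∑ l, y l • w l) + q 1 2 (∑ l, y l • w l)) := by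
              abel
          _ = _ := by rw [add_self2, add_zero]
      rw [e] at h6
      exact h6
    exact h2.1 (hTI T hT hT2 _ hY h5)
  · intro l m hl hm
    have key : ∀ k, W.d k = 2 → ∃ a b : ℕ, a < b ∧ T = 2 ^ a + 2 ^ b ∧ w k ∈ ZR 2 T ∧
        w k + ha b * sh 1 (ha a) ∈ BR 2 T := by
      intro k hk
      have hw : w k ∈ ZR 2 T := by
        have := bq.w_mem k
        rwa [hk] at this
      rcases hTS T hT (w k) hw with h2 | ⟨a, b, h3, h4, h5⟩
      · exfalso
        obtain ⟨h6, -⟩ := hTr q hq n T W w ok bq 2 (by omega) _ hw (one1 k) (one1_dg hk) (by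
          rw [sum_one1]
          exact zz _)
        have h7 := congrFun (h6.1 h2) k
        rw [show one1 k k = 1 from if_pos rfl] at h7
        exact one_ne_zero h7
      · refine ⟨a, b, ?_, h4, hw, h5⟩
        rcases h3 with h3 | h3
        · exfalso
          refine hT2 ⟨b + 1, ?_⟩
          rw [h4, h3, pow_succ]
          ring
        · omega
    obtain ⟨a, b, h2, h3, h4, h5⟩ := key l hl
    obtain ⟨a', b', h2', h3', h4', h5'⟩ := key m hm
    obtain ⟨rfl, rfl⟩ := digits h2 h2' (h3.symm.trans h3')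
    have h6 : w l + w m ∈ BR 2 T := by
      have h7 := Submodule.add_mem _ h5 h5'
      have e : w l + ha b * sh 1 (ha a) + (w m + ha b * sh 1 (ha a)) = w l + w m := by
        calc _ = w l + w m + (ha b * sh 1 (ha a) + ha b * sh 1 (ha a)) := by abel
          _ = _ := by rw [add_self2, add_zero]
      rwa [e] at h7
    by_contra hlm
    have h7 : W.Dg 2 (one1 l + one1 m) := by
      intro k hk
      by_cases h8 : one1 l k = 0
      · have h9 : one1 m k ≠ 0 := by
          intro h10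
          exact hk (by rw [Pi.add_apply, h8, h10, add_zero])
        exact one1_dg hm k h9
      · exact one1_dg hl k h8
    obtain ⟨h8, -⟩ := hTr q hq n T W w ok bq 2 (by omega) _ (Submodule.add_mem _ h4 h4')
      (one1 l + one1 m) h7 (by
        have e : ∑ k, (one1 l + one1 m : W.I → ZMod 2) k • w k = w l + w m := by
          rw [← sum_one1 l w, ← sum_one1 m w, ← Finset.sum_add_distrib]
          refine Finset.sum_congr rfl fun k _ => ?_
          rw [Pi.add_apply, add_smul]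
        rw [e]
        exact zz _)
    have h9 := congrFun (h8.1 h6) l
    rw [Pi.add_apply, show one1 l l = 1 from if_pos rfl, show one1 m l = 0 from if_neg hlm,
      add_zero] at h9
    exact one_ne_zero h9

end Pool.Agent.Work.MP_701abf_gt.F5
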