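import Pool.Agent.Work.MP_701abf_gt.F5.T3Stmts

/-!
# Item Se3: existence and additivity of the symbol of a 3-cochain
-/

open MvPolynomial
open Pool.Agent.Work.MP_701abf_gt.Stab Pool.Agent.Work.MP_701abf_gt.Cob
open Pool.Agent.Work.MP_701abf_gt.Sq2 Pool.Agent.Work.MP_701abf_gt.Sq2.FL

namespace Pool.Agent.Work.MP_701abf_gt.F5

noncomputable section

namespace XSe3

theorem mem_grC {N : ℤ} {n : ℕ} {e : RR (Option Empty)} :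
    e ∈ (hs Empty 0 (2 * N)).grC 2 n ↔ e ∈ CW 2 n (N + 1) := by
  have ew : fT ((0, 2), N + 1) = ((0, 2), 2 * N) := by
    rw [fT_apply]
    simp only [Prod.mk.injEq, true_and]
    ring
  constructor
  · rintro ⟨h1, h2⟩
    exact ⟨h1, (wtT_iff ew).1 h2⟩
  · rintro ⟨h1, h2⟩
    exact ⟨h1, (wtT_iff ew).2 h2⟩

theorem odd_zero {N : ℤ} {n : ℕ} {e : RR (Option Empty)}
    (h : e ∈ (hs Empty 0 (2 * N)).grC 3 n) : e = 0 := by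
  refine wtT_none (fun m' hm' => ?_) h.2
  rw [fT_apply, Prod.mk.injEq] at hm'
  obtain ⟨h1, h2⟩ := hm'
  rw [h1] at h2
  simp only at h2
  omega

theorem exist (N : ℤ) (F : RR Empty) (hF : F ∈ lev Empty 4) (hw : WH wE F (0, 2 * N))
    (hP : ∃ P ∈ lev Empty 5, WH wE P (0, N) ∧ dE 4 F = P ^ 2) :
    ∃ y ∈ CW 2 2 (N + 1), dc 2 y = 0 ∧ Sb3 N F y := by
  obtain ⟨P, _, _, hP⟩ := hP
  have hX : EQ F ∈ (hs Empty 0 (2 * N)).gr 0 4 := XSymEx.mem_gr hF hw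
  have hdX : dQ 4 (EQ F) = (EQ P) ^ 2 := by
    rw [EQ_d, dE_eq, hP, map_pow]
  have h1 : dQ 4 (DQ (EQ F)) = 0 := by
    rw [← DQ_dQ, hdX]
    exact der_pow2 DQ (EQ P) 0
  obtain ⟨x1, hx1, e1⟩ := (hs Empty 0 (2 * N)).col 1 3 (DQ (EQ F)) le_rfl
    ((hs Empty 0 (2 * N)).D_mem 0 4 _ hX) h1
  have e1' : dQ 3 x1 = DQ (EQ F) := e1
  have h2 : dQ 3 (DQ x1) = 0 := by
    rw [← DQ_dQ, e1', DR_DQ.DD]
  obtain ⟨x2, hx2, e2⟩ := (hs Empty 0 (2 * N)).col 2 2 (DQ x1) (by norm_num)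
    ((hs Empty 0 (2 * N)).D_mem 1 3 _ hx1) h2
  have e2' : dQ 2 x2 = DQ x1 := e2
  have h3 : dQ 2 (DQ x2) = 0 := by
    rw [← DQ_dQ, e2', DR_DQ.DD]
  obtain ⟨x3, hx3, e3⟩ := (hs Empty 0 (2 * N)).col 3 1 (DQ x2) (by norm_num)
    ((hs Empty 0 (2 * N)).D_mem 2 2 _ hx2) h3
  have e3' : dQ 1 x3 = DQ x2 := e3
  have h4 : dQ 1 (DQ x3) = 0 := by
    rw [← DQ_dQ, e3', DR_DQ.DD]
  obtain ⟨x4, hx4, e4⟩ := (hs Empty 0 (2 * N)).col 4 0 (DQ x3) (by norm_num)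
    ((hs Empty 0 (2 * N)).D_mem 3 1 _ hx3) h4
  have hx40 : x4 = 0 := (hs Empty 0 (2 * N)).gr_zero 4 _ hx4
  have e4' : DQ x3 = 0 := by
    rw [hx40, map_zero] at e4
    exact e4.symm
  obtain ⟨y3, hy3, v3, hv3, e5⟩ := (hs Empty 0 (2 * N)).poin 3 1 x3 hx3 e4'
  have hy30 : y3 = 0 := odd_zero hy3
  have hv3' : v3 ∈ (hs Empty 0 (2 * N)).gr 2 1 := by simpa using hv3
  have e5' : x3 = DQ v3 := by
    rw [hy30, map_zero, zero_add] at e5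
    exact e5
  have h5 : DQ (x2 + dQ 1 v3) = 0 := by
    rw [map_add, DQ_dQ, ← e5', e3', add_self2]
  have hmem2 : x2 + dQ 1 v3 ∈ (hs Empty 0 (2 * N)).gr 2 2 :=
    Submodule.add_mem _ hx2 ((hs Empty 0 (2 * N)).δ_mem 2 1 v3 hv3')
  obtain ⟨y, hy, v2, hv2, e6⟩ := (hs Empty 0 (2 * N)).poin 2 2 _ hmem2 h5
  have hv2' : v2 ∈ (hs Empty 0 (2 * N)).gr 1 2 := by simpa using hv2
  have e6' : x2 + dQ 1 v3 = TQ y + DQ v2 := e6
  have hdd1 : dQ 2 (dQ 1 v3) = 0 := (hs Empty 0 (2 * N)).δδ 2 1 v3 hv3'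
  have hdd2 : dQ 3 (dQ 2 v2) = 0 := (hs Empty 0 (2 * N)).δδ 1 2 v2 hv2'
  have e7 : DQ x1 = dQ 2 (TQ y) + DQ (dQ 2 v2) := by
    have h6 : dQ 2 (x2 + dQ 1 v3) = DQ x1 := by
      rw [map_add, hdd1, add_zero, e2']
    rw [← h6, e6', map_add, DQ_dQ]
  have hmem1 : x1 + dQ 2 v2 ∈ (hs Empty 0 (2 * N)).gr 1 3 :=
    Submodule.add_mem _ hx1 ((hs Empty 0 (2 * N)).δ_mem 1 2 v2 hv2')
  have e8 : DQ (x1 + dQ 2 v2) = dQ 2 (TQ y) := by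
    rw [map_add, e7, add_assoc, add_self2, add_zero]
  obtain ⟨v', hv', e9⟩ := (hs Empty 0 (2 * N)).comp 2 2 y hy
  have hv'' : v' ∈ (hs Empty 0 (2 * N)).gr 1 3 := by simpa using hv'
  have e9' : dQ 2 (TQ y) = TQ (dc 2 y) + DQ v' := e9
  have hw1 : x1 + dQ 2 v2 + v' ∈ (hs Empty 0 (2 * N)).gr (2 - 1) 3 := by
    have h7 : x1 + dQ 2 v2 + v' ∈ (hs Empty 0 (2 * N)).gr 1 3 :=
      Submodule.add_mem _ hmem1 hv''
    simpa using h7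
  have e10 : dc 2 y = 0 := by
    refine (hs Empty 0 (2 * N)).inj 2 3 (dc 2 y) _
      ((hs Empty 0 (2 * N)).dC_mem 2 2 y hy) hw1 ?_
    change TQ (dc 2 y) = DQ (x1 + dQ 2 v2 + v')
    rw [map_add, e8, e9', add_assoc, add_self2, add_zero]
  refine ⟨y, mem_grC.1 hy, e10, x1 + dQ 2 v2, hmem1, ?_, e8⟩
  rw [map_add, hdd2, add_zero, e1']

theorem additive (N : ℤ) (F F' : RR Empty) (y y' : RR (Option Empty)) (h : Sb3 N F y)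
    (h' : Sb3 N F' y') : Sb3 N (F + F') (y + y') := by
  obtain ⟨x, hx, e1, e2⟩ := h
  obtain ⟨x', hx', e1', e2'⟩ := h'
  refine ⟨x + x', Submodule.add_mem _ hx hx', ?_, ?_⟩
  · rw [map_add EQ, map_add, map_add, e1, e1']
  · rw [map_add, map_add TQ, map_add, e2, e2']

end XSe3

/-- Existence and additivity of the symbol. -/
theorem pr_Se3 : StSe3 := ⟨XSe3.exist, XSe3.additive⟩

end

end Pool.Agent.Work.MP_701abf_gt.F5
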