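import Pool.Agent.Work.MP_701abf_gt.F5.T3Stmts

/-!
Block T3, item Sj3: surjectivity of `Sq^0` on the 3-line from the vanishing of a first cohomology.
-/

open MvPolynomial
open Pool.Agent.Work.MP_701abf_gt.Stab Pool.Agent.Work.MP_701abf_gt.Cob
open Pool.Agent.Work.MP_701abf_gt.Sq2 Pool.Agent.Work.MP_701abf_gt.Sq2.FL

namespace Pool.Agent.Work.MP_701abf_gt.F5

noncomputable section

namespace XSj3

/-- exchange of the two components of the class -/
def sw : (ℤ × ℤ) × ℤ →+ (ℤ × ℤ) × ℤ where
  toFun m := ((m.1.2, m.1.1), m.2)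
  map_zero' := rfl
  map_add' _ _ := rfl

lemma wt_sw : (fun v => sw (wt (fun _ : Option Empty => (1, 0)) (fun _ => 0) v)) =
    wt cO (fun _ : Option Empty => 0) := by
  funext v
  rcases v with v | v
  · rfl
  · rcases v with ⟨v, i⟩
    rcases v with _ | v
    · rfl
    · exact v.elim

lemma wt_sw' : (fun v => sw (wt cO (fun _ : Option Empty => 0) v)) =
    wt (fun _ : Option Empty => (1, 0)) (fun _ => 0) := by
  funext v
  rcases v with v | v
  · rfl
  · rcases v with ⟨v, i⟩
    rcases v with _ | v
    · rfl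
    · exact v.elim

end XSj3

open XSj3 in
theorem pr_Sj3 : StSj3 := by
  intro N hN F hF hFw hd
  have h3 := edge_surj (ι := Empty) (k := 0) (m := 2 * N) (m' := N) rfl (p := 3)
    (fun q hq1 hq m' hm' => by
      have hq' : q = 1 ∨ q = 2 ∨ q = 3 := by omega
      rcases hq' with rfl | rfl | rfl
      · exfalso
        push_cast at hm'
        omega
      · have e1 : m' = N + 1 := by
          push_cast at hm'
          omega
        subst e1
        intro x hx hdx
        have hx2 : WH (wt cO (fun _ : Option Empty => 0)) x ((0, 2), N + 1) := by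
          have h := wh_comp (f := sw) hx.2
          rw [wt_sw] at h
          exact h
        obtain ⟨e, he, hde⟩ := hN x ⟨hx.1, hx2⟩ hdx
        refine ⟨e, ⟨he.1, ?_⟩, hde⟩
        have h := wh_comp (f := sw) he.2
        rw [wt_sw'] at h
        exact h
      · exfalso
        push_cast at hm'
        omega) (F := F) hF (by rw [wE_eq]; exact hFw) (by rw [dE_eq]; exact hd)
  obtain ⟨y, hy, hyw, hyd, G, hG, hGw, e⟩ := h3
  rw [wE_eq] at hyw hGw
  rw [infl_empty, dE_eq] at e
  exact ⟨y, hy, hyw, hyd, G, hG, hGw, e⟩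

end

end Pool.Agent.Work.MP_701abf_gt.F5
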