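import Pool.Agent.Work.MP_701abf_gt.F5.T3Stmts

/-!
# Item Sz3: a 3-cochain whose symbol in the symmetric square is a coboundary
-/

open MvPolynomial
open Pool.Agent.Work.MP_701abf_gt.Stab Pool.Agent.Work.MP_701abf_gt.Cob
open Pool.Agent.Work.MP_701abf_gt.Sq2 Pool.Agent.Work.MP_701abf_gt.Sq2.FL

namespace Pool.Agent.Work.MP_701abf_gt.F5

noncomputable section

namespace XSz3

theorem mem_grC2 {N : ℤ} {n : ℕ} {e : RR (Option Empty)} (he : e ∈ CW 2 n (N + 1)) :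
    e ∈ (hs Empty 0 (2 * N)).grC 2 n := by
  have ew : fT ((0, 2), N + 1) = ((0, 2), 2 * N) := by
    rw [fT_apply]
    congr 1
    simp only
    ring
  exact ⟨he.1, (wtT_iff ew).2 he.2⟩

theorem mem_gr0 {m : ℤ} {n : ℕ} {x : RR Empty} (h1 : x ∈ lev Empty n) (h2 : WH wE x (0, m)) :
    EQ x ∈ (hs Empty 0 m).gr 0 n := by
  refine ⟨EQ_lev h1, ?_⟩
  have h3 : WH (wt (fun _ : Empty => (1, 0)) (fun _ => 1)) x (0, m) := by
    rw [wE_eq]
    exact h2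
  exact EQ_gr.map h3

end XSz3

open XSz3 in
theorem pr_Sz3 : StSz3 := by
  intro N F hF hFw e he hs'
  obtain ⟨x1, hx1, hD1, hD2⟩ := hs'
  have he' := mem_grC2 he
  obtain ⟨v, hv, e1⟩ := (hs Empty 0 (2 * N)).comp 2 1 e he'
  have hv' : v ∈ (hs Empty 0 (2 * N)).gr 1 2 := by
    have h := hv
    rw [show (2 : ℤ) - 1 = 1 by norm_num] at h
    exact h
  have e1' : dQ 1 (TQ e) = TQ (dc 1 e) + DQ v := e1
  have e2 : dQ 2 (dQ 1 (TQ e)) = 0 :=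
    (hs Empty 0 (2 * N)).δδ 2 1 (TQ e) ((hs Empty 0 (2 * N)).T_mem 2 1 e he')
  have e3 : dQ 2 (TQ (dc 1 e)) = dQ 2 (DQ v) := by
    rw [e1', map_add] at e2
    exact add_eq_zero2.1 e2
  have e4 : DQ (x1 + dQ 2 v) = 0 := by
    rw [map_add, hD2, e3, DQ_dQ, add_self2]
  have hX : x1 + dQ 2 v ∈ (hs Empty 0 (2 * N)).gr 1 3 :=
    Submodule.add_mem _ hx1 ((hs Empty 0 (2 * N)).δ_mem 1 2 v hv')
  obtain ⟨y1, hy1, v1, hv1, e5⟩ := (hs Empty 0 (2 * N)).poin 1 3 _ hX e4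
  have hv1' : v1 ∈ (hs Empty 0 (2 * N)).gr 0 3 := by
    have h := hv1
    rw [show (1 : ℤ) - 1 = 0 by norm_num] at h
    exact h
  have hy10 : y1 = 0 := by
    refine wtT_none (fun m' hm' => ?_) hy1.2
    rw [fT_apply, Prod.mk.injEq] at hm'
    obtain ⟨h1, h2⟩ := hm'
    rw [h1] at h2
    simp only at h2
    omega
  rw [hy10, map_zero, zero_add] at e5
  have e5' : x1 + dQ 2 v = DQ v1 := e5
  have e6 : dQ 3 (dQ 2 v) = 0 := (hs Empty 0 (2 * N)).δδ 1 2 v hv'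
  have e7 : DQ (EQ F) = DQ (dQ 3 v1) := by
    rw [hD1, DQ_dQ, ← e5', map_add, e6, add_zero]
  have e8 : DQ (EQ F + dQ 3 v1) = 0 := by
    rw [map_add, e7, add_self2]
  have hX2 : EQ F + dQ 3 v1 ∈ (hs Empty 0 (2 * N)).gr 0 4 :=
    Submodule.add_mem _ (mem_gr0 hF hFw) ((hs Empty 0 (2 * N)).δ_mem 0 3 v1 hv1')
  obtain ⟨y0, hy0, v2, hv2, e9⟩ := (hs Empty 0 (2 * N)).poin 0 4 _ hX2 e8
  have hv20 : v2 = 0 := (hs Empty 0 (2 * N)).gr_neg _ _ _ (by omega) hv2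
  rw [hv20, map_zero, add_zero] at e9
  have e9' : EQ F + dQ 3 v1 = TQ y0 := e9
  have ew : fT ((0, 0), N) = ((0, 0), 2 * N) := by
    rw [fT_apply]
    congr 1
    simp only
    ring
  have hyw := (wtT_iff ew).1 hy0.2
  refine ⟨rO y0, rO_lev hy0.1, ?_, EQ' v1, EQ'_lev hv1'.1, ?_, ?_⟩
  · have h3 := rO_gr.map hyw
    rw [wE_eq] at h3
    exact h3
  · have h3 := EQ'_gr.map hv1'.2
    rw [wE_eq] at h3
    exact h3
  · have e10 : EQ F = TQ y0 + dQ 3 v1 := by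
      rw [← e9', add_add_self2]
    have h1 := congrArg EQ' e10
    rw [EQ'_EQ, map_add, ← EQ'_d, dE_eq] at h1
    rw [h1]
    congr 1
    rw [← infl_empty, ← EQ'_EQ (infl (rO y0)), EQ_infl, jO_rO hyw]

end

end Pool.Agent.Work.MP_701abf_gt.F5
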