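import Pool.Agent.Work.MP_701abf_gt.F5.T3Stmts

/-!
# The 3-line in the degrees `2 ^ c`: the induction
-/

set_option autoImplicit false

open MvPolynomial
open Pool.Agent.Work.MP_701abf_gt.Stab Pool.Agent.Work.MP_701abf_gt.Cob
open Pool.Agent.Work.MP_701abf_gt.Sq2 Pool.Agent.Work.MP_701abf_gt.Sq2.FL

namespace Pool.Agent.Work.MP_701abf_gt.F5

theorem pr_Ti3 : StTi3 := by
  intro hSj hH h8 c hc
  induction c, hc using Nat.le_induction with
  | base =>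
    intro z hz
    have h : (2 : ℤ) ^ 3 = 8 := by norm_num
    rw [h] at hz ⊢
    exact h8 z hz
  | succ c hc ih =>
    intro z hz
    have h : (2 : ℤ) ^ (c + 1) = 2 * 2 ^ c := by ring
    rw [h] at hz ⊢
    have hs : Surj0 3 (2 ^ c) := hSj (2 ^ c) (hH c hc)
    obtain ⟨h1, h2, h3⟩ := hz
    obtain ⟨y, hy1, hy2, hy3, G, hG1, hG2, hz⟩ := hs z h1 h2 h3
    rw [hz]
    exact Submodule.add_mem _ (sq_BR (ih y ⟨hy1, hy2, hy3⟩)) ⟨G, hG1, hG2, rfl⟩

end Pool.Agent.Work.MP_701abf_gt.F5
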