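import Pool.Agent.Work.MP_701abf_gt.F5.Stmts

/-!
# The five-line theorem, item Tp
-/

open MvPolynomial
open Pool.Agent.Work.MP_701abf_gt.Stab Pool.Agent.Work.MP_701abf_gt.Cob
open Pool.Agent.Work.MP_701abf_gt.Sq2 Pool.Agent.Work.MP_701abf_gt.TwT

namespace Pool.Agent.Work.MP_701abf_gt.F5

theorem pr_Tp : StTp := by
  intro P Q hPQ c m V h
  induction h with
  | one => exact TP.one
  | sg W l0 m0 hP hW _ ih => exact TP.sg W l0 m0 (hPQ W hP) hW ih
  | cl W hP hW _ ih => exact TP.cl W (hPQ W hP) hW ih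

end Pool.Agent.Work.MP_701abf_gt.F5
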