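import Pool.Agent.Work.MP_701abf_gt.F5.T3Stmts

/-!
# The top row of a cochain with values in the symmetric square
-/

open MvPolynomial
open Pool.Agent.Work.MP_701abf_gt.Stab Pool.Agent.Work.MP_701abf_gt.Cob
open Pool.Agent.Work.MP_701abf_gt.Sq2 Pool.Agent.Work.MP_701abf_gt.Sq2.FL

namespace Pool.Agent.Work.MP_701abf_gt.F5

noncomputable section

namespace XTr3

open Pool.Agent.Work.MP_701abf_gt.Sq2.FL.XCoef

theorem dW_eq (r : ℕ) (y : RR (Option Empty)) : dW r y = pw r y := rfl

theorem dW_mem {M : ℤ} {r : ℕ} {y : RR (Option Empty)} (hy : y ∈ CW 2 2 M) :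
    dW r y ∈ CW 1 2 (M - 2 ^ r) := by
  obtain ⟨hyl, hyw⟩ := hy
  have hyw' : WH (wt cO (fun _ => 0)) y ((0, 2), M) := hyw
  constructor
  · refine der_lev (D := pw r) (pw_inl r) (fun n v => ?_) hyl
    by_cases hv : (Sum.inr v : (ℕ × ℕ) ⊕ (Option Empty × ℕ)) = Sum.inr (none, r)
    · rw [hv, pderiv_X_self]
      exact map_one _
    · rw [pderiv_X_of_ne hv]
      exact map_zero _
  · have h1 := (pw_gr r).map hyw'
    have e : ((((0 : ℤ), (2 : ℤ)), M) : (ℤ × ℤ) × ℤ) + ((0, -1), -2 ^ r) =
        ((0, 1), M - 2 ^ r) := by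
      simp [sub_eq_add_neg]
    rw [e] at h1
    exact h1

/-- The number of the variables `w`. -/
theorem deg_le {y : RR (Option Empty)} {M : ℤ} (hy : WH (wt cO (fun _ => 0)) y ((0, 1), M))
    {d : ((ℕ × ℕ) ⊕ (Option Empty × ℕ)) →₀ ℕ} (hd : coeff d y ≠ 0) (i : ℕ) :
    d (Sum.inr (none, i)) ≤ 1 := by
  have h1 := hy hd
  have h3 : ∑ v ∈ d.support, d v • qq (wt (cO (ι := Empty)) (fun _ => 0) v) = 1 := by
    have h4 : qq (Finsupp.weight (wt (cO (ι := Empty)) (fun _ => 0)) d) = 1 := by
      rw [h1]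
      rfl
    rw [← h4, Finsupp.weight_apply, Finsupp.sum, map_sum]
    exact Finset.sum_congr rfl fun v _ => (map_nsmul _ _ _).symm
  by_cases hi : (Sum.inr (none, i) : (ℕ × ℕ) ⊕ (Option Empty × ℕ)) ∈ d.support
  · have h5 : d (Sum.inr (none, i)) • qq (wt (cO (ι := Empty)) (fun _ => 0) (Sum.inr (none, i))) ≤
        ∑ v ∈ d.support, d v • qq (wt (cO (ι := Empty)) (fun _ => 0) v) := by
      refine Finset.single_le_sum (f := fun v => d v • qq (wt (cO (ι := Empty)) (fun _ => 0) v))
        (fun v _ => ?_) hi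
      rcases v with v | ⟨o, j⟩
      · exact (smul_zero _).ge
      · cases o with
        | some e => exact e.elim
        | none =>
          have : qq (wt (cO (ι := Empty)) (fun _ => 0) (Sum.inr (none, j))) = 1 := rfl
          change 0 ≤ d (Sum.inr (none, j)) • qq (wt (cO (ι := Empty)) (fun _ => 0) (Sum.inr (none, j)))
          rw [this, nsmul_eq_mul, mul_one]
          exact Nat.cast_nonneg _
    have h6 : qq (wt (cO (ι := Empty)) (fun _ => 0) (Sum.inr (none, i))) = 1 := rfl
    rw [h3, h6, nsmul_eq_mul, mul_one] at h5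
    exact_mod_cast h5
  · rw [Finsupp.notMem_support_iff.1 hi]
    exact Nat.zero_le _

theorem dW_SpW {M : ℤ} {r : ℕ} {y : RR (Option Empty)} (hy : y ∈ CW 2 2 M)
    (hs : y ∈ SpW (r + 1)) : dW r y ∈ SpW r := by
  have hw : WH (wt cO (fun _ => 0)) (dW r y) ((0, 1), M - 2 ^ r) := (dW_mem hy).2
  unfold SpW at hs ⊢
  rw [mem_supported] at hs ⊢
  intro v hv p hp
  subst hp
  have hv' : Sum.inr p ∈ (dW r y).vars := hv
  obtain ⟨d, hd, hdv⟩ := (mem_vars _).1 hv'
  have hd0 : coeff d (dW r y) ≠ 0 := mem_support_iff.1 hd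
  have hle := deg_le hw hd0 r
  have hc : coeff d (dW r y) = coeff (d + Finsupp.single (Sum.inr (none, r)) 1) y *
      (d (Sum.inr (none, r)) + 1) := coeff_pderiv _ _
  rw [hc] at hd0
  have hne : d (Sum.inr (none, r)) ≠ 1 := by
    intro h
    apply hd0
    rw [h]
    have : ((1 : ℕ) + 1 : ZMod 2) = 0 := by decide
    rw [this, mul_zero]
  have h0 : d (Sum.inr (none, r)) = 0 := by omega
  have hy0 : coeff (d + Finsupp.single (Sum.inr (none, r)) 1) y ≠ 0 := left_ne_zero_of_mul hd0
  have hvy : Sum.inr p ∈ y.vars := by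
    refine (mem_vars _).2 ⟨_, mem_support_iff.2 hy0, ?_⟩
    rw [Finsupp.mem_support_iff] at hdv ⊢
    rw [Finsupp.add_apply]
    omega
  have h1 : p.2 < r + 1 := hs hvy p rfl
  rcases Nat.lt_succ_iff_lt_or_eq.1 h1 with h | h
  · exact h
  · exfalso
    obtain ⟨o, j⟩ := p
    cases o with
    | some e => exact e.elim
    | none =>
      simp only at h
      subst h
      exact (Finsupp.mem_support_iff.1 hdv) h0

theorem pw_SpW {r j : ℕ} {y : RR (Option Empty)} (hs : y ∈ SpW r) (hj : r ≤ j) : pw j y = 0 := by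
  refine pderiv_eq_zero_of_notMem_vars fun h => ?_
  unfold SpW at hs
  rw [mem_supported] at hs
  have : (none, j).2 < r := hs h (none, j) rfl
  simp only at this
  omega

theorem X_pow_ne (k : ℕ) : (X (Sum.inl (0, 0)) : RR (Option Empty)) ^ k ≠ 0 :=
  pow_ne_zero _ (X_ne_zero _)

end XTr3

open XTr3 Pool.Agent.Work.MP_701abf_gt.Sq2.FL.XCoef in
theorem pr_Tr3 : StTr3 := by
  intro hFc M r y hy hs hd
  have hm := dW_mem (r := r) hy
  have hsp := dW_SpW hy hs
  have hc : dc 2 (dW r y) = 0 := by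
    have h1 : dW r (dc 2 y) = dc 2 (dW r y) := by
      change pw r (dR _ 2 y) = dR _ 2 (dW r y)
      rw [dR_apply, dR_apply, map_sum]
      exact Finset.sum_congr rfl fun j _ => (hFc.1 r j y hs).2
    rw [← h1, hd]
  rcases tHW (M - 2 ^ r) (dW r y) hm hc with ⟨e, he, hde⟩ | ⟨d, hd1, hdM, hdy⟩
  · have hwt : wt (cO (ι := Empty)) (fun _ => 0) =
        wt (fun _ : Option Empty => ((0 : ℤ), (1 : ℤ))) (fun _ => 0) := by
      funext v
      rcases v with v | ⟨o, j⟩
      · rfl
      · cases o with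
        | some e => exact e.elim
        | none => rfl
    have he2 : WH (wt (fun _ : Option Empty => ((0 : ℤ), (1 : ℤ))) (fun _ => 0)) e
        ((0, 1), M - 2 ^ r) := by
      rw [← hwt]
      exact he.2
    rcases pr_MonA (0, 1) (by simp) (M - 2 ^ r) e he.1 he2 with h0 | ⟨b, hbM, hbe⟩
    · left
      rw [← hde, h0, map_zero]
    · rcases Nat.eq_zero_or_pos b with hb | hb
      · left
        rw [← hde, hbe, (pr_Cwb b).2, hb, Finset.sum_range_zero]
      · right
        left
        refine ⟨b, hb, ?_, by linarith⟩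
        by_contra hbr
        have h1 : pw (b - 1) (dW r y) = 0 := pw_SpW hsp (by omega)
        rw [← hde, hbe, (pr_Cwb b).2, map_sum, Finset.sum_eq_single (b - 1)] at h1
        · rw [Derivation.leibniz, pw_jO, smul_zero, add_zero, pw_gW, if_pos rfl, smul_eq_mul,
            mul_one] at h1
          have h2 : cw b (b - 1) = (gG (ι := Empty) 0).co 1 ^ 2 ^ (b - 1) := by
            unfold cw
            rw [if_pos (by omega)]
            congr 2
            omega
          rw [h2, map_pow, jO_gG] at h1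
          exact X_pow_ne _ h1
        · intro i _ hi
          rw [Derivation.leibniz, pw_jO, smul_zero, add_zero, pw_gW, if_neg hi, smul_zero]
        · intro h
          exact absurd (Finset.mem_range.2 (by omega)) h
  · right
    right
    refine ⟨d, hd1, ?_, by linarith, hdy⟩
    by_contra hr
    have h1 : pw 0 (dW r y) = 0 := pw_SpW hsp (by omega)
    rw [hdy, Derivation.leibniz, pw_gW, if_pos rfl, Derivation.leibniz_pow, pw_inl, smul_zero,
      smul_zero, smul_zero, add_zero, smul_eq_mul, mul_one] at h1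
    exact X_pow_ne _ h1

end

end Pool.Agent.Work.MP_701abf_gt.F5
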