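import Pool.Agent.Work.MP_701abf_gt.F5.T3Stmts

/-!
# The 3-line in the degrees `2 ^ c`, item Uc3 (helper27): the 1-line in all degrees
-/

open MvPolynomial
open Pool.Agent.Work.MP_701abf_gt.Stab Pool.Agent.Work.MP_701abf_gt.Cob
open Pool.Agent.Work.MP_701abf_gt.Sq2 Pool.Agent.Work.MP_701abf_gt.Sq2.FL

namespace Pool.Agent.Work.MP_701abf_gt.F5

noncomputable section

theorem pr_Uc3 : StUc3 := by
  intro M u hu
  obtain ⟨hlv, hwh, hdd⟩ := hu
  rcases lt_trichotomy M 0 with h | h | h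
  · left
    refine wh_neg (q := AddMonoidHom.snd (ℤ × ℤ) ℤ) (fun v => ?_) hwh h
    obtain ⟨i, a, _, h1⟩ := wE_snd v
    show 0 ≤ (wE v).2
    rw [h1]
    have h2 : (1 : ℤ) ≤ 2 ^ (i + 1) := one_le_pow₀ (by norm_num)
    linarith
  · left
    have h1 : WH wE u (0, 0) := by rwa [h] at hwh
    have h2 := wh_const h1
    rw [h2, dE_C] at hdd
    have h3 : (((2 + 1 : ℕ) : ZMod 2)) * coeff 0 u = 0 :=
      C_injective _ _ (by rw [hdd, map_zero])
    have h4 : (((2 + 1 : ℕ) : ZMod 2)) = 1 := by decide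
    rw [h4, one_mul] at h3
    rw [h3, map_zero] at h2
    exact h2
  · by_cases hb : ∃ b : ℕ, M = 2 ^ b
    · obtain ⟨b, hb⟩ := hb
      subst hb
      rcases ZR_one ⟨hlv, hwh, hdd⟩ with h5 | h5
      · exact Or.inl h5
      · exact Or.inr ⟨b, rfl, h5⟩
    · exact Or.inl (ZR_one' h hb ⟨hlv, hwh, hdd⟩)

end

end Pool.Agent.Work.MP_701abf_gt.F5
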