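import Pool.Agent.Work.MP_701abf_gt.F5.T3Stmts

set_option autoImplicit false

/-!
# Block T3, item Xt3: extraction of coefficients
-/

open MvPolynomial
open Finset.HasAntidiagonal (antidiagonal mem_antidiagonal)
open Pool.Agent.Work.MP_701abf_gt.Stab Pool.Agent.Work.MP_701abf_gt.Cob
open Pool.Agent.Work.MP_701abf_gt.Sq2 Pool.Agent.Work.MP_701abf_gt.Sq2.FL

namespace Pool.Agent.Work.MP_701abf_gt.F5

noncomputable section

namespace XXt3

/-- The algebra map which fixes the group variables and `w_r` and kills the other `w_i`. -/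
def rho (r : ℕ) : RR (Option Empty) →ₐ[ZMod 2] RR (Option Empty) :=
  ev gG (fun b i => if i = r then gW b r else 0)

lemma rho_gW (r : ℕ) (b : Option Empty) (i : ℕ) :
    rho r (gW b i) = if i = r then gW b r else 0 := by
  unfold rho
  rw [ev_gW]

lemma rho_gG (r a n : ℕ) : rho r ((gG (ι := Option Empty) a).co n) = (gG a).co n := by
  have h := mapPt_ev (gG (ι := Option Empty)) (fun b i => if i = r then gW b r else 0) a
  exact congrArg (fun g => Pt.co g n) h

lemma rho_jO (r : ℕ) (F : RR Empty) : rho r (jO F) = jO F := by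
  have h : (rho r).comp (jO (ι := Empty)) = jO := by
    unfold jO
    rw [comp_ev]
    congr 1
    · funext a
      exact Pt_ext' fun n => by rw [mapPt_co, rho_gG]
    · funext b
      exact b.elim
  exact congrArg (fun φ => φ F) h

/-- An algebra map which kills a variable of every monomial of `z` kills `z`. -/
lemma hom_zero {V : Type} {S : Type} [CommRing S] [Algebra (ZMod 2) S]
    (φ : MvPolynomial V (ZMod 2) →ₐ[ZMod 2] S)
    (z : MvPolynomial V (ZMod 2)) (h : ∀ d ∈ z.support, ∃ v, d v ≠ 0 ∧ φ (X v) = 0) : φ z = 0 := by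
  rw [z.as_sum, map_sum]
  refine Finset.sum_eq_zero fun d hd => ?_
  obtain ⟨v, hv, h0⟩ := h d hd
  rw [monomial_eq, map_mul, Finsupp.prod, map_prod]
  rw [Finset.prod_eq_zero (Finsupp.mem_support_iff.2 hv), mul_zero]
  rw [map_pow, h0, zero_pow hv]

/-- Every monomial of a cochain with values in the symmetric square contains a variable `w_i`. -/
lemma has_w {M : ℤ} {r : ℕ} {z : RR (Option Empty)} (hz : z ∈ CW 2 2 M) (hr : z ∈ SpW r) :
    ∀ d ∈ z.support, ∃ i, i < r ∧ d (Sum.inr (none, i)) ≠ 0 := by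
  intro d hd
  have h1 : Finsupp.weight (wt cO (fun _ : Option Empty => 0)) d = ((0, 2), M) :=
    hz.2 (mem_support_iff.1 hd)
  by_contra hcon
  have hz0 : ∀ i, d (Sum.inr (none, i)) = 0 := by
    intro i
    by_contra h0
    refine hcon ⟨i, ?_, h0⟩
    have hv : (Sum.inr (none, i) : (ℕ × ℕ) ⊕ (Option Empty × ℕ)) ∈ z.vars :=
      (mem_vars _).2 ⟨d, hd, Finsupp.mem_support_iff.2 h0⟩
    have := mem_supported.1 hr hv
    exact this (none, i) rfl
  have h3 : ∑ v ∈ d.support, d v • XCoef.qq (wt (cO (ι := Empty)) (fun _ => 0) v) = 2 := by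
    have h4 : XCoef.qq (Finsupp.weight (wt (cO (ι := Empty)) (fun _ => 0)) d) = 2 := by
      rw [h1]
      rfl
    rw [← h4, Finsupp.weight_apply, Finsupp.sum, map_sum]
    exact Finset.sum_congr rfl fun v _ => (map_nsmul _ _ _).symm
  rw [Finset.sum_eq_zero] at h3
  · norm_num at h3
  · intro v _
    rcases v with v | ⟨o, i⟩
    · exact smul_zero _
    · cases o with
      | some e => exact e.elim
      | none => rw [hz0 i, zero_smul]

/-- The image of the faces of `w_i`. -/
lemma rho_face_low {r i : ℕ} (hi : i < r) (j : ℕ) :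
    rho r (face (fun _ : Option Empty => 0) j (gW none i)) = 0 := by
  rw [face_gW]
  cases j with
  | zero =>
    simp only [fw, act_apply, map_sum]
    refine Finset.sum_eq_zero fun p hp => ?_
    have := mem_antidiagonal.1 hp
    rw [map_mul, rho_gW, if_neg (by omega), mul_zero]
  | succ j =>
    simp only [fw]
    rw [rho_gW, if_neg (by omega)]

lemma rho_face_self (r j : ℕ) :
    rho r (face (fun _ : Option Empty => 0) j (gW none r)) = gW none r := by
  rw [face_gW]
  cases j with
  | zero =>
    simp only [fw, act_apply, map_sum]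
    rw [Finset.sum_eq_single (0, r)]
    · rw [map_mul, rho_gW, if_pos rfl, map_pow, rho_gG, Pt.co_zero, one_pow, one_mul]
    · rintro ⟨a, b⟩ hp hne
      have hab := mem_antidiagonal.1 hp
      simp only at hab
      rw [map_mul, rho_gW, if_neg, mul_zero]
      intro hb
      simp only at hb
      apply hne
      have : a = 0 := by omega
      rw [this, hb]
    · intro h
      exact absurd (mem_antidiagonal.2 (by simp)) h
  | succ j =>
    simp only [fw]
    rw [rho_gW, if_pos rfl]

lemma rho_face_high_succ (r j : ℕ) :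
    rho r (face (fun _ : Option Empty => 0) (j + 1) (gW none (r + 1))) = 0 := by
  rw [face_gW]
  simp only [fw]
  rw [rho_gW, if_neg (by omega)]

lemma rho_face_high_zero (r : ℕ) :
    rho r (face (fun _ : Option Empty => 0) 0 (gW none (r + 1))) =
      (gG (ι := Option Empty) 0).co 1 ^ 2 ^ r * gW none r := by
  rw [face_gW]
  simp only [fw, act_apply, map_sum]
  rw [Finset.sum_eq_single (1, r)]
  · rw [map_mul, rho_gW, if_pos rfl, map_pow, rho_gG, add_zero]
  · rintro ⟨a, b⟩ hp hne
    have hab := mem_antidiagonal.1 hp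
    simp only at hab
    rw [map_mul, rho_gW, if_neg, mul_zero]
    intro hb
    simp only at hb
    apply hne
    have : a = 1 := by omega
    rw [this, hb]
  · intro h
    exact absurd (mem_antidiagonal.2 (by simp [add_comm])) h

lemma rho_face_z {M : ℤ} {r : ℕ} {z : RR (Option Empty)} (hz : z ∈ CW 2 2 M) (hr : z ∈ SpW r)
    (j : ℕ) : rho r (face (fun _ : Option Empty => 0) j z) = 0 := by
  have h := hom_zero ((rho r).comp (face (fun _ : Option Empty => 0) j)) z (by
    intro d hd
    obtain ⟨i, hi, h0⟩ := has_w hz hr d hd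
    exact ⟨_, h0, rho_face_low hi j⟩)
  exact h

lemma rho_dc_z {M : ℤ} {r : ℕ} {z : RR (Option Empty)} (hz : z ∈ CW 2 2 M) (hr : z ∈ SpW r) :
    rho r (dc 2 z) = 0 := by
  rw [dR_apply, map_sum]
  exact Finset.sum_eq_zero fun j _ => rho_face_z hz hr j

lemma rho_dc_low (r : ℕ) (v : RR Empty) :
    rho r (dc 2 (jO v * gW none r ^ 2)) = jO (dE 2 v) * gW none r ^ 2 := by
  rw [dR_apply, map_sum, dR_apply, map_sum, Finset.sum_mul]
  refine Finset.sum_congr rfl fun j _ => ?_
  rw [map_mul, map_pow, map_mul, map_pow, rho_face_self, XCoef.face_jO, rho_jO]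

lemma rho_dc_high (r : ℕ) (u : RR Empty) :
    rho r (dc 2 (jO u * gW none (r + 1) ^ 2)) = jO (ha (r + 1) * sh 1 u) * gW none r ^ 2 := by
  have e1 : jO (ha (r + 1)) = (gG (ι := Option Empty) 0).co 1 ^ 2 ^ (r + 1) := by
    unfold ha
    rw [map_pow]
    exact congrArg (fun y => y ^ 2 ^ (r + 1)) (XCoef.jO_gG 0 1)
  rw [dR_apply, map_sum, Finset.sum_range_succ', Finset.sum_eq_zero, zero_add]
  · rw [map_mul, map_pow, map_mul, map_pow, rho_face_high_zero, XCoef.face_jO, rho_jO, face_zero,
      map_mul, e1]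
    ring
  · intro j _
    rw [map_mul, map_pow, map_mul, map_pow, rho_face_high_succ]
    simp

lemma gW_ne (r : ℕ) : (gW none r : RR (Option Empty)) ≠ 0 := X_ne_zero _

end XXt3

open XXt3 in
theorem pr_Xt3 : StXt3 := by
  refine ⟨fun M r u z hz hr h => ?_, fun M r u v z hz hr h => ?_⟩
  · have h1 := congrArg (rho r) h
    rw [map_add, map_add, rho_dc_low, rho_dc_z hz hr, add_zero, map_zero] at h1
    have h2 : jO (dE 2 u) = 0 := by
      rcases mul_eq_zero.1 h1 with h2 | h2
      · exact h2
      · exact absurd h2 (pow_ne_zero _ (gW_ne r))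
    exact XCoef.jO_injective (by rw [h2, map_zero])
  · have h1 := congrArg (rho r) h
    rw [map_add, map_add, map_add, map_add, rho_dc_low, rho_dc_high, rho_dc_z hz hr, add_zero,
      map_zero, ← add_mul] at h1
    have h2 : jO (ha (r + 1) * sh 1 u) + jO (dE 2 v) = 0 := by
      rcases mul_eq_zero.1 h1 with h2 | h2
      · exact h2
      · exact absurd h2 (pow_ne_zero _ (gW_ne r))
    rw [← map_add] at h2
    have h3 : ha (r + 1) * sh 1 u + dE 2 v = 0 := XCoef.jO_injective (by rw [h2, map_zero])
    have h4 : dE 2 v = -(ha (r + 1) * sh 1 u) := by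
      rw [eq_neg_iff_add_eq_zero, add_comm]
      exact h3
    rw [h4]
    exact CharTwo.neg_eq _

end

end Pool.Agent.Work.MP_701abf_gt.F5
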