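import Pool.Agent.Work.MP_701abf_gt.F5.T3Stmts

/-!
# The 3-line in the degree 1
-/

set_option autoImplicit false

open MvPolynomial
open Finset.HasAntidiagonal (antidiagonal mem_antidiagonal)
open Pool.Agent.Work.MP_701abf_gt.Stab Pool.Agent.Work.MP_701abf_gt.Cob
open Pool.Agent.Work.MP_701abf_gt.Sq2 Pool.Agent.Work.MP_701abf_gt.Sq2.FL

namespace Pool.Agent.Work.MP_701abf_gt.F5

namespace XZ13

/-- The weights. -/
def wv {n : ℕ} (v : Fin n × ℕ) : ℕ := 2 ^ (v.2 + 1) - 1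

lemma wv_pos {n : ℕ} (v : Fin n × ℕ) : 1 ≤ wv v := by
  have : 2 ^ 1 ≤ 2 ^ (v.2 + 1) := Nat.pow_le_pow_right (by norm_num) (by omega)
  unfold wv
  omega

lemma mono_le {n : ℕ} (d : Fin n × ℕ →₀ ℕ) (v : Fin n × ℕ) : d v * wv v ≤ Finsupp.weight wv d := by
  rw [Finsupp.weight_apply, Finsupp.sum]
  by_cases hv : v ∈ d.support
  · exact Finset.single_le_sum (f := fun v => d v • wv v) (fun _ _ => Nat.zero_le _) hv
  · rw [Finsupp.notMem_support_iff.1 hv, zero_mul]
    exact Nat.zero_le _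

lemma exps {n : ℕ} (d : Fin n × ℕ →₀ ℕ) (h : Finsupp.weight wv d = 1) :
    ∃ i : Fin n, d = Finsupp.single (i, 0) 1 := by
  have hne : d ≠ 0 := by
    rintro rfl
    simp at h
  obtain ⟨v, hv⟩ := Finsupp.support_nonempty_iff.2 hne
  rw [Finsupp.mem_support_iff] at hv
  have hle : Finsupp.single v 1 ≤ d := Finsupp.single_le_iff.2 (Nat.one_le_iff_ne_zero.2 hv)
  obtain ⟨e, he⟩ : ∃ e, d = Finsupp.single v 1 + e := ⟨d - Finsupp.single v 1,
    (add_tsub_cancel_of_le hle).symm⟩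
  rw [he, map_add, Finsupp.weight_single, one_smul] at h
  have h1 := wv_pos v
  have h2 : wv v = 1 := by omega
  have h3 : Finsupp.weight wv e = 0 := by omega
  have he0 : e = 0 := by
    ext u
    have h4 := mono_le e u
    rw [h3] at h4
    have h5 := wv_pos u
    by_contra h6
    have h7 : 1 ≤ e u := Nat.one_le_iff_ne_zero.2 h6
    nlinarith
  have hv2 : v.2 = 0 := by
    by_contra h4
    have h5 : 2 ^ 2 ≤ 2 ^ (v.2 + 1) := Nat.pow_le_pow_right (by norm_num) (by omega)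
    unfold wv at h2
    omega
  refine ⟨v.1, ?_⟩
  rw [he, he0, add_zero]
  congr 1
  exact Prod.ext rfl hv2

lemma form {p : Cobar 3} (h : p ∈ Hom 3 1) : ∃ α β γ : ZMod 2,
    p = α • X (2, 0) + β • X (1, 0) + γ • X (0, 0) := by
  have h' : IsWeightedHomogeneous wv p 1 := h
  refine ⟨coeff (Finsupp.single (2, 0) 1) p, coeff (Finsupp.single (1, 0) 1) p,
    coeff (Finsupp.single (0, 0) 1) p, ?_⟩
  refine MvPolynomial.ext _ _ fun d => ?_
  simp only [coeff_add, coeff_smul, coeff_X', smul_eq_mul, mul_ite, mul_one, mul_zero]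
  by_cases hd : coeff d p = 0
  · rw [hd]
    have t : ∀ v : Fin 3 × ℕ, (if Finsupp.single v 1 = d then
        coeff (Finsupp.single v 1) p else 0) = 0 := by
      intro v
      split_ifs with h1
      · rw [h1, hd]
      · rfl
    rw [t, t, t, add_zero, add_zero]
  · obtain ⟨i, hi⟩ := exps d (h' hd)
    subst hi
    have h1 : ∀ j : Fin 3, (Finsupp.single ((j, 0) : Fin 3 × ℕ) 1 = Finsupp.single (i, 0) 1) ↔
        j = i := by
      intro j
      rw [Finsupp.single_left_inj one_ne_zero, Prod.mk.injEq]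
      simp
    simp only [h1]
    fin_cases i <;> simp

lemma mul1 (u v : Pt (RR Empty)) : (u * v).co 1 = u.co 1 + v.co 1 := by
  rw [Pt.co_mul, Finset.Nat.antidiagonal_succ]
  simp [Pt.co_zero, add_comm]

lemma fA (j i : ℕ) : face (fun _ : Empty => 0) j (X (Sum.inl (i, 0))) =
    (fg j (gG (ι := Empty)) i).co 1 := by
  unfold face
  rw [ev_inl]

/-- The first coordinates. -/
noncomputable abbrev A (i : ℕ) : RR Empty := X (Sum.inl (i, 0))

lemma d3_0 : dE 3 (A 0) = A 0 := by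
  rw [dR_apply]
  simp only [Finset.sum_range_succ, Finset.sum_range_zero, zero_add, fA]
  have f0 : (fg 0 (gG (ι := Empty)) 0).co 1 = A 1 := rfl
  have f1 : (fg 1 (gG (ι := Empty)) 0).co 1 = A 1 + A 0 := by
    have : fg 1 (gG (ι := Empty)) 0 = gG 1 * gG 0 := rfl
    rw [this, mul1]
    rfl
  have f2 : (fg 2 (gG (ι := Empty)) 0).co 1 = A 0 := rfl
  have f3 : (fg 3 (gG (ι := Empty)) 0).co 1 = A 0 := rfl
  rw [f0, f1, f2, f3]
  have two : (2 : RR Empty) = 0 := two_zero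
  linear_combination (A 1 + A 0) * two

lemma d3_1 : dE 3 (A 1) = A 2 := by
  rw [dR_apply]
  simp only [Finset.sum_range_succ, Finset.sum_range_zero, zero_add, fA]
  have f0 : (fg 0 (gG (ι := Empty)) 1).co 1 = A 2 := rfl
  have f1 : (fg 1 (gG (ι := Empty)) 1).co 1 = A 2 := rfl
  have f2 : (fg 2 (gG (ι := Empty)) 1).co 1 = A 2 + A 1 := by
    have : fg 2 (gG (ι := Empty)) 1 = gG 2 * gG 1 := rfl
    rw [this, mul1]
    rfl
  have f3 : (fg 3 (gG (ι := Empty)) 1).co 1 = A 1 := rfl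
  rw [f0, f1, f2, f3]
  have two : (2 : RR Empty) = 0 := two_zero
  linear_combination (A 2 + A 1) * two

lemma d4_0 : dE 4 (A 0) = 0 := by
  rw [dR_apply]
  simp only [Finset.sum_range_succ, Finset.sum_range_zero, zero_add, fA]
  have f0 : (fg 0 (gG (ι := Empty)) 0).co 1 = A 1 := rfl
  have f1 : (fg 1 (gG (ι := Empty)) 0).co 1 = A 1 + A 0 := by
    have : fg 1 (gG (ι := Empty)) 0 = gG 1 * gG 0 := rfl
    rw [this, mul1]
    rfl
  have f2 : (fg 2 (gG (ι := Empty)) 0).co 1 = A 0 := rfl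
  have f3 : (fg 3 (gG (ι := Empty)) 0).co 1 = A 0 := rfl
  have f4 : (fg 4 (gG (ι := Empty)) 0).co 1 = A 0 := rfl
  rw [f0, f1, f2, f3, f4]
  have two : (2 : RR Empty) = 0 := two_zero
  linear_combination (A 1 + 2 * A 0) * two

lemma d4_1 : dE 4 (A 1) = A 1 + A 2 := by
  rw [dR_apply]
  simp only [Finset.sum_range_succ, Finset.sum_range_zero, zero_add, fA]
  have f0 : (fg 0 (gG (ι := Empty)) 1).co 1 = A 2 := rfl
  have f1 : (fg 1 (gG (ι := Empty)) 1).co 1 = A 2 := rfl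
  have f2 : (fg 2 (gG (ι := Empty)) 1).co 1 = A 2 + A 1 := by
    have : fg 2 (gG (ι := Empty)) 1 = gG 2 * gG 1 := rfl
    rw [this, mul1]
    rfl
  have f3 : (fg 3 (gG (ι := Empty)) 1).co 1 = A 1 := rfl
  have f4 : (fg 4 (gG (ι := Empty)) 1).co 1 = A 1 := rfl
  rw [f0, f1, f2, f3, f4]
  have two : (2 : RR Empty) = 0 := two_zero
  linear_combination (A 2 + A 1) * two

lemma d4_2 : dE 4 (A 2) = 0 := by
  rw [dR_apply]
  simp only [Finset.sum_range_succ, Finset.sum_range_zero, zero_add, fA]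
  have f0 : (fg 0 (gG (ι := Empty)) 2).co 1 = A 3 := rfl
  have f1 : (fg 1 (gG (ι := Empty)) 2).co 1 = A 3 := rfl
  have f2 : (fg 2 (gG (ι := Empty)) 2).co 1 = A 3 := rfl
  have f3 : (fg 3 (gG (ι := Empty)) 2).co 1 = A 3 + A 2 := by
    have : fg 3 (gG (ι := Empty)) 2 = gG 3 * gG 2 := rfl
    rw [this, mul1]
    rfl
  have f4 : (fg 4 (gG (ι := Empty)) 2).co 1 = A 2 := rfl
  rw [f0, f1, f2, f3, f4]
  have two : (2 : RR Empty) = 0 := two_zero
  linear_combination (2 * A 3 + A 2) * two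

lemma ne12 : A 1 + A 2 ≠ 0 := by
  intro h
  have h1 := congrArg (coeff (Finsupp.single (Sum.inl (1, 0)) 1)) h
  rw [coeff_add, coeff_X', coeff_X', coeff_zero, if_pos rfl, if_neg, add_zero] at h1
  · exact one_ne_zero h1
  · rw [Finsupp.single_left_inj one_ne_zero]
    simp

end XZ13

open XZ13 in
theorem pr_Z13 : StZ13 := by
  intro x hx
  obtain ⟨p, hp, rfl⟩ := exists_th (s := 3) (t := 1) (F := x) hx
  obtain ⟨α, β, γ, hp'⟩ := form hp.1
  have hth : th 3 p = α • A 0 + β • A 1 + γ • A 2 := by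
    rw [hp']
    simp only [map_add, map_smul, th_X]
    rfl
  rw [hth] at hx ⊢
  obtain ⟨-, -, hd⟩ := hx
  have hd' : β • (A 1 + A 2) = 0 := by
    have h1 : dE (3 + 1) (α • A 0 + β • A 1 + γ • A 2) = β • (A 1 + A 2) := by
      rw [map_add, map_add, map_smul, map_smul, map_smul]
      show α • dE 4 (A 0) + β • dE 4 (A 1) + γ • dE 4 (A 2) = _
      rw [d4_0, d4_1, d4_2, smul_zero, smul_zero, zero_add, add_zero]
    rw [← h1]
    exact hd
  have h01 : ∀ b : ZMod 2, b = 0 ∨ b = 1 := by decide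
  have hβ : β = 0 := by
    rcases h01 β with h | h
    · exact h
    · rw [h, one_smul] at hd'
      exact absurd hd' ne12
  rw [hβ, zero_smul, add_zero]
  have hG : α • X (1, 0) + γ • X (0, 0) ∈ Hom 2 1 := by
    refine Submodule.add_mem _ (Submodule.smul_mem _ _ ?_) (Submodule.smul_mem _ _ ?_)
    · exact isWeightedHomogeneous_X (ZMod 2) (fun v : Fin 2 × ℕ => 2 ^ (v.2 + 1) - 1) (1, 0)
    · exact isWeightedHomogeneous_X (ZMod 2) (fun v : Fin 2 × ℕ => 2 ^ (v.2 + 1) - 1) (0, 0)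
  have hthG : th 2 (α • X (1, 0) + γ • X (0, 0)) = α • A 0 + γ • A 1 := by
    simp only [map_add, map_smul, th_X]
    rfl
  refine ⟨th 2 (α • X (1, 0) + γ • X (0, 0)), th_lev 2 _, th_Hom hG, ?_⟩
  rw [hthG, map_add, map_smul, map_smul, d3_0, d3_1]

end Pool.Agent.Work.MP_701abf_gt.F5
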