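import Pool.Agent.Work.MP_701abf_gt.F5.Defs

/-!
# MP_701abf_gt: the five-line theorem, statements (captain helper72)

Each `def StXXX : Prop` is one item; its docstring contains the complete proof. File `F5/I_XXX.lean`,
import `Pool.Agent.Work.MP_701abf_gt.F5.Stmts` (and landed item files if useful), namespace
`Pool.Agent.Work.MP_701abf_gt.F5`, auxiliary lemmas in the namespace `XXXX` (X and the name of the
item), main theorem `theorem pr_XXX (hypotheses: the statements in the docstring) : F5.StXXX`.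
The statements `TwT.StTn`, `TwT.StLt`, … are those of `TwT/Stmts.lean`; most of them are proved in
`TwT/I_XXX.lean`, but they can be used as hypotheses without importing the proofs. Useful small
lemmas: `TwT/I_Tn.lean`, `TwT/I_Lt.lean`, `TwT/I_Tr.lean` (`sum_smul_sq`), `TwT/I_Fe.lean`
(`comb_mem`, `comb_sq`), `TwT/I_Su.lean` (`qzero`, `qsum`).
`(Sys.ten V W).I` is `W.I × V.I`, `(Sys.ten V W).d (l, v) = W.d l + V.d v` and
`(Sys.ten V W).c k (l, v) (m, v') = ∑ i ∈ range (k + 1), W.c i l m * V.c (k - i) v v'` (all by `rfl`).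
The formula for the operations in a product (`StTn` (2), with `StTn` (5): `e 0 = id`, `Ok.one`,
`Ok.ne`) says, with `x_l = x (l, ·)`: `(e 1 x)_m = e 1 x_m + ∑ l, c 1 l m • x_l` and
`(e 2 x)_m = e 2 x_m + ∑ l, c 1 l m • e 1 x_l + ∑ l, c 2 l m • x_l`.
-/

open MvPolynomial
open Pool.Agent.Work.MP_701abf_gt.Stab Pool.Agent.Work.MP_701abf_gt.Cob
open Pool.Agent.Work.MP_701abf_gt.Sq2 Pool.Agent.Work.MP_701abf_gt.TwT

namespace Pool.Agent.Work.MP_701abf_gt.F5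

noncomputable section

/-! ## 1. Algebra -/

/-- Sy (symmetry of the product). By `e_apply` both sides are sums over pairs; reindex by
`(v', l) ↦ (l, v')` (`Fintype.sum_equiv (Equiv.prodComm _ _)`). The coefficients agree:
`∑ i ∈ range (k + 1), W.c i l m * V.c (k - i) v' v = ∑ i ∈ range (k + 1), V.c i v' v * W.c (k - i) l m`
(`Finset.sum_range_reflect` or `Finset.sum_flip`). Degrees: `Nat.add_comm`. -/
def StSy : Prop := ∀ (V W : Sys) (x : W.I × V.I → ZMod 2),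
  (∀ k m v, (Sys.ten V W).e k x (m, v) = (Sys.ten W V).e k (fun p => x (p.2, p.1)) (v, m)) ∧
  ∀ s, (Sys.ten V W).Dg s x → (Sys.ten W V).Dg s fun p => x (p.2, p.1)

/-- Lf (the operations on `l0 ⊗ y`; uses StLt). `y' = lft l0 y` has `y' (l0, ·) = y` and
`y' (l, ·) = 0` for `l ≠ l0`; `m0 ≠ l0` by degrees. (1) is StLt (1), (2) is StLt (2) (`map_zero`),
(3) is StLt (3), applied to `0` and `y'`. -/
def StLf : Prop := ∀ (V W : Sys) (l0 m0 : W.I), V.Ok → W.Let l0 m0 → ∀ (y : V.I → ZMod 2) (k : ℕ),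
  (∀ v, (Sys.ten V W).e k (lft l0 y) (l0, v) = V.e k y v) ∧
  (∀ v, (Sys.ten V W).e (k + 1) (lft l0 y) (m0, v) = V.e k y v) ∧
  ∀ m v, m ≠ l0 → m ≠ m0 → (Sys.ten V W).e k (lft l0 y) (m, v) = 0

/-- A1 (a power of two times a system in degrees at least two; uses StTn, StLt, StLf). Let
`y = x_(m0)`; `V.Dg 3 y` by StTn (4), `W.d m0 = 2`. StLt (2) with `k = 0`: `0 = e 1 y + e 0 x_(l0)`,
so `x_(l0) = e 1 y` (StTn (5)). Let `m ≠ l0, m0`, then `3 ≤ W.d m` (`pos`, `ul0`, `um0`). If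
`W.d m = 3`: StLt (4) (the hypothesis is vacuous) gives `e 1 x_m = 0`, and `x_m` has degree
`5 - 3 = 2`, so `x_m = 0` by `Inj2`. If `W.d m ≥ 4`: `x_m` has degree at most one, or `x_m = 0`
(StTn (4)), so `x_m = 0` since `2 ≤ V.d v`. So `x` and `e 1 (lft l0 y)` agree (StLf: the components
at `l0`, `m0`, and the others are `e 1 y`, `e 0 y = y`, `0`). If `e 2 x = 0`: StLt (1):
`0 = e 2 x_(l0) = e 2 (e 1 y)`; StLt (2) with `k = 1`: `0 = e 2 y + e 1 x_(l0) = e 2 y + e 1 (e 1 y)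
= e 2 y`. -/
def StA1 : Prop := ∀ (V W : Sys) (l0 m0 : W.I), V.Ok → (∀ v, 2 ≤ V.d v) → Inj2 V →
  (∀ y, V.e 1 (V.e 1 y) = 0) → W.Let l0 m0 → ∀ x : W.I × V.I → ZMod 2, (Sys.ten V W).Dg 5 x →
  (Sys.ten V W).e 1 x = 0 → V.Dg 3 (fun v => x (m0, v)) ∧
    x = (Sys.ten V W).e 1 (lft l0 fun v => x (m0, v)) ∧
    ((Sys.ten V W).e 2 x = 0 → V.e 2 (fun v => x (m0, v)) = 0 ∧
      V.e 2 (V.e 1 fun v => x (m0, v)) = 0)

/-- A2 (the mirror image of A1; uses StSy, StA1). Apply StA1 to `V := W`, `W := V` and the vector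
`p ↦ x (p.2, p.1)`; `lft l0 b` becomes `rgt l0 b`. -/
def StA2 : Prop := ∀ (V W : Sys) (l0 m0 : V.I), W.Ok → (∀ l, 2 ≤ W.d l) → Inj2 W →
  (∀ b, W.e 1 (W.e 1 b) = 0) → V.Let l0 m0 → ∀ x : W.I × V.I → ZMod 2, (Sys.ten V W).Dg 5 x →
  (Sys.ten V W).e 1 x = 0 → W.Dg 3 (fun l => x (l, m0)) ∧
    x = (Sys.ten V W).e 1 (rgt l0 fun l => x (l, m0)) ∧
    ((Sys.ten V W).e 2 x = 0 → W.e 2 (fun l => x (l, m0)) = 0 ∧
      W.e 2 (W.e 1 fun l => x (l, m0)) = 0)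

/-- A3 (two powers of two; uses StTn, StLt, StSy, StLf). Let `l0`, `m0` be the elements of degree one
and two of `W`, `l1`, `m1` those of `V`; `y v = x (m0, v)`, `b l = x (l, m1)`; the degrees are
`5 - 2 = 3`. StLt (2), `k = 0`: `x (l0, ·) = e 1 y`. The same for the mirror image (StSy):
`x (·, l1) = e 1 b`. The sum `x' = e 1 (lft l0 y) + e 1 (rgt l1 b)` is by StLf (and StSy) at `(l, v)`
the sum of `e 1 y v`, `y v`, `0` for `l = l0`, `l = m0`, other `l`, and of `e 1 b l`, `b l`, `0` for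
`v = l1`, `v = m1`, other `v`. Compare with `x (l, v)`: if `l` is `l0` or `m0` and `v` is `l1` or
`m1`, the degree of `(l, v)` is at most `4`, and `x (l, v) = 0`, and both summands are zero by
degrees (`e 1 y`, `y`, `e 1 b`, `b` have degrees `4`, `3`, `4`, `3`, StTn (5)). If `l` is `l0` or `m0` and `v` is not
`l1`, `m1`, the second summand is zero; symmetrically in the other case. If both are different from
these elements, `W.d l ≥ 3`, `V.d v ≥ 3`, so `x (l, v) = 0` by degrees. If `e 2 x = 0`: as in A1,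
`0 = e 2 x_(l0) = e 2 (e 1 y)` and `0 = e 2 y + e 1 (e 1 y) = e 2 y`, and the mirror image. -/
def StA3 : Prop := ∀ (V W : Sys) (l0 m0 : W.I) (l1 m1 : V.I), V.Let l1 m1 → W.Let l0 m0 →
  (∀ y, V.e 1 (V.e 1 y) = 0) → (∀ b, W.e 1 (W.e 1 b) = 0) → ∀ x : W.I × V.I → ZMod 2,
  (Sys.ten V W).Dg 5 x → (Sys.ten V W).e 1 x = 0 →
    V.Dg 3 (fun v => x (m0, v)) ∧ W.Dg 3 (fun l => x (l, m1)) ∧
    x = (Sys.ten V W).e 1 (lft l0 fun v => x (m0, v)) +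
      (Sys.ten V W).e 1 (rgt l1 fun l => x (l, m1)) ∧
    ((Sys.ten V W).e 2 x = 0 →
      (V.e 2 (fun v => x (m0, v)) = 0 ∧ V.e 2 (V.e 1 fun v => x (m0, v)) = 0) ∧
      W.e 2 (fun l => x (l, m1)) = 0 ∧ W.e 2 (W.e 1 fun l => x (l, m1)) = 0)

/-- A4 (two clusters which are not powers of two; uses StTn). All `x_m` with `W.d m ≥ 4` are `0` by
degrees (StTn (4), `2 ≤ V.d v`). If `W` has no element of degree two, then for `W.d m = 3` the
component `(e 1 x)_m` is `e 1 x_m` (`c 1 l m ≠ 0` implies `W.d l = 2`), with `x_m` of degree two, so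
`x_m = 0` and `x = 0`. Otherwise let `l` be the element of degree two of `W` and `a = x_l` (degree
three). `Inj2 W` for `one1 l` gives `m1` with `c 1 l m1 = 1` (`W.d m1 = 3`). Let `u = x_(m1)`
(degree two). For `W.d m = 3`: `e 1 x_m = c 1 l m • a`; so `a = e 1 u` (`m = m1`), and
`e 1 (x_m + c 1 l m • u) = 0`, so `x_m = c 1 l m • u` (`Inj2 V`). If `u = 0` then `x = 0`. Otherwise
`u = one1 v` with `v` the element of degree two of `V` (`One2 V`), and `x = e 1 (lft l (one1 v))`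
(its component at `m` is `e 1 u` for `m = l`, plus `c 1 l m • u`). If `e 2 x = 0`: the component at
`m1` is `e 2 u + e 1 a = e 2 u + e 1 (e 1 u) = e 2 u` (the elements `l'` with `c 2 l' m1 ≠ 0` have
degree one), so `V.c 2 v v' = e 2 (one1 v) v' = 0`. The component at `m` with `W.d m = 4` is
`∑ l' with W.d l' = 3, c 1 l' m • c 1 l l' • e 1 u + c 2 l m • e 1 u`, where the first sum is
`(e 1 (e 1 (one1 l))) m • e 1 u = 0`, and `e 1 u ≠ 0` by `Inj2 V`; so `c 2 l m = 0`. For the other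
`m`, `c 2 l m = 0` by `Ok.deg`. -/
def StA4 : Prop := ∀ V W : Sys, V.Ok → W.Ok → (∀ v, 2 ≤ V.d v) → (∀ l, 2 ≤ W.d l) → Inj2 V →
  Inj2 W → One2 V → One2 W → (∀ y, V.e 1 (V.e 1 y) = 0) → (∀ b, W.e 1 (W.e 1 b) = 0) →
  ∀ x : W.I × V.I → ZMod 2, (Sys.ten V W).Dg 5 x → (Sys.ten V W).e 1 x = 0 →
    x = 0 ∨ ∃ (l : W.I) (v : V.I), W.d l = 2 ∧ V.d v = 2 ∧
      x = (Sys.ten V W).e 1 (lft l (one1 v)) ∧
      ((Sys.ten V W).e 2 x = 0 → (∀ m, W.c 2 l m = 0) ∧ ∀ v', V.c 2 v v' = 0)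

/-- A5 (uses StTn). For `W.d l = 2` the component of `e 1 x` at `l` is `e 1 x_l = 0`. For
`W.d m = 3` the component of `e 2 x` at `m` is `e 2 x_m + ∑ l with W.d l = 2, c 1 l m • e 1 x_l =
e 2 x_m` (`c 2 l m ≠ 0` implies `W.d l = 1`), and `x_m` has degree two, so `x_m = 0`. For
`W.d m ≥ 4`, `x_m = 0` by degrees (StTn (4), `2 ≤ V.d v`). So for all `m` and `v`, with
`b l = x (l, v)` if `W.d l = 2` and `b l = 0` otherwise: `0 = e 1 x (m, v) = W.e 1 b m` if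
`W.d m = 3`, and `W.e 1 b m = 0` for other `m` by degrees; `Inj2 W` gives `b = 0`. -/
def StA5 : Prop := ∀ V W : Sys, V.Ok → W.Ok → (∀ v, 2 ≤ V.d v) → (∀ l, 2 ≤ W.d l) →
  (∀ y : V.I → ZMod 2, V.Dg 2 y → V.e 2 y = 0 → y = 0) → Inj2 W →
  ∀ x : W.I × V.I → ZMod 2, (Sys.ten V W).Dg 5 x → (Sys.ten V W).e 1 x = 0 →
    (Sys.ten V W).e 2 x = 0 → x = 0

/-- A6 (products of two clusters; uses StOk, StLr). StOk (1): all degrees are at least
`c + 2 m = 2 + m`. If `m ≥ 1` there is no element of degree two, and everything is clear. If `m = 0`,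
`c = 2`: StLr with `e = 0`, `k = 1`, `K = 2` (degree `2 + 2 * 0 + 0`), and with `e = 0`, `k = 2`,
`K = 3`. -/
def StA6 : Prop := ∀ P c m V, TP P c m V → c + m = 2 → (∀ v, 2 ≤ V.d v) ∧ Inj2 V ∧
  ∀ y : V.I → ZMod 2, V.Dg 2 y → V.e 2 y = 0 → y = 0

/-! ## 2. Topology -/

/-- Tf (transfer in degree five; uses StTr). `x` from `BQ.span`; StTr for `X`, `x` gives the second,
third and fourth claim. For `y`: `Y = ∑ y l • u l` is in `ZR 4 T` (`w_mem`; `y l ≠ 0` only for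
`U.d l = 4`), StTr for `Y`, `y` (`Y + Y = 0`) gives `q 1 4 Y + ∑ m, x m • u m ^ 2 ∈ BR 5`, and
`X ^ 2 + ∑ m, x m • u m ^ 2 = (X + ∑ m, x m • u m) ^ 2 ∈ BR 5` (`sq_BR`, `sq_add`,
`sum_smul_sq` of `TwT/I_Tr.lean`). -/
def StTf : Prop := ∀ q, Ops q → ∀ (n : ℕ) (T : ℤ) (U : Sys) (u : U.I → RR Empty), 7 ≤ n → U.Ok →
  BQ q n T U u → ∀ X ∈ ZR 5 T, q 1 5 X ∈ BR 6 (2 * T) → ∃ x : U.I → ZMod 2, U.Dg 5 x ∧
    U.e 1 x = 0 ∧ (x = 0 → X ∈ BR 5 T) ∧ (q 2 5 X ∈ BR 7 (2 * T) → U.e 2 x = 0) ∧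
    ∀ y : U.I → ZMod 2, U.Dg 4 y → U.e 1 y = x →
      ∑ l, y l • u l ∈ ZR 4 T ∧ q 1 4 (∑ l, y l • u l) + X ^ 2 ∈ BR 5 (2 * T)

/-- Zv (classes on the 3-line from vectors; uses StTn, StTr). `z = ∑ y v • u v ∈ ZR 3 T`. StTr for
`z`, `y` (`s = 3`, `z + z = 0`): `q 2 3 z ∈ BR 5` as `e 2 y = 0`, and
`q 1 3 z + ∑ m, (e 1 y) m • u m ^ 2 ∈ BR 4`. Let `α = ∑ m, (e 1 y) m • u m ∈ ZR 4 T` (StTn (5):
`Dg 4 (e 1 y)`); `α ^ 2 = ∑ m, (e 1 y) m • u m ^ 2`. StTr for `α`, `e 1 y`: `q 2 4 α ∈ BR 6` as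
`e 2 (e 1 y) = 0`. -/
def StZv : Prop := ∀ q, Ops q → ∀ (n : ℕ) (T : ℤ) (U : Sys) (u : U.I → RR Empty), 7 ≤ n → U.Ok →
  BQ q n T U u → ∀ y : U.I → ZMod 2, U.Dg 3 y → ∑ l, y l • u l ∈ ZR 3 T ∧
    (U.e 2 y = 0 → U.e 2 (U.e 1 y) = 0 → Zz q T (∑ l, y l • u l))

/-- Zo (uses StSu). `x + y ∈ BR s t` implies `q n s x + q n s y ∈ BR` (StSu (2)), so for
`q n s y + r ∈ BR` one has `q n s x + r ∈ BR`. -/
def StZo : Prop := ∀ q, Ops q → ∀ (n s : ℕ) (t : ℤ),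
  ∀ x ∈ ZR s t, ∀ y ∈ ZR s t, x + y ∈ BR s t → ∀ r, q n s y + r ∈ BR (s + n) (2 * t) →
    q n s x + r ∈ BR (s + n) (2 * t)

/-- Pd (vectors of the form `l ⊗ y` and `b ⊗ v`). The index set of the sum is a product
(`Fintype.sum_prod_type`). (1): only `p.1 = l` contributes; `sh k` is linear (`map_sum`, `map_smul`).
(2): only `p.2 = v` contributes, and `b l ≠ 0` implies `W.d l = j`. -/
def StPd : Prop := ∀ (V W : Sys) (v : V.I → RR Empty) (w : W.I → RR Empty),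
  (∀ (l : W.I) (y : V.I → ZMod 2), (∑ p : W.I × V.I, lft l y p • (w p.1 * sh (W.d p.1) (v p.2))) =
    w l * sh (W.d l) (∑ k, y k • v k)) ∧
  ∀ (j : ℕ) (k : V.I) (b : W.I → ZMod 2), W.Dg j b →
    (∑ p : W.I × V.I, rgt k b p • (w p.1 * sh (W.d p.1) (v p.2))) =
      (∑ l, b l • w l) * sh j (v k)

/-- PP (the property `Pr`; uses StEe, StTr). `J` from StEe, and `J ≥ 2`, `n ≥ 4`. `W.Z1` is StEe. Let
`W.d l ≠ 1` for all `l`. Then `T` is not a power of two: otherwise `ha b ∈ ZR 1 T` with `BQ.span`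
(`s = 1`): the coefficients vanish since no `l` has degree one, so `ha b ∈ BR 1 T`, contradiction
(`BR_one`, `ha_ne`). `Inj2`: let `W.Dg 2 y`, `W.e 1 y = 0`, `Y = ∑ y l • w l ∈ ZR 2 T`; StTr
(`s = 2`): `q 1 2 Y ∈ BR 3 (2 T)`, so `dl 2 Y ∈ BR 3 (2 T)` (`Ops.one`), so `Y ∈ BR 2 T` by `TwoInj`
(`A0 2 T`; `dl` is `Sq2.dl`), so `y = 0` (StTr). `One2`: let `W.d l = W.d m = 2`. By `TwoSpan`
`w l` is in `BR` or `w l + ha b * sh 1 (ha a) ∈ BR` with `T = 2 ^ a + 2 ^ b`, `a + 2 ≤ b` (`a = b` is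
impossible since `T` is not a power of two). The first case is impossible by StTr for the vector
`one1 l`. The same for `m`, with the same `a`, `b` (`2 ^ a + 2 ^ b = 2 ^ a' + 2 ^ b'` with `a < b`,
`a' < b'` implies `a = a'`, `b = b'`). So `w l + w m ∈ BR`, and StTr for the vector
`one1 l + one1 m` shows that it vanishes, i.e. `l = m`. -/
def StPP : Prop := FL.TwoInj → FL.TwoSpan → ∀ q, Ops q → ∀ n : ℕ, 4 ≤ n → ∃ J : ℕ, ∀ T : ℤ, 0 < T →
  (2 : ℤ) ^ J ∣ T → ∀ (W : Sys) (w : W.I → RR Empty), W.Ok → W.Tr n → BQ q n T W w → Pr W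

/-- Z2 (uses StTn). `W.Z1` says that the matrix of `e 1 ∘ e 1` is zero: expand `e_apply` twice and
exchange the sums. -/
def StZ2 : Prop := ∀ W : Sys, W.Z1 → ∀ y, W.e 1 (W.e 1 y) = 0

/-- Tp: monotonicity of `TP` in the property. Induction. -/
def StTp : Prop := ∀ (P Q : Sys → Prop), (∀ W, P W → Q W) → ∀ c m V, TP P c m V → TP Q c m V

/-- T1 (lowest cluster a power of two; uses StTn, StTb, StTf, StZv, StPd, StA1). Let
`U = Sys.ten V W`, `U.Ok` by StTn (1), with the basis `u` of StTb. Let `X ∈ ZR 5`, `q 1 5 X ∈ BR`;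
`x` from StTf, `y = x (m0, ·)` from StA1, `x = e 1 (lft l0 y)`. `lft l0 y` has degree
`1 + 3 = 4`. StTf (last claim): `Y = ∑ (lft l0 y) p • u p = ha μ * sh 1 z` with
`z = ∑ y v • v v` (StPd (1), `W.d l0 = 1`, `w l0 = ha μ`) is in `ZR 4` with `q 1 4 Y + X ^ 2 ∈ BR`:
the first claim of `Five`. If `q 2 5 X ∈ BR`, then `e 2 x = 0` (StTf), so `e 2 y = 0`,
`e 2 (e 1 y) = 0` (StA1), and `Zz q N z` (StZv): `Ka` holds with `a = μ`, `T = N`. -/
def StT1 : Prop := ∀ q, Ops q → ∀ (n μ : ℕ) (N : ℤ) (V W : Sys) (v : V.I → RR Empty)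
  (w : W.I → RR Empty) (l0 m0 : W.I), 7 ≤ n → 0 < N → V.Ok → BQ q n N V v →
  BQ q n (2 ^ μ) W w → KU n N (2 ^ μ) W w → (∀ v, 2 ≤ V.d v) → Inj2 V →
  (∀ y, V.e 1 (V.e 1 y) = 0) → W.Let l0 m0 → w l0 = ha μ → Five q (N + 2 ^ μ)

/-- T2 (upper cluster a power of two; uses StTn, StTb, StTf, StZv, StZo, StPd, StA2, and the theorem
`FL.S_Comm`, file `FL/Comm.lean`). As T1 with StA2: `b l = x (l, m0)`, and
`Y = ∑ (rgt l0 b) p • u p = z * sh 3 (ha ν)`, `z = ∑ b l • w l ∈ ZR 3 M` (StPd (2), `j = 3`). By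
`FL.S_Comm` `ha ν * sh 1 z + z * sh 3 (ha ν) ∈ BR 4 (2 ^ ν + M)`, so by StZo (2)
`q 1 4 (ha ν * sh 1 z) + X ^ 2 ∈ BR`; this is `Ka` with `a = ν`, `T = M`. -/
def StT2 : Prop := FL.S_Comm → ∀ q, Ops q → ∀ (n ν : ℕ) (M : ℤ) (V W : Sys) (v : V.I → RR Empty)
  (w : W.I → RR Empty) (l0 m0 : V.I), 7 ≤ n → 0 < M → W.Ok → BQ q n (2 ^ ν) V v →
  BQ q n M W w → KU n (2 ^ ν) M W w → (∀ l, 2 ≤ W.d l) → Inj2 W →
  (∀ b, W.e 1 (W.e 1 b) = 0) → V.Let l0 m0 → v l0 = ha ν → Five q (2 ^ ν + M)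

/-- T3 (two powers of two; uses StTn, StTb, StTf, StZv, StZo, StPd, StA3, `FL.S_Comm`). As T1 with
StA3: `y v = x (m0, v)`, `b l = x (l, m1)`; the vector `lft l0 y + rgt l1 b` has degree four, and
`x = e 1` of it (`map_add`); `Y = ha μ * sh 1 z + z' * sh 3 (ha ν)` with `z = ∑ y v • v v`,
`z' = ∑ b l • w l`. By `FL.S_Comm`, `Y` and `ha μ * sh 1 z + ha ν * sh 1 z'` agree modulo `BR 4`; StZo,
and `Kd` with `a = μ`, `b = ν`. -/
def StT3 : Prop := FL.S_Comm → ∀ q, Ops q → ∀ (n ν μ : ℕ) (V W : Sys) (v : V.I → RR Empty)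
  (w : W.I → RR Empty) (l0 m0 : W.I) (l1 m1 : V.I), 7 ≤ n → BQ q n (2 ^ ν) V v →
  BQ q n (2 ^ μ) W w → KU n (2 ^ ν) (2 ^ μ) W w → V.Let l1 m1 → W.Let l0 m0 →
  (∀ y, V.e 1 (V.e 1 y) = 0) → (∀ b, W.e 1 (W.e 1 b) = 0) → v l1 = ha ν → w l0 = ha μ →
  Five q (2 ^ ν + 2 ^ μ)

/-- T4 (two clusters which are not powers of two; uses StTn, StTb, StTf, StTr, StPd, StA4). As T1 with
StA4. If `x = 0` then `X ∈ BR` (StTf), and `Y = 0` (`y = 0` in StTf). Otherwise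
`x = e 1 (lft l (one1 k))`, of degree `2 + 2 = 4`, `Y = w l * sh 2 (v k)` (StPd (1),
`∑ one1 k k' • v k' = v k`); `z = v k ∈ ZR 2 N`, `z' = w l ∈ ZR 2 M`. If `q 2 5 X ∈ BR`, then
`W.c 2 l m = 0` for all `m`, so `q 2 2 (w l) ∈ BR 4 (2 M)` (`c_w`), and `q 2 2 (v k) ∈ BR 4 (2 N)`:
this is `Kb` with `T = N`, `T' = M`. -/
def StT4 : Prop := ∀ q, Ops q → ∀ (n : ℕ) (N M : ℤ) (V W : Sys) (v : V.I → RR Empty)
  (w : W.I → RR Empty), 7 ≤ n → 0 < N → 0 < M → (¬ ∃ b : ℕ, N = 2 ^ b) →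
  (¬ ∃ b : ℕ, M = 2 ^ b) → V.Ok → W.Ok → BQ q n N V v → BQ q n M W w → KU n N M W w →
  (∀ v, 2 ≤ V.d v) → (∀ l, 2 ≤ W.d l) → Inj2 V → Inj2 W → One2 V → One2 W →
  (∀ y, V.e 1 (V.e 1 y) = 0) → (∀ b, W.e 1 (W.e 1 b) = 0) → Five q (N + M)

/-- T5 (two powers of two above a cluster which is not a power of two; uses StTn, StOk, StTb, StTf,
StEx, StA5, StA6). `U = Sys.ten V W` is a product of type `(2, 1)` (`TP.cl`); `5 < 3 * 2 + 2 * 1`, so
StEx gives `y` of degree four with `e 1 y = x`: the first claim of `Five` by StTf. If `q 2 5 X ∈ BR`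
then `e 2 x = 0`, `x = 0` by StA5 (hypotheses for `V`: StA6), `X ∈ BR`. -/
def StT5 : Prop := ∀ q, Ops q → ∀ (n : ℕ) (N M : ℤ) (V W : Sys) (v : V.I → RR Empty)
  (w : W.I → RR Empty), 7 ≤ n → TP Sys.Z1 2 0 V → W.Z1 → W.Cl → Inj2 W → BQ q n N V v →
  BQ q n M W w → KU n N M W w → Five q (N + M)

/-- T6 (many clusters; uses StOk, StTf, StEx, StLw). StEx (`5 < 3 c + 2 m`) and StTf give the first
claim; if `q 2 5 X ∈ BR` then `e 2 x = 0`, and StLw with `e`, `k = 2` (`c + 2 m + e = 5`,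
`i = 0, 1`) gives `x = 0`. -/
def StT6 : Prop := ∀ q, Ops q → ∀ (n : ℕ) (T : ℤ) (U : Sys) (u : U.I → RR Empty) (c m e : ℕ),
  7 ≤ n → TP Sys.Z1 c m U → BQ q n T U u → c + 2 * m + e = 5 → 2 * e + 1 ≤ c → e ≤ 2 →
  Five q T

/-- C5 (chains; uses StFa, StLe, StCl, StCh, StOk, StZz, StPP, StZ2, StTp, StA6, StT1, …, StT6). Let
`n = 7`. `J1`, `L1` from StFa, `J2` from StPP, `J3`, `L3` from StCh for the property `Pr` (hypothesis:
StPP); `J = J1 + J2 + J3 + 2`, `L = L1 + L3`. `Ch` is monotone: `Ch L' c m t` with `L ≤ L'` gives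
`Ch L3 c m t` (induction, see `Ch_mono` in `FL/Four.lean`). For every `x > 0` let `W`, `w` be the
basis of StFa for `M = 2 ^ b x`, as `get` in `TwT/I_Ch.lean`: `W.Ok`, `W.Tr n`, `Pr W`, `BQ`, `KU`
for suitable `N`, for `x = 2 ^ a` `W.Let l0 m0` with `w l0 = ha (b + a)` (StLe), otherwise `W.Cl`
(StCl), and then `Inj2 W`, `One2 W`.
Let `c + m = 2`. By cases on the chain, `t = t' + M` with `0 < M < 2 ^ a`, `2 ^ (a + L1) ∣ t'`
(compare `TwoCh`, `FL/TwoCh.lean`), where `t'` (a chain with one cluster) and `M` are powers of two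
or not; take the bases for `t'` and `M`: StT1 if only `M` is a power of two, StT2 if only `t'` is
one, StT3 if both are, StT4 if none is.
Let `c + m ≥ 3`. If `2 e + 1 ≤ c` with `e = 5 - c - 2 m` (this is the case if `c + m ≥ 4`, and if
`c = 1`, `m = 2`), use StCh (`TP Pr c m U`, hence `TP Sys.Z1 c m U` by StTp) and StT6. Otherwise
`(c, m)` is `(3, 0)` or `(2, 1)`; by cases `t = t' + M` as above, where `t'` is a chain of type
`(c', m')` with `c' + m' = 2`; take `V`, `v` from StCh for `t'` and `W`, `w` for `M`. If `M` is a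
power of two: StT1 (hypotheses for `V`: StOk, StA6, StZz). If it is not, `(c', m') = (2, 0)`:
StT5. (`(c', m') = (1, 1)` with `M` not a power of two is the type `(1, 2)` above.) -/
def StC5 : Prop := FL.TwoInj → FL.TwoSpan → FL.S_Comm → ∀ q, Ops q → ∃ J L : ℕ, ∀ b : ℕ, J ≤ b →
  ∀ L' : ℕ, L ≤ L' → ∀ c m t : ℕ, Ch L' c m t → 2 ≤ c + m → c + 2 * m ≤ 5 →
    Five q ((2 ^ b * t : ℕ) : ℤ)

/-- D5 (all degrees; uses StHf, StC5). As the proof of StFi (`TwT/I_Fi.lean`): `J1`, `L` from StC5,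
`U'` from `degrees 5 _ L`, `U = 5 * U' + U'`, `J0 = J1`. Let `J ≥ J1`. If `dm 5 (2 ^ J * t) = 0` then
every `X ∈ ZR 5` is in `BR 5` (`exists_th`, `dm_zero_iff`, `th_mem_BR`), and `Five` holds (first
claim: `Y = 0`, `X ^ 2 ∈ BR` by `sq_BR`). Otherwise `c + m + e' = 5`, `m ≤ e'`,
`Clus U' (c + m) (2 ^ J t)`, `Ch L c m (2 ^ J t)`; by StHf (1) `Ch L c m (2 ^ (J - J1) t)`, so
`Five q (2 ^ J1 * (2 ^ (J - J1) t))` if `2 ≤ c + m`. If `c + m ≤ 1`, then by StHf (2)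
`Few (5 * U' + U') 1 t` (monotone), i.e. `t = 2 ^ a u` with `u ≤ U`, excluded. -/
def StD5 : Prop := FL.TwoInj → FL.TwoSpan → FL.S_Comm → ∀ q, Ops q → ∃ U J0 : ℕ, ∀ t : ℕ,
  (∀ a u : ℕ, u ≤ U → t ≠ 2 ^ a * u) → ∀ J, J0 ≤ J → Five q ((2 ^ J * t : ℕ) : ℤ)

end

end Pool.Agent.Work.MP_701abf_gt.F5
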