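import Pool.Agent.Work.MP_701abf_gt.FL.TwoAll

/-!
# The 3-line in the degrees `2 ^ c`

The aim is `StTP`: `Ext^{3, 2 ^ c} = 0` for `c ≥ 3`. Every part is a proposition `StX`; a file
`F5/I_X.lean` proves `theorem pr_X : StX` (the parts which are used are hypotheses inside `StX`).

Notions: `ZR`, `BR` (`Sq2/RZ.lean`), `ha`, `bb` (`FL/Defs.lean`), `CW q n m`, `dc` (`FL/TwoDefs.lean`:
cochains with `n - 1` group variables, with coefficients in the `q`-th symmetric power of `W`,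
weight `m`), `gW none i` is the basis element `w_i` of `W`, of weight `2 ^ i`; `jO` is the embedding
of `RR Empty` in `RR (Option Empty)`, `rO` its retraction (`Stab/Rec.lean`: `jO_rO`, `rO_jO`,
`jO_lev`, `rO_lev`, `jO_gr`, `rO_gr`, `jO_d`); `hs Empty 0 m` is the structure of `Stab/Hsd.lean`,
with the lemmas of `Stab/HS.lean`. For `ι = Empty` all weights and differentials of `RR Empty`
agree (`wE_eq`, `dE_eq`, `Stab/Kun.lean`).

Models: `FL/Coef.lean`, `FL/SqCob.lean`, `FL/MonA.lean`, `FL/MonB.lean`,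
`FL/Sur.lean`, `FL/SymEx.lean`, `FL/SymCob.lean`, `FL/Alg.lean`.
-/

open MvPolynomial
open Pool.Agent.Work.MP_701abf_gt.Stab Pool.Agent.Work.MP_701abf_gt.Cob
open Pool.Agent.Work.MP_701abf_gt.Sq2 Pool.Agent.Work.MP_701abf_gt.Sq2.FL

namespace Pool.Agent.Work.MP_701abf_gt.F5

noncomputable section

/-- The polynomials in which only the coefficient variables `w_i`, `i < r`, occur. -/
def SpW (r : ℕ) : Subalgebra (ZMod 2) (RR (Option Empty)) :=
  MvPolynomial.supported (ZMod 2)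
    {v : (ℕ × ℕ) ⊕ (Option Empty × ℕ) | ∀ p : Option Empty × ℕ, v = Sum.inr p → p.2 < r}

/-- The derivative in `w_r`. -/
def dW (r : ℕ) : RR (Option Empty) → RR (Option Empty) := fun y => pderiv (Sum.inr (none, r)) y

/-- The first cohomology of `W` (this is `tHW` below). -/
def StHW : Prop := ∀ M : ℤ, ∀ y ∈ CW 1 2 M, dc 2 y = 0 → (∃ e ∈ CW 1 1 M, dc 1 e = y) ∨
  ∃ d : ℕ, 1 ≤ d ∧ M = 2 ^ d + 1 ∧ y = X (Sum.inl (0, 0)) ^ 2 ^ d * gW none 0

theorem tHW : StHW :=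
  pr_HW pr_Coef pr_Cwb (pr_Alg pr_Top pr_Cwb pr_Mas two_nv)

/-- Faces and the top derivative.

Proof. Both claims for all `F` in the subalgebra `SpW (r + 1)`, which is generated by its variables
(`supported_eq_adjoin_X`, `Algebra.adjoin_induction`; or prove that the set of `F` in `SpW (r + 1)`
with both properties is closed under sums and products, `Derivation.leibniz`, and use
`MvPolynomial.induction_on` on the monomials of `F`). For a group variable,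
`face j (X (inl (a, i))) = (fg j gG a).co (i + 1)` (`face_inl`) is a polynomial in the group
variables, so it is in `SpW 0` and all its derivatives in `w` are `0`. For `w_i`, `i ≤ r`, and
`j ≥ 1`, `face j w_i = w_i`; for `j = 0` it is `act 0 (gG 0) w i = ∑ (gG 0).co a ^ 2 ^ b * w_b` over
`a + b = i` (`act_apply`), which is in `SpW (r + 1)`; its derivative in `w_r` is
`(gG 0).co 0 ^ 2 ^ r = 1` if `i = r` and `0` if `i < r`, as for `w_i` itself. The third claim: the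
variables of a polynomial are finitely many. The fourth is `supported_mono`. -/
def StFc3 : Prop :=
  (∀ (r j : ℕ) (F : RR (Option Empty)), F ∈ SpW (r + 1) →
    face (fun _ : Option Empty => 0) j F ∈ SpW (r + 1) ∧
    dW r (face (fun _ : Option Empty => 0) j F) = face (fun _ : Option Empty => 0) j (dW r F)) ∧
  (∀ F : RR (Option Empty), ∃ r, F ∈ SpW r) ∧
  (∀ (r r' : ℕ) (F : RR (Option Empty)), r ≤ r' → F ∈ SpW r → F ∈ SpW r') ∧
  (∀ (r : ℕ) (f : RR Empty), jO f ∈ SpW 0 ∧ dW r (jO f) = 0)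

/-- The top row of a cochain with values in the symmetric square.

Proof. Let `y' = dW r y`. It is in `CW 1 2 (M - 2 ^ r)` (the derivative lowers the weight by that of
`w_r`, which is `((0, 1), 2 ^ r)`, and does not change the level; compare the support of `pderiv`).
By `StFc3` `dc 2 y' = dW r (dc 2 y) = 0`. Moreover `y'` is in `SpW r`: `y` is in `SpW (r + 1)`, and a
monomial `d` of `y` contains exactly two variables `w` (with multiplicity); if `d` contains `w_r`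
once, then `d` without it is in `SpW r`; if it contains `w_r` twice, the derivative is `2 = 0`.
By `StHW` there are two cases. (a) `y' = dc 1 e`, `e` in `CW 1 1 (M - 2 ^ r)`; by `pr_MonA`
(`c0 = (0, 1)`) `e = 0`, so `y' = 0`, or `e = w_b` with `M - 2 ^ r = 2 ^ b`. If `b = 0` then
`dc 1 e = 0`. If `b ≥ 1` then `dc 1 w_b = ∑ i < b, (gG 0).co (b - i) ^ 2 ^ i * w_i`; its derivative
in `w_(b - 1)` is `(gG 0).co 1 ^ 2 ^ (b - 1) ≠ 0`, and as `y'` is in `SpW r` this gives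
`b - 1 < r`. (b) `y' = X (inl (0, 0)) ^ 2 ^ b * w_0`, `b ≥ 1`, `M - 2 ^ r = 2 ^ b + 1`; it is not
`0` and involves `w_0`, so `0 < r`. -/
def StTr3 : Prop := StFc3 → ∀ (M : ℤ) (r : ℕ) (y : RR (Option Empty)), y ∈ CW 2 2 M →
  y ∈ SpW (r + 1) → dW r (dc 2 y) = 0 → dW r y = 0 ∨
  (∃ b : ℕ, 1 ≤ b ∧ b ≤ r ∧ M = 2 ^ b + 2 ^ r) ∨
  ∃ b : ℕ, 1 ≤ b ∧ 1 ≤ r ∧ M = 2 ^ b + 2 ^ r + 1 ∧
    dW r y = X (Sum.inl (0, 0)) ^ 2 ^ b * gW none 0

/-- Splitting off the square of the top variable.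

Proof. (1) Let `coeff d y ≠ 0`. The class of the weight of `d` is `(0, 2)`, so `d` contains exactly
two variables `w` (with multiplicity), with indices `≤ r`. If `w_r` occurs exactly once in `d`,
then the coefficient of `dW r y` at `d` minus this variable is `coeff d y ≠ 0`, contradiction. So
`w_r` occurs twice, and then `d` is `w_r ^ 2` times a monomial in the group variables, or not at
all. Let `A` be the sum of the monomials of the first kind divided by `w_r ^ 2` and `z` the sum of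
the others; `A` has weight `((0, 0), M - 2 ^ (r + 1))` and level 2, so `A = jO u` with `u = rO A`
(`jO_rO`). (2) A polynomial in `SpW 0` has class `(0, 0)`, so if its class is `(0, 2)` it is `0`. -/
def StDc3 : Prop :=
  (∀ (M : ℤ) (r : ℕ) (y : RR (Option Empty)), y ∈ CW 2 2 M → y ∈ SpW (r + 1) → dW r y = 0 →
    ∃ u ∈ lev Empty 2, WH wE u (0, M - 2 ^ (r + 1)) ∧ ∃ z ∈ CW 2 2 M, z ∈ SpW r ∧
      y = jO u * gW none r ^ 2 + z) ∧
  ∀ (M : ℤ) (y : RR (Option Empty)), y ∈ CW 2 2 M → y ∈ SpW 0 → y = 0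

/-- Extraction of coefficients.

Proof. Let `ρ` be the algebra map which fixes the group variables and `w_r` and maps the other `w_i`
to `0`. `face j (jO u) = jO (face j u)`. (1) Apply `ρ` to
`0 = ∑ j ≤ 2, face j (jO u * w_r ^ 2 + z)`. `face 0 w_r = ∑ a + b = r, (gG 0).co a ^ 2 ^ b * w_b`
goes to `w_r`; `face j w_r = w_r` for `j ≥ 1`. The term `z` is a sum of monomials of class
`(0, 2)` in the group variables and the `w_i`, `i < r`, whose faces only involve `w_i` with `i < r`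
and are killed by `ρ` (or: `z = ∑ z_i * w_i` with `i < r`). So `jO (dE 2 u) * w_r ^ 2 = 0`, and
`dE 2 u = 0` (`jO` is injective by `rO_jO`). (2) The same, with `ρ (face 0 (w_(r+1))) =
(gG 0).co 1 ^ 2 ^ r * w_r`, whose square is `jO (ha (r + 1)) * w_r ^ 2` as
`(gG 0).co 1 = X (inl (0, 0))`, and `ρ (face j w_(r+1)) = 0` for `j ≥ 1`:
`jO (sh 1 u) * jO (ha (r + 1)) + jO (dE 2 v) = 0`. -/
def StXt3 : Prop :=
  (∀ (M : ℤ) (r : ℕ) (u : RR Empty) (z : RR (Option Empty)), z ∈ CW 2 2 M → z ∈ SpW r →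
    dc 2 (jO u * gW none r ^ 2 + z) = 0 → dE 2 u = 0) ∧
  ∀ (M : ℤ) (r : ℕ) (u v : RR Empty) (z : RR (Option Empty)), z ∈ CW 2 2 M → z ∈ SpW r →
    dc 2 (jO u * gW none (r + 1) ^ 2 + (jO v * gW none r ^ 2 + z)) = 0 →
    dE 2 v = ha (r + 1) * sh 1 u

/-- The 1-line in all degrees.

Proof. If `M > 0`: `ZR_one'`, `ZR_one`. If `M = 0`, `u` is a constant (`wh_const`), and
`dE 2 (C c) = C c` (three faces), so `u = 0`. If `M < 0`, `u = 0` (`wh_neg`). See `FL/Top.lean`. -/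
def StUc3 : Prop := ∀ (M : ℤ) (u : RR Empty), u ∈ ZR 1 M → u = 0 ∨ ∃ b : ℕ, M = 2 ^ b ∧ u = ha b

/-- The cocycles in weight `2 ^ c + 1`.

Proof. `y` is in `SpW R` for some `R` (`StFc3`). Claim: if `r ≥ c` and `y` is in `SpW (r + 1)`,
then `y` is in `SpW r`. By `StTr3` `dW r y = 0`: in the second case `2 ^ c + 1 = 2 ^ b + 2 ^ r` is
even, in the third `2 ^ c = 2 ^ b + 2 ^ r > 2 ^ c`. By `StDc3` `y = jO u * w_r ^ 2 + z`; by `StXt3`
`dE 2 u = 0`, `u` is in `ZR 1 (2 ^ c + 1 - 2 ^ (r + 1))`, and this number is `≤ 1 - 2 ^ c < 0`, so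
`u = 0` by `StUc3`. So `y` is in `SpW c`. Now `r = c - 1`. If `dW r y ≠ 0`, then by `StTr3` we are in
the third case, `2 ^ c = 2 ^ b + 2 ^ r`, `b = r = c - 1 ≥ 1` and
`dW r y = X (inl (0, 0)) ^ 2 ^ (c - 1) * w_0`. Take `e = w_0 * w_c` in `CW 2 1 (2 ^ c + 1)`;
`dc 1 e = w_0 * ∑ i < c, (gG 0).co (c - i) ^ 2 ^ i * w_i` (see `FL/Cwb.lean`; `w_0` is fixed by
`face 0`), which is in `SpW c`, with the same derivative `dW (c - 1)`. Otherwise `e = 0`. Then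
`y + dc 1 e` is in `SpW c`, is killed by `dc 2` and by `dW (c - 1)`: `StDc3` gives `u`, `z`, with
`u` in `ZR 1 1` by `StXt3`, so `u = 0` or `u = ha 0` (`StUc3`, `1 = 2 ^ b` only for `b = 0`). -/
def StKl3 : Prop := StFc3 → StTr3 → StDc3 → StXt3 → StUc3 → ∀ c : ℕ, 1 ≤ c →
  ∀ y ∈ CW 2 2 (2 ^ c + 1), dc 2 y = 0 → ∃ e ∈ CW 2 1 (2 ^ c + 1),
    ∃ u : RR Empty, (u = 0 ∨ u = ha 0) ∧ ∃ z ∈ CW 2 2 (2 ^ c + 1), z ∈ SpW (c - 1) ∧
      y + dc 1 e = jO u * gW none (c - 1) ^ 2 + z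

/-- Small cocycles vanish.

Proof. Claim: if `r + 1 ≤ c - 1` and `y` is in `SpW (r + 1)` with `dc 2 y = 0`, then `y` is in
`SpW r`. By `StTr3` `dW r y = 0`: the second case is excluded by parity, in the third
`2 ^ c = 2 ^ b + 2 ^ r` and `r = c - 1`. By `StDc3`, `StXt3` `y = jO u * w_r ^ 2 + z` with `u` in
`ZR 1 (2 ^ c + 1 - 2 ^ (r + 1))`; this number is odd and `≥ 2 ^ (c - 1) + 1 > 1`, not a power of
two, so `u = 0` (`StUc3`). After `c - 1` steps `y` is in `SpW 0`, and `y = 0` by `StDc3`. -/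
def StKz3 : Prop := StFc3 → StTr3 → StDc3 → StXt3 → StUc3 → ∀ c : ℕ, 1 ≤ c →
  ∀ y ∈ CW 2 2 (2 ^ c + 1), y ∈ SpW (c - 1) → dc 2 y = 0 → y = 0

/-- `H^1` of the symmetric square in weight `2 ^ c + 1`, `c ≥ 3`.

Proof. Take `e`, `u`, `z` from `StKl3`. If `u = 0`, then `z = y + dc 1 e` is killed by `dc 2`
(`dR_dR'`), so `z = 0` by `StKz3` and `y = dc 1 e`. Let `u = ha 0`. `dc 2 z =
dc 2 (jO u * w_(c-1) ^ 2)`, and `dW (c - 2)` of it is `0`: every face is `jO (face j u)` times a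
square, and the derivative of a square and of `jO f` is `0` (`StFc3`). So `StTr3` applies to `z` with
`r = c - 2` and gives `dW (c - 2) z = 0` (parity excludes the second case, `2 ^ c = 2 ^ b + 2 ^ r`
the third). By `StDc3` `z = jO v * w_(c-2) ^ 2 + z'`, with `v` in `lev 2` of weight
`2 ^ c + 1 - 2 ^ (c - 1) = 2 ^ (c - 1) + 1`, and `StXt3` (2), `r = c - 2`, gives
`dE 2 v = ha (c - 1) * sh 1 (ha 0)`. So this product is in `BR 2 (2 ^ (c - 1) + 2 ^ 0)`, and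
`two_nv (c - 1) 0` gives `c = 2` or `0 = c`, contradiction. -/
def StHc3 : Prop := StFc3 → StTr3 → StDc3 → StXt3 →
  (∀ c : ℕ, 1 ≤ c → ∀ y ∈ CW 2 2 (2 ^ c + 1), dc 2 y = 0 → ∃ e ∈ CW 2 1 (2 ^ c + 1),
    ∃ u : RR Empty, (u = 0 ∨ u = ha 0) ∧ ∃ z ∈ CW 2 2 (2 ^ c + 1), z ∈ SpW (c - 1) ∧
      y + dc 1 e = jO u * gW none (c - 1) ^ 2 + z) →
  (∀ c : ℕ, 1 ≤ c → ∀ y ∈ CW 2 2 (2 ^ c + 1), y ∈ SpW (c - 1) → dc 2 y = 0 → y = 0) →
  ∀ c : ℕ, 3 ≤ c → ∀ y ∈ CW 2 2 (2 ^ c + 1), dc 2 y = 0 → ∃ e ∈ CW 2 1 (2 ^ c + 1), dc 1 e = y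

/-- `H^1` of the symmetric square in the weights 2 and 3, and two cocycles in weight 5.

Proof. (3) `c = 1`: take `e`, `u`, `z` from the first hypothesis; `z` is in `SpW 0`, so `z = 0`
(`StDc3`). If `u = 0`, `y = dc 1 e`. If `u = ha 0`, then `ha 0 * w_0 ^ 2 = dc 1 (w_0 * w_1)`, as
`dc 1 (w_0 * w_1) = w_0 * (w_1 + X (inl (0, 0)) * w_0) + w_0 * w_1` (`jO (ha 0) =
X (inl (0, 0))`), so `y = dc 1 (e + w_0 * w_1)`. (2) `y` is in `SpW R`; if `y` is in `SpW (r + 1)`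
then it is in `SpW r`: by `StTr3` `dW r y = 0` (`2 = 2 ^ b + 2 ^ r` with `b, r ≥ 1` is impossible,
`2 = 2 ^ b + 2 ^ r + 1` too), and in `StDc3` `u` is in `ZR 1 (2 - 2 ^ (r + 1))`, a number `≤ 0`, so
`u = 0` by `StXt3`, `StUc3`. So `y = 0`. (5) Apply the first hypothesis with `c = 2` to `y` and
`y'`. If one of the `u` is `0`, then the corresponding `z` is `0` by the second hypothesis, and the
cocycle is a coboundary. If both are `ha 0`, then for `y + y'` they cancel, `z + z'` is a cocycle in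
`SpW 1`, so it is `0`, and `y + y' = dc 1 (e + e')`. -/
def StHs3 : Prop := StFc3 → StTr3 → StDc3 → StXt3 → StUc3 →
  (∀ c : ℕ, 1 ≤ c → ∀ y ∈ CW 2 2 (2 ^ c + 1), dc 2 y = 0 → ∃ e ∈ CW 2 1 (2 ^ c + 1),
    ∃ u : RR Empty, (u = 0 ∨ u = ha 0) ∧ ∃ z ∈ CW 2 2 (2 ^ c + 1), z ∈ SpW (c - 1) ∧
      y + dc 1 e = jO u * gW none (c - 1) ^ 2 + z) →
  (∀ c : ℕ, 1 ≤ c → ∀ y ∈ CW 2 2 (2 ^ c + 1), y ∈ SpW (c - 1) → dc 2 y = 0 → y = 0) →
  (∀ y ∈ CW 2 2 2, dc 2 y = 0 → ∃ e ∈ CW 2 1 2, dc 1 e = y) ∧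
  (∀ y ∈ CW 2 2 3, dc 2 y = 0 → ∃ e ∈ CW 2 1 3, dc 1 e = y) ∧
  ∀ y ∈ CW 2 2 5, dc 2 y = 0 → ∀ y' ∈ CW 2 2 5, dc 2 y' = 0 →
    ∃ e ∈ CW 2 1 5, dc 1 e = y ∨ dc 1 e = y' ∨ dc 1 e = y + y'

/-- Surjectivity of `Sq^0` on the 3-line.

Proof. `edge_surj` with `p = 3`, `k = 0`, `m = 2 N`, `m' = N`. For `q = 1` and `q = 3` the
hypothesis is vacuous by parity (`2 m' - q = 2 N`). For `q = 2` `m' = N + 1`, and exactness of
`cx (fun _ : Option Empty => (1, 0)) (fun _ => 0) ((0 + 2, 0), N + 1)` in degree `1` is the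
hypothesis, after the exchange of the two components of the class: for `Option Empty` the weights
`wt (fun _ => (1, 0)) τ` and `wt cO τ` (`cO none = (0, 1)`) differ by the additive isomorphism
`((a, b), m) ↦ ((b, a), m)` (`wh_comp`, `wh_of_comp`, or compare the weights of the monomials).
The model is `FL/Sur.lean`. -/
def StSj3 : Prop := ∀ N : ℤ,
  (∀ y ∈ CW 2 2 (N + 1), dc 2 y = 0 → ∃ e ∈ CW 2 1 (N + 1), dc 1 e = y) → Surj0 3 N

/-- The symbol of a 3-cochain `F` in the symmetric square: `D F = δ x1`, `D x1 = δ (T y)`. -/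
def Sb3 (N : ℤ) (F : RR Empty) (y : RR (Option Empty)) : Prop :=
  ∃ x1 ∈ (hs Empty 0 (2 * N)).gr 1 3, DQ (EQ F) = dQ 3 x1 ∧ DQ x1 = dQ 2 (TQ y)

/-- Existence and additivity of the symbol.

Proof. Let `S = hs Empty 0 (2 N)` and `X = EQ F`, in `S.gr 0 4` (`EQ_lev`, `EQ_gr`). `δ_4 X =
EQ (P ^ 2)` (`EQ_d`), and `DQ` of a square is `0`, so `δ_4 (D X) = 0`. By `col`, `D X = δ_3 x1`,
`x1` in `gr 1 3`; `δ_3 (D x1) = D D X = 0`, so `D x1 = δ_2 x2`, `x2` in `gr 2 2`;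
`δ_2 (D x2) = 0`, so `D x2 = δ_1 x3`, `x3` in `gr 3 1`; `δ_1 (D x3) = 0`, so `D x3` is `δ_0` of an
element of `gr 4 0 = 0`, `D x3 = 0`. By `poin` `x3 = T y3 + D v3` with `y3` in `grC 3 1`, `v3` in
`gr 2 1`; `y3 = 0`, as its weight `((0, 3), 2 N)` is not in the image of `fT` (`wtT_none`, parity).
So `D (x2 + δ_1 v3) = 0`, and by `poin` `x2 + δ_1 v3 = T y + D v2`, `y` in `grC 2 2`, `v2` in
`gr 1 2`. `δ_2 (T y) = δ_2 x2 + δ_2 (D v2) = D (x1 + δ_2 v2)`, so with `x1 + δ_2 v2` in place of `x1`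
this is `Sb3 N F y`. By `comp` `δ_2 (T y) = T (dC y) + D v'`, so `T (dC y)` is in the image of `D`
and `dC y = 0` by `inj`. The weight: `wtT_iff` with `fT ((0, 2), N + 1) = ((0, 2), 2 N)`.
Additivity: all maps are additive. -/
def StSe3 : Prop :=
  (∀ (N : ℤ) (F : RR Empty), F ∈ lev Empty 4 → WH wE F (0, 2 * N) →
    (∃ P ∈ lev Empty 5, WH wE P (0, N) ∧ dE 4 F = P ^ 2) →
    ∃ y ∈ CW 2 2 (N + 1), dc 2 y = 0 ∧ Sb3 N F y) ∧
  ∀ (N : ℤ) (F F' : RR Empty) (y y' : RR (Option Empty)), Sb3 N F y → Sb3 N F' y' →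
    Sb3 N (F + F') (y + y')

/-- A cochain whose symbol is a coboundary.

Proof. `S = hs Empty 0 (2 N)`, `y = dC e`, `e` in `grC 2 1` (`wtT_iff`). By `comp`
`δ_1 (T e) = T y + D v`, `v` in `gr 1 2`; so `δ_2 (T y) = δ_2 (D v) = D (δ_2 v)`, and
`D (x1 + δ_2 v) = 0`. By `poin` `x1 + δ_2 v = T y1 + D v1`, `y1` in `grC 1 3`, `v1` in `gr 0 3`, and
`y1 = 0` since the weight `((0, 1), 2 N)` is not in the image of `fT`. So
`D X = δ_3 x1 = δ_3 (x1 + δ_2 v) = δ_3 (D v1) = D (δ_3 v1)`, `D (X + δ_3 v1) = 0`, and by `poin`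
`X + δ_3 v1 = T y0'` with `y0'` in `grC 0 4` (`gr (-1) 4 = 0`). Put `y0 = rO y0'`, `G = EQ' v1`:
`T y0' = T (jO y0) = EQ (y0 ^ 2)` (`jO_rO`, `EQ_infl`, `infl_empty`), and apply `EQ'` (`EQ'_EQ`,
`EQ'_d`, `EQ'_lev`, `EQ'_gr`). See the proof of `edge_surj` in `Stab/Rec.lean`. -/
def StSz3 : Prop := ∀ (N : ℤ) (F : RR Empty), F ∈ lev Empty 4 → WH wE F (0, 2 * N) →
  ∀ e ∈ CW 2 1 (N + 1), Sb3 N F (dc 1 e) →
    ∃ y0 ∈ lev Empty 4, WH wE y0 (0, N) ∧ ∃ G ∈ lev Empty 3, WH wE G (0, 2 * N) ∧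
      F = y0 ^ 2 + dE 3 G

/-- The cocycle `[h_0 | h_0 | h_0 | h_0]`. -/
def h04 : RR Empty := bb 0 * sh 2 (bb 0)

/-- `h_1 ^ 4 = 0`.

Proof. `h04 ^ 2 = bb 1 * sh 2 (bb 1)`, as `ha 0 ^ 2 = ha 1` and `sh` is a ring map. By `cons1 0`
`ha 0 * sh 1 (ha 0 ^ 2)` is in `BR 2 3`, so `dl 2` of it is in `BR 3 6` (`dl_BR`), and by `dl_mul`
(with `i = j = 1`, `dl_one`) this is, modulo `BR 3 6`,
`h_1 h_1 ^ 2 + h_0 ^ 2 h_2` (or the same in the other order, depending on the convention of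
`dl_mul`; then use `cons2`, `cons1` accordingly). Multiply by `h_1` on the right
(`mul_BR_left`): `h_1 ^ 4` is congruent to `h_0 ^ 2 h_2 h_1`, and `h_2 h_1` is in `BR 2 6`
(`cons2 1`: `ha 1 ^ 2 * sh 1 (ha 1)`, or `cons1 1` for the other order), so the product with
`h_0 ^ 2` is in `BR` (`mul_BR_right`). -/
def StP13 : Prop := h04 ^ 2 ∈ BR 4 8

/-- `h_0 ^ 4` is not `0`.

Proof. Let `h04 = dE 4 G`, `G` in `lev 4`, of weight `4`. Let `S` be a commutative algebra over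
`ZMod 2` with elements `ε_0, …, ε_3`, `ε_i ^ 2 = 0`, and a linear map `∫ : S → ZMod 2` which is `1`
on `ε_0 ε_1 ε_2 ε_3` and `0` on every product of powers of three or fewer elements of the form
`ε_i`, `ε_i + ε_(i+1)` obtained from `(ε_1, ε_2, ε_3)`, `(ε_0 + ε_1, ε_2, ε_3)`,
`(ε_0, ε_1 + ε_2, ε_3)`, `(ε_0, ε_1, ε_2 + ε_3)`, `(ε_0, ε_1, ε_2)`: for example `S` the quotient of
`MvPolynomial (Fin 4) (ZMod 2)` by the squares of the variables, or four times `DualNumber`, and `∫`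
the coefficient of `ε_0 ε_1 ε_2 ε_3`. (A product of powers of three elements is `0` if an exponent
is `≥ 2`, as all these elements have square `0`, and otherwise it is one of eight products; the
product of all three of `ε_0 + ε_1, ε_2, ε_3` is `ε_0 ε_2 ε_3 + ε_1 ε_2 ε_3`, without the top
term.) Let `g_i` be the point `Cob.dl 1 ε_i` (only the first coordinate is not `0`) for `i < 4`, and
`1` for `i ≥ 4`. Then `g_(i+1) * g_i = Cob.dl 1 (ε_i + ε_(i+1))`, as the higher coordinates of the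
product are products of squares (`ε_i ^ 2 = 0`). By `ev_face_apply` the value of `face j G` at
`(g_0, g_1, g_2, g_3)` is the value of `G` at one of the five triples above, which is a polynomial
in three such elements, so its integral is `0`. But `h04 = A_0 A_1 A_2 A_3` (the first coordinates
of the slots `0, …, 3`), with value `ε_0 ε_1 ε_2 ε_3` and integral `1`. Contradiction. -/
def StP03 : Prop := h04 ∉ BR 4 4

/-- `Ext^{3, 1} = 0`.

Proof. `x` is in `lev 4` (slots `0, 1, 2`) of weight `1`: the only variables of weight `1` are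
`A_i = X (inl (i, 0))`, so `x = α A_0 + β A_1 + γ A_2`. `face 1 A_0 = A_0 + A_1` etc.; the
coefficient of `A_1` in `dE 4 x` is `β` (the five faces of `x` have the coefficients
`α, α, β, β, β` at `A_1`), so `β = 0`. And `dE 3 (α A_0 + γ A_1)` has the coefficients `3 α`,
`2 α + 2 γ`, `3 γ` at `A_0`, `A_1`, `A_2`, so it is `x`. (Evaluate with points `Cob.dl 1 c_i` in
`ZMod 2` to get `β = 0`, see `FL/DegB.lean`.) -/
def StZ13 : Prop := ∀ x ∈ ZR 3 1, x ∈ BR 3 1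

/-- `Ext^{3, 8} = 0`.

Proof. `Surj0 3 1`, `Surj0 3 2` by `StSj3` and the first two claims on `H^1`. So `Ext^{3, 2} = 0`
and `Ext^{3, 4} = 0`: `x = x' ^ 2 + dE 3 G` with `x'` in `ZR 3 1` (`ZR 3 2`), `x'` in `BR`, and
`x' ^ 2` in `BR` (`sq_BR`). Let `z` be in `ZR 3 8`. By `StP13` there is `E` in `lev 4` of weight `8`
with `dE 4 E = h04 ^ 2`. By `StSe3` (`N = 4`, `P = 0`, `P = h04`; `h04` is in `ZR 4 4`, `mul_ZR`,
`ha_ZR`) there are symbols `y` of `z` and `y'` of `E` in `CW 2 2 5`. By the third claim on `H^1`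
one of `y`, `y'`, `y + y'` is `dc 1 e`. If `y = dc 1 e`: by `StSz3` `z = y0 ^ 2 + dE 3 G`;
`dE 4 z = 0` gives `(dE 4 y0) ^ 2 = 0`, so `y0` is in `ZR 3 4 = BR 3 4` and `z` is in `BR 3 8`. If
`y' = dc 1 e`: `E = y0 ^ 2 + dE 3 G`, so `h04 ^ 2 = (dE 4 y0) ^ 2` and `h04 = dE 4 y0` is in
`BR 4 4`, against `StP03`. If `y + y' = dc 1 e`: the same with `z + E` (`dE 4 (z + E) = h04 ^ 2`). -/
def StE83 : Prop := StSj3 → StSe3 → StSz3 → StP13 → StP03 → StZ13 →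
  ((∀ y ∈ CW 2 2 2, dc 2 y = 0 → ∃ e ∈ CW 2 1 2, dc 1 e = y) ∧
  (∀ y ∈ CW 2 2 3, dc 2 y = 0 → ∃ e ∈ CW 2 1 3, dc 1 e = y) ∧
  ∀ y ∈ CW 2 2 5, dc 2 y = 0 → ∀ y' ∈ CW 2 2 5, dc 2 y' = 0 →
    ∃ e ∈ CW 2 1 5, dc 1 e = y ∨ dc 1 e = y' ∨ dc 1 e = y + y') →
  ∀ z ∈ ZR 3 8, z ∈ BR 3 8

/-- `Ext^{3, 2 ^ c} = 0` for `c ≥ 3`. -/
def StTP : Prop := ∀ c : ℕ, 3 ≤ c → ∀ z ∈ ZR 3 (2 ^ c), z ∈ BR 3 (2 ^ c)

/-- The induction.

Proof. Induction on `c`. For `c = 3` this is the last hypothesis (`2 ^ 3 = 8`). Let `c ≥ 3` and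
`z` in `ZR 3 (2 ^ (c + 1)) = ZR 3 (2 * 2 ^ c)`. By `StSj3` and the first hypothesis
`Surj0 3 (2 ^ c)`, so `z = y ^ 2 + dE 3 G` with `y` in `ZR 3 (2 ^ c)`, `y` in `BR` by induction, and
`z` in `BR` (`sq_BR`). -/
def StTi3 : Prop := StSj3 →
  (∀ c : ℕ, 3 ≤ c → ∀ y ∈ CW 2 2 (2 ^ c + 1), dc 2 y = 0 → ∃ e ∈ CW 2 1 (2 ^ c + 1), dc 1 e = y) →
  (∀ z ∈ ZR 3 8, z ∈ BR 3 8) → StTP

end

end Pool.Agent.Work.MP_701abf_gt.F5
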