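import Pool.Agent.Work.MP_701abf_gt.Stab.HS

/-!
# The 3-line in the degrees `2 ^ b`, part A: a class of the row `q = 2` which supports a differential

Abstract lemma on the comparison data `HSD`.
-/

namespace Pool.Agent.Work.MP_701abf_gt.Stab.HSD

variable {Q C : Type*} [AddCommGroup Q] [Module (ZMod 2) Q]
    [AddCommGroup C] [Module (ZMod 2) C] (S : HSD Q C)

/-- `y` is the symbol (in the row `q = 2`) of the 3-cochain `E`. -/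
def Sy2 (E : Q) (y : C) : Prop := ∃ E1 ∈ S.gr 1 3, S.δ 3 E1 = S.D E ∧ S.D E1 = S.δ 2 (S.T y)

lemma Sy2.add {E E' : Q} {y y' : C} (h : S.Sy2 E y) (h' : S.Sy2 E' y') :
    S.Sy2 (E + E') (y + y') := by
  obtain ⟨a, ha, h1, h2⟩ := h
  obtain ⟨a', ha', h1', h2'⟩ := h'
  exact ⟨a + a', Submodule.add_mem _ ha ha', by rw [map_add, map_add, h1, h1'],
    by rw [map_add, map_add, map_add, h2, h2']⟩

/-- The symbol may be changed by a coboundary. -/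
lemma Sy2.cob {E : Q} {y : C} (h : S.Sy2 E y) {z : C} (hz : z ∈ S.grC 2 1)
    (e : S.dC 1 z = y) : S.Sy2 E 0 := by
  obtain ⟨a, ha, h1, h2⟩ := h
  obtain ⟨v, hv, e1⟩ := S.comp 2 1 z hz
  have hv' : v ∈ S.gr 1 2 := by simpa using hv
  refine ⟨a + S.δ 2 v, Submodule.add_mem _ ha (S.δ_mem 1 2 v hv'), ?_, ?_⟩
  · rw [map_add, S.δδ 1 2 v hv', add_zero, h1]
  · have h3 : S.δ 2 (S.δ 1 (S.T z)) = 0 := S.δδ 2 1 _ (S.T_mem 2 1 z hz)
    rw [e1, map_add, e] at h3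
    rw [map_add, h2, S.Dδ, map_zero, map_zero]
    exact h3

/-- Existence of the symbol. -/
lemma exists_Sy2 (hE : S.ExC 3 0) {E : Q} (hE0 : E ∈ S.gr 0 4) (hd : S.δ 4 (S.D E) = 0) :
    ∃ y ∈ S.grC 2 2, S.dC 2 y = 0 ∧ S.Sy2 E y := by
  obtain ⟨E1, hE1, e1⟩ := S.col 1 3 (S.D E) le_rfl (by simpa using S.D_mem 0 4 E hE0) hd
  obtain ⟨E2, hE2, e2⟩ := S.col 2 2 (S.D E1) (by norm_num)
    (by simpa using S.D_mem 1 3 E1 hE1) (by rw [← S.Dδ, e1, S.DD])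
  obtain ⟨E3, hE3, e3⟩ := S.col 3 1 (S.D E2) (by norm_num)
    (by simpa using S.D_mem 2 2 E2 hE2) (by rw [← S.Dδ, e2, S.DD])
  obtain ⟨E4, hE4, e4⟩ := S.col 4 0 (S.D E3) (by norm_num)
    (by simpa using S.D_mem 3 1 E3 hE3) (by rw [← S.Dδ, e3, S.DD])
  have h3 : S.D E3 = 0 := by
    rw [← e4, S.gr_zero _ _ hE4, map_zero]
  obtain ⟨y3, hy3, v3, hv3, f3⟩ := S.poin 3 1 E3 hE3 h3
  have hv3' : v3 ∈ S.gr 2 1 := by simpa using hv3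
  obtain ⟨w3, hw3, g3⟩ := S.comp 3 1 y3 hy3
  have hw3' : w3 ∈ S.gr 2 2 := by simpa using hw3
  have hy3d : S.dC 1 y3 = 0 := by
    refine S.inj 3 2 _ (E2 + w3 + S.δ 1 v3) (S.dC_mem _ _ _ hy3) ?_ ?_
    · simpa using Submodule.add_mem _ (Submodule.add_mem _ hE2 hw3') (S.δ_mem 2 1 v3 hv3')
    · have h5 : S.D E2 = S.T (S.dC 1 y3) + S.D w3 + S.D (S.δ 1 v3) := by
        rw [← e3, f3, map_add, g3, S.Dδ]
      rw [map_add, map_add, h5]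
      have a1 := add_self2 (S.D w3)
      have a2 := add_self2 (S.D (S.δ 1 v3))
      calc S.T (S.dC 1 y3) = S.T (S.dC 1 y3) + (S.D w3 + S.D w3) +
            (S.D (S.δ 1 v3) + S.D (S.δ 1 v3)) := by rw [a1, a2, add_zero, add_zero]
        _ = _ := by abel
  obtain ⟨z3, hz3, k3⟩ := hE y3 hy3 hy3d
  have hy30 : y3 = 0 := by
    rw [← k3, S.grC_zero _ _ hz3, map_zero]
  rw [hy30, map_zero, zero_add] at f3
  have h6 : S.D (E2 + S.δ 1 v3) = 0 := by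
    rw [map_add, S.Dδ, ← f3, e3, add_self2]
  obtain ⟨y2, hy2, v2, hv2, f2⟩ := S.poin 2 2 _
    (Submodule.add_mem _ hE2 (S.δ_mem 2 1 v3 hv3')) h6
  have hv2' : v2 ∈ S.gr 1 2 := by simpa using hv2
  have h7 : S.δ 2 (S.T y2 + S.D v2) = S.D E1 := by
    rw [← f2, map_add, S.δδ 2 1 v3 hv3', add_zero, e2]
  obtain ⟨w2, hw2, g2⟩ := S.comp 2 2 y2 hy2
  have hw2' : w2 ∈ S.gr 1 3 := by simpa using hw2
  refine ⟨y2, hy2, ?_, E1 + S.δ 2 v2, Submodule.add_mem _ hE1 (S.δ_mem 1 2 v2 hv2'), ?_, ?_⟩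
  · refine S.inj 2 3 _ (E1 + w2 + S.δ 2 v2) (S.dC_mem _ _ _ hy2) ?_ ?_
    · simpa using Submodule.add_mem _ (Submodule.add_mem _ hE1 hw2') (S.δ_mem 1 2 v2 hv2')
    · rw [map_add, map_add, ← h7, map_add, g2, S.Dδ]
      have a1 := add_self2 (S.D w2)
      have a2 := add_self2 (S.δ 2 (S.D v2))
      calc S.T (S.dC 2 y2) = S.T (S.dC 2 y2) + (S.D w2 + S.D w2) +
            (S.δ 2 (S.D v2) + S.δ 2 (S.D v2)) := by rw [a1, a2, add_zero, add_zero]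
        _ = _ := by abel
  · rw [map_add, S.δδ 1 2 v2 hv2', add_zero, e1]
  · rw [map_add, ← h7, map_add, S.Dδ]
    exact add_add_self2 _ _

/-- A cochain with the symbol `0`. -/
lemma Sy2.zero (hE : S.ExC 1 2) {E : Q} (hE0 : E ∈ S.gr 0 4) (h : S.Sy2 E 0) :
    ∃ y ∈ S.grC 0 4, ∃ g ∈ S.gr 0 3, E = S.T y + S.δ 3 g := by
  obtain ⟨E1, hE1, e1, e2⟩ := h
  rw [map_zero, map_zero] at e2
  obtain ⟨y1, hy1, v1, hv1, f1⟩ := S.poin 1 3 E1 hE1 e2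
  have hv1' : v1 ∈ S.gr 0 3 := by simpa using hv1
  obtain ⟨w1, hw1, g1⟩ := S.comp 1 3 y1 hy1
  have hw1' : w1 ∈ S.gr 0 4 := by simpa using hw1
  have hy1d : S.dC 3 y1 = 0 := by
    refine S.inj 1 4 _ (E + w1 + S.δ 3 v1) (S.dC_mem _ _ _ hy1) ?_ ?_
    · simpa using Submodule.add_mem _ (Submodule.add_mem _ hE0 hw1') (S.δ_mem 0 3 v1 hv1')
    · have h5 : S.D E = S.T (S.dC 3 y1) + S.D w1 + S.D (S.δ 3 v1) := by
        rw [← e1, f1, map_add, g1, S.Dδ]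
      rw [map_add, map_add, h5]
      have a1 := add_self2 (S.D w1)
      have a2 := add_self2 (S.D (S.δ 3 v1))
      calc S.T (S.dC 3 y1) = S.T (S.dC 3 y1) + (S.D w1 + S.D w1) +
            (S.D (S.δ 3 v1) + S.D (S.δ 3 v1)) := by rw [a1, a2, add_zero, add_zero]
        _ = _ := by abel
  obtain ⟨z1, hz1, k1⟩ := hE y1 hy1 hy1d
  obtain ⟨u1, hu1, l1⟩ := S.comp 1 2 z1 hz1
  have hu1' : u1 ∈ S.gr 0 3 := by simpa using hu1
  have hg : u1 + v1 ∈ S.gr 0 3 := Submodule.add_mem _ hu1' hv1'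
  have h8 : S.D (E + S.δ 3 (u1 + v1)) = 0 := by
    have h9 : E1 = S.δ 2 (S.T z1) + S.D (u1 + v1) := by
      rw [f1, l1, k1, map_add]
      have a1 := add_self2 (S.D u1)
      calc S.T y1 + S.D v1 = S.T y1 + S.D v1 + (S.D u1 + S.D u1) := by rw [a1, add_zero]
        _ = _ := by abel
    rw [map_add, ← e1, h9, map_add, S.δδ 1 2 _ (S.T_mem 1 2 z1 hz1), zero_add, S.Dδ, add_self2]
  obtain ⟨y, hy, v, hv, f⟩ := S.poin 0 4 _ (Submodule.add_mem _ hE0 (S.δ_mem 0 3 _ hg)) h8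
  have hv0 : v = 0 := S.gr_neg _ _ _ (by omega) hv
  rw [hv0, map_zero, add_zero] at f
  exact ⟨y, hy, u1 + v1, hg, add_eq2 f⟩

/-- If the cocycles of the row `q = 2` form at most one class and this class supports a
differential, then the edge map is surjective. -/
lemma surj2 (h1 : S.ExC 1 2) (h3 : S.ExC 3 0)
    (h2 : ∀ y ∈ S.grC 2 2, S.dC 2 y = 0 → ∀ y' ∈ S.grC 2 2, S.dC 2 y' = 0 →
      (∃ z ∈ S.grC 2 1, S.dC 1 z = y) ∨ (∃ z ∈ S.grC 2 1, S.dC 1 z = y') ∨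
        ∃ z ∈ S.grC 2 1, S.dC 1 z = y + y')
    {E : Q} (hE : E ∈ S.gr 0 4) {z : C} (hz : z ∈ S.grC 0 5) (hδ : S.δ 4 E = S.T z)
    (hn : ¬ ∃ y ∈ S.grC 0 4, S.dC 4 y = z) {X : Q} (hX : X ∈ S.gr 0 4) (hd : S.δ 4 X = 0) :
    ∃ y ∈ S.grC 0 4, S.dC 4 y = 0 ∧ ∃ g ∈ S.gr 0 3, X = S.T y + S.δ 3 g := by
  have key : ∀ {F : Q} {u : C}, S.δ 4 F = S.T u → u ∈ S.grC 0 5 → ∀ y ∈ S.grC 0 4,
      ∀ g ∈ S.gr 0 3, F = S.T y + S.δ 3 g → S.dC 4 y = u := by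
    intro F u hF hu y hy g hg e
    obtain ⟨v, hv, e1⟩ := S.comp 0 4 y hy
    have hv0 : v = 0 := S.gr_neg _ _ _ (by omega) hv
    rw [hv0, map_zero, add_zero] at e1
    rw [e, map_add, S.δδ 0 3 g hg, add_zero, e1] at hF
    have h5 : S.dC 4 y + u = 0 := by
      refine S.inj 0 5 _ 0 (Submodule.add_mem _ (S.dC_mem _ _ _ hy) hu)
        (Submodule.zero_mem _) ?_
      rw [map_add, hF, add_self2, map_zero]
    exact add_eq_zero2.1 h5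
  obtain ⟨yE, hyE, hyEd, sE⟩ := S.exists_Sy2 h3 hE (by rw [← S.Dδ, hδ, S.DT])
  obtain ⟨yX, hyX, hyXd, sX⟩ := S.exists_Sy2 h3 hX (by rw [← S.Dδ, hd, map_zero])
  rcases h2 yX hyX hyXd yE hyE hyEd with ⟨w, hw, e⟩ | ⟨w, hw, e⟩ | ⟨w, hw, e⟩
  · obtain ⟨y, hy, g, hg, e1⟩ := (sX.cob S hw e).zero S h1 hX
    exact ⟨y, hy, key (u := 0) (by rw [hd, map_zero]) (Submodule.zero_mem _) y hy g hg e1,
      g, hg, e1⟩
  · exfalso
    obtain ⟨y, hy, g, hg, e1⟩ := (sE.cob S hw e).zero S h1 hE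
    exact hn ⟨y, hy, key hδ hz y hy g hg e1⟩
  · exfalso
    obtain ⟨y, hy, g, hg, e1⟩ := ((sX.add S sE).cob S hw e).zero S h1
      (Submodule.add_mem _ hX hE)
    exact hn ⟨y, hy, key (by rw [map_add, hd, zero_add, hδ]) hz y hy g hg e1⟩

end Pool.Agent.Work.MP_701abf_gt.Stab.HSD
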