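import Pool.Agent.Work.MP_701abf_gt.FL.TwoAll

/-!
# The 3-line in the degrees `2 ^ b`, part B: 1-cocycles with values in the symmetric square of `W`
-/

open MvPolynomial
open Finset.HasAntidiagonal (antidiagonal mem_antidiagonal)
open Pool.Agent.Work.MP_701abf_gt.Stab Pool.Agent.Work.MP_701abf_gt.Cob
open Pool.Agent.Work.MP_701abf_gt.Sq2 Pool.Agent.Work.MP_701abf_gt.Sq2.FL

namespace Pool.Agent.Work.MP_701abf_gt.F5.XThr

open Pool.Agent.Work.MP_701abf_gt.Sq2.FL.XCoef

noncomputable section

/-- The coefficient of `w_j` in the action on `w_k`. -/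
def cc (j k : ℕ) : RR (Option Empty) := if j ≤ k then (gG 0).co (k - j) ^ 2 ^ j else 0

lemma X_inl (v : ℕ × ℕ) : (X (Sum.inl v) : RR (Option Empty)) = jO (X (Sum.inl v)) :=
  (jO_inl v).symm

lemma face_inl' (j : ℕ) (v : ℕ × ℕ) : face (ι := Option Empty) (fun _ => 0) j (X (Sum.inl v)) =
    jO (face (fun _ => 0) j (X (Sum.inl v))) := by
  rw [X_inl, face_jO]

lemma face_zero_w (k : ℕ) : face (ι := Option Empty) (fun _ => 0) 0 (X (Sum.inr (none, k))) =
    act 0 (gG 0) (gW (none : Option Empty)) k := by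
  have := face_gW (ι := Option Empty) (fun _ => 0) 0 none k
  simpa [fw, gW] using this

lemma face_succ_w (i k : ℕ) :
    face (ι := Option Empty) (fun _ => 0) (i + 1) (X (Sum.inr (none, k))) =
    X (Sum.inr (none, k)) := by
  have := face_gW (ι := Option Empty) (fun _ => 0) (i + 1) none k
  simpa [fw, gW] using this

lemma pw_C (j : ℕ) (a : ZMod 2) : pw j (C a) = 0 := by
  have : (C a : RR (Option Empty)) = algebraMap (ZMod 2) _ a := rfl
  rw [this]
  exact (pw j).map_algebraMap a

/-- The chain rule for the face `0`. -/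
lemma chain0 (j : ℕ) (F : RR (Option Empty)) : ∃ r0 : ℕ, ∀ r, r0 ≤ r →
    pw j (face (fun _ => 0) 0 F) =
      ∑ k ∈ Finset.range r, face (fun _ => 0) 0 (pw k F) * cc j k := by
  induction F using MvPolynomial.induction_on with
  | C a =>
    refine ⟨0, fun r _ => ?_⟩
    have h1 : face (ι := Option Empty) (fun _ => 0) 0 (C a) = C a :=
      (face (ι := Option Empty) (fun _ => 0) 0).commutes a
    rw [h1, pw_C]
    symm
    refine Finset.sum_eq_zero fun k _ => ?_
    rw [pw_C, map_zero, zero_mul]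
  | add p q hp hq =>
    obtain ⟨r1, h1⟩ := hp
    obtain ⟨r2, h2⟩ := hq
    refine ⟨max r1 r2, fun r hr => ?_⟩
    rw [map_add, map_add, h1 r (le_trans (le_max_left _ _) hr),
      h2 r (le_trans (le_max_right _ _) hr), ← Finset.sum_add_distrib]
    refine Finset.sum_congr rfl fun k _ => ?_
    rw [map_add, map_add, add_mul]
  | mul_X p v hp =>
    obtain ⟨r1, h1⟩ := hp
    rcases v with v | ⟨o, i⟩
    · refine ⟨r1, fun r hr => ?_⟩
      rw [map_mul, Derivation.leibniz, h1 r hr, face_inl', pw_jO, smul_zero, zero_add,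
        smul_eq_mul, Finset.mul_sum]
      refine Finset.sum_congr rfl fun k _ => ?_
      rw [Derivation.leibniz, pw_inl, smul_zero, zero_add, smul_eq_mul, map_mul, face_inl',
        mul_assoc]
    · cases o with
      | some e => exact e.elim
      | none =>
        refine ⟨max r1 (i + 1), fun r hr => ?_⟩
        have hr1 := le_trans (le_max_left _ _) hr
        have hr2 := le_trans (le_max_right _ _) hr
        rw [map_mul, Derivation.leibniz, h1 r hr1, face_zero_w, pw_act, smul_eq_mul, smul_eq_mul]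
        have h3 : ∀ k ∈ Finset.range r,
            face (fun _ => 0) 0 (pw k (p * X (Sum.inr (none, i)))) * cc j k =
            (if k = i then face (fun _ => 0) 0 p * cc j k else 0) +
            act 0 (gG 0) (gW (none : Option Empty)) i *
              (face (fun _ => 0) 0 (pw k p) * cc j k) := by
          intro k _
          rw [Derivation.leibniz, smul_eq_mul, smul_eq_mul, map_add, map_mul, map_mul,
            face_zero_w]
          have h4 : pw k (X (Sum.inr (none, i))) = if i = k then 1 else 0 := pw_gW k i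
          rw [h4]
          by_cases hik : k = i
          · rw [if_pos hik, if_pos hik.symm, map_one, mul_one]
            ring
          · rw [if_neg hik, if_neg (fun h => hik h.symm), map_zero, mul_zero]
            ring
        rw [Finset.sum_congr rfl h3, Finset.sum_add_distrib, Finset.sum_ite_eq',
          if_pos (Finset.mem_range.2 (by omega)), ← Finset.mul_sum]
        rfl

/-- The other faces commute with the derivatives. -/
lemma chainS (j i : ℕ) (F : RR (Option Empty)) :
    pw j (face (fun _ => 0) (i + 1) F) = face (fun _ => 0) (i + 1) (pw j F) := by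
  induction F using MvPolynomial.induction_on with
  | C a =>
    have h1 : face (ι := Option Empty) (fun _ => 0) (i + 1) (C a) = C a :=
      (face (ι := Option Empty) (fun _ => 0) (i + 1)).commutes a
    rw [h1, pw_C, map_zero]
  | add p q hp hq => rw [map_add, map_add, hp, hq, map_add, map_add]
  | mul_X p v hp =>
    rcases v with v | ⟨o, k⟩
    · rw [map_mul, Derivation.leibniz, hp, face_inl', pw_jO, smul_zero, zero_add,
        Derivation.leibniz, pw_inl, smul_zero, zero_add, smul_eq_mul, smul_eq_mul, map_mul,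
        face_inl']
    · cases o with
      | some e => exact e.elim
      | none =>
        have h4 : ∀ k', pw k' (X (Sum.inr (none, k))) = if k = k' then 1 else 0 :=
          fun k' => pw_gW k' k
        rw [map_mul, Derivation.leibniz, hp, face_succ_w, Derivation.leibniz, smul_eq_mul,
          smul_eq_mul, smul_eq_mul, smul_eq_mul, map_add, map_mul, map_mul, face_succ_w, h4]
        split_ifs
        · rw [map_one]
        · rw [map_zero]

lemma faces3 {y : RR (Option Empty)} (hd : dc 2 y = 0) :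
    face (fun _ => 0) 0 y + face (fun _ => 0) 1 y + face (fun _ => 0) 2 y = 0 := by
  have h1 : dR (fun _ : Option Empty => 0) 2 y = 0 := hd
  rw [dR_apply] at h1
  simp only [Finset.sum_range_succ, Finset.sum_range_zero, zero_add] at h1
  exact h1

lemma dc2 (y : RR (Option Empty)) : dc 2 y =
    face (fun _ => 0) 0 y + face (fun _ => 0) 1 y + face (fun _ => 0) 2 y := by
  rw [dR_apply]
  simp only [Finset.sum_range_succ, Finset.sum_range_zero, zero_add]

/-- The top derivative of a cocycle is a cocycle. -/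
lemma top_der {M : ℤ} {y : RR (Option Empty)} (hy : y ∈ CW 2 2 M) (hd : dc 2 y = 0) {j : ℕ}
    (hj : ∀ k, j < k → pw k y = 0) : pw j y ∈ CW 1 2 (M - 2 ^ j) ∧ dc 2 (pw j y) = 0 := by
  obtain ⟨hyl, hyw⟩ := hy
  refine ⟨⟨?_, ?_⟩, ?_⟩
  · refine der_lev (pw_inl j) (fun n v => ?_) hyl
    by_cases hv : (Sum.inr v : (ℕ × ℕ) ⊕ (Option Empty × ℕ)) = Sum.inr (none, j)
    · rw [hv, pderiv_X_self]
      exact map_one _
    · rw [pderiv_X_of_ne hv]
      exact map_zero _
  · have h1 := (pw_gr j).map (show WH (wt cO (fun _ => 0)) y ((0, 2), M) from hyw)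
    have e : ((((0 : ℤ), (2 : ℤ)), M) : (ℤ × ℤ) × ℤ) + ((0, -1), -2 ^ j) =
        ((0, 1), M - 2 ^ j) := by
      simp [sub_eq_add_neg]
    rw [e] at h1
    exact h1
  · obtain ⟨r0, h0⟩ := chain0 j y
    have h1 := h0 (max r0 (j + 1)) (le_max_left _ _)
    have h2 : ∑ k ∈ Finset.range (max r0 (j + 1)), face (fun _ => 0) 0 (pw k y) * cc j k =
        face (fun _ => 0) 0 (pw j y) := by
      rw [Finset.sum_eq_single j]
      · rw [cc, if_pos le_rfl, Nat.sub_self, Pt.co_zero, one_pow, mul_one]
      · intro k _ hk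
        rcases lt_or_gt_of_ne hk with h | h
        · rw [cc, if_neg (by omega), mul_zero]
        · rw [hj k h, map_zero, zero_mul]
      · intro h
        exact absurd (Finset.mem_range.2 (lt_of_lt_of_le (Nat.lt_succ_self j)
          (le_max_right _ _))) h
    have h3 := congrArg (pw j) (faces3 hd)
    rw [map_add, map_add, map_zero, h1, h2, chainS, chainS] at h3
    rw [dc2]
    exact h3

/-- The cohomology of `W` in degree one. -/
lemma hw {M : ℤ} {y : RR (Option Empty)} (hy : y ∈ CW 1 2 M) (hd : dc 2 y = 0) :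
    (∃ e ∈ CW 1 1 M, dc 1 e = y) ∨
      ∃ d : ℕ, 1 ≤ d ∧ M = 2 ^ d + 1 ∧ y = X (Sum.inl (0, 0)) ^ 2 ^ d * gW none 0 :=
  pr_HW pr_Coef pr_Cwb (pr_Alg pr_Top pr_Cwb pr_Mas two_nv) M y hy hd

lemma pw_comm (i j : ℕ) (F : RR (Option Empty)) : pw i (pw j F) = pw j (pw i F) := by
  induction F using MvPolynomial.induction_on with
  | C a => rw [pw_C, pw_C, map_zero, map_zero]
  | add p q hp hq => rw [map_add, map_add, hp, hq, map_add, map_add]
  | mul_X p v hp =>
    have h : ∀ k l : ℕ, pw k (pw l (X v : RR (Option Empty))) = 0 := by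
      intro k l
      by_cases hv : v = Sum.inr (none, l)
      · subst hv
        rw [pderiv_X_self]
        exact (pw k).map_one_eq_zero
      · rw [pderiv_X_of_ne hv, map_zero]
    rw [Derivation.leibniz, Derivation.leibniz, map_add, map_add]
    simp only [smul_eq_mul, Derivation.leibniz]
    rw [h, h, hp]
    ring

lemma pw_self (i : ℕ) (F : RR (Option Empty)) : pw i (pw i F) = 0 := by
  induction F using MvPolynomial.induction_on with
  | C a => rw [pw_C, map_zero]
  | add p q hp hq => rw [map_add, map_add, hp, hq, add_zero]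
  | mul_X p v hp =>
    have h : pw i (pw i (X v : RR (Option Empty))) = 0 := by
      by_cases hv : v = Sum.inr (none, i)
      · subst hv
        rw [pderiv_X_self]
        exact (pw i).map_one_eq_zero
      · rw [pderiv_X_of_ne hv, map_zero]
    rw [Derivation.leibniz, map_add]
    simp only [smul_eq_mul, Derivation.leibniz]
    rw [h, hp, mul_zero, mul_zero, zero_add, zero_add, mul_comm]
    exact add_self2 _

lemma CW_dc {q : ℤ} {n : ℕ} {M : ℤ} {y : RR (Option Empty)} (h : y ∈ CW q n M) :
    dc n y ∈ CW q (n + 1) M := ⟨dR_lev _ h.1, dR_wh _ h.2⟩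

/-- There is a bound for the indices. -/
lemma bound (y : RR (Option Empty)) : ∃ r : ℕ, (∀ i,
      (Sum.inr (none, i) : (ℕ × ℕ) ⊕ (Option Empty × ℕ)) ∈ y.vars → i < r) ∧
      ∀ i, r ≤ i → pw i y = 0 := by
  obtain ⟨r, hr⟩ : ∃ r : ℕ, ∀ i,
      (Sum.inr (none, i) : (ℕ × ℕ) ⊕ (Option Empty × ℕ)) ∈ y.vars → i < r := by
    refine ⟨(y.vars.sup (fun v => Sum.elim (fun _ => 0) (fun p => p.2) v)) + 1, ?_⟩
    intro i hi
    have := Finset.le_sup (f := fun v : (ℕ × ℕ) ⊕ (Option Empty × ℕ) =>
      Sum.elim (fun _ => 0) (fun p => p.2) v) hi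
    exact Nat.lt_succ_of_le this
  refine ⟨r, hr, fun i hi => ?_⟩
  refine pderiv_eq_zero_of_notMem_vars fun h => ?_
  exact absurd (hr i h) (by omega)

lemma top_ex (y : RR (Option Empty)) : (∀ k, pw k y = 0) ∨
    ∃ j, (∀ k, j < k → pw k y = 0) ∧ pw j y ≠ 0 := by
  have h : ∀ r : ℕ, (∀ k, r ≤ k → pw k y = 0) → (∀ k, pw k y = 0) ∨
      ∃ j, (∀ k, j < k → pw k y = 0) ∧ pw j y ≠ 0 := by
    intro r
    induction r with
    | zero => exact fun h => Or.inl fun k => h k (Nat.zero_le _)
    | succ r ih =>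
      intro h
      by_cases hr : pw r y = 0
      · refine ih fun k hk => ?_
        rcases Nat.eq_or_lt_of_le hk with rfl | hk
        · exact hr
        · exact h k hk
      · exact Or.inr ⟨r, fun k hk => h k hk, hr⟩
  obtain ⟨r, -, hr⟩ := bound y
  exact h r hr

lemma pw_dcw (b l : ℕ) : pw l (dc 1 (gW none b)) =
    if l < b then (gG 0).co (b - l) ^ 2 ^ l else 0 := by
  rw [(pr_Cwb b).2, map_sum]
  have h : ∀ i ∈ Finset.range b, pw l (jO (cw b i) * gW none i) =
      if i = l then (gG 0).co (b - l) ^ 2 ^ l else 0 := by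
    intro i hi
    rw [Derivation.leibniz, pw_jO, smul_zero, add_zero, smul_eq_mul, pw_gW]
    by_cases hil : i = l
    · subst hil
      rw [if_pos rfl, if_pos rfl, mul_one, cw, if_pos (Finset.mem_range.1 hi), map_pow, jO_gG]
    · rw [if_neg hil, if_neg hil, mul_zero]
  rw [Finset.sum_congr rfl h, Finset.sum_ite_eq']
  simp only [Finset.mem_range]

lemma pow_lt2 {a b : ℕ} (h : (2 : ℤ) ^ a = 2 ^ b) : a = b := by
  have : 2 ^ a = 2 ^ b := by exact_mod_cast h
  exact Nat.pow_right_injective le_rfl this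

lemma cO_eq : (cO : Option Empty → ℤ × ℤ) = fun _ => (0, 1) := by
  funext o
  cases o with
  | none => rfl
  | some e => exact e.elim

/-- The top derivative of a cocycle in the weights `2 ^ c + 1`. -/
lemma dich {c : ℕ} {y : RR (Option Empty)} (hy : y ∈ CW 2 2 (2 ^ c + 1)) (hd : dc 2 y = 0) {j : ℕ}
    (hj : ∀ k, j < k → pw k y = 0) (hne : pw j y ≠ 0) :
    2 ≤ c ∧ j + 1 = c ∧ pw j y = X (Sum.inl (0, 0)) ^ 2 ^ j * gW none 0 := by
  obtain ⟨h1, h2⟩ := top_der hy hd hj
  rcases hw h1 h2 with ⟨e, he, hey⟩ | ⟨d, hd1, hdM, hdy⟩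
  · exfalso
    have he2 : WH (wt (fun _ : Option Empty => ((0 : ℤ), (1 : ℤ))) (fun _ => 0)) e
        ((0, 1), 2 ^ c + 1 - 2 ^ j) := by
      rw [← cO_eq]
      exact he.2
    rcases pr_MonA ((0 : ℤ), (1 : ℤ)) (by decide) _ e he.1 he2 with h0 | ⟨i, hi, rfl⟩
    · rw [h0, map_zero] at hey
      exact hne hey.symm
    · have h3 : i ≠ 0 := by
        rintro rfl
        apply hne
        rw [← hey, (pr_Cwb 0).2, Finset.sum_range_zero]
      obtain ⟨i, rfl⟩ := Nat.exists_eq_succ_of_ne_zero h3
      have h4 : pw i (pw j y) ≠ 0 := by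
        rw [← hey]
        have := pw_dcw (i + 1) i
        rw [if_pos (Nat.lt_succ_self i), Nat.add_sub_cancel_left] at this
        rw [show Nat.succ i = i + 1 from rfl, this]
        exact pow_ne_zero _ (X_ne_zero _)
      have h5 : i < j := by
        by_contra hcon
        rcases Nat.eq_or_lt_of_le (not_lt.1 hcon) with rfl | h
        · exact h4 (pw_self _ _)
        · exact h4 (by rw [pw_comm, hj i h, map_zero])
      -- parity and size
      have h6 : (2 : ℤ) ^ c + 1 = 2 ^ (i + 1) + 2 ^ j := sub_eq_iff_eq_add.1 hi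
      obtain ⟨j', rfl⟩ : ∃ j', j = j' + 1 := ⟨j - 1, by omega⟩
      rcases Nat.eq_zero_or_pos c with rfl | hc
      · have h7 : (1 : ℤ) ≤ 2 ^ i := one_le_pow₀ (by norm_num)
        have h8 : (1 : ℤ) ≤ 2 ^ j' := one_le_pow₀ (by norm_num)
        rw [pow_succ, pow_succ] at h6
        norm_num at h6
        linarith
      · obtain ⟨c', rfl⟩ : ∃ c', c = c' + 1 := ⟨c - 1, by omega⟩
        rw [pow_succ, pow_succ, pow_succ] at h6
        omega
  · have h6 : (2 : ℤ) ^ c = 2 ^ j + 2 ^ d := by
      have : (2 : ℤ) ^ c + 1 - 2 ^ j = 2 ^ d + 1 := hdM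
      linarith
    have h7 : j = d ∧ c = j + 1 := by
      have h6' : 2 ^ c = 2 ^ j + 2 ^ d := by exact_mod_cast h6
      have hjc : 2 ^ j < 2 ^ c := by
        have : 0 < 2 ^ d := by positivity
        omega
      have hdc : 2 ^ d < 2 ^ c := by
        have : 0 < 2 ^ j := by positivity
        omega
      have hjc' : j < c := (Nat.pow_lt_pow_iff_right (by norm_num)).1 hjc
      have hdc' : d < c := (Nat.pow_lt_pow_iff_right (by norm_num)).1 hdc
      have h8 : 2 ^ (j + 1) ≤ 2 ^ c := Nat.pow_le_pow_right (by norm_num) hjc'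
      have h9 : 2 ^ (d + 1) ≤ 2 ^ c := Nat.pow_le_pow_right (by norm_num) hdc'
      rw [pow_succ] at h8 h9
      have h10 : 2 ^ j = 2 ^ d := by omega
      have h11 : j = d := Nat.pow_right_injective le_rfl h10
      refine ⟨h11, ?_⟩
      have h12 : 2 ^ c = 2 ^ (j + 1) := by
        rw [pow_succ, h6', ← h10]
        ring
      exact Nat.pow_right_injective le_rfl h12
    obtain ⟨rfl, rfl⟩ := h7
    exact ⟨by omega, rfl, hdy⟩

lemma dc1_w0w (c : ℕ) : dc 1 (gW none 0 * gW none c : RR (Option Empty)) =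
    gW none 0 * dc 1 (gW none c) := by
  have h0 : act 0 (gG 0) (gW (none : Option Empty)) 0 = gW none 0 := by
    rw [act_apply]
    simp
  have h1 : ∀ F : RR (Option Empty), dc 1 F = face (fun _ => 0) 0 F + face (fun _ => 0) 1 F := by
    intro F
    rw [dR_apply]
    simp only [Finset.sum_range_succ, Finset.sum_range_zero, zero_add]
  have h2 : ∀ k, face (fun _ : Option Empty => 0) 0 (gW none k) = act 0 (gG 0) (gW none) k :=
    fun k => face_zero_w k
  have h3 : ∀ k, face (fun _ : Option Empty => 0) 1 (gW none k) = gW none k :=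
    fun k => face_succ_w 0 k
  rw [h1, h1, map_mul, map_mul, h2, h2, h3, h3, h0]
  ring

lemma w0w_mem (c : ℕ) : (gW none 0 * gW none c : RR (Option Empty)) ∈ CW 2 1 (2 ^ c + 1) := by
  have h0 := XHW.gW_mem 0
  have h1 := XHW.gW_mem c
  refine ⟨mul_lev h0.1 h1.1, ?_⟩
  have h2 := IsWeightedHomogeneous.mul h0.2 h1.2
  have e : (((0 : ℤ), (1 : ℤ)), (2 : ℤ) ^ 0) + ((0, 1), 2 ^ c) = ((0, 2), 2 ^ c + 1) := by
    simp [add_comm]
  rw [e] at h2
  exact h2

/-- Up to coboundaries, all derivatives vanish. -/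
lemma red {c : ℕ} {y : RR (Option Empty)} (hy : y ∈ CW 2 2 (2 ^ c + 1)) (hd : dc 2 y = 0) :
    ∃ e ∈ CW 2 1 (2 ^ c + 1), ∀ k, pw k (y + dc 1 e) = 0 := by
  rcases top_ex y with h | ⟨j, hj, hne⟩
  · exact ⟨0, Submodule.zero_mem _, fun k => by rw [map_zero, add_zero]; exact h k⟩
  · obtain ⟨hc, hjc, hjy⟩ := dich hy hd hj hne
    refine ⟨gW none 0 * gW none c, w0w_mem c, ?_⟩
    set y' := y + dc 1 (gW none 0 * gW none c) with hy'
    have h1 : y' ∈ CW 2 2 (2 ^ c + 1) := Submodule.add_mem _ hy (CW_dc (w0w_mem c))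
    have h2 : dc 2 y' = 0 := by
      rw [hy', map_add, hd, zero_add]
      exact dR_dR' _ (w0w_mem c).1
    have h3 : ∀ k, 1 ≤ k → pw k (dc 1 (gW none 0 * gW none c)) =
        gW none 0 * if k < c then (gG 0).co (c - k) ^ 2 ^ k else 0 := by
      intro k hk
      rw [dc1_w0w, Derivation.leibniz, pw_gW, if_neg (by omega), smul_zero, add_zero,
        smul_eq_mul, pw_dcw]
    have h4 : ∀ k, j ≤ k → pw k y' = 0 := by
      intro k hk
      rcases Nat.eq_or_lt_of_le hk with rfl | hk
      · rw [hy', map_add, hjy, h3 j (by omega), if_pos (by omega),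
          show c - j = 1 by omega, mul_comm]
        exact add_self2 _
      · rw [hy', map_add, hj k hk, h3 k (by omega), if_neg (by omega), mul_zero, add_zero]
    rcases top_ex y' with h | ⟨j', hj', hne'⟩
    · exact h
    · obtain ⟨-, hjc', -⟩ := dich h1 h2 hj' hne'
      exact absurd (h4 j' (by omega)) hne'

end

end Pool.Agent.Work.MP_701abf_gt.F5.XThr
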